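import Pool.Agent.TH291.C2.Defs

/-! Definitions for the local computation at a node and for the plane-curve part. -/

set_option autoImplicit false
set_option maxSynthPendingDepth 4

namespace Pool.Agent.TH291.C2

open MvPolynomial

/-- Laurent series in `z₂` (outer) with coefficients Laurent series in `z₁` (inner) -/
abbrev LL : Type := LaurentSeries (LaurentSeries ℂ)

/-- Hahn series in `t` with coefficients in `LL` -/
abbrev B : Type := HahnSeries ℚ LL

noncomputable instance instCommRingB : CommRing B := HahnSeries.instCommRing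
instance instIsDomainB : IsDomain B := inferInstance

/-- constants in `LL` -/
noncomputable def cLL : ℂ →+* LL := (HahnSeries.C : LaurentSeries ℂ →+* LL).comp (HahnSeries.C : ℂ →+* LaurentSeries ℂ)

noncomputable instance : Algebra K B := (mapH cLL).toAlgebra

/-- the coefficient of `z₁ ^ m * z₂ ^ l * t ^ γ` -/
noncomputable def coB (G : B) (m l : ℤ) (γ : ℚ) : ℂ := ((G.coeff γ).coeff l).coeff m

/-- `z₁ - z₂` -/
noncomputable def zz : B :=
  HahnSeries.C (HahnSeries.C (HahnSeries.single (1 : ℤ) (1 : ℂ)) - HahnSeries.single (1 : ℤ) (1 : LaurentSeries ℂ))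

/-- expansion of `f` at `P` as a function of `z₁` -/
noncomputable def ι₁ (P : Option ℂ) : F →+* B := mapH ((HahnSeries.C : LaurentSeries ℂ →+* LL).comp (ex P))

/-- expansion of `f` at `P` as a function of `z₂` -/
noncomputable def ι₂ (P : Option ℂ) : F →+* B :=
  mapH ((mapH (HahnSeries.C : ℂ →+* LaurentSeries ℂ)).comp (ex P))

/-- support in the cone `γ ≥ -M`, `γ + m ≥ -M`, `γ + l ≥ -M` -/
def Cone (M : ℚ) (G : B) : Prop :=
  ∀ (m l : ℤ) (γ : ℚ), coB G m l γ ≠ 0 → -M ≤ γ ∧ -M ≤ γ + m ∧ -M ≤ γ + l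

/-- the coefficient of `(x - a) ^ j * (y - b) ^ l` in the polynomial `q (x, y)` -/
noncomputable def tc (a b : ℂ) (q : MvPolynomial (Fin 2) ℂ) (j l : ℕ) : ℂ :=
  MvPolynomial.coeff (Finsupp.single 0 j + Finsupp.single 1 l)
    (MvPolynomial.aeval ![(X 0 + C a : MvPolynomial (Fin 2) ℂ), X 1 + C b] q)

/-- order at least `m` at `(a, b)` -/
def Ord (m : ℕ) (a b : ℂ) (q : MvPolynomial (Fin 2) ℂ) : Prop := ∀ j l : ℕ, j + l < m → tc a b q j l = 0

/-- the symmetric functions of the points are algebraically independent -/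
def Gen {g : ℕ} (α β : Fin g → ℂ) : Prop :=
  AlgebraicIndependent (⊥ : Subfield ℂ)
    (fun q : Fin g × Fin 2 => (![α q.1 + β q.1, α q.1 * β q.1] : Fin 2 → ℂ) q.2)

/-- the sections of the special fibre -/
noncomputable def W0 {g : ℕ} (α β : Fin g → ℂ) (n : ℕ) : Submodule ℂ (Polynomial ℂ) where
  carrier := {p | p ∈ Polynomial.degreeLE ℂ n ∧ ∀ i, p.eval (α i) = p.eval (β i)}
  add_mem' := by
    rintro a b ⟨h1, h2⟩ ⟨h3, h4⟩
    refine ⟨Submodule.add_mem _ h1 h3, fun i => ?_⟩
    rw [Polynomial.eval_add, Polynomial.eval_add, h2 i, h4 i]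
  zero_mem' := ⟨Submodule.zero_mem _, fun i => by simp⟩
  smul_mem' := by
    rintro c a ⟨h1, h2⟩
    refine ⟨Submodule.smul_mem _ _ h1, fun i => ?_⟩
    rw [Polynomial.eval_smul, Polynomial.eval_smul, h2 i]

end Pool.Agent.TH291.C2
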