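import Mathlib
import Pool.Agent.TH291.C2.Defs2

/-! # Dimension over `K` bounded by the leading coefficients, independence from coefficient `0` -/

set_option autoImplicit false
set_option maxSynthPendingDepth 4

namespace Pool.Agent.TH291.C2

open HahnSeries

theorem dim1_smul_def (c : K) (f : F) : c • f = algebraMap K F c * f := Algebra.smul_def c f

theorem dim1_supp (c : K) : (algebraMap K F c).support ⊆ c.support := by
  intro γ hγ
  rw [mem_support] at hγ ⊢
  intro h0
  apply hγ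
  rw [algebraMap_coeff, h0, map_zero]

theorem dim1_map_smul (ℓ : RatFunc ℂ →ₗ[ℂ] ℂ) (c : K) (f : F) :
    (c • f).map ℓ = c * f.map ℓ := by
  ext γ
  have h1 : (f.map ℓ).support ⊆ f.support := by
    intro γ hγ
    rw [mem_support] at hγ ⊢
    intro h0
    apply hγ
    rw [map_coeff, h0, map_zero]
  rw [map_coeff, dim1_smul_def, coeff_mul_left' c.isPWO_support (dim1_supp c),
    coeff_mul_right' f.isPWO_support h1, map_sum]
  refine Finset.sum_congr rfl fun p _ => ?_
  rw [algebraMap_coeff, map_coeff, ← Algebra.smul_def, map_smul, smul_eq_mul]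

/-- a functional applied coefficientwise -/
noncomputable def dim1_lin (ℓ : RatFunc ℂ →ₗ[ℂ] ℂ) : F →ₗ[K] K where
  toFun f := f.map ℓ
  map_add' f g := by
    ext γ
    simp
  map_smul' c f := by
    rw [dim1_map_smul]
    rfl

theorem dim1_lin_coeff (ℓ : RatFunc ℂ →ₗ[ℂ] ℂ) (f : F) (γ : ℚ) :
    (dim1_lin ℓ f).coeff γ = ℓ (f.coeff γ) := rfl

theorem finrank_le (W : Submodule K F) (W0 : Submodule ℂ (RatFunc ℂ)) [FiniteDimensional ℂ W0]
    (h : ∀ f ∈ W, f ≠ 0 → f.coeff f.order ∈ W0) :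
    Module.Finite K W ∧ Module.finrank K W ≤ Module.finrank ℂ W0 := by
  obtain ⟨N, hN⟩ : ∃ N, N = Module.finrank ℂ W0 := ⟨_, rfl⟩
  let b : Module.Basis (Fin (Module.finrank ℂ W0)) ℂ W0 := Module.finBasis ℂ W0
  have hext : ∀ i, ∃ ℓ : RatFunc ℂ →ₗ[ℂ] ℂ, ℓ ∘ₗ W0.subtype = b.coord i :=
    fun i => LinearMap.exists_extend (b.coord i)
  choose ℓ hℓ using hext
  have hinj0 : ∀ w ∈ W0, (∀ i, ℓ i w = 0) → w = 0 := by
    intro w hw h0
    have h1 : ∀ i, b.coord i ⟨w, hw⟩ = 0 := by
      intro i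
      rw [← hℓ i]
      exact h0 i
    have h2 : (⟨w, hw⟩ : W0) = 0 := (b.forall_coord_eq_zero_iff).1 h1
    exact congrArg Subtype.val h2
  let Ψ : W →ₗ[K] (Fin (Module.finrank ℂ W0) → K) :=
    (LinearMap.pi fun i => dim1_lin (ℓ i)) ∘ₗ W.subtype
  have hΨ : Function.Injective Ψ := by
    rw [injective_iff_map_eq_zero]
    intro f hf
    by_contra hne
    have hf0 : (f : F) ≠ 0 := fun h0 => hne (Subtype.ext h0)
    have h1 := h f f.2 hf0
    have h2 : (f : F).coeff (f : F).order = 0 := by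
      refine hinj0 _ h1 fun i => ?_
      have h3 : dim1_lin (ℓ i) (f : F) = 0 := congrFun hf i
      rw [← dim1_lin_coeff, h3]
      rfl
    exact hf0 (coeff_order_eq_zero.1 h2)
  have hfin : Module.Finite K W := Module.Finite.of_injective Ψ hΨ
  refine ⟨hfin, ?_⟩
  have h4 := LinearMap.finrank_le_finrank_of_injective hΨ
  rwa [Module.finrank_fin_fun] at h4

theorem dim1_coeff_smul (c : K) (f : F) (δ : ℚ) (hc : ∀ γ < δ, c.coeff γ = 0)
    (hf : ∀ γ < 0, f.coeff γ = 0) : (c • f).coeff δ = c.coeff δ • f.coeff 0 := by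
  rw [dim1_smul_def, coeff_mul_left' c.isPWO_support (dim1_supp c), Algebra.smul_def,
    ← algebraMap_coeff]
  rw [Finset.sum_eq_single (δ, (0 : ℚ))]
  · rintro ⟨a, b⟩ hab hne
    rw [Finset.mem_antidiagonal] at hab
    obtain ⟨-, -, h3⟩ := hab
    dsimp only at h3 ⊢
    rcases lt_trichotomy a δ with h | h | h
    · rw [algebraMap_coeff, hc a h, map_zero, zero_mul]
    · exfalso
      apply hne
      rw [h, Prod.mk.injEq]
      exact ⟨rfl, by linarith⟩
    · rw [hf b (by linarith), mul_zero]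
  · intro hn
    rw [Finset.mem_antidiagonal] at hn
    dsimp only at hn ⊢
    by_contra hne
    apply hn
    refine ⟨?_, ?_, add_zero δ⟩
    · rw [mem_support]
      intro h0
      exact hne (by rw [algebraMap_coeff, h0, map_zero, zero_mul])
    · rw [mem_support]
      intro h0
      exact hne (by rw [h0, mul_zero])

theorem linIndep_of_coeff {N : ℕ} (e : Fin N → F) (he : ∀ i, ∀ γ : ℚ, γ < 0 → (e i).coeff γ = 0)
    (hl : LinearIndependent ℂ (fun i => (e i).coeff 0)) : LinearIndependent K e := by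
  classical
  rw [Fintype.linearIndependent_iff]
  intro c hc
  by_contra hcon
  push Not at hcon
  obtain ⟨j0, hj0⟩ := hcon
  obtain ⟨j, hj, hmin⟩ := Finset.exists_min_image (Finset.univ.filter fun i => c i ≠ 0)
    (fun i => (c i).order) ⟨j0, Finset.mem_filter.2 ⟨Finset.mem_univ _, hj0⟩⟩
  rw [Finset.mem_filter] at hj
  have hlow : ∀ i, ∀ γ < (c j).order, (c i).coeff γ = 0 := by
    intro i γ hγ
    by_cases hi : c i = 0
    · rw [hi]
      rfl
    · exact coeff_eq_zero_of_lt_order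
        (lt_of_lt_of_le hγ (hmin i (Finset.mem_filter.2 ⟨Finset.mem_univ _, hi⟩)))
  have hsum : ∑ i, (c i).coeff (c j).order • (e i).coeff 0 = 0 := by
    have h1 : (∑ i, c i • e i).coeff (c j).order = 0 := by
      rw [hc]
      rfl
    rw [← h1, HahnSeries.coeff_sum]
    exact Finset.sum_congr rfl fun i _ =>
      (dim1_coeff_smul (c i) (e i) (c j).order (hlow i) (he i)).symm
  have h2 := (Fintype.linearIndependent_iff.1 hl) (fun i => (c i).coeff (c j).order) hsum j
  exact hj.2 (coeff_order_eq_zero.1 h2)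

end Pool.Agent.TH291.C2
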