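import Pool.Agent.TH291.C2.Defs2

/-! Expansions of polynomials and rational functions. -/

set_option autoImplicit false
set_option maxSynthPendingDepth 4

namespace Pool.Agent.TH291.C2

open Polynomial in
theorem exp_algMap (P : Option ℂ) (p : Polynomial ℂ) :
    ex P (algebraMap (Polynomial ℂ) (RatFunc ℂ) p) =
      Polynomial.eval₂ (HahnSeries.C : ℂ →+* LaurentSeries ℂ) (loc P) p := by
  unfold ex
  exact IsFractionRing.lift_algebraMap (loc_inj P) p

theorem exp_single (e : ℤ) (p : Polynomial ℂ) (m : ℤ) (h : ∀ n : ℕ, m ≠ e * n) :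
    (Polynomial.eval₂ (HahnSeries.C : ℂ →+* LaurentSeries ℂ) (HahnSeries.single e 1) p).coeff m
      = 0 := by
  have hpow : ∀ i : ℕ, (HahnSeries.single e (1 : ℂ)) ^ i = HahnSeries.single (e * i) 1 := by
    intro i
    rw [HahnSeries.single_pow]
    simp [mul_comm]
  have h1 : ∀ i : ℕ, ((HahnSeries.C (p.coeff i) : LaurentSeries ℂ) * (HahnSeries.single e (1 : ℂ)) ^ i)
      = HahnSeries.single (e * i) (p.coeff i) := by
    intro i
    rw [hpow, HahnSeries.C_apply, HahnSeries.single_mul_single]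
    simp
  rw [Polynomial.eval₂_eq_sum_range]
  simp only [h1]
  rw [HahnSeries.coeff_sum]
  refine Finset.sum_eq_zero fun i _ => ?_
  exact HahnSeries.coeff_single_of_ne (h i)

theorem exp_taylor (c : ℂ) (p : Polynomial ℂ) :
    ex (some c) (algebraMap (Polynomial ℂ) (RatFunc ℂ) p) =
      Polynomial.eval₂ (HahnSeries.C : ℂ →+* LaurentSeries ℂ) (HahnSeries.single 1 1)
        (Polynomial.taylor c p) := by
  rw [exp_algMap, Polynomial.taylor_apply, Polynomial.eval₂_comp, Polynomial.eval₂_add,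
    Polynomial.eval₂_C, Polynomial.eval₂_X, add_comm]
  rfl

theorem ex_poly_neg (c : ℂ) (p : Polynomial ℂ) {m : ℤ} (hm : m < 0) :
    (ex (some c) (algebraMap (Polynomial ℂ) (RatFunc ℂ) p)).coeff m = 0 := by
  rw [exp_taylor]
  apply exp_single
  intro n
  omega

theorem ex_poly (c : ℂ) (p : Polynomial ℂ) (k : ℕ) :
    (ex (some c) (algebraMap (Polynomial ℂ) (RatFunc ℂ) p)).coeff k = (Polynomial.taylor c p).coeff k := by
  rw [exp_taylor]
  have := eval_single_coeff 1 one_ne_zero (Polynomial.taylor c p) k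
  rwa [one_mul] at this

theorem ex_poly_inf (p : Polynomial ℂ) (k : ℕ) :
    (ex none (algebraMap (Polynomial ℂ) (RatFunc ℂ) p)).coeff (-(k : ℤ)) = p.coeff k := by
  rw [exp_algMap]
  have := eval_single_coeff (-1) (by norm_num) p k
  rw [neg_one_mul] at this
  exact this

theorem exp_ne {P : Option ℂ} {p : Polynomial ℂ} (hp : p ≠ 0) :
    ex P (algebraMap (Polynomial ℂ) (RatFunc ℂ) p) ≠ 0 := by
  intro h
  apply hp
  have h1 := (map_eq_zero (ex P)).1 h
  exact (map_eq_zero_iff _ (IsFractionRing.injective (Polynomial ℂ) (RatFunc ℂ))).1 h1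

theorem exp_order_inv {x : LaurentSeries ℂ} (hx : x ≠ 0) : (x⁻¹).order = - x.order := by
  have h1 : x * x⁻¹ = 1 := mul_inv_cancel₀ hx
  have h2 := HahnSeries.order_mul hx (inv_ne_zero hx)
  rw [h1, HahnSeries.order_one] at h2
  linarith

theorem exp_order_nonneg (c : ℂ) {p : Polynomial ℂ} (hp : p ≠ 0) :
    0 ≤ (ex (some c) (algebraMap (Polynomial ℂ) (RatFunc ℂ) p)).order := by
  by_contra h
  push Not at h
  exact HahnSeries.coeff_order_eq_zero.not.2 (exp_ne hp) (ex_poly_neg c p h)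

theorem exp_order_zero (c : ℂ) {p : Polynomial ℂ} (hp : p.eval c ≠ 0) :
    (ex (some c) (algebraMap (Polynomial ℂ) (RatFunc ℂ) p)).order = 0 := by
  have hp0 : p ≠ 0 := by
    rintro rfl
    simp at hp
  apply le_antisymm _ (exp_order_nonneg c hp0)
  apply HahnSeries.order_le_of_coeff_ne_zero
  have := ex_poly c p 0
  rw [Nat.cast_zero, Polynomial.taylor_coeff_zero] at this
  rw [this]
  exact hp

theorem exp_order_pos (c : ℂ) {p : Polynomial ℂ} (hp0 : p ≠ 0) (hp : p.eval c = 0) :
    0 < (ex (some c) (algebraMap (Polynomial ℂ) (RatFunc ℂ) p)).order := by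
  rcases (exp_order_nonneg c hp0).lt_or_eq with h | h
  · exact h
  · exfalso
    apply HahnSeries.coeff_order_eq_zero.not.2 (exp_ne (P := some c) hp0)
    rw [← h]
    have := ex_poly c p 0
    rw [Nat.cast_zero, Polynomial.taylor_coeff_zero] at this
    rw [this, hp]

theorem exp_order_inf {p : Polynomial ℂ} (hp : p ≠ 0) :
    (ex none (algebraMap (Polynomial ℂ) (RatFunc ℂ) p)).order ≤ 0 := by
  have h1 := ex_poly_inf p p.natDegree
  have h2 : (ex none (algebraMap (Polynomial ℂ) (RatFunc ℂ) p)).coeff (-(p.natDegree : ℤ)) ≠ 0 := by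
    rw [h1]
    exact Polynomial.leadingCoeff_ne_zero.2 hp
  have h3 := HahnSeries.order_le_of_coeff_ne_zero h2
  omega

theorem ex_inv_same (c : ℂ) (k : ℕ) :
    ex (some c) ((algebraMap (Polynomial ℂ) (RatFunc ℂ) ((Polynomial.X - Polynomial.C c) ^ k))⁻¹)
      = HahnSeries.single (-(k : ℤ)) 1 := by
  rw [map_inv₀]
  have h1 : ex (some c) (algebraMap (Polynomial ℂ) (RatFunc ℂ)
      ((Polynomial.X - Polynomial.C c) ^ k)) = HahnSeries.single (k : ℤ) 1 := by
    rw [exp_algMap, Polynomial.eval₂_pow, Polynomial.eval₂_sub, Polynomial.eval₂_X,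
      Polynomial.eval₂_C]
    have h2 : loc (some c) - HahnSeries.C c = HahnSeries.single 1 1 := by
      change HahnSeries.C c + HahnSeries.single 1 1 - HahnSeries.C c = _
      ring
    rw [h2, HahnSeries.single_pow]
    simp
  rw [h1]
  apply inv_eq_of_mul_eq_one_right
  rw [HahnSeries.single_mul_single]
  simp

theorem ex_inv_other (c d : ℂ) (h : c ≠ d) (k : ℕ) {m : ℤ} (hm : m < 0) :
    (ex (some d) ((algebraMap (Polynomial ℂ) (RatFunc ℂ) ((Polynomial.X - Polynomial.C c) ^ k))⁻¹)).coeff m = 0 := by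
  rw [map_inv₀]
  apply HahnSeries.coeff_eq_zero_of_lt_order
  have h1 : ((Polynomial.X - Polynomial.C c) ^ k : Polynomial ℂ) ≠ 0 :=
    pow_ne_zero _ (Polynomial.X_sub_C_ne_zero c)
  rw [exp_order_inv (exp_ne h1), exp_order_zero, neg_zero]
  · exact hm
  · rw [Polynomial.eval_pow, Polynomial.eval_sub, Polynomial.eval_X, Polynomial.eval_C]
    exact pow_ne_zero _ (sub_ne_zero.2 h.symm)

theorem ex_inv_inf (c : ℂ) (k : ℕ) {m : ℤ} (hm : m < 0) :
    (ex none ((algebraMap (Polynomial ℂ) (RatFunc ℂ) ((Polynomial.X - Polynomial.C c) ^ k))⁻¹)).coeff m = 0 := by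
  rw [map_inv₀]
  apply HahnSeries.coeff_eq_zero_of_lt_order
  have h1 : ((Polynomial.X - Polynomial.C c) ^ k : Polynomial ℂ) ≠ 0 :=
    pow_ne_zero _ (Polynomial.X_sub_C_ne_zero c)
  rw [exp_order_inv (exp_ne h1)]
  have := exp_order_inf h1
  omega

theorem ratfunc_poly (r : RatFunc ℂ) (h : ∀ (c : ℂ) (m : ℤ), m < 0 → (ex (some c) r).coeff m = 0) :
    ∃ p : Polynomial ℂ, r = algebraMap (Polynomial ℂ) (RatFunc ℂ) p := by
  by_cases hr : r = 0
  · exact ⟨0, by rw [hr, map_zero]⟩
  have hd : r.denom.natDegree = 0 := by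
    by_contra hne
    obtain ⟨c, hc⟩ := IsAlgClosed.exists_root r.denom
      (fun h0 => hne (Polynomial.natDegree_eq_zero_iff_degree_le_zero.2 h0.le))
    have hc' : r.denom.eval c = 0 := hc
    have hcop := RatFunc.isCoprime_num_denom r
    have hn : r.num.eval c ≠ 0 := by
      intro hn
      obtain ⟨a, b, hab⟩ := hcop
      have := congrArg (Polynomial.eval c) hab
      rw [Polynomial.eval_add, Polynomial.eval_mul, Polynomial.eval_mul, hn, hc',
        Polynomial.eval_one] at this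
      simp at this
    have hn0 : r.num ≠ 0 := RatFunc.num_ne_zero hr
    have hd0 : r.denom ≠ 0 := RatFunc.denom_ne_zero r
    have h1 : ex (some c) r = ex (some c) (algebraMap _ _ r.num) *
        (ex (some c) (algebraMap _ _ r.denom))⁻¹ := by
      rw [← map_inv₀, ← map_mul, ← div_eq_mul_inv, RatFunc.num_div_denom]
    have h2 : (ex (some c) r).order < 0 := by
      rw [h1, HahnSeries.order_mul (exp_ne hn0) (inv_ne_zero (exp_ne hd0)),
        exp_order_inv (exp_ne hd0), exp_order_zero c hn]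
      have := exp_order_pos c hd0 hc'
      omega
    have h3 : ex (some c) r ≠ 0 := (map_ne_zero _).2 hr
    exact HahnSeries.coeff_order_eq_zero.not.2 h3 (h c _ h2)
  have hd1 : r.denom = 1 := Polynomial.eq_one_of_monic_natDegree_zero (RatFunc.monic_denom r) hd
  refine ⟨r.num, ?_⟩
  have := RatFunc.num_div_denom r
  rw [hd1, map_one, div_one] at this
  exact this.symm

theorem ratfunc_poly_deg (p : Polynomial ℂ) (n : ℕ)
    (h : ∀ m : ℤ, m < -(n : ℤ) → (ex none (algebraMap (Polynomial ℂ) (RatFunc ℂ) p)).coeff m = 0) :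
    p.natDegree ≤ n := by
  by_contra hne
  push Not at hne
  have h1 := h (-(p.natDegree : ℤ)) (by omega)
  rw [ex_poly_inf] at h1
  have h2 : p = 0 := Polynomial.leadingCoeff_eq_zero.1 h1
  rw [h2, Polynomial.natDegree_zero] at hne
  omega

end Pool.Agent.TH291.C2
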