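import Pool.Agent.TH291.C2.Defs2

/-! # Almost integral elements -/

set_option autoImplicit false
set_option maxSynthPendingDepth 4

namespace Pool.Agent.TH291.C2

namespace AIaux

/-- Hahn series in `t` with Laurent series in `z` as coefficients -/
abbrev H : Type := HahnSeries ℚ (LaurentSeries ℂ)

/-- all monomials `z ^ m * t ^ γ` have `m ≥ - s γ` -/
def InO (s : ℚ) (f : H) : Prop :=
  ∀ (m : ℤ) (γ : ℚ), (m : ℚ) < -(s * γ) → (f.coeff γ).coeff m = 0

theorem InO.add {s : ℚ} {f g : H} (hf : InO s f) (hg : InO s g) : InO s (f + g) := by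
  intro m γ h
  rw [HahnSeries.coeff_add, HahnSeries.coeff_add, hf m γ h, hg m γ h, add_zero]

theorem InO.neg {s : ℚ} {f : H} (hf : InO s f) : InO s (-f) := by
  intro m γ h
  rw [HahnSeries.coeff_neg, HahnSeries.coeff_neg, hf m γ h, neg_zero]

theorem InO.zero (s : ℚ) : InO s 0 := by
  intro m γ _
  simp

theorem coeff_sum' {ι : Type} (S : Finset ι) (f : ι → LaurentSeries ℂ) (m : ℤ) :
    (∑ i ∈ S, f i).coeff m = ∑ i ∈ S, (f i).coeff m := by
  rw [HahnSeries.coeff_sum]

theorem InO.mul {s : ℚ} {f g : H} (hf : InO s f) (hg : InO s g) : InO s (f * g) := by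
  intro m γ h
  rw [HahnSeries.coeff_mul, coeff_sum']
  refine Finset.sum_eq_zero fun p hp => ?_
  have hp' : p.1 + p.2 = γ := (Finset.mem_antidiagonal.mp hp).2.2
  rw [HahnSeries.coeff_mul]
  refine Finset.sum_eq_zero fun q hq => ?_
  have hq' : q.1 + q.2 = m := (Finset.mem_antidiagonal.mp hq).2.2
  by_cases h1 : (q.1 : ℚ) < -(s * p.1)
  · rw [hf _ _ h1, zero_mul]
  · by_cases h2 : (q.2 : ℚ) < -(s * p.2)
    · rw [hg _ _ h2, mul_zero]
    · exfalso
      have e1 : (q.1 : ℚ) + q.2 = m := by exact_mod_cast hq'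
      have e2 : s * p.1 + s * p.2 = s * γ := by rw [← hp']; ring
      push Not at h1 h2
      linarith

theorem InO.one (s : ℚ) : InO s 1 := by
  intro m γ h
  rw [HahnSeries.coeff_one]
  split_ifs with h0
  · rw [h0, mul_zero, neg_zero] at h
    have hm : m ≠ 0 := by
      rintro rfl
      simp at h
    rw [HahnSeries.coeff_one, if_neg hm]
  · simp

theorem InO.pow {s : ℚ} {f : H} (hf : InO s f) (n : ℕ) : InO s (f ^ n) := by
  induction n with
  | zero => rw [pow_zero]; exact InO.one s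
  | succ n ih => rw [pow_succ]; exact ih.mul hf

theorem InO.sum {s : ℚ} {ι : Type} (S : Finset ι) (f : ι → H) (h : ∀ i ∈ S, InO s (f i)) :
    InO s (∑ i ∈ S, f i) := by
  classical
  induction S using Finset.induction_on with
  | empty => simpa using InO.zero s
  | insert a S ha ih =>
    rw [Finset.sum_insert ha]
    exact (h a (Finset.mem_insert_self a S)).add
      (ih fun i hi => h i (Finset.mem_insert_of_mem hi))

theorem InO.natCast_mul {s : ℚ} {f : H} (hf : InO s f) (n : ℕ) : InO s (f * (n : H)) := by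
  induction n with
  | zero => simpa using InO.zero s
  | succ n ih =>
    have : f * ((n + 1 : ℕ) : H) = f * (n : H) + f := by push_cast; ring
    rw [this]
    exact ih.add hf

theorem sub_pow {s : ℚ} {d h k : H} (hk : InO s k) (H' : ∀ n : ℕ, InO s (d * h ^ n)) (n : ℕ) :
    InO s (d * (h - k) ^ n) := by
  rw [sub_eq_add_neg, add_pow, Finset.mul_sum]
  refine InO.sum _ _ fun i _ => ?_
  have : d * (h ^ i * (-k) ^ (n - i) * (n.choose i : H)) =
      (d * h ^ i * (-k) ^ (n - i)) * (n.choose i : H) := by ring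
  rw [this]
  exact ((H' i).mul (hk.neg.pow _)).natCast_mul _

/-- the coefficient of the leading terms -/
theorem lead (x : H) (hx : x ≠ 0) : (x.coeff x.order).coeff (x.coeff x.order).order ≠ 0 := by
  have h1 : x.coeff x.order ≠ 0 := fun h => hx (HahnSeries.coeff_order_eq_zero.mp h)
  exact fun h => h1 (HahnSeries.coeff_order_eq_zero.mp h)

/-- the order of a power -/
theorem ord_mul_pow {Γ R : Type} [AddCommGroup Γ] [LinearOrder Γ] [IsOrderedAddMonoid Γ]
    [CommRing R] [IsDomain R] (d h : HahnSeries Γ R) (hd : d ≠ 0) (hh : h ≠ 0) (n : ℕ) :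
    (d * h ^ n).order = d.order + n • h.order ∧
      (d * h ^ n).leadingCoeff = d.leadingCoeff * h.leadingCoeff ^ n ∧ d * h ^ n ≠ 0 := by
  induction n with
  | zero => simp [hd]
  | succ n ih =>
    obtain ⟨h1, h2, h3⟩ := ih
    have e : d * h ^ (n + 1) = (d * h ^ n) * h := by ring
    have h4 : (d * h ^ n).leadingCoeff * h.leadingCoeff ≠ 0 := by
      apply mul_ne_zero
      · rw [HahnSeries.leadingCoeff_ne_zero]; exact h3
      · rw [HahnSeries.leadingCoeff_ne_zero]; exact hh
    rw [e]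
    refine ⟨?_, ?_, mul_ne_zero h3 hh⟩
    · rw [HahnSeries.order_mul_of_ne_zero h4, h1, succ_nsmul, add_assoc]
    · rw [HahnSeries.leadingCoeff_mul_of_ne_zero h4, h2, pow_succ, mul_assoc]

theorem core (s : ℚ) (d h : H) (hd : d ≠ 0) (H' : ∀ n : ℕ, InO s (d * h ^ n)) : InO s h := by
  classical
  by_contra hcon
  -- the set of the bad exponents
  set S : Set ℚ := {γ | ∃ m : ℤ, (m : ℚ) < -(s * γ) ∧ (h.coeff γ).coeff m ≠ 0} with hS
  have hne : S.Nonempty := by
    unfold InO at hcon
    push Not at hcon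
    obtain ⟨m, γ, h1, h2⟩ := hcon
    exact ⟨γ, m, h1, h2⟩
  have hsub : S ⊆ h.support := by
    rintro γ ⟨m, _, h2⟩
    rw [HahnSeries.mem_support]
    intro h3
    rw [h3] at h2
    simp at h2
  have hwf : S.IsWF := h.isWF_support.mono hsub
  set γ0 := hwf.min hne with hγ0
  obtain ⟨m0, hm0, hc0⟩ : γ0 ∈ S := hwf.min_mem hne
  set k : H := HahnSeries.truncLT γ0 h with hk
  have hkO : InO s k := by
    intro m γ h1
    rw [hk, HahnSeries.coeff_truncLT]
    split_ifs with h2
    · by_contra h3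
      exact hwf.not_lt_min hne ⟨m, h1, h3⟩ h2
    · simp
  have hcoef : (h - k).coeff γ0 = h.coeff γ0 := by
    rw [HahnSeries.coeff_sub, hk, HahnSeries.coeff_truncLT_of_le le_rfl, sub_zero]
  have hlow : ∀ γ < γ0, (h - k).coeff γ = 0 := by
    intro γ h1
    rw [HahnSeries.coeff_sub, hk, HahnSeries.coeff_truncLT_of_lt h1, sub_self]
  have hc1 : (h - k).coeff γ0 ≠ 0 := by
    rw [hcoef]
    intro h3
    rw [h3] at hc0
    simp at hc0
  have hhk : h - k ≠ 0 := by
    intro h3
    rw [h3] at hc1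
    simp at hc1
  have hord : (h - k).order = γ0 := by
    refine le_antisymm (HahnSeries.order_le_of_coeff_ne_zero hc1) ?_
    by_contra h3
    push Not at h3
    exact hhk (HahnSeries.coeff_order_eq_zero.mp (hlow _ h3))
  have hlc : (h - k).leadingCoeff = h.coeff γ0 := by
    rw [HahnSeries.leadingCoeff_eq, hord, hcoef]
  have hlc0 : h.coeff γ0 ≠ 0 := by rw [← hcoef]; exact hc1
  set v : ℤ := (h.coeff γ0).order with hv
  have hv0 : v ≤ m0 := HahnSeries.order_le_of_coeff_ne_zero hc0
  have hlt : (v : ℚ) + s * γ0 < 0 := by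
    have : (v : ℚ) ≤ m0 := by exact_mod_cast hv0
    linarith
  have hdl : d.leadingCoeff ≠ 0 := HahnSeries.leadingCoeff_ne_zero.mpr hd
  -- the inequality for all `n`
  have key : ∀ n : ℕ, -(s * (d.order + n * γ0)) ≤ (d.leadingCoeff.order : ℚ) + n * v := by
    intro n
    have hO := sub_pow hkO H' n
    obtain ⟨h1, h2, h3⟩ := ord_mul_pow d (h - k) hd hhk n
    obtain ⟨h4, _, h6⟩ := ord_mul_pow d.leadingCoeff (h.coeff γ0) hdl hlc0 n
    by_contra hlt'
    push Not at hlt'
    have h7 : (d * (h - k) ^ n).coeff (d.order + n • γ0) =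
        d.leadingCoeff * (h.coeff γ0) ^ n := by
      have e : d.order + n • γ0 = (d * (h - k) ^ n).order := by rw [h1, hord]
      rw [e, ← HahnSeries.leadingCoeff_eq, h2, hlc]
    have h8 := hO (d.leadingCoeff.order + n • v) (d.order + n • γ0) (by
      have e1 : ((d.leadingCoeff.order + n • v : ℤ) : ℚ) = (d.leadingCoeff.order : ℚ) + n * v := by
        push_cast
        simp
      have e2 : (d.order + n • γ0 : ℚ) = d.order + n * γ0 := by simp [nsmul_eq_mul]
      rw [e1, e2]
      exact hlt')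
    rw [h7, ← h4] at h8
    exact h6 (HahnSeries.coeff_order_eq_zero.mp h8)
  -- contradiction for large `n`
  obtain ⟨n, hn⟩ := exists_nat_gt (((d.leadingCoeff.order : ℚ) + s * d.order) / (-((v : ℚ) + s * γ0)))
  have hpos : 0 < -((v : ℚ) + s * γ0) := by linarith
  rw [div_lt_iff₀ hpos] at hn
  have := key n
  nlinarith

end AIaux

open AIaux in
theorem almost_int (P : Option ℂ) (s : ℚ) (d h : F) (hd : d ≠ 0)
    (H : ∀ (n : ℕ) (m : ℤ) (γ : ℚ), (m : ℚ) < -(s * γ) → co P (d * h ^ n) m γ = 0) :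
    ∀ (m : ℤ) (γ : ℚ), (m : ℚ) < -(s * γ) → co P h m γ = 0 := by
  have hE : ∀ f : F, (∀ (m : ℤ) (γ : ℚ), (m : ℚ) < -(s * γ) → co P f m γ = 0) ↔
      InO s (mapH (ex P) f) := fun f => Iff.rfl
  rw [hE]
  refine core s (mapH (ex P) d) _ ?_ fun n => ?_
  · intro h0
    apply hd
    ext γ
    have h1 := congrArg (fun x : AIaux.H => x.coeff γ) h0
    simp only [mapH_coeff, HahnSeries.coeff_zero] at h1
    have h2 : d.coeff γ = 0 := (ex P).injective (by rw [h1, map_zero])
    rw [h2]
    simp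
  · have := (hE (d * h ^ n)).mp (H n)
    rw [map_mul, map_pow] at this
    exact this

end Pool.Agent.TH291.C2
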