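import Pool.Agent.TH291.C2.Defs2

/-! # Ring structure of the glued functions -/

set_option autoImplicit false
set_option maxSynthPendingDepth 4

namespace Pool.Agent.TH291.C2

section C2MUL

theorem C2MUL_finite {Γ R : Type} [AddCommGroup Γ] [LinearOrder Γ] [IsOrderedAddMonoid Γ]
    [Semiring R] (x y : HahnSeries Γ R) (a : Γ) :
    (Function.support fun i : Γ => x.coeff i * y.coeff (a - i)).Finite := by
  apply (Finset.finite_toSet ((Finset.antidiagonal x.isPWO_support y.isPWO_support a).image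
    Prod.fst)).subset
  intro i hi
  rw [Function.mem_support] at hi
  rw [Finset.coe_image, Set.mem_image]
  refine ⟨(i, a - i), Finset.mem_coe.2 (Finset.mem_antidiagonal.2 ⟨?_, ?_, ?_⟩), rfl⟩
  · intro h
    apply hi
    rw [h, zero_mul]
  · intro h
    apply hi
    rw [h, mul_zero]
  · simp

theorem C2MUL_coeff_mul {Γ R : Type} [AddCommGroup Γ] [LinearOrder Γ] [IsOrderedAddMonoid Γ]
    [Semiring R] (x y : HahnSeries Γ R) (a : Γ) :
    (x * y).coeff a = ∑ᶠ i : Γ, x.coeff i * y.coeff (a - i) := by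
  classical
  rw [HahnSeries.coeff_mul]
  have hsub : (Function.support fun i : Γ => x.coeff i * y.coeff (a - i)) ⊆
      (((Finset.antidiagonal x.isPWO_support y.isPWO_support a).image Prod.fst : Finset Γ) :
        Set Γ) := by
    intro i hi
    rw [Function.mem_support] at hi
    rw [Finset.coe_image, Set.mem_image]
    refine ⟨(i, a - i), Finset.mem_coe.2 (Finset.mem_antidiagonal.2 ⟨?_, ?_, ?_⟩), rfl⟩
    · intro h
      apply hi
      rw [h, zero_mul]
    · intro h
      apply hi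
      rw [h, mul_zero]
    · simp
  rw [finsum_eq_sum_of_support_subset _ hsub, Finset.sum_image]
  · apply Finset.sum_congr rfl
    rintro ⟨i, j⟩ hij
    rw [Finset.mem_antidiagonal] at hij
    have : a - i = j := by rw [← hij.2.2]; simp
    simp only [this]
  · rintro ⟨i, j⟩ hij ⟨i', j'⟩ hij' h
    rw [Finset.mem_coe, Finset.mem_antidiagonal] at hij hij'
    simp only at h
    subst h
    have h1 : i + j = i + j' := hij.2.2.trans hij'.2.2.symm
    rw [add_left_cancel h1]

/-- the coefficient of `z ^ m` of the expansion at `P`, as an additive map -/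
noncomputable def C2MUL_E (P : Option ℂ) (m : ℤ) : RatFunc ℂ →+ ℂ where
  toFun r := (ex P r).coeff m
  map_zero' := by simp
  map_add' x y := by simp

theorem C2MUL_E_mul (P : Option ℂ) (m : ℤ) (r s : RatFunc ℂ) :
    C2MUL_E P m (r * s) = ∑ᶠ i : ℤ, C2MUL_E P i r * C2MUL_E P (m - i) s := by
  change (ex P (r * s)).coeff m = _
  rw [map_mul, C2MUL_coeff_mul]
  rfl

/-- swapped -/
theorem C2MUL_fin (P : Option ℂ) (f h : F) (m : ℤ) (γ : ℚ) :
    (Function.support fun p : ℚ × ℤ => co P f p.2 p.1 * co P h (m - p.2) (γ - p.1)).Finite := by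
  classical
  have h1 : (Function.support fun i : ℚ => f.coeff i * h.coeff (γ - i)).Finite :=
    C2MUL_finite f h γ
  have h2 : ∀ i : ℚ, (Function.support fun j : ℤ => co P f j i * co P h (m - j) (γ - i)).Finite :=
    fun i => C2MUL_finite (ex P (f.coeff i)) (ex P (h.coeff (γ - i))) m
  have h3 : (⋃ i ∈ h1.toFinset, (fun j : ℤ => (i, j)) ''
      (Function.support fun j : ℤ => co P f j i * co P h (m - j) (γ - i))).Finite :=
    Set.Finite.biUnion (Finset.finite_toSet _) (fun i _ => (h2 i).image _)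
  apply h3.subset
  rintro ⟨i, j⟩ hij
  rw [Function.mem_support] at hij
  simp only at hij
  rw [Set.mem_iUnion₂]
  refine ⟨i, ?_, j, ?_, rfl⟩
  · rw [Set.Finite.mem_toFinset, Function.mem_support]
    apply mul_ne_zero
    · intro h0
      apply hij
      have : co P f j i = 0 := by unfold co; rw [h0]; simp
      rw [this, zero_mul]
    · intro h0
      apply hij
      have : co P h (m - j) (γ - i) = 0 := by unfold co; rw [h0]; simp
      rw [this, mul_zero]
  · rw [Function.mem_support]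
    exact hij

theorem co_mul_finite (P : Option ℂ) (f h : F) (m : ℤ) (γ : ℚ) :
    (Function.support fun p : ℤ × ℚ => co P f p.1 p.2 * co P h (m - p.1) (γ - p.2)).Finite := by
  have h1 := (C2MUL_fin P f h m γ).image Prod.swap
  apply h1.subset
  rintro ⟨i, j⟩ hij
  exact ⟨(j, i), hij, rfl⟩

theorem co_mul (P : Option ℂ) (f h : F) (m : ℤ) (γ : ℚ) :
    co P (f * h) m γ = ∑ᶠ p : ℤ × ℚ, co P f p.1 p.2 * co P h (m - p.1) (γ - p.2) := by
  have h1 : co P (f * h) m γ = C2MUL_E P m ((f * h).coeff γ) := rfl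
  rw [h1, C2MUL_coeff_mul, AddMonoidHom.map_finsum _ (C2MUL_finite f h γ)]
  have h2 : ∑ᶠ p : ℤ × ℚ, co P f p.1 p.2 * co P h (m - p.1) (γ - p.2) =
      ∑ᶠ p : ℚ × ℤ, co P f p.2 p.1 * co P h (m - p.2) (γ - p.1) := by
    rw [← finsum_comp_equiv (Equiv.prodComm ℚ ℤ)]
    rfl
  rw [h2, finsum_curry _ (C2MUL_fin P f h m γ)]
  congr 1
  funext i
  rw [C2MUL_E_mul]
  rfl

variable {g : ℕ} {α β : Fin g → ℂ}

/-- the reindexing of the exponents -/
def C2MUL_sigma : ℤ × ℚ ≃ ℤ × ℚ where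
  toFun p := (-p.1, p.2 + p.1)
  invFun p := (-p.1, p.2 + p.1)
  left_inv p := by simp
  right_inv p := by simp

theorem glue_mul {f h : F} (hf : Glue α β f) (hh : Glue α β h) : Glue α β (f * h) := by
  intro i m γ
  have h2 := finsum_comp_equiv C2MUL_sigma (f := fun q : ℤ × ℚ =>
    co (some (β i)) f q.1 q.2 * co (some (β i)) h (-m - q.1) (γ + m - q.2))
  rw [co_mul, co_mul, ← h2]
  congr 1
  funext p
  rw [hf i p.1 p.2, hh i (m - p.1) (γ - p.2)]
  have e1 : (C2MUL_sigma p).1 = -p.1 := rfl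
  have e2 : (C2MUL_sigma p).2 = p.2 + p.1 := rfl
  have e3 : -m - -p.1 = -(m - p.1) := by ring
  have e4 : γ + m - (p.2 + p.1) = γ - p.2 + ((m - p.1 : ℤ) : ℚ) := by push_cast; ring
  rw [e1, e2, e3, e4]

theorem reg_mul {f h : F} (hf : Reg α β f) (hh : Reg α β h) : Reg α β (f * h) := by
  intro c hc m γ hm
  rw [co_mul]
  apply finsum_eq_zero_of_forall_eq_zero
  intro p
  by_cases hp : p.1 < 0
  · rw [hf c hc _ _ hp, zero_mul]
  · rw [hh c hc _ _ (by omega), mul_zero]

theorem pole_mul {m n : ℕ} {f h : F} (hf : Pole m f) (hh : Pole n h) : Pole (m + n) (f * h) := by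
  intro k γ hk
  rw [co_mul]
  apply finsum_eq_zero_of_forall_eq_zero
  intro p
  push_cast at hk
  by_cases hp : p.1 < -(m : ℤ)
  · rw [hf _ _ hp, zero_mul]
  · rw [hh _ _ (by omega), mul_zero]

theorem C2MUL_ex_C (P : Option ℂ) (a : ℂ) :
    ex P (algebraMap ℂ (RatFunc ℂ) a) = HahnSeries.C a := by
  have h1 : algebraMap ℂ (RatFunc ℂ) a =
      algebraMap (Polynomial ℂ) (RatFunc ℂ) (Polynomial.C a) := by
    rw [RatFunc.algebraMap_C, RatFunc.algebraMap_eq_C]
  rw [h1]
  unfold ex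
  rw [IsFractionRing.lift_algebraMap]
  simp

theorem C2MUL_co_algebraMap (P : Option ℂ) (c : K) (m : ℤ) (γ : ℚ) :
    co P (algebraMap K F c) m γ = if m = 0 then c.coeff γ else 0 := by
  unfold co
  rw [algebraMap_coeff, C2MUL_ex_C]
  rw [HahnSeries.C_apply, HahnSeries.coeff_single]
  split_ifs <;> rfl

theorem glue_algebraMap (c : K) : Glue α β (algebraMap K F c) := by
  intro i m γ
  rw [C2MUL_co_algebraMap, C2MUL_co_algebraMap]
  by_cases hm : m = 0
  · simp [hm]
  · simp [hm]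

theorem reg_algebraMap (c : K) : Reg α β (algebraMap K F c) := by
  intro x _ m γ hm
  rw [C2MUL_co_algebraMap, if_neg (by omega)]

theorem pole_algebraMap (c : K) : Pole 0 (algebraMap K F c) := by
  intro m γ hm
  rw [C2MUL_co_algebraMap, if_neg (by omega)]

theorem C2MUL_least {m : ℕ} {f : F} (hf : ¬ Pole m f) (hf' : ∃ k, Pole k f) :
    ∃ M : ℤ, M < -(m : ℤ) ∧ (∃ γ, co none f M γ ≠ 0) ∧ ∀ n γ, n < M → co none f n γ = 0 := by
  unfold Pole at hf
  push Not at hf
  obtain ⟨m1, γ1, h1, h2⟩ := hf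
  obtain ⟨k, hk⟩ := hf'
  obtain ⟨M, ⟨γ, hM⟩, hl⟩ := Int.exists_least_of_bdd (P := fun n : ℤ => ∃ γ, co none f n γ ≠ 0)
    ⟨-(k : ℤ), fun z ⟨γ, hz⟩ => by
      by_contra hc
      push Not at hc
      exact hz (hk z γ hc)⟩ ⟨m1, γ1, h2⟩
  refine ⟨M, lt_of_le_of_lt (hl m1 ⟨γ1, h2⟩) h1, ⟨γ, hM⟩, ?_⟩
  intro n γ' hn
  by_contra hc
  exact absurd (hl n ⟨γ', hc⟩) (not_le.2 hn)

theorem pole_mul' {m n : ℕ} {f h : F} (hf : ¬ Pole m f) (hh : ¬ Pole n h)
    (hf' : ∃ k, Pole k f) (hh' : ∃ k, Pole k h) : ¬ Pole (m + n + 1) (f * h) := by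
  obtain ⟨M, hM, ⟨γ1, hM1⟩, hM2⟩ := C2MUL_least hf hf'
  obtain ⟨N, hN, ⟨γ2, hN1⟩, hN2⟩ := C2MUL_least hh hh'
  intro hp
  set x : HahnSeries ℚ ℂ := f.map (C2MUL_E none M) with hx
  set y : HahnSeries ℚ ℂ := h.map (C2MUL_E none N) with hy
  have hxc : ∀ γ, x.coeff γ = co none f M γ := fun γ => rfl
  have hyc : ∀ γ, y.coeff γ = co none h N γ := fun γ => rfl
  have hx0 : x ≠ 0 := by
    intro h0
    apply hM1
    rw [← hxc, h0, HahnSeries.coeff_zero]
  have hy0 : y ≠ 0 := by
    intro h0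
    apply hN1
    rw [← hyc, h0, HahnSeries.coeff_zero]
  apply mul_ne_zero hx0 hy0
  ext γ
  rw [C2MUL_coeff_mul, HahnSeries.coeff_zero]
  have h1 := hp (M + N) γ (by push_cast; omega)
  rw [co_mul, finsum_curry _ (co_mul_finite none f h (M + N) γ), finsum_eq_single _ M] at h1
  · simp only [hxc, hyc]
    rw [← h1]
    congr 1
    funext i
    simp only [add_sub_cancel_left]
  · intro i hi
    apply finsum_eq_zero_of_forall_eq_zero
    intro j
    simp only
    rcases lt_or_gt_of_ne hi with h3 | h3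
    · rw [hM2 _ _ h3, zero_mul]
    · rw [hN2 _ _ (by omega), mul_zero]

end C2MUL

end Pool.Agent.TH291.C2
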