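import Pool.Agent.TH291.C2.Defs2

/-! Two-variable expansions: cones and the difference quotient (job C2-NEST, helper902). -/

set_option autoImplicit false
set_option maxSynthPendingDepth 4

namespace Pool.Agent.TH291.C2

theorem nest_exists {Γ R S : Type} [AddCommMonoid Γ] [PartialOrder Γ]
    [IsOrderedCancelAddMonoid Γ] [NonUnitalNonAssocSemiring R] [AddCommMonoid S] (φ : R →+ S)
    (x y : HahnSeries Γ R) (γ : Γ) (h : φ ((x * y).coeff γ) ≠ 0) :
    ∃ i j : Γ, i + j = γ ∧ φ (x.coeff i * y.coeff j) ≠ 0 := by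
  rw [HahnSeries.coeff_mul, map_sum] at h
  obtain ⟨p, hp, h1⟩ := Finset.exists_ne_zero_of_sum_ne_zero h
  rw [Finset.mem_antidiagonal] at hp
  exact ⟨p.1, p.2, hp.2.2, h1⟩

/-- the coefficient of `z ^ m` -/
noncomputable def nest_c1 (m : ℤ) : LaurentSeries ℂ →+ ℂ :=
  AddMonoidHom.mk' (fun x => x.coeff m) (fun _ _ => HahnSeries.coeff_add)

/-- the coefficient of `z₁ ^ m * z₂ ^ l` -/
noncomputable def nest_c2 (m l : ℤ) : LL →+ ℂ :=
  AddMonoidHom.mk' (fun x => (x.coeff l).coeff m) (fun x y => by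
    rw [HahnSeries.coeff_add, HahnSeries.coeff_add])

theorem cone_mul {M M' : ℚ} {G G' : B} (h : Cone M G) (h' : Cone M' G') :
    Cone (M + M') (G * G') := by
  intro m l γ h0
  obtain ⟨i, j, hij, h1⟩ := nest_exists (nest_c2 m l) G G' γ h0
  obtain ⟨a, b, hab, h2⟩ := nest_exists (nest_c1 m) (G.coeff i) (G'.coeff j) l h1
  obtain ⟨c, d, hcd, h3⟩ := nest_exists (AddMonoidHom.id ℂ) ((G.coeff i).coeff a)
    ((G'.coeff j).coeff b) m h2
  have h4 : coB G c a i ≠ 0 := left_ne_zero_of_mul h3
  have h5 : coB G' d b j ≠ 0 := right_ne_zero_of_mul h3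
  obtain ⟨p1, p2, p3⟩ := h c a i h4
  obtain ⟨q1, q2, q3⟩ := h' d b j h5
  subst hij
  subst hab
  subst hcd
  push_cast
  refine ⟨by linarith, by linarith, by linarith⟩

/-- the coefficient of `z₁ ^ m * z₂ ^ l` of `(h (z₁) - h (z₂)) / (z₁ - z₂)` -/
noncomputable def nest_kf (h : LaurentSeries ℂ) (m l : ℤ) : ℂ :=
  if 0 ≤ m ∧ 0 ≤ l then h.coeff (m + l + 1) else
    if m < 0 ∧ l < 0 then -h.coeff (m + l + 1) else 0

theorem nest_kf_ge (h : LaurentSeries ℂ) (m l : ℤ) (h0 : nest_kf h m l ≠ 0) :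
    min h.order 0 ≤ m ∧ min h.order 0 ≤ l := by
  unfold nest_kf at h0
  split_ifs at h0 with h1 h2
  · exact ⟨(min_le_right _ _).trans h1.1, (min_le_right _ _).trans h1.2⟩
  · have h3 : h.order ≤ m + l + 1 := by
      by_contra hcon
      exact h0 (by rw [HahnSeries.coeff_eq_zero_of_lt_order (not_le.1 hcon), neg_zero])
    have h4 := min_le_left h.order 0
    constructor <;> omega
  · exact absurd rfl h0

theorem nest_bdd1 (h : LaurentSeries ℂ) (l : ℤ) :
    BddBelow (Function.support fun m => nest_kf h m l) :=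
  ⟨min h.order 0, fun _ hm => (nest_kf_ge h _ l hm).1⟩

/-- the coefficient of `z₂ ^ l` -/
noncomputable def nest_in (h : LaurentSeries ℂ) (l : ℤ) : LaurentSeries ℂ :=
  HahnSeries.ofSuppBddBelow (fun m => nest_kf h m l) (nest_bdd1 h l)

theorem nest_in_coeff (h : LaurentSeries ℂ) (m l : ℤ) : (nest_in h l).coeff m = nest_kf h m l := by
  unfold nest_in
  rw [HahnSeries.coeff_ofSuppBddBelow]

theorem nest_bdd2 (h : LaurentSeries ℂ) : BddBelow (Function.support fun l => nest_in h l) := by
  refine ⟨min h.order 0, fun l hl => ?_⟩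
  by_contra hcon
  apply hl
  show nest_in h l = 0
  ext m
  rw [nest_in_coeff, HahnSeries.coeff_zero]
  by_contra h0
  exact hcon (nest_kf_ge h m l h0).2

/-- the difference quotient of a Laurent series -/
noncomputable def nest_dq (h : LaurentSeries ℂ) : LL :=
  HahnSeries.ofSuppBddBelow (fun l => nest_in h l) (nest_bdd2 h)

theorem nest_dq_coeff (h : LaurentSeries ℂ) (m l : ℤ) :
    ((nest_dq h).coeff l).coeff m = nest_kf h m l := by
  unfold nest_dq
  rw [HahnSeries.coeff_ofSuppBddBelow, nest_in_coeff]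

theorem nest_dq_zero : nest_dq 0 = 0 := by
  ext l m
  rw [nest_dq_coeff]
  unfold nest_kf
  simp

theorem nest_C_coeff {R : Type} [Semiring R] (r : R) (l : ℤ) :
    (HahnSeries.C r : LaurentSeries R).coeff l = if l = 0 then r else 0 := by
  rw [HahnSeries.C_apply]
  split_ifs with h
  · rw [h, HahnSeries.coeff_single_same]
  · rw [HahnSeries.coeff_single_of_ne h]

theorem nest_id (h : LaurentSeries ℂ) :
    ((HahnSeries.C (HahnSeries.single (1 : ℤ) (1 : ℂ)) : LL) -
      HahnSeries.single (1 : ℤ) (1 : LaurentSeries ℂ)) * nest_dq h =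
      (HahnSeries.C h : LL) - mapH (HahnSeries.C : ℂ →+* LaurentSeries ℂ) h := by
  ext l m
  rw [sub_mul, HahnSeries.coeff_sub, HahnSeries.coeff_sub, HahnSeries.coeff_sub,
    HahnSeries.coeff_sub, HahnSeries.C_mul_eq_smul, HahnSeries.coeff_smul, smul_eq_mul,
    HahnSeries.coeff_single_mul, HahnSeries.coeff_single_mul, one_mul, one_mul, nest_dq_coeff,
    nest_dq_coeff, mapH_coeff, nest_C_coeff, nest_C_coeff]
  have e : (if l = 0 then h else 0 : LaurentSeries ℂ).coeff m = if l = 0 then h.coeff m else 0 := by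
    split_ifs <;> simp
  rw [e]
  unfold nest_kf
  have e1 : m - 1 + l + 1 = m + l := by ring
  have e2 : m + (l - 1) + 1 = m + l := by ring
  rw [e1, e2]
  rcases lt_trichotomy m 0 with hm | hm | hm <;> rcases lt_trichotomy l 0 with hl | hl | hl
  · rw [if_neg (by omega), if_pos (by omega), if_neg (by omega), if_pos (by omega),
      if_neg (by omega), if_neg (by omega)]
    ring
  · rw [if_neg (by omega), if_neg (by omega), if_neg (by omega), if_pos (by omega),
      if_pos hl, if_neg (by omega)]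
    rw [hl, add_zero]
    ring
  · rw [if_neg (by omega), if_neg (by omega), if_neg (by omega), if_neg (by omega),
      if_neg (by omega), if_neg (by omega)]
  · rw [if_neg (by omega), if_pos (by omega), if_neg (by omega), if_neg (by omega),
      if_neg (by omega), if_pos hm]
    rw [hm, zero_add]
    ring
  · rw [if_neg (by omega), if_neg (by omega), if_neg (by omega), if_neg (by omega),
      if_pos hl, if_pos hm]
    rw [hm, hl]
    ring
  · rw [if_neg (by omega), if_neg (by omega), if_pos (by omega),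
      if_neg (by omega), if_pos hm]
    rw [hm, zero_add]
  · rw [if_neg (by omega), if_neg (by omega), if_neg (by omega), if_neg (by omega),
      if_neg (by omega), if_neg (by omega)]
  · rw [if_pos (by omega), if_neg (by omega), if_neg (by omega),
      if_pos hl, if_neg (by omega)]
    rw [hl, add_zero]
  · rw [if_pos (by omega), if_pos (by omega),
      if_neg (by omega), if_neg (by omega)]
    ring

/-- the difference quotient of the expansion at `P` -/
noncomputable def nest_psi (P : Option ℂ) : ZeroHom (RatFunc ℂ) LL where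
  toFun r := nest_dq (ex P r)
  map_zero' := by rw [map_zero, nest_dq_zero]

theorem ι_diff (P : Option ℂ) (h : F) (M : ℚ)
    (hM : ∀ (m : ℤ) (γ : ℚ), co P h m γ ≠ 0 → -M ≤ γ ∧ -M ≤ γ + m) :
    ∃ G : B, Cone M G ∧ ι₁ P h - ι₂ P h = zz * G := by
  refine ⟨h.map (nest_psi P), ?_, ?_⟩
  · intro m l γ h0
    have h1 : coB (h.map (nest_psi P)) m l γ = nest_kf (ex P (h.coeff γ)) m l := nest_dq_coeff _ _ _
    rw [h1] at h0
    unfold nest_kf at h0
    split_ifs at h0 with h2 h3
    · obtain ⟨h4, h5⟩ := hM (m + l + 1) γ h0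
      have h6 : (0 : ℚ) ≤ m := by exact_mod_cast h2.1
      have h7 : (0 : ℚ) ≤ l := by exact_mod_cast h2.2
      exact ⟨h4, by linarith, by linarith⟩
    · obtain ⟨h4, h5⟩ := hM (m + l + 1) γ (fun hz => h0 (by
        have hz' : (ex P (h.coeff γ)).coeff (m + l + 1) = 0 := hz
        rw [hz', neg_zero]))
      have h6 : (m : ℚ) + 1 ≤ 0 := by exact_mod_cast (by omega : m + 1 ≤ 0)
      have h7 : (l : ℚ) + 1 ≤ 0 := by exact_mod_cast (by omega : l + 1 ≤ 0)
      push_cast at h5
      exact ⟨h4, by linarith, by linarith⟩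
    · exact absurd rfl h0
  · ext1
    funext γ
    unfold zz
    rw [HahnSeries.coeff_sub, HahnSeries.C_mul_eq_smul, HahnSeries.coeff_smul, smul_eq_mul]
    exact (nest_id (ex P (h.coeff γ))).symm

end Pool.Agent.TH291.C2
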