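import Pool.Agent.TH291.C2.Defs3
import Pool.Agent.TH291.C2.Mul
import Pool.Agent.TH291.C2.Exp
import Pool.Agent.TH291.C2.Nest

/-! The algebra of glued functions. -/

set_option autoImplicit false
set_option maxSynthPendingDepth 4

namespace Pool.Agent.TH291.C2

variable {g : ℕ} {α β : Fin g → ℂ}

theorem co_add (P : Option ℂ) (f h : F) (m : ℤ) (γ : ℚ) : co P (f + h) m γ = co P f m γ + co P h m γ := by
  simp [co, map_add]

theorem co_neg (P : Option ℂ) (f : F) (m : ℤ) (γ : ℚ) : co P (-f) m γ = -co P f m γ := by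
  simp [co, map_neg]

theorem co_sub (P : Option ℂ) (f h : F) (m : ℤ) (γ : ℚ) : co P (f - h) m γ = co P f m γ - co P h m γ := by
  simp [co, map_sub]

theorem co_zero (P : Option ℂ) (m : ℤ) (γ : ℚ) : co P 0 m γ = 0 := by
  simp [co]

theorem reg_add {f h : F} (hf : Reg α β f) (hh : Reg α β h) : Reg α β (f + h) := fun c hc m γ hm => by
  rw [co_add, hf c hc m γ hm, hh c hc m γ hm, add_zero]

theorem glue_add {f h : F} (hf : Glue α β f) (hh : Glue α β h) : Glue α β (f + h) := fun i m γ => by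
  rw [co_add, co_add, hf i m γ, hh i m γ]

theorem pole_mono {m n : ℕ} (hmn : m ≤ n) {f : F} (hf : Pole m f) : Pole n f := fun k γ hk =>
  hf k γ (by omega)

theorem pole_add {m n : ℕ} {f h : F} (hf : Pole m f) (hh : Pole n h) : Pole (max m n) (f + h) :=
  fun k γ hk => by
    rw [co_add, pole_mono (le_max_left m n) hf k γ hk, pole_mono (le_max_right m n) hh k γ hk, add_zero]

/-- the algebra of glued functions -/
noncomputable def Alg {g : ℕ} (α β : Fin g → ℂ) : Subalgebra K F where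
  carrier := {f | Reg α β f ∧ Glue α β f ∧ ∃ n, Pole n f}
  mul_mem' := by
    rintro a b ⟨h1, h2, m, h3⟩ ⟨k1, k2, n, k3⟩
    exact ⟨reg_mul h1 k1, glue_mul h2 k2, m + n, pole_mul h3 k3⟩
  add_mem' := by
    rintro a b ⟨h1, h2, m, h3⟩ ⟨k1, k2, n, k3⟩
    exact ⟨reg_add h1 k1, glue_add h2 k2, max m n, pole_add h3 k3⟩
  algebraMap_mem' c := ⟨reg_algebraMap c, glue_algebraMap c, 0, pole_algebraMap c⟩

theorem mem_Alg {f : F} : f ∈ Alg α β ↔ Reg α β f ∧ Glue α β f ∧ ∃ n, Pole n f := Iff.rfl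

/-- functions with a pole of order at most `n` at infinity -/
noncomputable def V {g : ℕ} (α β : Fin g → ℂ) (n : ℕ) : Submodule K (Alg α β) where
  carrier := {f | Pole n f.1}
  add_mem' := by
    intro a b ha hb
    have := pole_add (f := a.1) (h := b.1) ha hb
    rw [max_self] at this
    exact this
  zero_mem' := fun m γ _ => co_zero _ _ _
  smul_mem' := by
    intro c a ha
    have h : (c • a).1 = algebraMap K F c * a.1 := by
      rw [← Algebra.smul_def]; rfl
    change Pole n (c • a).1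
    rw [h]
    simpa using pole_mul (pole_algebraMap c) ha

theorem mem_V {n : ℕ} {f : Alg α β} : f ∈ V α β n ↔ Pole n f.1 := Iff.rfl

theorem V_mono : Monotone (V α β) := fun _ _ h _ hf => pole_mono h hf

theorem V_top (a : Alg α β) : ∃ n, a ∈ V α β n := a.2.2.2

theorem V_mul {m n : ℕ} {a b : Alg α β} (ha : a ∈ V α β m) (hb : b ∈ V α β n) : a * b ∈ V α β (m + n) :=
  pole_mul ha hb

theorem V_mul' {m n : ℕ} {a b : Alg α β} (ha : a ∉ V α β m) (hb : b ∉ V α β n) :
    a * b ∉ V α β (m + n + 1) :=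
  pole_mul' ha hb a.2.2.2 b.2.2.2

end Pool.Agent.TH291.C2
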