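import Pool.Agent.TH291.C2.Defs3
import Pool.Agent.TH952.HahnClosed

/-! The field of Hahn series is isomorphic to the field of complex numbers. -/

set_option autoImplicit false
set_option maxSynthPendingDepth 4

namespace Pool.Agent.TH291.C2

open Cardinal

theorem card_K : #K = Cardinal.continuum.{0} := by
  apply le_antisymm
  · have h1 : Function.Injective (fun f : K => f.coeff) := HahnSeries.coeff_injective
    refine (Cardinal.mk_le_of_injective h1).trans ?_
    rw [← Cardinal.power_def, Cardinal.mk_complex, Cardinal.mkRat]
    exact Cardinal.continuum_power_aleph0.le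
  · have h2 : Function.Injective (HahnSeries.C : ℂ →+* K) := HahnSeries.C_injective
    rw [← Cardinal.mk_complex]
    exact Cardinal.mk_le_of_injective h2

theorem ringEquiv_K : Nonempty (K ≃+* ℂ) := by
  haveI : IsAlgClosed K := Pool.Agent.TH952.hahn_isAlgClosed (K := ℂ)
  haveI : CharZero K := inferInstance
  refine IsAlgClosed.ringEquiv_of_equiv_of_charZero (K := K) (L := ℂ) ?_ ?_
  · rw [card_K]; exact Cardinal.aleph0_lt_continuum
  · exact Cardinal.eq.1 (by rw [card_K, Cardinal.mk_complex])

end Pool.Agent.TH291.C2
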