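import Pool.Agent.TH291.C2.Defs2

/-! Project C2, file Chase: division by `z₁ - z₂` inside the cone, vanishing on the face,
divisibility of the special fibre. -/

set_option autoImplicit false
set_option maxSynthPendingDepth 4

namespace Pool.Agent.TH291.C2

open MvPolynomial

theorem chase_coeff_C_mul {Γ R : Type} [AddCommMonoid Γ] [PartialOrder Γ]
    [IsOrderedCancelAddMonoid Γ] [Semiring R] (r : R) (x : HahnSeries Γ R) (γ : Γ) :
    (HahnSeries.C r * x).coeff γ = r * x.coeff γ := by
  rw [HahnSeries.C_mul_eq_smul, HahnSeries.coeff_smul, smul_eq_mul]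

theorem chase_single_mul {R : Type} [Semiring R] (x : HahnSeries ℤ R) (l : ℤ) :
    (HahnSeries.single (1 : ℤ) (1 : R) * x).coeff l = x.coeff (l - 1) := by
  have h := HahnSeries.coeff_single_mul_add (r := (1 : R)) (x := x) (a := l - 1) (b := (1 : ℤ))
  rw [sub_add_cancel, one_mul] at h
  exact h

theorem coB_zz (G : B) (m l : ℤ) (γ : ℚ) : coB (zz * G) m l γ = coB G (m - 1) l γ - coB G m (l - 1) γ := by
  unfold coB zz
  rw [chase_coeff_C_mul, sub_mul, HahnSeries.coeff_sub, chase_coeff_C_mul, chase_single_mul,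
    HahnSeries.coeff_sub, chase_single_mul]

theorem chase_cone_zz {M : ℚ} {G : B} (hG : Cone M G) : Cone M (zz * G) := by
  intro m l γ h
  rw [coB_zz] at h
  by_cases h1 : coB G (m - 1) l γ = 0
  · have h2 : coB G m (l - 1) γ ≠ 0 := by
      intro h2
      rw [h1, h2, sub_zero] at h
      exact h rfl
    obtain ⟨a, b, c⟩ := hG _ _ _ h2
    push_cast at c
    exact ⟨a, b, by linarith⟩
  · obtain ⟨a, b, c⟩ := hG _ _ _ h1
    push_cast at b
    exact ⟨a, by linarith, c⟩

theorem chase_cone_pow {M : ℚ} (b : ℕ) {G : B} (hG : Cone M G) : Cone M (zz ^ b * G) := by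
  induction b with
  | zero => simpa using hG
  | succ b ih =>
    rw [pow_succ', mul_assoc]
    exact chase_cone_zz ih

theorem chase_cone_one {M : ℚ} {G : B} (hG : Cone M G) (h0 : Cone 0 (zz * G)) : Cone 0 G := by
  have hz : ∀ (m l : ℤ) (γ : ℚ), (γ < 0 ∨ γ + m < 0 ∨ γ + l < 0) →
      coB G (m - 1) l γ = coB G m (l - 1) γ := by
    intro m l γ h
    by_contra hne
    have h1 : coB (zz * G) m l γ ≠ 0 := by
      rw [coB_zz]
      exact sub_ne_zero.2 hne
    obtain ⟨a, b, c⟩ := h0 _ _ _ h1
    rcases h with h | h | h <;> linarith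
  have hbig : ∀ x : ℚ, ∃ k : ℕ, x - k < -M := by
    intro x
    obtain ⟨k, hk⟩ := exists_nat_gt (x + M)
    exact ⟨k, by linarith⟩
  intro m l γ h
  refine ⟨?_, ?_, ?_⟩
  · by_contra hγ
    have hγ' : γ < 0 := by linarith
    apply h
    have hk : ∀ k : ℕ, coB G m l γ = coB G (m - k) (l + k) γ := by
      intro k
      induction k with
      | zero => simp
      | succ k ih =>
        rw [ih]
        have h2 := hz (m - k) (l + k + 1) γ (Or.inl hγ')
        rw [add_sub_cancel_right] at h2
        rw [← h2]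
        push_cast
        congr 1 <;> ring
    obtain ⟨k, hk2⟩ := hbig (γ + m)
    rw [hk k]
    by_contra h3
    obtain ⟨_, b, _⟩ := hG _ _ _ h3
    push_cast at b
    linarith
  · by_contra hγ
    have hγ' : γ + m < 0 := by linarith
    apply h
    have hk : ∀ k : ℕ, coB G m l γ = coB G (m - k) (l + k) γ := by
      intro k
      induction k with
      | zero => simp
      | succ k ih =>
        rw [ih]
        have h2 := hz (m - k) (l + k + 1) γ (Or.inr (Or.inl (by
          push_cast
          have : (0 : ℚ) ≤ k := Nat.cast_nonneg k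
          linarith)))
        rw [add_sub_cancel_right] at h2
        rw [← h2]
        push_cast
        congr 1 <;> ring
    obtain ⟨k, hk2⟩ := hbig (γ + m)
    rw [hk k]
    by_contra h3
    obtain ⟨_, b, _⟩ := hG _ _ _ h3
    push_cast at b
    linarith
  · by_contra hγ
    have hγ' : γ + l < 0 := by linarith
    apply h
    have hk : ∀ k : ℕ, coB G m l γ = coB G (m + k) (l - k) γ := by
      intro k
      induction k with
      | zero => simp
      | succ k ih =>
        rw [ih]
        have h2 := hz (m + k + 1) (l - k) γ (Or.inr (Or.inr (by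
          push_cast
          have : (0 : ℚ) ≤ k := Nat.cast_nonneg k
          linarith)))
        rw [add_sub_cancel_right] at h2
        rw [h2]
        push_cast
        congr 1 <;> ring
    obtain ⟨k, hk2⟩ := hbig (γ + l)
    rw [hk k]
    by_contra h3
    obtain ⟨_, _, c⟩ := hG _ _ _ h3
    push_cast at c
    linarith

theorem cone_of_zz {M : ℚ} {b : ℕ} {G : B} (hG : Cone M G) (h0 : Cone 0 (zz ^ b * G)) : Cone 0 G := by
  induction b generalizing G with
  | zero => simpa using h0
  | succ b ih =>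
    rw [pow_succ, mul_assoc] at h0
    exact chase_cone_one hG (ih (chase_cone_zz hG) h0)

theorem chase_face {b : ℕ} {G : B} (hG : Cone 0 G) (j : ℕ) (l : ℤ) :
    coB (zz ^ b * G) (-(j : ℤ)) l j = (-1) ^ b * coB G (-(j : ℤ)) (l - b) j := by
  induction b generalizing G l with
  | zero => simp
  | succ b ih =>
    rw [pow_succ, mul_assoc, ih (chase_cone_zz hG), coB_zz]
    have h1 : coB G (-(j : ℤ) - 1) (l - b) j = 0 := by
      by_contra h
      obtain ⟨_, h2, _⟩ := hG _ _ _ h
      push_cast at h2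
      linarith
    rw [h1, zero_sub, pow_succ, mul_neg, mul_neg, neg_mul, mul_one]
    push_cast
    rw [show l - (b : ℤ) - 1 = l - (b + 1) by ring]

theorem face_zero {b : ℕ} {G : B} (hG : Cone 0 G) (j : ℕ) (l : ℤ) (h : (j : ℤ) + l < b) :
    coB (zz ^ b * G) (-(j : ℤ)) l j = 0 := by
  rw [chase_face hG]
  have h1 : coB G (-(j : ℤ)) (l - b) j = 0 := by
    by_contra h2
    obtain ⟨_, _, h3⟩ := hG _ _ _ h2
    have h4 : ((j : ℤ) : ℚ) + l < b := by exact_mod_cast h
    push_cast at h3 h4
    linarith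
  rw [h1, mul_zero]

/-- coefficients of a polynomial in two variables -/
noncomputable def chaseC (q : MvPolynomial (Fin 2) ℂ) (j l : ℕ) : ℂ :=
  MvPolynomial.coeff (Finsupp.single 0 j + Finsupp.single 1 l) q

theorem chaseC_X0_succ (q : MvPolynomial (Fin 2) ℂ) (j l : ℕ) :
    chaseC (X 0 * q) (j + 1) l = chaseC q j l := by
  unfold chaseC
  rw [show (Finsupp.single (0 : Fin 2) (j + 1) + Finsupp.single 1 l : Fin 2 →₀ ℕ) =
    Finsupp.single 0 1 + (Finsupp.single 0 j + Finsupp.single 1 l) by
    rw [← add_assoc, ← Finsupp.single_add, add_comm 1 j]]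
  exact MvPolynomial.coeff_X_mul _ _ _

theorem chaseC_X0_zero (q : MvPolynomial (Fin 2) ℂ) (l : ℕ) :
    chaseC (X 0 * q) 0 l = 0 := by
  unfold chaseC
  rw [MvPolynomial.coeff_X_mul', if_neg]
  simp

theorem chaseC_X1_succ (q : MvPolynomial (Fin 2) ℂ) (j l : ℕ) :
    chaseC (X 1 * q) j (l + 1) = chaseC q j l := by
  unfold chaseC
  rw [show (Finsupp.single (0 : Fin 2) j + Finsupp.single 1 (l + 1) : Fin 2 →₀ ℕ) =
    Finsupp.single 1 1 + (Finsupp.single 0 j + Finsupp.single 1 l) by
    rw [← add_assoc, add_comm (Finsupp.single 1 1), add_assoc, ← Finsupp.single_add,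
      add_comm 1 l]]
  exact MvPolynomial.coeff_X_mul _ _ _

theorem chaseC_X1_zero (q : MvPolynomial (Fin 2) ℂ) (j : ℕ) :
    chaseC (X 1 * q) j 0 = 0 := by
  unfold chaseC
  rw [MvPolynomial.coeff_X_mul', if_neg]
  simp

theorem chaseC_ext {p q : MvPolynomial (Fin 2) ℂ} (h : ∀ j l, chaseC p j l = chaseC q j l) :
    p = q := by
  ext m
  have h1 : m = Finsupp.single 0 (m 0) + Finsupp.single 1 (m 1) := by
    ext i
    fin_cases i <;> simp
  rw [h1]
  exact h _ _

theorem chaseC_sub (p q : MvPolynomial (Fin 2) ℂ) (j l : ℕ) :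
    chaseC (p - q) j l = chaseC p j l - chaseC q j l := by
  unfold chaseC
  rw [MvPolynomial.coeff_sub]

/-- a polynomial with given coefficients -/
theorem chase_exists (H : ℕ → ℕ → ℂ) (N : ℕ) (hH : ∀ j l, N < j + l → H j l = 0) :
    ∃ r : MvPolynomial (Fin 2) ℂ, ∀ j l, chaseC r j l = H j l := by
  classical
  refine ⟨∑ p ∈ Finset.range (N + 1) ×ˢ Finset.range (N + 1),
    MvPolynomial.monomial (Finsupp.single 0 p.1 + Finsupp.single 1 p.2) (H p.1 p.2),
    fun j l => ?_⟩
  unfold chaseC
  rw [MvPolynomial.coeff_sum]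
  have hinj : ∀ p : ℕ × ℕ, (Finsupp.single (0 : Fin 2) p.1 + Finsupp.single 1 p.2 : Fin 2 →₀ ℕ) =
      Finsupp.single 0 j + Finsupp.single 1 l ↔ p = (j, l) := by
    intro p
    constructor
    · intro h
      have h0 := DFunLike.congr_fun h 0
      have h1 := DFunLike.congr_fun h 1
      simp at h0 h1
      exact Prod.ext h0 h1
    · rintro rfl
      rfl
  have h2 : ∀ p ∈ Finset.range (N + 1) ×ˢ Finset.range (N + 1),
      MvPolynomial.coeff (Finsupp.single (0 : Fin 2) j + Finsupp.single 1 l)
        (MvPolynomial.monomial (Finsupp.single 0 p.1 + Finsupp.single 1 p.2) (H p.1 p.2)) =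
      if p = (j, l) then H j l else 0 := by
    intro p _
    rw [MvPolynomial.coeff_monomial]
    split_ifs with h3 h4 h4
    · rw [h4]
    · exact absurd ((hinj p).1 h3) h4
    · exact absurd ((hinj p).2 h4) h3
    · rfl
  refine (Finset.sum_congr rfl h2).trans ?_
  rw [Finset.sum_ite_eq']
  by_cases hjl : (j, l) ∈ Finset.range (N + 1) ×ˢ Finset.range (N + 1)
  · rw [if_pos hjl]
  · rw [if_neg hjl]
    refine (hH j l ?_).symm
    simp only [Finset.mem_product, Finset.mem_range, not_and_or] at hjl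
    omega

theorem chase_coeff_big (q : MvPolynomial (Fin 2) ℂ) (j l : ℕ) (h : q.totalDegree < j + l) :
    chaseC q j l = 0 := by
  unfold chaseC
  refine MvPolynomial.coeff_eq_zero_of_totalDegree_lt ?_
  refine lt_of_lt_of_le h ?_
  rw [← Finsupp.degree_apply, map_add, Finsupp.degree_single, Finsupp.degree_single]

theorem chase_dvd (b : ℕ) : ∀ (G : B), Cone 0 G → ∀ q : MvPolynomial (Fin 2) ℂ,
    (∀ j l : ℕ, chaseC q j l = coB (zz ^ b * G) j l 0) → (X 0 - X 1) ^ b ∣ q := by
  induction b with
  | zero => intro G _ q _; simp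
  | succ b ih =>
    intro G hG q hq
    have hH := chase_cone_pow b hG
    set H := zz ^ b * G with hHd
    have hq2 : ∀ j l : ℕ, chaseC q j l = coB H ((j : ℤ) - 1) l 0 - coB H j ((l : ℤ) - 1) 0 := by
      intro j l
      rw [hq, pow_succ', mul_assoc, coB_zz]
    have hm1 : ∀ l : ℤ, coB H (-1) l 0 = 0 := by
      intro l
      by_contra h
      obtain ⟨_, h2, _⟩ := hH _ _ _ h
      norm_num at h2
    have hl1 : ∀ m : ℤ, coB H m (-1) 0 = 0 := by
      intro l
      by_contra h
      obtain ⟨_, _, h2⟩ := hH _ _ _ h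
      norm_num at h2
    have hbig : ∀ j l : ℕ, q.totalDegree < j + l + 1 → coB H j l 0 = 0 := by
      intro j
      induction j with
      | zero =>
        intro l hl
        have h1 := hq2 0 (l + 1)
        rw [chase_coeff_big q 0 (l + 1) (by omega)] at h1
        push_cast at h1
        rw [hm1, zero_sub, add_sub_cancel_right, eq_comm, neg_eq_zero] at h1
        exact_mod_cast h1
      | succ j ihj =>
        intro l hl
        have h1 := hq2 (j + 1) (l + 1)
        rw [chase_coeff_big q (j + 1) (l + 1) (by omega)] at h1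
        have h2 := ihj (l + 1) (by omega)
        push_cast at h1 h2
        rw [add_sub_cancel_right, add_sub_cancel_right, h2, zero_sub, eq_comm, neg_eq_zero] at h1
        push_cast
        exact h1
    obtain ⟨r, hr⟩ := chase_exists (fun j l => coB H j l 0) q.totalDegree
      (fun j l h => hbig j l (by omega))
    have hqr : q = (X 0 - X 1) * r := by
      refine chaseC_ext fun j l => ?_
      rw [hq2, sub_mul, chaseC_sub]
      rcases j with _ | j <;> rcases l with _ | l
      · rw [chaseC_X0_zero, chaseC_X1_zero]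
        simp only [Nat.cast_zero, zero_sub, hm1, hl1]
      · rw [chaseC_X0_zero, chaseC_X1_succ, hr]
        push_cast
        rw [hm1, add_sub_cancel_right]
      · rw [chaseC_X0_succ, chaseC_X1_zero, hr]
        push_cast
        rw [hl1, add_sub_cancel_right]
      · rw [chaseC_X0_succ, chaseC_X1_succ, hr, hr]
        push_cast
        rw [add_sub_cancel_right, add_sub_cancel_right]
    rw [hqr, pow_succ']
    exact mul_dvd_mul_left _ (ih G hG r hr)

theorem diag_dvd {b : ℕ} {G : B} (hG : Cone 0 G) (a : ℂ) (q : MvPolynomial (Fin 2) ℂ)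
    (h : ∀ j l : ℕ, tc a a q j l = coB (zz ^ b * G) j l 0) :
    (X 0 - X 1) ^ b ∣ q := by
  have h1 := chase_dvd b G hG (MvPolynomial.aeval ![(X 0 + C a : MvPolynomial (Fin 2) ℂ), X 1 + C a] q) h
  have h2 := map_dvd (MvPolynomial.aeval ![(X 0 - C a : MvPolynomial (Fin 2) ℂ), X 1 - C a]) h1
  have h3 : MvPolynomial.aeval ![(X 0 - C a : MvPolynomial (Fin 2) ℂ), X 1 - C a]
      (MvPolynomial.aeval ![(X 0 + C a : MvPolynomial (Fin 2) ℂ), X 1 + C a] q) = q := by
    have h4 : (MvPolynomial.aeval ![(X 0 - C a : MvPolynomial (Fin 2) ℂ), X 1 - C a]).comp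
        (MvPolynomial.aeval ![(X 0 + C a : MvPolynomial (Fin 2) ℂ), X 1 + C a]) =
        AlgHom.id ℂ (MvPolynomial (Fin 2) ℂ) := by
      ext i
      fin_cases i <;> simp
    exact DFunLike.congr_fun h4 q
  rw [h3, map_pow, map_sub] at h2
  simpa using h2

end Pool.Agent.TH291.C2
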