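import Mathlib

/-! The Riemann-Roch count is positive for large multiples. -/

set_option autoImplicit false
set_option maxSynthPendingDepth 4

namespace Pool.Agent.TH291.C2

theorem h248count_sum (g N : ℤ) (B : ℕ) :
    ∑ j ∈ Finset.range B, (2 * N + 2 * g * (j : ℤ) - 2 * (j : ℤ) + 1 - g) =
      2 * N * B + (g - 1) * (B : ℤ) ^ 2 - 2 * (g - 1) * B := by
  induction B with
  | zero => simp
  | succ B ih =>
    rw [Finset.sum_range_succ, ih]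
    push_cast
    ring

theorem count_pos (g n b : ℕ) (hg : 1 ≤ g) (h : (b : ℝ) * Real.sqrt g < (n : ℝ) - b) :
    ∃ r : ℕ, 0 < r ∧ 2 * g ≤ r * n + 1 ∧
      ∑ j ∈ Finset.range (r * b), (2 * ((r * n : ℕ) : ℤ) + 2 * g * j - 2 * j + 1 - g) < ((r * n : ℕ) + 1 - g : ℤ) ^ 2 := by
  have hb0 : (0 : ℝ) ≤ (b : ℝ) * Real.sqrt g := by positivity
  have hnbR : (0 : ℝ) < (n : ℝ) - b := lt_of_le_of_lt hb0 h
  have hnb : (b : ℤ) < n := by
    have : (b : ℝ) < n := by linarith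
    exact_mod_cast this
  have hD : (g : ℤ) * (b : ℤ) ^ 2 + 1 ≤ ((n : ℤ) - b) ^ 2 := by
    have h1 : ((b : ℝ) * Real.sqrt g) ^ 2 < ((n : ℝ) - b) ^ 2 :=
      pow_lt_pow_left₀ h hb0 (by norm_num)
    rw [mul_pow, Real.sq_sqrt (Nat.cast_nonneg g)] at h1
    have h2 : ((b : ℤ) ^ 2 * (g : ℤ)) < ((n : ℤ) - b) ^ 2 := by exact_mod_cast h1
    linarith [mul_comm ((b : ℤ) ^ 2) (g : ℤ)]
  have hn1 : 1 ≤ n := by omega
  obtain ⟨k, hk⟩ : ∃ k : ℕ, n = b + (k + 1) := ⟨n - b - 1, by omega⟩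
  refine ⟨2 * g * (k + 1) + 2 * g, by nlinarith, ?_, ?_⟩
  · nlinarith [Nat.zero_le (2 * g * (k + 1))]
  · rw [h248count_sum]
    set r : ℤ := ((2 * g * (k + 1) + 2 * g : ℕ) : ℤ) with hr
    have hgz : (1 : ℤ) ≤ g := by exact_mod_cast hg
    have hrv : r = 2 * (g : ℤ) * (k + 1) + 2 * g := by rw [hr]; push_cast; ring
    have hk' : (n : ℤ) - b = k + 1 := by omega
    rw [hk'] at hD
    have hnz : (n : ℤ) = b + (k + 1) := by omega
    have hkz : (0 : ℤ) ≤ k := Int.natCast_nonneg k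
    have hrpos : 0 < r := by rw [hrv]; nlinarith
    have e1 : (((2 * g * (k + 1) + 2 * g) * n : ℕ) : ℤ) = r * n := by rw [hr]; push_cast; ring
    have e2 : (((2 * g * (k + 1) + 2 * g) * b : ℕ) : ℤ) = r * b := by rw [hr]; push_cast; ring
    rw [e1, e2, hnz]
    have key : (r * ((b : ℤ) + (k + 1)) + 1 - g) ^ 2 -
        (2 * (r * ((b : ℤ) + (k + 1))) * (r * b) + (g - 1) * (r * b) ^ 2 - 2 * (g - 1) * (r * b)) =
        r ^ 2 * (((k : ℤ) + 1) ^ 2 - g * (b : ℤ) ^ 2) - 2 * (g - 1) * r * (k + 1) + (g - 1) ^ 2 := by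
      ring
    have h3 : r ^ 2 * 1 ≤ r ^ 2 * (((k : ℤ) + 1) ^ 2 - g * (b : ℤ) ^ 2) :=
      mul_le_mul_of_nonneg_left (by linarith) (sq_nonneg r)
    have h4 : 0 < r * (r - 2 * (g - 1) * (k + 1)) := by
      apply mul_pos hrpos
      rw [hrv]
      nlinarith
    nlinarith [sq_nonneg ((g : ℤ) - 1)]

end Pool.Agent.TH291.C2
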