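import Pool.Agent.TH291.C2.Defs4

/-! Leading terms along the diagonal. -/

set_option autoImplicit false
set_option maxSynthPendingDepth 4

namespace Pool.Agent.TH291.C2

open scoped TensorProduct

variable {g : ℕ} {α β : Fin g → ℂ}

theorem cE_coeff (j : ℕ) (x : EE) (γ : ℚ) : (cE j x).coeff γ = PowerSeries.coeff j (x.coeff γ) := rfl

theorem cE_add (j : ℕ) (x y : EE) : cE j (x + y) = cE j x + cE j y := by
  ext1; funext γ
  simp [cE_coeff]

theorem cE_zero_right (j : ℕ) : cE j 0 = 0 := by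
  ext1; funext γ
  simp [cE_coeff]

theorem cE_neg (j : ℕ) (x : EE) : cE j (-x) = -cE j x := by
  ext1; funext γ
  simp [cE_coeff]

/-- `cE 0` is a ring homomorphism -/
theorem cE_zero_eq (x : EE) : cE 0 x = mapH (PowerSeries.constantCoeff (R := RatFunc ℂ)) x := by
  ext1; funext γ
  rw [cE_coeff, mapH_coeff, PowerSeries.coeff_zero_eq_constantCoeff]

theorem cE_zero_mul (x y : EE) : cE 0 (x * y) = cE 0 x * cE 0 y := by
  rw [cE_zero_eq, cE_zero_eq, cE_zero_eq, map_mul]

theorem eps_mul_coeff (x : EE) (γ : ℚ) : (eps * x).coeff γ = PowerSeries.X * x.coeff γ := by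
  unfold eps
  rw [HahnSeries.C_mul_eq_smul, HahnSeries.coeff_smul, smul_eq_mul]

theorem eps_pow_mul_coeff (j : ℕ) (x : EE) (γ : ℚ) :
    (eps ^ j * x).coeff γ = PowerSeries.X ^ j * x.coeff γ := by
  induction j with
  | zero => simp
  | succ j ih => rw [pow_succ', mul_assoc, eps_mul_coeff, ih, pow_succ', mul_assoc]

theorem cE_eps_pow (i j : ℕ) (x : EE) : cE (i + j) (eps ^ j * x) = cE i x := by
  ext1; funext γ
  rw [cE_coeff, eps_pow_mul_coeff, PowerSeries.coeff_X_pow_mul, cE_coeff]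

theorem cE_eps_pow_lt {i j : ℕ} (h : i < j) (x : EE) : cE i (eps ^ j * x) = 0 := by
  ext1; funext γ
  rw [cE_coeff, eps_pow_mul_coeff, PowerSeries.coeff_X_pow_mul']
  simp [h]

/-- divisibility by `ε` -/
theorem exists_eps {x : EE} (h : cE 0 x = 0) : ∃ y : EE, x = eps * y := by
  have h1 : ∀ γ, PowerSeries.constantCoeff (x.coeff γ) = 0 := by
    intro γ
    have := congrArg (fun z : F => z.coeff γ) h
    simpa [cE_coeff] using this
  have h2 : ∀ p : PowerSeries (RatFunc ℂ), PowerSeries.constantCoeff p = 0 →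
      p = PowerSeries.X * PowerSeries.mk (fun i => PowerSeries.coeff (i + 1) p) := by
    intro p hp
    ext n
    cases n with
    | zero => simpa using hp
    | succ n => rw [PowerSeries.coeff_succ_X_mul, PowerSeries.coeff_mk]
  let φ : ZeroHom (PowerSeries (RatFunc ℂ)) (PowerSeries (RatFunc ℂ)) :=
    ⟨fun p => PowerSeries.mk (fun i => PowerSeries.coeff (i + 1) p), by ext; simp⟩
  refine ⟨x.map φ, ?_⟩
  ext1; funext γ
  rw [eps_mul_coeff, HahnSeries.map_coeff]
  exact h2 _ (h1 γ)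

/-- the first factor -/
noncomputable def e₁ (T : Tay) : Alg α β →ₐ[K] EE where
  toRingHom := (mapH T.σ).comp (Alg α β).val.toRingHom
  commutes' c := by
    change mapH T.σ (algebraMap K F c) = algebraMap K EE c
    ext1; funext γ
    exact T.const _

/-- the second factor -/
noncomputable def e₂ : Alg α β →ₐ[K] EE where
  toRingHom := (mapH (PowerSeries.C : RatFunc ℂ →+* PowerSeries (RatFunc ℂ))).comp (Alg α β).val.toRingHom
  commutes' c := by
    change mapH (PowerSeries.C : RatFunc ℂ →+* PowerSeries (RatFunc ℂ)) (algebraMap K F c) = algebraMap K EE c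
    ext1; funext γ
    rfl

/-- `f(x₁, x₂)` at `x₁ = x + ε`, `x₂ = x` -/
noncomputable def Ps (T : Tay) : (Alg α β ⊗[K] Alg α β) →ₐ[K] EE :=
  Algebra.TensorProduct.lift (e₁ T) e₂ (fun _ _ => Commute.all _ _)

theorem Ps_tmul (T : Tay) (f h : Alg α β) :
    Ps T (f ⊗ₜ[K] h) = mapH T.σ f.1 * mapH (PowerSeries.C : RatFunc ℂ →+* PowerSeries (RatFunc ℂ)) h.1 := by
  unfold Ps
  rw [Algebra.TensorProduct.lift_tmul]
  rfl

/-- the coefficient of `ε ^ j` of `f (x + ε, x)` -/
noncomputable def DD (T : Tay) (j : ℕ) : (Alg α β ⊗[K] Alg α β) →+ F where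
  toFun x := cE j (Ps T x)
  map_zero' := by rw [map_zero, cE_zero_right]
  map_add' x y := by rw [map_add, cE_add]

theorem DD_apply (T : Tay) (j : ℕ) (x : Alg α β ⊗[K] Alg α β) : DD T j x = cE j (Ps T x) := rfl

theorem cE_algebraMap_mul (j : ℕ) (c : K) (x : EE) : cE j (algebraMap K EE c * x) = algebraMap K F c * cE j x := by
  have h1 : algebraMap K EE c = mapH (PowerSeries.C : RatFunc ℂ →+* PowerSeries (RatFunc ℂ)) (algebraMap K F c) := by
    ext1; funext γ; rfl
  rw [h1]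
  ext1; funext γ
  rw [cE_coeff, HahnSeries.coeff_mul, HahnSeries.coeff_mul, map_sum]
  simp only [mapH_coeff, PowerSeries.coeff_C_mul]
  symm
  -- compare the two sums over (possibly different) antidiagonals
  have hA : ∀ (S T' : Finset (ℚ × ℚ)) (φ : ℚ × ℚ → RatFunc ℂ),
      (∀ p, p ∈ S → φ p ≠ 0 → p ∈ T') → (∀ p, p ∈ T' → φ p ≠ 0 → p ∈ S) →
      ∑ p ∈ S, φ p = ∑ p ∈ T', φ p := by
    intro S T' φ h1 h2
    classical
    rw [← Finset.sum_filter_ne_zero, ← Finset.sum_filter_ne_zero (s := T')]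
    congr 1
    ext p
    simp only [Finset.mem_filter]
    exact ⟨fun h => ⟨h1 p h.1 h.2, h.2⟩, fun h => ⟨h2 p h.1 h.2, h.2⟩⟩
  apply hA
  · intro p hp hne
    rw [Finset.mem_antidiagonal] at hp ⊢
    refine ⟨?_, ?_, hp.2.2⟩
    · intro h0
      apply left_ne_zero_of_mul hne
      have : PowerSeries.C ((algebraMap K F c).coeff p.1) = (0 : PowerSeries (RatFunc ℂ)) := h0
      exact (map_eq_zero_iff _ PowerSeries.C_injective).1 this
    · intro h0
      apply right_ne_zero_of_mul hne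
      rw [cE_coeff, h0, map_zero]
  · intro p hp hne
    rw [Finset.mem_antidiagonal] at hp ⊢
    exact ⟨left_ne_zero_of_mul hne, right_ne_zero_of_mul hne, hp.2.2⟩

theorem DD_smul (T : Tay) (j : ℕ) (c : K) (x : Alg α β ⊗[K] Alg α β) : DD T j (c • x) = c • DD T j x := by
  rw [DD_apply, map_smul, Algebra.smul_def, cE_algebraMap_mul, Algebra.smul_def]
  rfl

theorem DD_zero_tmul (T : Tay) (f h : Alg α β) : DD T 0 (f ⊗ₜ[K] h) = f.1 * h.1 := by
  rw [DD_apply, Ps_tmul, cE_zero_mul]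
  congr 1
  · ext1; funext γ
    rw [cE_coeff, mapH_coeff, PowerSeries.coeff_zero_eq_constantCoeff]
    exact T.zero _
  · ext1; funext γ
    rw [cE_coeff, mapH_coeff]
    simp

theorem DD_one_diff (T : Tay) (h : Alg α β) :
    DD T 1 ((1 : Alg α β) ⊗ₜ[K] h - h ⊗ₜ[K] (1 : Alg α β)) = -dF T h.1 := by
  rw [map_sub, DD_apply, DD_apply, Ps_tmul, Ps_tmul]
  have h1 : ((1 : Alg α β) : Alg α β).1 = (1 : F) := rfl
  rw [h1, map_one, map_one, one_mul, mul_one]
  have h2 : cE 1 (mapH (PowerSeries.C : RatFunc ℂ →+* PowerSeries (RatFunc ℂ)) h.1) = 0 := by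
    ext1; funext γ
    rw [cE_coeff, mapH_coeff]
    simp [PowerSeries.coeff_C]
  rw [h2, zero_sub]
  rfl

theorem ideal_le (T : Tay) (x : Alg α β ⊗[K] Alg α β) (hx : x ∈ KaehlerDifferential.ideal K (Alg α β)) :
    ∃ y : EE, Ps T x = eps * y := by
  apply exists_eps
  have h1 : ∀ z : Alg α β ⊗[K] Alg α β,
      cE 0 (Ps T z) = (Algebra.TensorProduct.lmul' K (S := Alg α β) z).1 := by
    intro z
    induction z using TensorProduct.induction_on with
    | zero => rw [map_zero, map_zero, cE_zero_right]; rfl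
    | tmul a b =>
      have := DD_zero_tmul T a b
      rw [DD_apply] at this
      rw [this, Algebra.TensorProduct.lmul'_apply_tmul]
      rfl
    | add a b ha hb => rw [map_add, map_add, cE_add, ha, hb]; rfl
  rw [h1]
  have h2 : Algebra.TensorProduct.lmul' K (S := Alg α β) x = 0 := hx
  rw [h2]
  rfl

theorem exists_eps_pow (T : Tay) (j : ℕ) (x : Alg α β ⊗[K] Alg α β)
    (hx : x ∈ (KaehlerDifferential.ideal K (Alg α β)) ^ j) : ∃ y : EE, Ps T x = eps ^ j * y := by
  induction j generalizing x with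
  | zero => exact ⟨Ps T x, by rw [pow_zero, one_mul]⟩
  | succ j ih =>
    rw [pow_succ] at hx
    induction hx using Submodule.mul_induction_on' with
    | mem_mul_mem x hx y hy =>
      obtain ⟨u, hu⟩ := ih x hx
      obtain ⟨v, hv⟩ := ideal_le T y hy
      refine ⟨u * v, ?_⟩
      rw [map_mul, hu, hv, pow_succ]; ring
    | add x _ y _ h h' =>
      obtain ⟨u, hu⟩ := h
      obtain ⟨v, hv⟩ := h'
      exact ⟨u + v, by rw [map_add, hu, hv, mul_add]⟩

theorem DD_mul (T : Tay) (i j : ℕ) (x y : Alg α β ⊗[K] Alg α β)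
    (hx : x ∈ (KaehlerDifferential.ideal K (Alg α β)) ^ i)
    (hy : y ∈ (KaehlerDifferential.ideal K (Alg α β)) ^ j) :
    DD T (i + j) (x * y) = DD T i x * DD T j y := by
  obtain ⟨u, hu⟩ := exists_eps_pow T i x hx
  obtain ⟨v, hv⟩ := exists_eps_pow T j y hy
  rw [DD_apply, DD_apply, DD_apply, map_mul, hu, hv]
  have h1 : eps ^ i * u * (eps ^ j * v) = eps ^ (i + j) * (u * v) := by rw [pow_add]; ring
  have h2 := cE_eps_pow 0 (i + j) (u * v)
  have h3 := cE_eps_pow 0 i u
  have h4 := cE_eps_pow 0 j v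
  rw [zero_add] at h2 h3 h4
  rw [h1, h2, h3, h4, cE_zero_mul]

theorem DD_vanish (T : Tay) (j : ℕ) (x : Alg α β ⊗[K] Alg α β)
    (hx : x ∈ (KaehlerDifferential.ideal K (Alg α β)) ^ (j + 1)) : DD T j x = 0 := by
  obtain ⟨u, hu⟩ := exists_eps_pow T (j + 1) x hx
  rw [DD_apply, hu, cE_eps_pow_lt (Nat.lt_succ_self j)]

end Pool.Agent.TH291.C2
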