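import Pool.Agent.TH291.C2.Defs3

/-! A filtered integrally closed ring with the right dimensions is a Dedekind domain of finite
type. -/

set_option autoImplicit false
set_option maxSynthPendingDepth 4

namespace Pool.Agent.TH291.C2

open Polynomial

section Ded

theorem ded_exists_new {k A : Type} [Field k] [CommRing A] [Algebra k A] {V : ℕ → Submodule k A}
    {g : ℕ} (finite : ∀ n, Module.Finite k (V n))
    (finrank : ∀ n, 2 * g ≤ n + 1 → Module.finrank k (V n) = n + 1 - g) (n : ℕ)
    (hn : 2 * g ≤ n + 1) : ∃ e ∈ V (n + 1), e ∉ V n := by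
  by_contra h
  push Not at h
  have hle : V (n + 1) ≤ V n := fun a ha => h a ha
  have h1 := finrank n hn
  have h2 := finrank (n + 1) (by omega)
  have := finite n
  have h3 := Submodule.finrank_mono hle
  omega

theorem ded_codim {k A : Type} [Field k] [CommRing A] [Algebra k A] {V : ℕ → Submodule k A}
    {g : ℕ} (mono : Monotone V) (finite : ∀ n, Module.Finite k (V n))
    (finrank : ∀ n, 2 * g ≤ n + 1 → Module.finrank k (V n) = n + 1 - g) (n : ℕ)
    (hn : 2 * g ≤ n + 1) {e a : A} (he : e ∈ V (n + 1)) (he' : e ∉ V n) (ha : a ∈ V (n + 1)) :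
    ∃ c : k, a - c • e ∈ V n := by
  have h1 := finrank n hn
  have h2 := finrank (n + 1) (by omega)
  have f1 := finite n
  have f2 := finite (n + 1)
  have hle : V n ⊔ Submodule.span k {e} ≤ V (n + 1) :=
    sup_le (mono (Nat.le_succ n)) ((Submodule.span_singleton_le_iff_mem e _).2 he)
  have f3 : Module.Finite k ↥(V n ⊔ Submodule.span k {e}) :=
    Submodule.finiteDimensional_of_le hle
  have hlt : V n < V n ⊔ Submodule.span k {e} := by
    refine lt_of_le_of_ne le_sup_left fun h => he' ?_
    rw [h]
    exact Submodule.mem_sup_right (Submodule.mem_span_singleton_self e)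
  have h3 := Submodule.finrank_lt_finrank_of_lt hlt
  have h4 : V n ⊔ Submodule.span k {e} = V (n + 1) :=
    Submodule.eq_of_le_of_finrank_le hle (by omega)
  rw [← h4] at ha
  obtain ⟨v, hv, w, hw, rfl⟩ := Submodule.mem_sup.1 ha
  obtain ⟨c, rfl⟩ := Submodule.mem_span_singleton.1 hw
  exact ⟨c, by simpa using hv⟩

theorem isPointedCurve_of {k A : Type} [Field k] [CharZero k] [CommRing A] [IsDomain A] [Algebra k A]
    {V : ℕ → Submodule k A} {g : ℕ} (hint : IsIntegrallyClosed A)
    (mono : Monotone V) (top : ∀ a, ∃ n, a ∈ V n)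
    (zero : ∀ a, a ∈ V 0 ↔ ∃ c : k, a = algebraMap k A c)
    (mul : ∀ {m n a b}, a ∈ V m → b ∈ V n → a * b ∈ V (m + n))
    (mul' : ∀ {m n a b}, a ∉ V m → b ∉ V n → a * b ∉ V (m + n + 1))
    (finite : ∀ n, Module.Finite k (V n))
    (finrank : ∀ n, 2 * g ≤ n + 1 → Module.finrank k (V n) = n + 1 - g) :
    IsPointedCurve k A V g := by
  obtain ⟨φ, hφ, hφ'⟩ := ded_exists_new finite finrank (2 * g) (by omega)
  let _ : Algebra k[X] A := (aeval φ : k[X] →ₐ[k] A).toRingHom.toAlgebra
  have hmap : ∀ p : k[X], algebraMap k[X] A p = aeval φ p := fun p => rfl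
  have htower : IsScalarTower k k[X] A := IsScalarTower.of_algebraMap_eq fun c => by
    rw [hmap, Polynomial.algebraMap_eq, aeval_C]
  have hX : ∀ a : A, (X : k[X]) • a = a * φ := by
    intro a
    rw [Algebra.smul_def, hmap, aeval_X, mul_comm]
  obtain ⟨S, hS⟩ := Module.Finite.iff_fg.1 (finite (4 * g + 1))
  have key : ∀ n, ∀ a ∈ V n, a ∈ Submodule.span k[X] (S : Set A) := by
    intro n
    induction n using Nat.strong_induction_on with
    | _ n ih =>
      intro a ha
      by_cases hn : n ≤ 4 * g + 1
      · have h1 : a ∈ V (4 * g + 1) := mono hn ha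
        rw [← hS] at h1
        exact Submodule.span_le_restrictScalars k k[X] (S : Set A) h1
      · obtain ⟨l, rfl⟩ : ∃ l, n = l + (4 * g + 2) := ⟨n - (4 * g + 2), by omega⟩
        obtain ⟨e, he, he'⟩ := ded_exists_new finite finrank (l + 2 * g) (by omega)
        have h1 : e * φ ∈ V (l + (4 * g + 1) + 1) := by
          have := mul he hφ
          have e1 : l + 2 * g + 1 + (2 * g + 1) = l + (4 * g + 1) + 1 := by omega
          rwa [e1] at this
        have h2 : e * φ ∉ V (l + (4 * g + 1)) := by
          have := mul' he' hφ'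
          have e1 : l + 2 * g + 2 * g + 1 = l + (4 * g + 1) := by omega
          rwa [e1] at this
        obtain ⟨c, hc⟩ := ded_codim mono finite finrank (l + (4 * g + 1)) (by omega) h1 h2 ha
        have h3 := ih (l + (4 * g + 1)) (by omega) _ hc
        have h4 := ih (l + 2 * g + 1) (by omega) _ he
        have h5 : e * φ ∈ Submodule.span k[X] (S : Set A) := by
          rw [← hX]
          exact Submodule.smul_mem _ _ h4
        have h6 : c • (e * φ) ∈ Submodule.span k[X] (S : Set A) := by
          have : c • (e * φ) = (C c : k[X]) • (e * φ) := by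
            rw [Algebra.smul_def, Algebra.smul_def, hmap, aeval_C]
          rw [this]
          exact Submodule.smul_mem _ _ h5
        have h7 := Submodule.add_mem _ h3 h6
        rwa [sub_add_cancel] at h7
  have hfin : Module.Finite k[X] A := ⟨⟨S, by
    rw [eq_top_iff]
    intro a _
    obtain ⟨n, hn⟩ := top a
    exact key n a hn⟩⟩
  have hft1 : Algebra.FiniteType k[X] A := inferInstance
  have hft : Algebra.FiniteType k A := Algebra.FiniteType.trans (S := k[X]) inferInstance hft1
  have hnoeth : IsNoetherianRing A := Algebra.FiniteType.isNoetherianRing k A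
  have hintg : Algebra.IsIntegral k[X] A := Algebra.IsIntegral.of_finite k[X] A
  have hdim : Ring.DimensionLEOne A := Ring.DimensionLEOne.of_isIntegral k[X] A
  have hded : IsDedekindRing A := { hnoeth, hdim, hint with }
  exact
    { dedekind := { (inferInstance : IsDomain A), hded with }
      finiteType := hft
      mono := mono
      top := top
      zero := zero
      mul := mul
      mul' := mul'
      finite := finite
      finrank := finrank }

end Ded

end Pool.Agent.TH291.C2
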