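import Mathlib

/-! # A smooth curve of genus `g` over `HahnSeries ℚ ℂ` by formal gluing: definitions

`K = HahnSeries ℚ ℂ` (variable `t`), `F = HahnSeries ℚ (RatFunc ℂ)`.
For a point `P : Option ℂ` (`none` is the point at infinity) and `f : F`,
`co P f m γ` is the coefficient of `z ^ m * t ^ γ` of the expansion of `f` at `P`
(`z = x - c` at `P = some c`, `z = 1 / x` at infinity). -/

set_option autoImplicit false

namespace Pool.Agent.TH291.C2

/-- Hahn series with rational exponents over the complex numbers -/
abbrev K : Type := HahnSeries ℚ ℂ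

/-- Hahn series with rational exponents over the field of rational functions -/
abbrev F : Type := HahnSeries ℚ (RatFunc ℂ)

/-- coefficientwise application of a ring homomorphism -/
noncomputable def mapH {Γ R S : Type} [AddCommMonoid Γ] [PartialOrder Γ] [IsOrderedCancelAddMonoid Γ]
    [Semiring R] [Semiring S] (φ : R →+* S) : HahnSeries Γ R →+* HahnSeries Γ S where
  toFun x := x.map φ
  map_one' := by
    ext γ
    simp only [HahnSeries.map_coeff, HahnSeries.coeff_one]
    split_ifs <;> simp
  map_mul' x y := by
    exact HahnSeries.map_mul (φ : R →ₙ+* S)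
  map_zero' := by ext; simp
  map_add' x y := by ext; simp

@[simp] theorem mapH_coeff {Γ R S : Type} [AddCommMonoid Γ] [PartialOrder Γ] [IsOrderedCancelAddMonoid Γ]
    [Semiring R] [Semiring S] (φ : R →+* S) (x : HahnSeries Γ R) (γ : Γ) :
    (mapH φ x).coeff γ = φ (x.coeff γ) := rfl

noncomputable instance : Algebra K F := (mapH (algebraMap ℂ (RatFunc ℂ))).toAlgebra

theorem algebraMap_coeff (c : K) (γ : ℚ) :
    (algebraMap K F c).coeff γ = algebraMap ℂ (RatFunc ℂ) (c.coeff γ) := rfl

/-- the function `x` in terms of the local parameter at `P` -/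
noncomputable def loc : Option ℂ → LaurentSeries ℂ
  | some c => HahnSeries.C c + HahnSeries.single 1 1
  | none => HahnSeries.single (-1) 1

theorem eval_single_coeff (e : ℤ) (he : e ≠ 0) (p : Polynomial ℂ) (n : ℕ) :
    (Polynomial.eval₂ (HahnSeries.C : ℂ →+* LaurentSeries ℂ) (HahnSeries.single e 1) p).coeff (e * n)
      = p.coeff n := by
  have hpow : ∀ i : ℕ, (HahnSeries.single e (1 : ℂ)) ^ i = HahnSeries.single (e * i) 1 := by
    intro i
    rw [HahnSeries.single_pow]
    simp [mul_comm]
  have h : ∀ i : ℕ, ((HahnSeries.C (p.coeff i) : LaurentSeries ℂ) * (HahnSeries.single e (1 : ℂ)) ^ i)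
      = HahnSeries.single (e * i) (p.coeff i) := by
    intro i
    rw [hpow, HahnSeries.C_apply, HahnSeries.single_mul_single]
    simp
  rw [Polynomial.eval₂_eq_sum_range]
  simp only [h]
  rw [HahnSeries.coeff_sum]
  by_cases hn : n ∈ Finset.range (p.natDegree + 1)
  · rw [Finset.sum_eq_single_of_mem n hn]
    · exact HahnSeries.coeff_single_same _ _
    · intro b _ hb
      refine HahnSeries.coeff_single_of_ne ?_
      intro h'
      have := mul_left_cancel₀ he h'
      exact hb (by exact_mod_cast this.symm)
  · rw [Finset.sum_eq_zero]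
    · rw [Polynomial.coeff_eq_zero_of_natDegree_lt]
      simpa using hn
    · intro b hb
      refine HahnSeries.coeff_single_of_ne ?_
      intro h'
      have := mul_left_cancel₀ he h'
      have hbn : n = b := by exact_mod_cast this
      exact hn (hbn ▸ hb)

theorem loc_inj (P : Option ℂ) : Function.Injective
    (Polynomial.eval₂RingHom (HahnSeries.C : ℂ →+* LaurentSeries ℂ) (loc P)) := by
  have key : ∀ (e : ℤ), e ≠ 0 → ∀ p : Polynomial ℂ,
      Polynomial.eval₂ (HahnSeries.C : ℂ →+* LaurentSeries ℂ) (HahnSeries.single e 1) p = 0 → p = 0 := by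
    intro e he p hp
    ext n
    have := eval_single_coeff e he p n
    rw [hp] at this
    simpa using this.symm
  rw [injective_iff_map_eq_zero]
  intro p hp
  cases P with
  | none =>
    exact key (-1) (by norm_num) p hp
  | some c =>
    have h1 : Polynomial.eval₂ (HahnSeries.C : ℂ →+* LaurentSeries ℂ) (HahnSeries.single 1 1)
        (p.comp (Polynomial.C c + Polynomial.X)) = 0 := by
      rw [Polynomial.eval₂_comp, Polynomial.eval₂_add, Polynomial.eval₂_C, Polynomial.eval₂_X]
      exact hp
    have h2 := key 1 one_ne_zero _ h1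
    have h3 : (p.comp (Polynomial.C c + Polynomial.X)).comp (Polynomial.X - Polynomial.C c) = p := by
      rw [Polynomial.comp_assoc]
      simp
    rw [← h3, h2]
    simp

/-- expansion of rational functions at `P` -/
noncomputable def ex (P : Option ℂ) : RatFunc ℂ →+* LaurentSeries ℂ :=
  IsFractionRing.lift (loc_inj P)

/-- the coefficient of `z ^ m * t ^ γ` of the expansion of `f` at `P` -/
noncomputable def co (P : Option ℂ) (f : F) (m : ℤ) (γ : ℚ) : ℂ := (ex P (f.coeff γ)).coeff m

variable {g : ℕ} (α β : Fin g → ℂ)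

/-- `(x - α i) (x' - β i) = t` glueing -/
def Glue (f : F) : Prop :=
  ∀ (i : Fin g) (m : ℤ) (γ : ℚ), co (some (α i)) f m γ = co (some (β i)) f (-m) (γ + m)

/-- all coefficients are regular outside the points `α i`, `β i`, infinity -/
def Reg (f : F) : Prop :=
  ∀ c : ℂ, (∀ i, c ≠ α i ∧ c ≠ β i) → ∀ (m : ℤ) (γ : ℚ), m < 0 → co (some c) f m γ = 0

/-- all coefficients have a pole of order at most `n` at infinity -/
def Pole (n : ℕ) (f : F) : Prop :=
  ∀ (m : ℤ) (γ : ℚ), m < -(n : ℤ) → co none f m γ = 0

/-- the points are distinct -/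
def Dist : Prop :=
  Function.Injective α ∧ Function.Injective β ∧ ∀ i j, α i ≠ β j

end Pool.Agent.TH291.C2
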