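import Pool.Agent.TH291.C2.Defs2

/-! Pointed curves given by their filtered rings of functions. -/

set_option autoImplicit false
set_option maxSynthPendingDepth 4

namespace Pool.Agent.TH291.C2

open scoped TensorProduct

/-- `V n` is the space of functions on a smooth affine curve `Spec A` with a pole of order at most `n`
at the one point at infinity, the completed curve having genus `g`. -/
structure IsPointedCurve (k A : Type) [Field k] [CommRing A] [Algebra k A] (V : ℕ → Submodule k A)
    (g : ℕ) : Prop where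
  dedekind : IsDedekindDomain A
  finiteType : Algebra.FiniteType k A
  mono : Monotone V
  top : ∀ a, ∃ n, a ∈ V n
  zero : ∀ a, a ∈ V 0 ↔ ∃ c : k, a = algebraMap k A c
  mul : ∀ {m n a b}, a ∈ V m → b ∈ V n → a * b ∈ V (m + n)
  mul' : ∀ {m n a b}, a ∉ V m → b ∉ V n → a * b ∉ V (m + n + 1)
  finite : ∀ n, Module.Finite k (V n)
  finrank : ∀ n, 2 * g ≤ n + 1 → Module.finrank k (V n) = n + 1 - g

/-- no section of `n (F₁ + F₂) - b Δ` unless `n - b > √g b` -/
def NoSections (k A : Type) [Field k] [CommRing A] [Algebra k A] (V : ℕ → Submodule k A) (g : ℕ) : Prop :=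
  ∀ (n b : ℕ) (f : A ⊗[k] A), 0 < b → f ≠ 0 →
    f ∈ LinearMap.range (TensorProduct.map (V n).subtype (V n).subtype) →
    f ∈ (KaehlerDifferential.ideal k A) ^ b → (b : ℝ) * Real.sqrt g < (n : ℝ) - b

end Pool.Agent.TH291.C2
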