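import Pool.Agent.TH291.C2.Tens

/-! Taylor expansion along the diagonal; forms of weight `j` on the glued curve. -/

set_option autoImplicit false
set_option maxSynthPendingDepth 4

namespace Pool.Agent.TH291.C2

open scoped TensorProduct

variable {g : ℕ} {α β : Fin g → ℂ}

/-- a Taylor homomorphism `r ↦ r (x + ε)` for some local parameter -/
structure Tay where
  /-- the homomorphism -/
  σ : RatFunc ℂ →+* PowerSeries (RatFunc ℂ)
  const : ∀ a : ℂ, σ (algebraMap ℂ (RatFunc ℂ) a) = PowerSeries.C (algebraMap ℂ (RatFunc ℂ) a)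
  zero : ∀ r, PowerSeries.constantCoeff (σ r) = r

/-- Hahn series over power series in `ε` -/
abbrev EE : Type := HahnSeries ℚ (PowerSeries (RatFunc ℂ))

noncomputable instance : Algebra K EE :=
  (mapH ((PowerSeries.C : RatFunc ℂ →+* PowerSeries (RatFunc ℂ)).comp (algebraMap ℂ (RatFunc ℂ)))).toAlgebra

/-- the coefficient of `ε ^ j` -/
noncomputable def cE (j : ℕ) (x : EE) : F := x.map (PowerSeries.coeff (R := RatFunc ℂ) j)

/-- the first derivative of `f` for the parameter of `T` -/
noncomputable def dF (T : Tay) (f : F) : F := cE 1 (mapH T.σ f)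

/-- `ε` -/
noncomputable def eps : EE := HahnSeries.C PowerSeries.X

/-- glueing of forms of weight `j` -/
def GlueJ (α β : Fin g → ℂ) (j : ℕ) (h : F) : Prop :=
  ∀ (i : Fin g) (m : ℤ) (γ : ℚ),
    co (some (α i)) h (m - j) γ = (-1) ^ j * co (some (β i)) h (-m - j) (γ + m)

/-- forms of weight `j` with values in `N` times the point at infinity -/
def Form (α β : Fin g → ℂ) (j N : ℕ) (h : F) : Prop :=
  Reg α β h ∧ GlueJ α β j h ∧ ∀ (m : ℤ) (γ : ℚ), m < 2 * j - N → co none h m γ = 0

/-- the cone property: a multiple of `n (F₁ + F₂) - b Δ` has a nonzero section iff `√g b < n - b` -/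
def ConeProp (k A : Type) [Field k] [CommRing A] [Algebra k A] (V : ℕ → Submodule k A) (g : ℕ) : Prop :=
  ∀ (n b : ℕ), 0 < b →
    ((∃ r : ℕ, 0 < r ∧ ∃ f : A ⊗[k] A, f ≠ 0 ∧
      f ∈ LinearMap.range (TensorProduct.map (V (r * n)).subtype (V (r * n)).subtype) ∧
      f ∈ (KaehlerDifferential.ideal k A) ^ (r * b)) ↔ (b : ℝ) * Real.sqrt g < (n : ℝ) - b)

end Pool.Agent.TH291.C2
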