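import Pool.Agent.TH291.C2.Defs2

/-! The space of sections of the nodal curve has dimension `n + 1 - g` (helper592). -/

set_option autoImplicit false
set_option maxSynthPendingDepth 4

namespace Pool.Agent.TH291.C2

variable {g : ℕ} {α β : Fin g → ℂ}

/-- differences of the values at the two preimages of the nodes -/
noncomputable def dim2Map (α β : Fin g → ℂ) (n : ℕ) :
    Polynomial.degreeLE ℂ (n : WithBot ℕ) →ₗ[ℂ] (Fin g → ℂ) where
  toFun p i := (p : Polynomial ℂ).eval (α i) - (p : Polynomial ℂ).eval (β i)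
  map_add' p q := by
    ext i
    simp only [Submodule.coe_add, Polynomial.eval_add, Pi.add_apply]
    ring
  map_smul' c p := by
    ext i
    simp only [Submodule.coe_smul, Polynomial.eval_smul, Pi.smul_apply, RingHom.id_apply,
      smul_eq_mul]
    ring

theorem dim2_W0_eq (n : ℕ) : W0 α β n =
    (LinearMap.ker (dim2Map α β n)).map (Polynomial.degreeLE ℂ (n : WithBot ℕ)).subtype := by
  ext p
  constructor
  · rintro ⟨h1, h2⟩
    refine Submodule.mem_map.2 ⟨⟨p, h1⟩, ?_, rfl⟩
    rw [LinearMap.mem_ker]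
    ext i
    show p.eval (α i) - p.eval (β i) = 0
    rw [h2 i, sub_self]
  · intro h
    obtain ⟨⟨q, hq⟩, h2, rfl⟩ := Submodule.mem_map.1 h
    refine ⟨hq, fun i => ?_⟩
    rw [LinearMap.mem_ker] at h2
    have h3 := congrFun h2 i
    exact sub_eq_zero.1 h3

theorem dim2_surj (hd : Dist α β) {n : ℕ} (hn : 2 * g ≤ n + 1) :
    Function.Surjective (dim2Map α β n) := by
  obtain ⟨ha, hb, hab⟩ := hd
  intro c
  let v : Fin g ⊕ Fin g → ℂ := Sum.elim α β
  have hv : Function.Injective v := Function.Injective.sumElim ha hb hab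
  let r : Fin g ⊕ Fin g → ℂ := Sum.elim c 0
  let p := Lagrange.interpolate (Finset.univ : Finset (Fin g ⊕ Fin g)) v r
  have hdeg : p.degree < ((2 * g : ℕ) : WithBot ℕ) := by
    have h := Lagrange.degree_interpolate_lt (s := (Finset.univ : Finset (Fin g ⊕ Fin g)))
      (v := v) r hv.injOn
    have hc : (Finset.univ : Finset (Fin g ⊕ Fin g)).card = 2 * g := by
      rw [Finset.card_univ, Fintype.card_sum, Fintype.card_fin]
      ring
    rw [hc] at h
    exact h
  have hev : ∀ i, p.eval (v i) = r i := fun i =>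
    Lagrange.eval_interpolate_at_node r hv.injOn (Finset.mem_univ i)
  have hmem : p ∈ Polynomial.degreeLE ℂ (n : WithBot ℕ) := by
    rw [Polynomial.mem_degreeLE]
    by_cases hp : p = 0
    · rw [hp, Polynomial.degree_zero]
      exact bot_le
    · rw [Polynomial.degree_eq_natDegree hp] at hdeg ⊢
      have h1 : p.natDegree < 2 * g := by exact_mod_cast hdeg
      exact_mod_cast (show p.natDegree ≤ n by omega)
  refine ⟨⟨p, hmem⟩, ?_⟩
  ext i
  show p.eval (α i) - p.eval (β i) = c i
  have h1 : p.eval (α i) = c i := hev (Sum.inl i)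
  have h2 : p.eval (β i) = 0 := hev (Sum.inr i)
  rw [h1, h2, sub_zero]

theorem dim2_degreeLE (n : ℕ) : Module.Finite ℂ (Polynomial.degreeLE ℂ (n : WithBot ℕ)) ∧
    Module.finrank ℂ (Polynomial.degreeLE ℂ (n : WithBot ℕ)) = n + 1 := by
  have h : Polynomial.degreeLE ℂ (n : WithBot ℕ) = Polynomial.degreeLT ℂ (n + 1) := by
    ext p
    rw [Polynomial.mem_degreeLE, Polynomial.mem_degreeLT]
    by_cases hp : p = 0
    · rw [hp, Polynomial.degree_zero]
      exact ⟨fun _ => WithBot.bot_lt_coe _, fun _ => bot_le⟩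
    · rw [Polynomial.degree_eq_natDegree hp]
      constructor
      · intro h1
        have h2 : p.natDegree ≤ n := by exact_mod_cast h1
        exact_mod_cast (show p.natDegree < n + 1 by omega)
      · intro h1
        have h2 : p.natDegree < n + 1 := by exact_mod_cast h1
        exact_mod_cast (show p.natDegree ≤ n by omega)
  rw [h]
  refine ⟨Module.Finite.equiv (Polynomial.degreeLTEquiv ℂ (n + 1)).symm, ?_⟩
  rw [LinearEquiv.finrank_eq (Polynomial.degreeLTEquiv ℂ (n + 1)), Module.finrank_fin_fun]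

theorem finrank_W0 (hd : Dist α β) {n : ℕ} (hn : 2 * g ≤ n + 1) :
    Module.Finite ℂ (W0 α β n) ∧ Module.finrank ℂ (W0 α β n) = n + 1 - g := by
  obtain ⟨hfin, hrk⟩ := dim2_degreeLE n
  rw [dim2_W0_eq]
  refine ⟨?_, ?_⟩
  · infer_instance
  · rw [Submodule.finrank_map_subtype_eq]
    have h1 := LinearMap.finrank_range_add_finrank_ker (dim2Map α β n)
    rw [LinearMap.range_eq_top.2 (dim2_surj hd hn), finrank_top, Module.finrank_fin_fun, hrk] at h1
    omega

end Pool.Agent.TH291.C2
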