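import Mathlib
import Pool.Agent.TH291.C2.Defs4
import Pool.Agent.TH291.C2.Dim1
import Pool.Agent.TH291.C2.Exp

/-! Dimension bound for the forms of weight `j` on the glued curve (helper295). -/

set_option autoImplicit false
set_option maxSynthPendingDepth 4

namespace Pool.Agent.TH291.C2

open Polynomial

/-- coefficients vanish below `a` -/
def dimj_Ge (a : ℤ) (s : LaurentSeries ℂ) : Prop := ∀ m : ℤ, m < a → s.coeff m = 0

theorem dimj_ge_mul {a b : ℤ} {s t : LaurentSeries ℂ} (hs : dimj_Ge a s) (ht : dimj_Ge b t) :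
    dimj_Ge (a + b) (s * t) := by
  intro m hm
  rw [HahnSeries.coeff_mul]
  refine Finset.sum_eq_zero fun p hp => ?_
  rw [Finset.mem_antidiagonal] at hp
  obtain ⟨-, -, h3⟩ := hp
  by_cases h : p.1 < a
  · rw [hs _ h, zero_mul]
  · rw [ht _ (by omega), mul_zero]

theorem dimj_coeff_mul {a b : ℤ} {s t : LaurentSeries ℂ} (hs : dimj_Ge a s) (ht : dimj_Ge b t) :
    (s * t).coeff (a + b) = s.coeff a * t.coeff b := by
  rw [HahnSeries.coeff_mul]
  rw [Finset.sum_eq_single (a, b)]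
  · intro p hp hne
    rw [Finset.mem_antidiagonal] at hp
    obtain ⟨-, -, h3⟩ := hp
    by_cases h : p.1 < a
    · rw [hs _ h, zero_mul]
    · by_cases h' : p.2 < b
      · rw [ht _ h', mul_zero]
      · exfalso
        apply hne
        apply Prod.ext
        · simp only
          omega
        · simp only
          omega
  · intro hn
    by_contra hne
    apply hn
    rw [Finset.mem_antidiagonal]
    refine ⟨?_, ?_, rfl⟩
    · rw [HahnSeries.mem_support]
      intro h0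
      exact hne (by simp only [h0, zero_mul])
    · rw [HahnSeries.mem_support]
      intro h0
      exact hne (by simp only [h0, mul_zero])

theorem dimj_poly (c : ℂ) (p : Polynomial ℂ) :
    dimj_Ge 0 (ex (some c) (algebraMap (Polynomial ℂ) (RatFunc ℂ) p)) :=
  fun _ hm => ex_poly_neg c p hm

theorem dimj_poly_zero (c : ℂ) (p : Polynomial ℂ) :
    (ex (some c) (algebraMap (Polynomial ℂ) (RatFunc ℂ) p)).coeff 0 = p.eval c := by
  have := ex_poly c p 0
  rwa [Nat.cast_zero, Polynomial.taylor_coeff_zero] at this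

theorem dimj_pow (c : ℂ) (j : ℕ) :
    ex (some c) (algebraMap (Polynomial ℂ) (RatFunc ℂ) ((X - C c) ^ j)) =
      HahnSeries.single (j : ℤ) 1 := by
  rw [exp_algMap, Polynomial.eval₂_pow, Polynomial.eval₂_sub, Polynomial.eval₂_X,
    Polynomial.eval₂_C]
  have h2 : loc (some c) - HahnSeries.C c = HahnSeries.single 1 1 := by
    change HahnSeries.C c + HahnSeries.single 1 1 - HahnSeries.C c = _
    ring
  rw [h2, HahnSeries.single_pow]
  simp

theorem dimj_pow_ge (c : ℂ) (j : ℕ) :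
    dimj_Ge j (ex (some c) (algebraMap (Polynomial ℂ) (RatFunc ℂ) ((X - C c) ^ j))) := by
  intro m hm
  rw [dimj_pow]
  exact HahnSeries.coeff_single_of_ne hm.ne

/-- the value at a pole of order at most `j` -/
theorem dimj_lc {c : ℂ} {j : ℕ} {r : RatFunc ℂ} (hr : dimj_Ge (-(j : ℤ)) (ex (some c) r))
    (q : Polynomial ℂ) :
    dimj_Ge 0 (ex (some c) (r * algebraMap (Polynomial ℂ) (RatFunc ℂ) ((X - C c) ^ j * q))) ∧
    (ex (some c) (r * algebraMap (Polynomial ℂ) (RatFunc ℂ) ((X - C c) ^ j * q))).coeff 0 =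
      (ex (some c) r).coeff (-(j : ℤ)) * q.eval c := by
  rw [map_mul, map_mul, map_mul]
  have h1 := dimj_ge_mul (dimj_pow_ge c j) (dimj_poly c q)
  have h2 := dimj_ge_mul hr h1
  have h3 := dimj_coeff_mul hr h1
  have h4 := dimj_coeff_mul (dimj_pow_ge c j) (dimj_poly c q)
  have e : -(j : ℤ) + ((j : ℤ) + 0) = 0 := by ring
  rw [e] at h2 h3
  refine ⟨h2, ?_⟩
  rw [h3, h4, dimj_poly_zero, dimj_pow, HahnSeries.coeff_single_same, one_mul]

theorem dimj_inf (p : Polynomial ℂ) :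
    dimj_Ge (-(p.natDegree : ℤ)) (ex none (algebraMap (Polynomial ℂ) (RatFunc ℂ) p)) := by
  intro m hm
  obtain ⟨k, hk⟩ : ∃ k : ℕ, m = -(k : ℤ) := ⟨m.natAbs, by omega⟩
  rw [hk, ex_poly_inf]
  exact Polynomial.coeff_eq_zero_of_natDegree_lt (by omega)

variable {g : ℕ} {α β : Fin g → ℂ}

/-- the denominator -/
noncomputable def dimj_Q (α β : Fin g → ℂ) (j : ℕ) : Polynomial ℂ :=
  ∏ i, ((X - C (α i)) * (X - C (β i))) ^ j

/-- cofactor at `α i` -/
noncomputable def dimj_QA (α β : Fin g → ℂ) (j : ℕ) (i : Fin g) : Polynomial ℂ :=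
  (X - C (β i)) ^ j * ∏ l ∈ Finset.univ.erase i, ((X - C (α l)) * (X - C (β l))) ^ j

/-- cofactor at `β i` -/
noncomputable def dimj_QB (α β : Fin g → ℂ) (j : ℕ) (i : Fin g) : Polynomial ℂ :=
  (X - C (α i)) ^ j * ∏ l ∈ Finset.univ.erase i, ((X - C (α l)) * (X - C (β l))) ^ j

theorem dimj_QA_mul (j : ℕ) (i : Fin g) :
    dimj_Q α β j = (X - C (α i)) ^ j * dimj_QA α β j i := by
  unfold dimj_Q dimj_QA
  rw [← Finset.mul_prod_erase _ _ (Finset.mem_univ i), mul_pow]
  ring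

theorem dimj_QB_mul (j : ℕ) (i : Fin g) :
    dimj_Q α β j = (X - C (β i)) ^ j * dimj_QB α β j i := by
  unfold dimj_Q dimj_QB
  rw [← Finset.mul_prod_erase _ _ (Finset.mem_univ i), mul_pow]
  ring

theorem dimj_Q_ne (j : ℕ) : dimj_Q α β j ≠ 0 := by
  unfold dimj_Q
  refine Finset.prod_ne_zero_iff.2 fun i _ => pow_ne_zero _ (mul_ne_zero ?_ ?_)
  · exact X_sub_C_ne_zero _
  · exact X_sub_C_ne_zero _

theorem dimj_Q_deg (j : ℕ) : (dimj_Q α β j).natDegree = 2 * g * j := by
  unfold dimj_Q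
  rw [natDegree_prod _ _ fun i _ => pow_ne_zero _ (mul_ne_zero (X_sub_C_ne_zero _)
    (X_sub_C_ne_zero _))]
  have : ∀ i : Fin g, (((X - C (α i)) * (X - C (β i))) ^ j : Polynomial ℂ).natDegree = 2 * j := by
    intro i
    rw [natDegree_pow, natDegree_mul (X_sub_C_ne_zero _) (X_sub_C_ne_zero _), natDegree_X_sub_C,
      natDegree_X_sub_C]
    ring
  rw [Finset.sum_congr rfl fun i _ => this i, Finset.sum_const, Finset.card_univ, Fintype.card_fin,
    smul_eq_mul]
  ring

theorem dimj_QA_ne (hd : Dist α β) (j : ℕ) (i : Fin g) : (dimj_QA α β j i).eval (α i) ≠ 0 := by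
  obtain ⟨ha, hb, hab⟩ := hd
  unfold dimj_QA
  rw [eval_mul, eval_pow, eval_sub, eval_X, eval_C, eval_prod]
  refine mul_ne_zero (pow_ne_zero _ (sub_ne_zero.2 (hab i i))) ?_
  refine Finset.prod_ne_zero_iff.2 fun l hl => ?_
  rw [eval_pow, eval_mul, eval_sub, eval_sub, eval_X, eval_C, eval_C]
  refine pow_ne_zero _ (mul_ne_zero (sub_ne_zero.2 ?_) (sub_ne_zero.2 (hab i l)))
  intro h
  exact (Finset.mem_erase.1 hl).1 (ha h).symm

theorem dimj_QB_ne (hd : Dist α β) (j : ℕ) (i : Fin g) : (dimj_QB α β j i).eval (β i) ≠ 0 := by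
  obtain ⟨ha, hb, hab⟩ := hd
  unfold dimj_QB
  rw [eval_mul, eval_pow, eval_sub, eval_X, eval_C, eval_prod]
  refine mul_ne_zero (pow_ne_zero _ (sub_ne_zero.2 (hab i i).symm)) ?_
  refine Finset.prod_ne_zero_iff.2 fun l hl => ?_
  rw [eval_pow, eval_mul, eval_sub, eval_sub, eval_X, eval_C, eval_C]
  refine pow_ne_zero _ (mul_ne_zero (sub_ne_zero.2 (hab l i).symm) (sub_ne_zero.2 ?_))
  intro h
  exact (Finset.mem_erase.1 hl).1 (hb h).symm

/-- the conditions at the nodes -/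
noncomputable def dimj_T (α β : Fin g → ℂ) (j M : ℕ) :
    Polynomial.degreeLT ℂ M →ₗ[ℂ] (Fin g → ℂ) where
  toFun p i := (dimj_QB α β j i).eval (β i) * (p : Polynomial ℂ).eval (α i) -
    (-1) ^ j * (dimj_QA α β j i).eval (α i) * (p : Polynomial ℂ).eval (β i)
  map_add' p q := by
    ext i
    simp only [Submodule.coe_add, Polynomial.eval_add, Pi.add_apply]
    ring
  map_smul' c p := by
    ext i
    simp only [Submodule.coe_smul, Polynomial.eval_smul, Pi.smul_apply, RingHom.id_apply,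
      smul_eq_mul]
    ring

theorem dimj_surj (hd : Dist α β) (j : ℕ) {M : ℕ} (hM : 2 * g ≤ M) :
    Function.Surjective (dimj_T α β j M) := by
  have hQB := dimj_QB_ne hd j
  obtain ⟨ha, hb, hab⟩ := hd
  intro c
  let v : Fin g ⊕ Fin g → ℂ := Sum.elim α β
  have hv : Function.Injective v := Function.Injective.sumElim ha hb hab
  let r : Fin g ⊕ Fin g → ℂ := Sum.elim (fun i => c i / (dimj_QB α β j i).eval (β i)) 0
  let p := Lagrange.interpolate (Finset.univ : Finset (Fin g ⊕ Fin g)) v r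
  have hdeg : p.degree < ((2 * g : ℕ) : WithBot ℕ) := by
    have h := Lagrange.degree_interpolate_lt (s := (Finset.univ : Finset (Fin g ⊕ Fin g)))
      (v := v) r hv.injOn
    have hc : (Finset.univ : Finset (Fin g ⊕ Fin g)).card = 2 * g := by
      rw [Finset.card_univ, Fintype.card_sum, Fintype.card_fin]
      ring
    rw [hc] at h
    exact h
  have hev : ∀ i, p.eval (v i) = r i := fun i =>
    Lagrange.eval_interpolate_at_node r hv.injOn (Finset.mem_univ i)
  have hmem : p ∈ Polynomial.degreeLT ℂ M := by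
    rw [Polynomial.mem_degreeLT]
    exact lt_of_lt_of_le hdeg (by exact_mod_cast hM)
  refine ⟨⟨p, hmem⟩, ?_⟩
  ext i
  show (dimj_QB α β j i).eval (β i) * p.eval (α i) -
    (-1) ^ j * (dimj_QA α β j i).eval (α i) * p.eval (β i) = c i
  have h1 : p.eval (α i) = c i / (dimj_QB α β j i).eval (β i) := hev (Sum.inl i)
  have h2 : p.eval (β i) = 0 := hev (Sum.inr i)
  rw [h1, h2, mul_zero, sub_zero, mul_div_cancel₀ _ (hQB i)]

/-- division by the denominator -/
noncomputable def dimj_div (q : RatFunc ℂ) : Polynomial ℂ →ₗ[ℂ] RatFunc ℂ where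
  toFun p := algebraMap (Polynomial ℂ) (RatFunc ℂ) p * q
  map_add' a b := by rw [map_add, add_mul]
  map_smul' c a := by
    rw [RingHom.id_apply, Algebra.smul_def c a, map_mul, mul_assoc, Algebra.smul_def,
      ← IsScalarTower.algebraMap_apply ℂ (Polynomial ℂ) (RatFunc ℂ)]

/-- leading coefficients of forms -/
noncomputable def dimj_W0 (α β : Fin g → ℂ) (j M : ℕ) : Submodule ℂ (RatFunc ℂ) :=
  ((LinearMap.ker (dimj_T α β j M)).map (Polynomial.degreeLT ℂ M).subtype).map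
    (dimj_div (algebraMap (Polynomial ℂ) (RatFunc ℂ) (dimj_Q α β j))⁻¹)

theorem dimj_degreeLT (M : ℕ) : Module.Finite ℂ (Polynomial.degreeLT ℂ M) ∧
    Module.finrank ℂ (Polynomial.degreeLT ℂ M) = M := by
  refine ⟨Module.Finite.equiv (Polynomial.degreeLTEquiv ℂ M).symm, ?_⟩
  rw [LinearEquiv.finrank_eq (Polynomial.degreeLTEquiv ℂ M), Module.finrank_fin_fun]

theorem dimj_finrank (hd : Dist α β) (j : ℕ) {M : ℕ} (hM : 2 * g ≤ M) :
    Module.Finite ℂ (dimj_W0 α β j M) ∧ Module.finrank ℂ (dimj_W0 α β j M) + g ≤ M := by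
  obtain ⟨hfin, hrk⟩ := dimj_degreeLT M
  have hf1 : Module.Finite ℂ ((LinearMap.ker (dimj_T α β j M)).map
      (Polynomial.degreeLT ℂ M).subtype) := inferInstance
  refine ⟨?_, ?_⟩
  · unfold dimj_W0
    infer_instance
  · have h1 := LinearMap.finrank_range_add_finrank_ker (dimj_T α β j M)
    rw [LinearMap.range_eq_top.2 (dimj_surj hd j hM), finrank_top, Module.finrank_fin_fun,
      hrk] at h1
    have h2 : Module.finrank ℂ ((LinearMap.ker (dimj_T α β j M)).map
      (Polynomial.degreeLT ℂ M).subtype) = Module.finrank ℂ (LinearMap.ker (dimj_T α β j M)) :=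
      Submodule.finrank_map_subtype_eq _ _
    have h3 : Module.finrank ℂ (dimj_W0 α β j M) ≤
        Module.finrank ℂ ((LinearMap.ker (dimj_T α β j M)).map
          (Polynomial.degreeLT ℂ M).subtype) := Submodule.finrank_map_le _ _
    omega

theorem dimj_lead {j N : ℕ} (hN : 2 * g + 2 * j ≤ N + 2 * g * j + 1) {h : F} (h0 : h ≠ 0)
    (hh : Form α β j N h) :
    h.coeff h.order ∈ dimj_W0 α β j (N + 2 * g * j + 1 - 2 * j) := by
  obtain ⟨h1, h2, h3⟩ := hh
  have hlt : ∀ (P : Option ℂ) (m : ℤ) (γ : ℚ), γ < h.order → co P h m γ = 0 := by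
    intro P m γ hγ
    unfold co
    rw [HahnSeries.coeff_eq_zero_of_lt_order hγ, map_zero, HahnSeries.coeff_zero]
  obtain ⟨r, hr⟩ : ∃ r, r = h.coeff h.order := ⟨_, rfl⟩
  rw [← hr]
  have hco : ∀ (P : Option ℂ) (m : ℤ), (ex P r).coeff m = co P h m h.order := by
    intro P m
    rw [hr]
    rfl
  have hA : ∀ i, dimj_Ge (-(j : ℤ)) (ex (some (α i)) r) := by
    intro i m hm
    rw [hco]
    have h4 := h2 i (m + j) h.order
    rw [add_sub_cancel_right] at h4
    rw [h4, hlt _ _ _ (by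
      have : ((m + j : ℤ) : ℚ) < 0 := by exact_mod_cast (show m + (j : ℤ) < 0 by omega)
      linarith), mul_zero]
  have hB : ∀ i, dimj_Ge (-(j : ℤ)) (ex (some (β i)) r) := by
    intro i m hm
    rw [hco]
    have h4 := h2 i (-m - j) (h.order + ((m + j : ℤ) : ℚ))
    have e1 : -(-m - (j : ℤ)) - j = m := by ring
    have e2 : h.order + ((m + j : ℤ) : ℚ) + ((-m - j : ℤ) : ℚ) = h.order := by
      push_cast
      ring
    rw [e1, e2, hlt _ _ _ (by
      have : ((m + j : ℤ) : ℚ) < 0 := by exact_mod_cast (show m + (j : ℤ) < 0 by omega)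
      linarith)] at h4
    have h5 : ((-1 : ℂ)) ^ j ≠ 0 := pow_ne_zero _ (by norm_num)
    exact (mul_eq_zero.1 h4.symm).resolve_left h5
  have hAB : ∀ i, (ex (some (α i)) r).coeff (-(j : ℤ)) =
      (-1) ^ j * (ex (some (β i)) r).coeff (-(j : ℤ)) := by
    intro i
    have h4 := h2 i 0 h.order
    have e : h.order + ((0 : ℤ) : ℚ) = h.order := by
      push_cast
      ring
    rw [e, neg_zero, zero_sub] at h4
    rw [hco, hco]
    exact h4
  obtain ⟨q, hq⟩ : ∃ q, q = algebraMap (Polynomial ℂ) (RatFunc ℂ) (dimj_Q α β j) := ⟨_, rfl⟩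
  have hq0 : q ≠ 0 := by
    rw [hq]
    exact (map_ne_zero_iff _ (IsFractionRing.injective (Polynomial ℂ) (RatFunc ℂ))).2 (dimj_Q_ne j)
  obtain ⟨p, hp⟩ : ∃ p : Polynomial ℂ, r * q = algebraMap (Polynomial ℂ) (RatFunc ℂ) p := by
    apply ratfunc_poly
    intro c
    change dimj_Ge 0 (ex (some c) (r * q))
    by_cases hc : ∀ i, c ≠ α i ∧ c ≠ β i
    · rw [map_mul, ← add_zero (0 : ℤ), hq]
      exact dimj_ge_mul (fun m hm => by rw [hco]; exact h1 c hc m _ hm) (dimj_poly c _)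
    · push Not at hc
      obtain ⟨i, hi⟩ := hc
      by_cases ha : c = α i
      · rw [ha, hq, dimj_QA_mul j i]
        exact (dimj_lc (hA i) _).1
      · rw [hi ha, hq, dimj_QB_mul j i]
        exact (dimj_lc (hB i) _).1
  have hdeg : p ∈ Polynomial.degreeLT ℂ (N + 2 * g * j + 1 - 2 * j) := by
    rw [Polynomial.mem_degreeLT, Polynomial.degree_lt_iff_coeff_zero]
    intro k hk
    rw [← ex_poly_inf, ← hp, map_mul]
    have h4 : dimj_Ge (2 * j - N : ℤ) (ex none r) := fun m hm => by rw [hco]; exact h3 m _ hm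
    have h5 := dimj_inf (dimj_Q α β j)
    rw [← hq, dimj_Q_deg] at h5
    apply dimj_ge_mul h4 h5
    clear h5
    generalize 2 * g * j = E at *
    omega
  refine Submodule.mem_map.2 ⟨p, Submodule.mem_map.2 ⟨⟨p, hdeg⟩, ?_, rfl⟩, ?_⟩
  · rw [LinearMap.mem_ker]
    ext i
    show (dimj_QB α β j i).eval (β i) * p.eval (α i) -
      (-1) ^ j * (dimj_QA α β j i).eval (α i) * p.eval (β i) = 0
    have h4 := (dimj_lc (hA i) (dimj_QA α β j i)).2
    rw [← dimj_QA_mul j i, ← hq, hp, dimj_poly_zero] at h4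
    have h5 := (dimj_lc (hB i) (dimj_QB α β j i)).2
    rw [← dimj_QB_mul j i, ← hq, hp, dimj_poly_zero] at h5
    rw [h4, h5, hAB i]
    ring
  · show algebraMap (Polynomial ℂ) (RatFunc ℂ) p *
      (algebraMap (Polynomial ℂ) (RatFunc ℂ) (dimj_Q α β j))⁻¹ = r
    rw [← hp, ← hq, mul_assoc, mul_inv_cancel₀ hq0, mul_one]

theorem finrank_form (hd : Dist α β) (j N : ℕ) (hN : 2 * g + 2 * j ≤ N + 2 * g * j + 1)
    (W : Submodule K F) (hW : ∀ h ∈ W, Form α β j N h) :
    Module.Finite K W ∧ Module.finrank K W + g + 2 * j ≤ N + 2 * g * j + 1 := by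
  obtain ⟨hf, hr⟩ := dimj_finrank hd j (M := N + 2 * g * j + 1 - 2 * j) (by omega)
  have := hf
  obtain ⟨h1, h2⟩ := finrank_le W (dimj_W0 α β j (N + 2 * g * j + 1 - 2 * j))
    (fun f hfW hf0 => dimj_lead hN hf0 (hW f hfW))
  refine ⟨h1, ?_⟩
  omega

end Pool.Agent.TH291.C2
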