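import Pool.Agent.TH291.C2.Defs4

/-! Forms of weight `j` on the glued curve: products and derivatives. -/

set_option autoImplicit false
set_option maxSynthPendingDepth 4

namespace Pool.Agent.TH291.C2

open scoped TensorProduct

variable {g : ℕ} {α β : Fin g → ℂ}

theorem glueJ_zero {h : F} : GlueJ α β 0 h ↔ Glue α β h := by
  unfold GlueJ Glue
  simp only [Nat.cast_zero, sub_zero, pow_zero, one_mul]

/-- the reindexing of the exponents for a factor of weight `i` -/
def C2FORM_sigma (i : ℕ) : ℤ × ℚ ≃ ℤ × ℚ where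
  toFun p := (-p.1 - 2 * i, p.2 + p.1 + i)
  invFun p := (-p.1 - 2 * i, p.2 + p.1 + i)
  left_inv p := by
    apply Prod.ext
    · simp only
      ring
    · simp only
      push_cast
      ring
  right_inv p := by
    apply Prod.ext
    · simp only
      ring
    · simp only
      push_cast
      ring

theorem glueJ_mul {i j : ℕ} {f h : F} (hf : GlueJ α β i f) (hh : GlueJ α β j h) :
    GlueJ α β (i + j) (f * h) := by
  intro a m γ
  have h2 := finsum_comp_equiv (C2FORM_sigma i) (f := fun q : ℤ × ℚ =>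
    co (some (β a)) f q.1 q.2 * co (some (β a)) h (-m - ((i + j : ℕ) : ℤ) - q.1) (γ + m - q.2))
  rw [co_mul, co_mul, ← h2, mul_finsum]
  congr 1
  funext p
  have k1 := hf a (p.1 + i) p.2
  have k2 := hh a (m - i - p.1) (γ - p.2)
  have e1 : p.1 + (i : ℤ) - i = p.1 := by ring
  have e2 : m - (i : ℤ) - p.1 - j = m - ((i + j : ℕ) : ℤ) - p.1 := by push_cast; ring
  have e3 : -(p.1 + (i : ℤ)) - i = (C2FORM_sigma i p).1 := by
    change _ = -p.1 - 2 * (i : ℤ)
    ring
  have e4 : p.2 + ((p.1 + (i : ℤ) : ℤ) : ℚ) = (C2FORM_sigma i p).2 := by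
    change _ = p.2 + p.1 + (i : ℚ)
    push_cast
    ring
  have e5 : -(m - (i : ℤ) - p.1) - j = -m - ((i + j : ℕ) : ℤ) - (C2FORM_sigma i p).1 := by
    change _ = -m - ((i + j : ℕ) : ℤ) - (-p.1 - 2 * (i : ℤ))
    push_cast
    ring
  have e6 : γ - p.2 + ((m - (i : ℤ) - p.1 : ℤ) : ℚ) = γ + m - (C2FORM_sigma i p).2 := by
    change _ = γ + m - (p.2 + p.1 + (i : ℚ))
    push_cast
    ring
  rw [e1, e3, e4] at k1
  rw [e2, e5, e6] at k2
  rw [k1, k2, pow_add]
  ring

/-- coefficients of the derivative -/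
theorem C2FORM_co_dF {T : Tay} (hT : ∀ (c : ℂ) (r : RatFunc ℂ) (m : ℤ),
      (ex (some c) (PowerSeries.coeff 1 (T.σ r))).coeff (m - 1) = m * (ex (some c) r).coeff m)
    (h : F) (c : ℂ) (m : ℤ) (γ : ℚ) :
    co (some c) (dF T h) (m - 1) γ = m * co (some c) h m γ := hT c (h.coeff γ) m

theorem glueJ_dF {T : Tay} (hT : ∀ (c : ℂ) (r : RatFunc ℂ) (m : ℤ),
      (ex (some c) (PowerSeries.coeff 1 (T.σ r))).coeff (m - 1) = m * (ex (some c) r).coeff m)
    {h : F} (hh : Glue α β h) : GlueJ α β 1 (dF T h) := by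
  intro a m γ
  rw [Nat.cast_one, C2FORM_co_dF hT, C2FORM_co_dF hT, hh a m γ]
  push_cast
  ring

theorem reg_dF {T : Tay} (hT : ∀ (c : ℂ) (r : RatFunc ℂ) (m : ℤ),
      (ex (some c) (PowerSeries.coeff 1 (T.σ r))).coeff (m - 1) = m * (ex (some c) r).coeff m)
    {h : F} (hh : Reg α β h) : Reg α β (dF T h) := by
  intro c hc m γ hm
  have h1 := C2FORM_co_dF hT h c (m + 1) γ
  rw [add_sub_cancel_right] at h1
  rw [h1]
  rcases (show m + 1 ≤ 0 by omega).lt_or_eq with h2 | h2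
  · rw [hh c hc _ _ h2, mul_zero]
  · rw [h2, Int.cast_zero, zero_mul]

end Pool.Agent.TH291.C2
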