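import Pool.Agent.TH291.C2.Mul

/-! A quotient of glued functions is glued. -/

set_option autoImplicit false
set_option maxSynthPendingDepth 4

namespace Pool.Agent.TH291.C2

/-- the glueing involution `(m, γ) ↦ (-m, γ + m)` -/
def gdSig : (ℤ × ℚ) ≃ (ℤ × ℚ) :=
  Function.Involutive.toPerm (fun p => (-p.1, p.2 + p.1)) (by
    intro p
    ext <;> simp)

theorem gdSig_apply (p : ℤ × ℚ) : gdSig p = (-p.1, p.2 + p.1) := rfl

theorem gd_bdd {T : Set ℚ} (hT : T.IsPWO) : ∃ c : ℚ, ∀ x ∈ T, c ≤ x := by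
  rcases T.eq_empty_or_nonempty with h | h
  · exact ⟨0, by simp [h]⟩
  · exact ⟨hT.isWF.min h, fun x hx => hT.isWF.min_le h hx⟩

/-- least element for the order by `2 γ + m`, then `m` -/
theorem gd_least {S : Set (ℤ × ℚ)} (hne : S.Nonempty) {T : Set ℚ} (hT : T.IsPWO)
    (hST : ∀ p ∈ S, p.2 ∈ T ∨ p.2 + p.1 ∈ T) {M : ℚ}
    (hM : ∀ p ∈ S, -M ≤ p.2 ∧ -M ≤ p.2 + p.1) :
    ∃ p ∈ S, ∀ p' ∈ S, 2 * p.2 + p.1 < 2 * p'.2 + p'.1 ∨
      (2 * p.2 + p.1 = 2 * p'.2 + p'.1 ∧ p.1 ≤ p'.1) := by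
  obtain ⟨q, hq⟩ := hne
  set B : ℚ := 2 * q.2 + q.1 with hB
  set I : Finset ℤ := Finset.Icc ⌊-(B + 2 * M)⌋ ⌈B + 2 * M⌉ with hI
  have hmem : ∀ p ∈ S, 2 * p.2 + p.1 ≤ B → p.1 ∈ I := by
    intro p hp hpB
    obtain ⟨h1, h2⟩ := hM p hp
    rw [hI, Finset.mem_Icc]
    constructor
    · have : (⌊-(B + 2 * M)⌋ : ℚ) ≤ p.1 := (Int.floor_le _).trans (by linarith)
      exact_mod_cast this
    · have : (p.1 : ℚ) ≤ ⌈B + 2 * M⌉ := le_trans (by linarith) (Int.le_ceil _)
      exact_mod_cast this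
  set U : Set ℚ := ⋃ m ∈ I, (fun x : ℚ => 2 * x + (m : ℚ)) '' (T ∪ (fun x : ℚ => x - m) '' T)
    with hU
  have hUp : U.IsPWO := by
    rw [hU]
    refine (Finset.isPWO_bUnion I).2 ?_
    intro m _
    refine Set.IsPWO.image_of_monotone ?_ ?_
    · refine hT.union (hT.image_of_monotone ?_)
      intro x y hxy
      simp only
      linarith
    · intro x y hxy
      simp only
      linarith
  set W : Set ℚ := {w | w ≤ B ∧ ∃ p ∈ S, w = 2 * p.2 + p.1} with hW
  have hWU : W ⊆ U := by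
    rintro w ⟨hw, p, hp, rfl⟩
    rw [hU, Set.mem_iUnion₂]
    refine ⟨p.1, hmem p hp hw, p.2, ?_, rfl⟩
    rcases hST p hp with h | h
    · exact Or.inl h
    · exact Or.inr ⟨_, h, by simp⟩
  have hWp : W.IsWF := (hUp.mono hWU).isWF
  have hWne : W.Nonempty := ⟨B, le_rfl, q, hq, rfl⟩
  set w0 := hWp.min hWne with hw0
  have hw0m : w0 ∈ W := hWp.min_mem hWne
  have hw0l : ∀ p ∈ S, w0 ≤ 2 * p.2 + p.1 := by
    intro p hp
    by_cases h : 2 * p.2 + p.1 ≤ B
    · exact hWp.min_le hWne ⟨h, p, hp, rfl⟩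
    · exact hw0m.1.trans (le_of_not_ge h)
  -- the least first coordinate
  set J : Set ℤ := {m | ∃ p ∈ S, w0 = 2 * p.2 + p.1 ∧ p.1 = m} with hJ
  have hJfin : J.Finite := I.finite_toSet.subset (by
    rintro m ⟨p, hp, h1, rfl⟩
    exact hmem p hp (h1 ▸ hw0m.1))
  have hJne : J.Nonempty := by
    obtain ⟨-, p, hp, h1⟩ := hw0m
    exact ⟨p.1, p, hp, h1, rfl⟩
  obtain ⟨m0, ⟨p, hp, h1, h2⟩, hmin⟩ := Set.exists_min_image J id hJfin hJne
  refine ⟨p, hp, fun p' hp' => ?_⟩
  rcases (hw0l p' hp').lt_or_eq with h | h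
  · left
    rw [← h1]
    exact h
  · right
    refine ⟨by rw [← h1]; exact h, ?_⟩
    rw [h2]
    exact hmin _ ⟨p', hp', h, rfl⟩

-- C2-GLUEDIV
theorem glue_div {a b : ℂ} {u v h : F} (hv : v ≠ 0) (huv : u = h * v)
    (hu : ∀ (m : ℤ) (γ : ℚ), co (some a) u m γ = co (some b) u (-m) (γ + m))
    (hv' : ∀ (m : ℤ) (γ : ℚ), co (some a) v m γ = co (some b) v (-m) (γ + m))
    {M : ℚ} (h1 : ∀ (m : ℤ) (γ : ℚ), (m : ℚ) < -γ - M → co (some a) h m γ = 0)
    (h2 : ∀ (m : ℤ) (γ : ℚ), (m : ℚ) < -γ - M → co (some b) h m γ = 0) :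
    ∀ (m : ℤ) (γ : ℚ), co (some a) h m γ = co (some b) h (-m) (γ + m) := by
  -- support of the coefficients
  have hsupp : ∀ (P : Option ℂ) (f : F) (m : ℤ) (γ : ℚ), co P f m γ ≠ 0 → γ ∈ f.support := by
    intro P f m γ hne
    rw [HahnSeries.mem_support]
    intro h0
    apply hne
    rw [co, h0, map_zero, HahnSeries.coeff_zero]
  set e : ℤ × ℚ → ℂ := fun p => co (some a) h p.1 p.2 - co (some b) h (-p.1) (p.2 + p.1) with he
  have key : ∀ q : ℤ × ℚ, ∑ᶠ p : ℤ × ℚ, e p * co (some a) v (q.1 - p.1) (q.2 - p.2) = 0 := by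
    intro q
    have ha := co_mul (some a) h v q.1 q.2
    have hb := co_mul (some b) h v (-q.1) (q.2 + q.1)
    have hre : ∀ p : ℤ × ℚ, co (some b) h (gdSig p).1 (gdSig p).2 *
        co (some b) v (-q.1 - (gdSig p).1) (q.2 + q.1 - (gdSig p).2) =
        co (some b) h (-p.1) (p.2 + p.1) * co (some a) v (q.1 - p.1) (q.2 - p.2) := by
      intro p
      rw [gdSig_apply, hv' (q.1 - p.1) (q.2 - p.2)]
      congr 2
      · ring
      · push_cast
        ring
    have hb2 : co (some b) (h * v) (-q.1) (q.2 + q.1) =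
        ∑ᶠ p : ℤ × ℚ, co (some b) h (-p.1) (p.2 + p.1) *
          co (some a) v (q.1 - p.1) (q.2 - p.2) := by
      rw [hb, ← finsum_comp_equiv gdSig]
      exact finsum_congr hre
    have hf1 := co_mul_finite (some a) h v q.1 q.2
    have hf2 : (Function.support fun p : ℤ × ℚ => co (some b) h (-p.1) (p.2 + p.1) *
          co (some a) v (q.1 - p.1) (q.2 - p.2)).Finite := by
      have h3 := co_mul_finite (some b) h v (-q.1) (q.2 + q.1)
      refine (h3.preimage (f := gdSig) gdSig.injective.injOn).subset ?_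
      intro p hp
      rw [Function.mem_support] at hp
      rw [Set.mem_preimage, Function.mem_support, hre]
      exact hp
    have h4 : ∀ p : ℤ × ℚ, e p * co (some a) v (q.1 - p.1) (q.2 - p.2) =
        co (some a) h p.1 p.2 * co (some a) v (q.1 - p.1) (q.2 - p.2) -
          co (some b) h (-p.1) (p.2 + p.1) * co (some a) v (q.1 - p.1) (q.2 - p.2) := by
      intro p
      rw [he]
      ring
    rw [finsum_congr h4, finsum_sub_distrib hf1 hf2, ← ha, ← hb2, ← huv, hu, sub_self]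
  by_contra hcon
  push Not at hcon
  obtain ⟨m', γ', hmγ⟩ := hcon
  have hne : {p : ℤ × ℚ | e p ≠ 0}.Nonempty := ⟨(m', γ'), by
    simpa [he, sub_eq_zero] using hmγ⟩
  obtain ⟨c0, hc0⟩ := gd_bdd h.isPWO_support
  obtain ⟨c1, hc1⟩ := gd_bdd v.isPWO_support
  have hcases : ∀ p : ℤ × ℚ, e p ≠ 0 → (p.2 ∈ h.support ∧ -M ≤ p.2 + p.1) ∨
      (p.2 + p.1 ∈ h.support ∧ -M ≤ p.2) := by
    intro p hp
    by_cases h3 : co (some a) h p.1 p.2 = 0
    · right
      have h4 : co (some b) h (-p.1) (p.2 + p.1) ≠ 0 := by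
        intro h5
        apply hp
        rw [he]
        simp only
        rw [h3, h5, sub_zero]
      refine ⟨hsupp _ _ _ _ h4, ?_⟩
      by_contra h5
      apply h4
      apply h2
      push_cast
      linarith
    · left
      refine ⟨hsupp _ _ _ _ h3, ?_⟩
      by_contra h5
      apply h3
      apply h1
      linarith
  obtain ⟨p0, hp0, hmin0⟩ := gd_least hne h.isPWO_support (M := max M (-c0))
    (fun p hp => by
      rcases hcases p hp with h3 | h3
      · exact Or.inl h3.1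
      · exact Or.inr h3.1)
    (fun p hp => by
      have e1 := le_max_left M (-c0)
      have e2 := le_max_right M (-c0)
      rcases hcases p hp with h3 | h3
      · have := hc0 _ h3.1
        constructor <;> linarith [h3.2]
      · have := hc0 _ h3.1
        constructor <;> linarith [h3.2])
  have hvne : {p : ℤ × ℚ | co (some a) v p.1 p.2 ≠ 0}.Nonempty := by
    obtain ⟨γ, hγ⟩ : ∃ γ, v.coeff γ ≠ 0 := by
      by_contra hc
      push Not at hc
      exact hv (HahnSeries.ext (funext hc))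
    have h3 : ex (some a) (v.coeff γ) ≠ 0 := by
      rw [Ne, map_eq_zero]
      exact hγ
    obtain ⟨m, hm⟩ : ∃ m, (ex (some a) (v.coeff γ)).coeff m ≠ 0 := by
      by_contra hc
      push Not at hc
      exact h3 (HahnSeries.ext (funext hc))
    exact ⟨(m, γ), hm⟩
  obtain ⟨p1, hp1, hmin1⟩ := gd_least hvne v.isPWO_support (M := -c1)
    (fun p hp => Or.inl (hsupp _ _ _ _ hp))
    (fun p hp => by
      have e1 := hc1 _ (hsupp _ _ _ _ hp)
      have e2 : co (some b) v (-p.1) (p.2 + p.1) ≠ 0 := by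
        rw [← hv']
        exact hp
      have e3 := hc1 _ (hsupp _ _ _ _ e2)
      constructor <;> linarith)
  have h6 := key (p0 + p1)
  rw [finsum_eq_single _ p0] at h6
  · have h7 : co (some a) v ((p0 + p1).1 - p0.1) ((p0 + p1).2 - p0.2) ≠ 0 := by
      have e1 : (p0 + p1).1 - p0.1 = p1.1 := by simp
      have e2 : (p0 + p1).2 - p0.2 = p1.2 := by simp
      rw [e1, e2]
      exact hp1
    exact (mul_ne_zero hp0 h7) h6
  · intro p hpne
    by_contra h8
    have h9 : e p ≠ 0 := left_ne_zero_of_mul h8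
    have h10 : co (some a) v ((p0 + p1).1 - p.1) ((p0 + p1).2 - p.2) ≠ 0 :=
      right_ne_zero_of_mul h8
    have h11 := hmin0 p h9
    have h12 := hmin1 ((p0 + p1).1 - p.1, (p0 + p1).2 - p.2) h10
    simp only [Prod.fst_add, Prod.snd_add] at h12
    push_cast at h12
    apply hpne
    rcases h11 with h11 | h11 <;> rcases h12 with h12 | h12
    · exfalso; linarith
    · exfalso; linarith [h12.1]
    · exfalso; linarith [h11.1]
    · have e1 : p.1 = p0.1 := by
        have := h11.2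
        have := h12.2
        omega
      have e2 : p.2 = p0.2 := by
        have := h11.1
        rw [e1] at this
        linarith
      exact Prod.ext e1 e2

end Pool.Agent.TH291.C2
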