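import Pool.Agent.TH291.C2.Tens
import Pool.Agent.TH291.C2.AI
import Pool.Agent.TH291.C2.GDiv

/-! The algebra of glued functions is integrally closed. -/

set_option autoImplicit false
set_option maxSynthPendingDepth 4

namespace Pool.Agent.TH291.C2

variable {g : ℕ} {α β : Fin g → ℂ}

/-- lower bound for the exponents -/
def Bd (P : Option ℂ) (s : ℚ) (M : ℕ) (f : F) : Prop :=
  ∀ (m : ℤ) (γ : ℚ), (m : ℚ) < -(s * γ) - M → co P f m γ = 0

theorem Bd.mono {P : Option ℂ} {s : ℚ} {M M' : ℕ} (h : M ≤ M') {f : F} (hf : Bd P s M f) : Bd P s M' f :=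
  fun m γ hm => hf m γ (by
    have : (M : ℚ) ≤ M' := by exact_mod_cast h
    linarith)

theorem Bd.mul {P : Option ℂ} {s : ℚ} {M M' : ℕ} {f h : F} (hf : Bd P s M f) (hh : Bd P s M' h) :
    Bd P s (M + M') (f * h) := by
  intro m γ hm
  rw [co_mul]
  apply finsum_eq_zero_of_forall_eq_zero
  rintro ⟨m₁, γ₁⟩
  by_cases h1 : (m₁ : ℚ) < -(s * γ₁) - M
  · simp only [hf m₁ γ₁ h1, zero_mul]
  · have h2 : ((m - m₁ : ℤ) : ℚ) < -(s * (γ - γ₁)) - M' := by
      push_cast at hm ⊢
      have h3 : s * (γ - γ₁) = s * γ - s * γ₁ := by ring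
      rw [h3]
      linarith
    simp only [hh (m - m₁) (γ - γ₁) h2, mul_zero]

theorem Bd.add {P : Option ℂ} {s : ℚ} {M : ℕ} {f h : F} (hf : Bd P s M f) (hh : Bd P s M h) :
    Bd P s M (f + h) := fun m γ hm => by
  rw [co_add, hf m γ hm, hh m γ hm, add_zero]

theorem Bd.neg {P : Option ℂ} {s : ℚ} {M : ℕ} {f : F} (hf : Bd P s M f) :
    Bd P s M (-f) := fun m γ hm => by
  rw [co_neg, hf m γ hm, neg_zero]

theorem Bd.sum {P : Option ℂ} {s : ℚ} {M : ℕ} {ι : Type} (t : Finset ι) {f : ι → F}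
    (hf : ∀ i ∈ t, Bd P s M (f i)) : Bd P s M (∑ i ∈ t, f i) := by
  classical
  induction t using Finset.induction_on with
  | empty => intro m γ _; rw [Finset.sum_empty, co_zero]
  | insert a t ha ih =>
    rw [Finset.sum_insert ha]
    exact (hf a (Finset.mem_insert_self _ _)).add (ih fun i hi => hf i (Finset.mem_insert_of_mem hi))

theorem growth {P : Option ℂ} {s : ℚ} {L c : ℕ} {h v : F} (p : Polynomial (Alg α β)) (hp : p.Monic)
    (hp0 : p.eval₂ (Alg α β).val.toRingHom h = 0)
    (h1 : ∀ i < p.natDegree, Bd P s L (p.coeff i).1)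
    (h2 : ∀ j < p.natDegree, Bd P s c (v ^ p.natDegree * h ^ j)) (n : ℕ) :
    Bd P s (L * n + c) (v ^ p.natDegree * h ^ n) := by
  induction n using Nat.strong_induction_on with
  | _ n ih =>
    rcases lt_or_ge n p.natDegree with hn | hn
    · exact (h2 n hn).mono (Nat.le_add_left _ _)
    · have e1 : h ^ p.natDegree = -∑ i ∈ Finset.range p.natDegree, (p.coeff i).1 * h ^ i := by
        rw [Polynomial.eval₂_eq_sum_range, Finset.sum_range_succ] at hp0
        have h3 : (Alg α β).val.toRingHom (p.coeff p.natDegree) = 1 := by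
          rw [Polynomial.coeff_natDegree, hp.leadingCoeff, map_one]
        rw [h3, one_mul] at hp0
        rw [eq_neg_iff_add_eq_zero, add_comm]
        exact hp0
      have e2 : v ^ p.natDegree * h ^ n
          = -∑ i ∈ Finset.range p.natDegree, (p.coeff i).1 * (v ^ p.natDegree * h ^ (n - p.natDegree + i)) := by
        have e3 : h ^ n = h ^ (n - p.natDegree) * h ^ p.natDegree := by
          rw [← pow_add]; congr 1; omega
        rw [e3, e1, mul_neg, mul_neg, Finset.mul_sum, Finset.mul_sum]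
        congr 1
        refine Finset.sum_congr rfl fun i _ => ?_
        rw [pow_add]
        ring
      rw [e2]
      refine (Bd.sum _ fun i hi => ?_).neg
      rw [Finset.mem_range] at hi
      have h4 := (h1 i hi).mul (ih (n - p.natDegree + i) (by omega))
      refine h4.mono ?_
      have h5 : n - p.natDegree + i + 1 ≤ n := by omega
      calc L + (L * (n - p.natDegree + i) + c) = L * (n - p.natDegree + i + 1) + c := by ring
        _ ≤ L * n + c := Nat.add_le_add_right (Nat.mul_le_mul_left _ h5) _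

theorem exists_growth {P : Option ℂ} {s : ℚ} (hA : ∀ f : Alg α β, ∃ M : ℕ, Bd P s M f.1)
    {h : F} {u v : Alg α β} (huv : h * v.1 = u.1) (p : Polynomial (Alg α β)) (hp : p.Monic)
    (hp0 : p.eval₂ (Alg α β).val.toRingHom h = 0) :
    ∃ L c : ℕ, ∀ n, Bd P s (L * n + c) (v.1 ^ p.natDegree * h ^ n) := by
  choose M hM using hA
  have h2 : ∀ j < p.natDegree, v.1 ^ p.natDegree * h ^ j = (v ^ (p.natDegree - j) * u ^ j : Alg α β).1 := by
    intro j hj
    have e : v.1 ^ p.natDegree = v.1 ^ (p.natDegree - j) * v.1 ^ j := by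
      rw [← pow_add]; congr 1; omega
    rw [e, mul_assoc, ← mul_pow, mul_comm v.1 h, huv]
    rfl
  refine ⟨∑ i ∈ Finset.range p.natDegree, M (p.coeff i),
    ∑ j ∈ Finset.range p.natDegree, M (v ^ (p.natDegree - j) * u ^ j), fun n => ?_⟩
  refine growth p hp hp0 ?_ ?_ n
  · intro i hi
    exact (hM _).mono (Finset.single_le_sum (f := fun i => M (p.coeff i)) (fun _ _ => Nat.zero_le _)
      (Finset.mem_range.2 hi))
  · intro j hj
    rw [h2 j hj]
    exact (hM _).mono (Finset.single_le_sum (f := fun j => M (v ^ (p.natDegree - j) * u ^ j))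
      (fun _ _ => Nat.zero_le _) (Finset.mem_range.2 hj))

theorem co_t_mul (P : Option ℂ) (k : ℕ) (f : F) (m : ℤ) (γ : ℚ) :
    co P ((HahnSeries.single (1 : ℚ) (1 : RatFunc ℂ)) ^ k * f) m γ = co P f m (γ - k) := by
  unfold co
  have h0 : (HahnSeries.single (1 : ℚ) (1 : RatFunc ℂ)) ^ k = HahnSeries.single (k : ℚ) (1 : RatFunc ℂ) := by
    rw [HahnSeries.single_pow]; simp
  rw [h0]
  have := HahnSeries.coeff_single_mul_add (r := (1 : RatFunc ℂ)) (x := f) (a := γ - k) (b := (k : ℚ))
  rw [one_mul, sub_add_cancel] at this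
  rw [this]

theorem co_x_mul (k : ℕ) (f : F) (m : ℤ) (γ : ℚ) :
    co none ((HahnSeries.C (RatFunc.X⁻¹ : RatFunc ℂ)) ^ k * f) m γ = co none f (m - k) γ := by
  have h1 : ex none (RatFunc.X : RatFunc ℂ) = HahnSeries.single (-1) 1 := by
    rw [← RatFunc.algebraMap_X]
    unfold ex
    rw [IsFractionRing.lift_algebraMap]
    simp [loc]
  have h2 : ex none (RatFunc.X⁻¹ : RatFunc ℂ) = HahnSeries.single 1 1 := by
    rw [map_inv₀, h1, HahnSeries.inv_single]
    simp
  unfold co
  rw [← map_pow, HahnSeries.C_mul_eq_smul, HahnSeries.coeff_smul, smul_eq_mul, map_mul, map_pow, h2]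
  have h0 : (HahnSeries.single (1 : ℤ) (1 : ℂ)) ^ k = HahnSeries.single (k : ℤ) (1 : ℂ) := by
    rw [HahnSeries.single_pow]; simp
  rw [h0]
  have := HahnSeries.coeff_single_mul_add (r := (1 : ℂ)) (x := ex none (f.coeff γ)) (a := m - k) (b := (k : ℤ))
  rw [one_mul, sub_add_cancel] at this
  rw [this]

theorem bd_node {a b : ℂ} (hn : Node α β a b) (f : Alg α β) : ∃ M : ℕ, Bd (some a) 1 M f.1 := by
  obtain ⟨M, hM⟩ := exists_nat_ge (-f.1.order)
  refine ⟨M, fun m γ hm => ?_⟩
  by_contra h0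
  have := (bdd_of_order hn f.2.2.1 (M := M) (by linarith) m γ h0).2
  linarith

theorem bound_node {a b : ℂ} (hn : Node α β a b) {h : F} {u v : Alg α β} (hv : v.1 ≠ 0)
    (huv : h * v.1 = u.1) (p : Polynomial (Alg α β)) (hp : p.Monic)
    (hp0 : p.eval₂ (Alg α β).val.toRingHom h = 0) : ∃ M : ℕ, Bd (some a) 1 M h := by
  obtain ⟨L, c, hLc⟩ := exists_growth (bd_node hn) huv p hp hp0
  set t : F := HahnSeries.single (1 : ℚ) (1 : RatFunc ℂ) with ht
  have ht0 : t ≠ 0 := HahnSeries.single_ne_zero one_ne_zero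
  refine ⟨L, fun m γ hm => ?_⟩
  have key := almost_int (some a) 1 (t ^ c * v.1 ^ p.natDegree) (t ^ L * h)
    (mul_ne_zero (pow_ne_zero _ ht0) (pow_ne_zero _ hv)) ?_ m (γ + L) (by linarith)
  · rw [ht, co_t_mul, add_sub_cancel_right] at key
    exact key
  · intro n m γ hm
    have e : t ^ c * v.1 ^ p.natDegree * (t ^ L * h) ^ n = t ^ (L * n + c) * (v.1 ^ p.natDegree * h ^ n) := by
      rw [mul_pow, ← pow_mul, pow_add]; ring
    rw [e, ht, co_t_mul]
    refine hLc n m _ ?_
    linarith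

/-- integral elements of the fraction field belong to the algebra -/
theorem mem_of_integral {h : F} {u v : Alg α β} (hv : v.1 ≠ 0)
    (huv : h * v.1 = u.1) (p : Polynomial (Alg α β)) (hp : p.Monic)
    (hp0 : p.eval₂ (Alg α β).val.toRingHom h = 0) : h ∈ Alg α β := by
  refine ⟨?_, ?_, ?_⟩
  · -- regular points
    intro c hc m γ hm
    have hA : ∀ f : Alg α β, Bd (some c) 0 0 f.1 := by
      intro f m γ hm
      refine f.2.1 c hc m γ ?_
      have : (m : ℚ) < 0 := by simpa using hm
      exact_mod_cast this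
    have h2 : ∀ j < p.natDegree, v.1 ^ p.natDegree * h ^ j = (v ^ (p.natDegree - j) * u ^ j : Alg α β).1 := by
      intro j hj
      have e : v.1 ^ p.natDegree = v.1 ^ (p.natDegree - j) * v.1 ^ j := by
        rw [← pow_add]; congr 1; omega
      rw [e, mul_assoc, ← mul_pow, mul_comm v.1 h, huv]
      rfl
    have hg := growth (P := some c) (s := 0) (L := 0) (c := 0) p hp hp0 (fun i _ => hA _)
      (fun j hj => by rw [h2 j hj]; exact hA _)
    refine almost_int (some c) 0 (v.1 ^ p.natDegree) h (pow_ne_zero _ hv) ?_ m γ (by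
      have : (m : ℚ) < 0 := by exact_mod_cast hm
      simpa using this)
    intro n m γ hm
    exact hg n m γ (by simpa using hm)
  · -- gluing
    intro i
    obtain ⟨M, hM⟩ := bound_node (node_fst i) hv huv p hp hp0
    obtain ⟨M', hM'⟩ := bound_node (node_snd i) hv huv p hp hp0
    refine glue_div (M := (max M M' : ℕ)) hv huv.symm (fun m γ => u.2.2.1 i m γ) (fun m γ => v.2.2.1 i m γ) ?_ ?_
    · intro m γ hm
      exact hM.mono (le_max_left _ _) m γ (by linarith)
    · intro m γ hm
      exact hM'.mono (le_max_right _ _) m γ (by linarith)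
  · -- infinity
    have hA : ∀ f : Alg α β, ∃ M : ℕ, Bd none 0 M f.1 := by
      intro f
      obtain ⟨n, hn⟩ := f.2.2.2
      refine ⟨n, fun m γ hm => hn m γ ?_⟩
      have : (m : ℚ) < -(n : ℚ) := by linarith
      exact_mod_cast this
    obtain ⟨L, c, hLc⟩ := exists_growth hA huv p hp hp0
    set t : F := HahnSeries.C (RatFunc.X⁻¹ : RatFunc ℂ) with ht
    have ht0 : t ≠ 0 := by
      rw [ht]
      intro h0
      have := (map_eq_zero_iff (HahnSeries.C : RatFunc ℂ →+* F) HahnSeries.C_injective).1 h0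
      exact inv_ne_zero RatFunc.X_ne_zero this
    refine ⟨L, fun m γ hm => ?_⟩
    have key := almost_int none 0 (t ^ c * v.1 ^ p.natDegree) (t ^ L * h)
      (mul_ne_zero (pow_ne_zero _ ht0) (pow_ne_zero _ hv)) ?_ (m + L) γ (by
        have : ((m : ℚ)) < -(L : ℚ) := by exact_mod_cast hm
        push_cast
        linarith)
    · rw [ht, co_x_mul, add_sub_cancel_right] at key
      exact key
    · intro n m γ hm
      have e : t ^ c * v.1 ^ p.natDegree * (t ^ L * h) ^ n = t ^ (L * n + c) * (v.1 ^ p.natDegree * h ^ n) := by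
        rw [mul_pow, ← pow_mul, pow_add]; ring
      rw [e, ht, co_x_mul]
      refine hLc n _ γ ?_
      push_cast at hm ⊢
      linarith

instance : IsDomain (Alg α β) := inferInstance

theorem intClosed : IsIntegrallyClosed (Alg α β) := by
  rw [isIntegrallyClosed_iff (FractionRing (Alg α β))]
  intro x hx
  have hinj : Function.Injective (Alg α β).val.toRingHom := Subtype.val_injective
  let j : FractionRing (Alg α β) →+* F := IsFractionRing.lift hinj
  have hj : ∀ a : Alg α β, j (algebraMap _ _ a) = a.1 := fun a => IsFractionRing.lift_algebraMap hinj a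
  obtain ⟨u, v, hv, hx'⟩ := IsFractionRing.div_surjective (A := Alg α β) x
  have hv0 : v ≠ 0 := nonZeroDivisors.ne_zero hv
  have hv1 : v.1 ≠ 0 := fun h => hv0 (Subtype.ext h)
  obtain ⟨p, hp, hp0⟩ := hx
  have huv : j x * v.1 = u.1 := by
    rw [← hj v, ← hj u, ← map_mul, ← hx', div_mul_cancel₀]
    intro h
    exact hv0 ((map_eq_zero_iff _ (IsFractionRing.injective (Alg α β) _)).1 h)
  have hp1 : p.eval₂ (Alg α β).val.toRingHom (j x) = 0 := by
    have h1 : (Alg α β).val.toRingHom = j.comp (algebraMap _ _) := by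
      ext1 a; exact (hj a).symm
    rw [h1, ← Polynomial.hom_eval₂, hp0, map_zero]
  have hmem := mem_of_integral hv1 huv p hp hp1
  refine ⟨⟨j x, hmem⟩, ?_⟩
  apply j.injective
  rw [hj]

end Pool.Agent.TH291.C2
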