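import Pool.Agent.TH291.C2.DD
import Pool.Agent.TH291.C2.Form
import Pool.Agent.TH291.C2.Int

/-! Leading terms of elements of `V n ⊗ V n ∩ I ^ j` are forms of weight `j`. -/

set_option autoImplicit false
set_option maxSynthPendingDepth 4

namespace Pool.Agent.TH291.C2

open scoped TensorProduct

variable {g : ℕ} {α β : Fin g → ℂ}

theorem DD_zero_eq (T : Tay) (x : Alg α β ⊗[K] Alg α β) :
    DD T 0 x = (Algebra.TensorProduct.lmul' K (S := Alg α β) x).1 := by
  induction x using TensorProduct.induction_on with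
  | zero => rw [map_zero, map_zero]; rfl
  | tmul a b => rw [DD_zero_tmul, Algebra.TensorProduct.lmul'_apply_tmul]; rfl
  | add a b ha hb => rw [map_add, map_add, ha, hb]; rfl

/-- induction for the leading terms of two Taylor homomorphisms -/
theorem DD_induct {T I : Tay} (Q : ℕ → F → F → Prop) (hz : ∀ j, Q j 0 0)
    (ha : ∀ j f f' h h', Q j f f' → Q j h h' → Q j (f + h) (f' + h'))
    (hm : ∀ i j f f' h h', Q i f f' → Q j h h' → Q (i + j) (f * h) (f' * h'))
    (h0 : ∀ a : Alg α β, Q 0 a.1 a.1)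
    (h1 : ∀ a : Alg α β, Q 1 (-dF T a.1) (-dF I a.1)) (j : ℕ) (x : Alg α β ⊗[K] Alg α β)
    (hx : x ∈ (KaehlerDifferential.ideal K (Alg α β)) ^ j) : Q j (DD T j x) (DD I j x) := by
  have hQ0 : ∀ x : Alg α β ⊗[K] Alg α β, Q 0 (DD T 0 x) (DD I 0 x) := by
    intro x
    rw [DD_zero_eq, DD_zero_eq]
    exact h0 _
  have hQ1 : ∀ x ∈ KaehlerDifferential.ideal K (Alg α β), Q 1 (DD T 1 x) (DD I 1 x) := by
    intro x hx
    rw [← KaehlerDifferential.span_range_eq_ideal] at hx
    induction hx using Submodule.span_induction with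
    | mem y hy =>
      obtain ⟨s, rfl⟩ := hy
      have e1 := DD_one_diff T s
      have e2 := DD_one_diff I s
      change Q 1 (DD T 1 ((1 : Alg α β) ⊗ₜ[K] s - s ⊗ₜ[K] (1 : Alg α β)))
        (DD I 1 ((1 : Alg α β) ⊗ₜ[K] s - s ⊗ₜ[K] (1 : Alg α β)))
      rw [e1, e2]
      exact h1 s
    | zero => rw [map_zero, map_zero]; exact hz 1
    | add y z _ _ h h' => rw [map_add, map_add]; exact ha _ _ _ _ _ h h'
    | smul r y hy h =>
      have hy' : y ∈ (KaehlerDifferential.ideal K (Alg α β)) ^ 1 := by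
        rw [pow_one, ← KaehlerDifferential.span_range_eq_ideal]; exact hy
      have hr : r ∈ (KaehlerDifferential.ideal K (Alg α β)) ^ 0 := by rw [pow_zero, Ideal.one_eq_top]; trivial
      have e1 := DD_mul T 0 1 r y hr hy'
      have e2 := DD_mul I 0 1 r y hr hy'
      rw [zero_add] at e1 e2
      rw [smul_eq_mul, e1, e2]
      have := hm 0 1 _ _ _ _ (hQ0 r) h
      rwa [zero_add] at this
  induction j generalizing x with
  | zero => exact hQ0 x
  | succ j ih =>
    rw [pow_succ] at hx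
    induction hx using Submodule.mul_induction_on' with
    | mem_mul_mem x hx y hy =>
      have hy' : y ∈ (KaehlerDifferential.ideal K (Alg α β)) ^ 1 := by rw [pow_one]; exact hy
      rw [DD_mul T j 1 x y hx hy', DD_mul I j 1 x y hx hy']
      exact hm _ _ _ _ _ _ (ih x hx) (hQ1 y hy)
    | add x _ y _ h h' => rw [map_add, map_add]; exact ha _ _ _ _ _ h h'

/-- the function `-x²` -/
noncomputable def kap : F := HahnSeries.C (-(RatFunc.X ^ 2) : RatFunc ℂ)

/-- the function `1/x` -/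
noncomputable def yy : F := HahnSeries.C (RatFunc.X⁻¹ : RatFunc ℂ)

theorem yy_kap : yy ^ 2 * kap = -1 := by
  unfold yy kap
  rw [← map_pow, ← map_mul]
  have : ((RatFunc.X⁻¹ : RatFunc ℂ) ^ 2 * -(RatFunc.X ^ 2)) = -1 := by
    have hX : (RatFunc.X : RatFunc ℂ) ≠ 0 := RatFunc.X_ne_zero
    field_simp
  rw [this, map_neg, map_one]

theorem DD_rel {T I : Tay}
    (h3 : ∀ r : RatFunc ℂ, PowerSeries.coeff 1 (I.σ r) = -(RatFunc.X ^ 2) * PowerSeries.coeff 1 (T.σ r))
    (j : ℕ) (x : Alg α β ⊗[K] Alg α β) (hx : x ∈ (KaehlerDifferential.ideal K (Alg α β)) ^ j) :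
    DD I j x = kap ^ j * DD T j x := by
  refine DD_induct (T := T) (I := I) (fun j f f' => f' = kap ^ j * f) ?_ ?_ ?_ ?_ ?_ j x hx
  · intro j; rw [mul_zero]
  · rintro j f f' h h' rfl rfl; rw [mul_add]
  · rintro i j f f' h h' rfl rfl; rw [pow_add]; ring
  · intro a; rw [pow_zero, one_mul]
  · intro a
    rw [pow_one]
    ext1; funext γ
    have e : (kap * -dF T a.1).coeff γ = -(RatFunc.X ^ 2) * (-dF T a.1).coeff γ := by
      unfold kap
      rw [HahnSeries.C_mul_eq_smul, HahnSeries.coeff_smul, smul_eq_mul]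
    rw [e, HahnSeries.coeff_neg, HahnSeries.coeff_neg]
    have e2 : (dF I a.1).coeff γ = -(RatFunc.X ^ 2) * (dF T a.1).coeff γ := h3 (a.1.coeff γ)
    rw [e2]; ring

theorem DD_form {T : Tay} (hT : ∀ (c : ℂ) (r : RatFunc ℂ) (m : ℤ),
      (ex (some c) (PowerSeries.coeff 1 (T.σ r))).coeff (m - 1) = m * (ex (some c) r).coeff m)
    (j : ℕ) (x : Alg α β ⊗[K] Alg α β) (hx : x ∈ (KaehlerDifferential.ideal K (Alg α β)) ^ j) :
    Reg α β (DD T j x) ∧ GlueJ α β j (DD T j x) := by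
  refine DD_induct (T := T) (I := T) (fun j f _ => Reg α β f ∧ GlueJ α β j f) ?_ ?_ ?_ ?_ ?_ j x hx
  · intro j
    exact ⟨fun c _ m γ _ => co_zero _ _ _, fun i m γ => by rw [co_zero, co_zero, mul_zero]⟩
  · rintro j f f' h h' ⟨a1, a2⟩ ⟨b1, b2⟩
    exact ⟨reg_add a1 b1, fun i m γ => by rw [co_add, co_add, a2 i m γ, b2 i m γ, mul_add]⟩
  · rintro i j f f' h h' ⟨a1, a2⟩ ⟨b1, b2⟩
    exact ⟨reg_mul a1 b1, glueJ_mul a2 b2⟩
  · intro a
    exact ⟨a.2.1, glueJ_zero.2 a.2.2.1⟩
  · intro a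
    have r1 := reg_dF (α := α) (β := β) hT a.2.1
    have g1 := glueJ_dF (α := α) (β := β) hT a.2.2.1
    exact ⟨fun c hc m γ hm => by rw [co_neg, r1 c hc m γ hm, neg_zero],
      fun i m γ => by rw [co_neg, co_neg, g1 i m γ]; ring⟩

/-- rational functions regular at infinity -/
noncomputable def O : Subring (RatFunc ℂ) where
  carrier := {r | ∀ m : ℤ, m < 0 → (ex none r).coeff m = 0}
  mul_mem' := by
    intro a b ha hb m hm
    rw [map_mul, HahnSeries.coeff_mul]
    refine Finset.sum_eq_zero fun p hp => ?_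
    rw [Finset.mem_antidiagonal] at hp
    rcases lt_or_ge p.1 0 with h | h
    · rw [ha p.1 h, zero_mul]
    · rw [hb p.2 (by omega), mul_zero]
  one_mem' := by
    intro m hm
    rw [map_one, HahnSeries.coeff_one, if_neg hm.ne]
  add_mem' := by
    intro a b ha hb m hm
    rw [map_add, HahnSeries.coeff_add, ha m hm, hb m hm, add_zero]
  zero_mem' := by
    intro m _
    rw [map_zero, HahnSeries.coeff_zero]
  neg_mem' := by
    intro a ha m hm
    rw [map_neg, HahnSeries.coeff_neg, ha m hm, neg_zero]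

theorem mem_O {r : RatFunc ℂ} : r ∈ O ↔ ∀ m : ℤ, m < 0 → (ex none r).coeff m = 0 := Iff.rfl

/-- all coefficients regular at infinity -/
def RI (z : EE) : Prop := ∀ (γ : ℚ) (i : ℕ), PowerSeries.coeff i (z.coeff γ) ∈ O

theorem RI.mul {z w : EE} (hz : RI z) (hw : RI w) : RI (z * w) := by
  intro γ i
  rw [HahnSeries.coeff_mul, map_sum]
  refine Subring.sum_mem _ fun p _ => ?_
  rw [PowerSeries.coeff_mul]
  exact Subring.sum_mem _ fun q _ => O.mul_mem (hz _ _) (hw _ _)

theorem RI.add {z w : EE} (hz : RI z) (hw : RI w) : RI (z + w) := by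
  intro γ i
  rw [HahnSeries.coeff_add, map_add]
  exact O.add_mem (hz _ _) (hw _ _)

theorem RI_zero : RI 0 := by
  intro γ i
  rw [HahnSeries.coeff_zero, map_zero]
  exact O.zero_mem

theorem RI_first {I : Tay} (h2 : ∀ (r : RatFunc ℂ), (∀ m : ℤ, m < 0 → (ex none r).coeff m = 0) →
      ∀ (i : ℕ) (m : ℤ), m < 0 → (ex none (PowerSeries.coeff i (I.σ r))).coeff m = 0)
    {n : ℕ} {u : F} (hu : Pole n u) : RI (mapH I.σ (yy ^ n * u)) := by
  intro γ i
  rw [mapH_coeff, mem_O]
  refine h2 _ ?_ i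
  intro m hm
  have := co_x_mul n u m γ
  change co none (yy ^ n * u) m γ = 0
  unfold yy
  rw [this]
  exact hu _ _ (by omega)

theorem RI_second {n : ℕ} {u : F} (hu : Pole n u) :
    RI (mapH (PowerSeries.C : RatFunc ℂ →+* PowerSeries (RatFunc ℂ)) (yy ^ n * u)) := by
  intro γ i
  rw [mapH_coeff, PowerSeries.coeff_C]
  split_ifs
  · intro m hm
    have := co_x_mul n u m γ
    change co none (yy ^ n * u) m γ = 0
    unfold yy
    rw [this]
    exact hu _ _ (by omega)
  · exact O.zero_mem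

theorem pole_DD_I {I : Tay} (h2 : ∀ (r : RatFunc ℂ), (∀ m : ℤ, m < 0 → (ex none r).coeff m = 0) →
      ∀ (i : ℕ) (m : ℤ), m < 0 → (ex none (PowerSeries.coeff i (I.σ r))).coeff m = 0)
    {n j : ℕ} {x : Alg α β ⊗[K] Alg α β}
    (hV : x ∈ LinearMap.range (TensorProduct.map (V α β n).subtype (V α β n).subtype))
    (hI : x ∈ (KaehlerDifferential.ideal K (Alg α β)) ^ j) (m : ℤ) (γ : ℚ) (hm : m < -(2 * n : ℤ)) :
    co none (DD I j x) m γ = 0 := by
  -- regularity of the scaled expansion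
  have hreg : RI (mapH I.σ yy ^ n * mapH (PowerSeries.C : RatFunc ℂ →+* PowerSeries (RatFunc ℂ)) yy ^ n * Ps I x) := by
    obtain ⟨z, rfl⟩ := hV
    clear hI
    induction z using TensorProduct.induction_on with
    | zero => rw [map_zero, map_zero, mul_zero]; exact RI_zero
    | tmul a b =>
      rw [TensorProduct.map_tmul, Ps_tmul]
      have e : mapH I.σ yy ^ n * mapH (PowerSeries.C : RatFunc ℂ →+* PowerSeries (RatFunc ℂ)) yy ^ n *
          (mapH I.σ ((V α β n).subtype a).1 *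
            mapH (PowerSeries.C : RatFunc ℂ →+* PowerSeries (RatFunc ℂ)) ((V α β n).subtype b).1)
          = mapH I.σ (yy ^ n * a.1.1) *
            mapH (PowerSeries.C : RatFunc ℂ →+* PowerSeries (RatFunc ℂ)) (yy ^ n * b.1.1) := by
        rw [map_mul, map_mul, map_pow, map_pow]
        simp only [Submodule.subtype_apply]
        ring
      rw [e]
      exact (RI_first h2 a.2).mul (RI_second b.2)
    | add a b ha hb =>
      rw [map_add, map_add, mul_add]
      exact ha.add hb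
  obtain ⟨w, hw⟩ := exists_eps_pow I j x hI
  have h5 : cE j (mapH I.σ yy ^ n * mapH (PowerSeries.C : RatFunc ℂ →+* PowerSeries (RatFunc ℂ)) yy ^ n * Ps I x)
      = yy ^ (2 * n) * DD I j x := by
    have e1 : mapH I.σ yy ^ n * mapH (PowerSeries.C : RatFunc ℂ →+* PowerSeries (RatFunc ℂ)) yy ^ n * Ps I x
        = eps ^ j * (mapH I.σ (yy ^ n) * mapH (PowerSeries.C : RatFunc ℂ →+* PowerSeries (RatFunc ℂ)) (yy ^ n) * w) := by
      rw [hw, map_pow, map_pow]; ring
    have e2 : DD I j x = cE 0 w := by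
      rw [DD_apply, hw]
      have := cE_eps_pow 0 j w
      rwa [zero_add] at this
    have e3 := cE_eps_pow 0 j (mapH I.σ (yy ^ n) * mapH (PowerSeries.C : RatFunc ℂ →+* PowerSeries (RatFunc ℂ)) (yy ^ n) * w)
    rw [zero_add] at e3
    rw [e1, e3, cE_zero_mul, cE_zero_mul, e2]
    have e4 : cE 0 (mapH I.σ (yy ^ n)) = yy ^ n := by
      ext1; funext γ
      rw [cE_coeff, mapH_coeff, PowerSeries.coeff_zero_eq_constantCoeff]
      exact I.zero _
    have e5 : cE 0 (mapH (PowerSeries.C : RatFunc ℂ →+* PowerSeries (RatFunc ℂ)) (yy ^ n)) = yy ^ n := by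
      ext1; funext γ
      rw [cE_coeff, mapH_coeff]
      simp
    rw [e4, e5, two_mul, pow_add]
  have h6 : co none (yy ^ (2 * n) * DD I j x) (m + (2 * n : ℕ)) γ = 0 := by
    rw [← h5]
    have := hreg γ j
    rw [mem_O] at this
    exact this _ (by push_cast; omega)
  have h7 := co_x_mul (2 * n) (DD I j x) (m + (2 * n : ℕ)) γ
  rw [add_sub_cancel_right] at h7
  rw [← h7]
  exact h6

theorem pole_DD {T I : Tay} (h2 : ∀ (r : RatFunc ℂ), (∀ m : ℤ, m < 0 → (ex none r).coeff m = 0) →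
      ∀ (i : ℕ) (m : ℤ), m < 0 → (ex none (PowerSeries.coeff i (I.σ r))).coeff m = 0)
    (h3 : ∀ r : RatFunc ℂ, PowerSeries.coeff 1 (I.σ r) = -(RatFunc.X ^ 2) * PowerSeries.coeff 1 (T.σ r))
    {n j : ℕ} {x : Alg α β ⊗[K] Alg α β}
    (hV : x ∈ LinearMap.range (TensorProduct.map (V α β n).subtype (V α β n).subtype))
    (hI : x ∈ (KaehlerDifferential.ideal K (Alg α β)) ^ j) (m : ℤ) (γ : ℚ)
    (hm : m < 2 * j - (2 * n : ℕ)) :
    co none (DD T j x) m γ = 0 := by
  have h4 := pole_DD_I h2 hV hI (m - (2 * j : ℕ)) γ (by push_cast at hm ⊢; omega)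
  have h5 := co_x_mul (2 * j) (DD I j x) m γ
  rw [h4] at h5
  have h6 : yy ^ (2 * j) * DD I j x = (-1) ^ j * DD T j x := by
    rw [DD_rel h3 j x hI, ← mul_assoc, pow_mul, ← mul_pow, yy_kap]
  change co none (yy ^ (2 * j) * DD I j x) m γ = 0 at h5
  rw [h6] at h5
  rcases Nat.even_or_odd j with h | h
  · rw [h.neg_one_pow, one_mul] at h5; exact h5
  · rw [h.neg_one_pow, neg_one_mul, co_neg, neg_eq_zero] at h5; exact h5

end Pool.Agent.TH291.C2
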