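import Pool.Agent.TH291.C2.Defs2

/-! # Existence of points with algebraically independent symmetric functions (job C2-PTS) -/

set_option autoImplicit false
set_option maxSynthPendingDepth 4

namespace Pool.Agent.TH291.C2

open MvPolynomial Cardinal

/-- finitely many algebraically independent complex numbers -/
theorem pts_exists_indep (ι : Type) [Finite ι] :
    ∃ s : ι → ℂ, AlgebraicIndependent (⊥ : Subfield ℂ) s := by
  obtain ⟨κ, x, hx⟩ := exists_isTranscendenceBasis' (⊥ : Subfield ℂ) ℂ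
  have hc : #(⊥ : Subfield ℂ) ≤ ℵ₀ := by
    rw [Cardinal.mk_le_aleph0_iff, Subfield.bot_eq_of_charZero]
    have h : Function.Surjective
        (fun a : ℚ => (⟨algebraMap ℚ ℂ a, ⟨a, rfl⟩⟩ : (algebraMap ℚ ℂ).fieldRange)) := by
      rintro ⟨_, a, rfl⟩
      exact ⟨a, rfl⟩
    exact h.countable
  have hK : ℵ₀ < #ℂ := by
    rw [Cardinal.mk_complex]; exact Cardinal.aleph0_lt_continuum
  have h1 := IsAlgClosed.cardinal_eq_cardinal_transcendence_basis_of_aleph0_lt x hx hc hK
  have h3 : ℵ₀ < #κ := by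
    have h4 := h1
    simp only [Cardinal.lift_id] at h4
    rw [← h4]
    exact hK
  have h2 : #ι ≤ #κ := (Cardinal.lt_aleph0_of_finite ι).le.trans h3.le
  obtain ⟨f⟩ := Cardinal.le_def _ _ |>.1 h2
  exact ⟨fun i => x (f i), hx.1.comp f f.injective⟩

theorem pts_rel {ι : Type} {s : ι → ℂ} (hs : AlgebraicIndependent (⊥ : Subfield ℂ) s)
    (P : MvPolynomial ι (⊥ : Subfield ℂ)) (v : ι → (⊥ : Subfield ℂ)) (h : eval v P ≠ 0) :
    aeval s P ≠ 0 := by
  intro h0
  have := (algebraicIndependent_iff.1 hs) P h0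
  rw [this, map_zero] at h
  exact h rfl

theorem exists_points (g : ℕ) : ∃ α β : Fin g → ℂ, Dist α β ∧ Gen α β := by
  classical
  obtain ⟨s, hs⟩ := pts_exists_indep (Fin g × Fin 2)
  have hroot : ∀ i : Fin g, ∃ d : ℂ, d ^ 2 = s (i, 0) ^ 2 - 4 * s (i, 1) := fun i =>
    IsAlgClosed.exists_pow_nat_eq _ two_pos
  choose d hd using hroot
  have hsum : ∀ i, (s (i, 0) + d i) / 2 + (s (i, 0) - d i) / 2 = s (i, 0) := fun i => by ring
  have hprod : ∀ i, (s (i, 0) + d i) / 2 * ((s (i, 0) - d i) / 2) = s (i, 1) := fun i => by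
    linear_combination -(1 / 4) * hd i
  -- no relation of the first kind
  have hdisc : ∀ i, d i ≠ 0 := by
    intro i h0
    have h1 := pts_rel hs (X (i, 0) ^ 2 - 4 * X (i, 1)) (fun q => if q = (i, 0) then 1 else 0) (by
      simp)
    apply h1
    have h2 := hd i
    rw [h0] at h2
    simp only [map_sub, map_pow, map_mul, aeval_X, map_ofNat]
    linear_combination -h2
  -- no common root
  have hres : ∀ i j, i ≠ j → ∀ x : ℂ, x ^ 2 - s (i, 0) * x + s (i, 1) = 0 →
      x ^ 2 - s (j, 0) * x + s (j, 1) = 0 → False := by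
    intro i j hij x h1 h2
    have h3 := pts_rel hs ((X (i, 1) - X (j, 1)) ^ 2
      - X (i, 0) * (X (i, 1) - X (j, 1)) * (X (i, 0) - X (j, 0))
      + X (i, 1) * (X (i, 0) - X (j, 0)) ^ 2) (fun q => if q = (i, 1) then 1 else 0) (by
      simp [hij.symm])
    apply h3
    simp only [map_sub, map_add, map_pow, map_mul, aeval_X]
    have h4 : (s (i, 0) - s (j, 0)) * x = s (i, 1) - s (j, 1) := by linear_combination h2 - h1
    rw [← h4]
    linear_combination (s (i, 0) - s (j, 0)) ^ 2 * h1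
  have hA : ∀ i, ((s (i, 0) + d i) / 2) ^ 2 - s (i, 0) * ((s (i, 0) + d i) / 2) + s (i, 1) = 0 :=
    fun i => by linear_combination (1 / 4) * hd i
  have hB : ∀ i, ((s (i, 0) - d i) / 2) ^ 2 - s (i, 0) * ((s (i, 0) - d i) / 2) + s (i, 1) = 0 :=
    fun i => by linear_combination (1 / 4) * hd i
  refine ⟨fun i => (s (i, 0) + d i) / 2, fun i => (s (i, 0) - d i) / 2, ⟨?_, ?_, ?_⟩, ?_⟩
  · intro i j hij
    by_contra hne
    have hij' : (s (i, 0) + d i) / 2 = (s (j, 0) + d j) / 2 := hij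
    exact hres i j hne _ (hA i) (by rw [hij']; exact hA j)
  · intro i j hij
    by_contra hne
    have hij' : (s (i, 0) - d i) / 2 = (s (j, 0) - d j) / 2 := hij
    exact hres i j hne _ (hB i) (by rw [hij']; exact hB j)
  · intro i j hij
    have hij' : (s (i, 0) + d i) / 2 = (s (j, 0) - d j) / 2 := hij
    by_cases hne : i = j
    · subst hne
      exact hdisc i (by linear_combination hij')
    · exact hres i j hne _ (hA i) (by rw [hij']; exact hB j)
  · unfold Gen
    have e : (fun q : Fin g × Fin 2 => (![(s (q.1, 0) + d q.1) / 2 + (s (q.1, 0) - d q.1) / 2,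
        (s (q.1, 0) + d q.1) / 2 * ((s (q.1, 0) - d q.1) / 2)] : Fin 2 → ℂ) q.2) = s := by
      funext q
      obtain ⟨i, j⟩ := q
      fin_cases j
      · exact hsum i
      · exact hprod i
    rw [e]
    exact hs

end Pool.Agent.TH291.C2
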