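import Pool.Agent.TH291.C2.Defs3

/-! Transport of a pointed curve with `NoSections` along an isomorphism of fields. -/

set_option autoImplicit false
set_option maxSynthPendingDepth 4

namespace Pool.Agent.TH291.C2

open scoped TensorProduct

namespace Trans

variable {k k' A : Type} [Field k] [Field k'] [CommRing A] [Algebra k A] [Algebra k' A]
  (e : k ≃+* k') (he : ∀ c : k, algebraMap k' A (e c) = algebraMap k A c)

include he

theorem smul_eq (c : k) (a : A) : e c • a = c • a := by
  rw [Algebra.smul_def, Algebra.smul_def, he]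

theorem smul_eq' (c : k') (a : A) : c • a = e.symm c • a := by
  rw [← smul_eq e he (e.symm c) a, e.apply_symm_apply]

theorem compat : TensorProduct.CompatibleSMul k k' A A where
  smul_tmul := by
    intro c a b
    rw [smul_eq' e he c a, smul_eq' e he c b, TensorProduct.smul_tmul]

theorem compat' : TensorProduct.CompatibleSMul k' k A A where
  smul_tmul := by
    intro c a b
    rw [← smul_eq e he c a, ← smul_eq e he c b, TensorProduct.smul_tmul]

theorem exists_equiv : ∃ Φ : A ⊗[k'] A ≃+* A ⊗[k] A, ∀ a b : A, Φ (a ⊗ₜ[k'] b) = a ⊗ₜ[k] b := by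
  have := compat e he
  have := compat' e he
  have : SMulCommClass k k' A := ⟨fun c d a => by
    rw [Algebra.smul_def, Algebra.smul_def, Algebra.smul_def, Algebra.smul_def]; ring⟩
  exact ⟨(Algebra.TensorProduct.equivOfCompatibleSMul k k' ℤ A A).toRingEquiv, fun a b => rfl⟩

omit he

theorem mul_map (Φ : A ⊗[k'] A ≃+* A ⊗[k] A) (hΦ : ∀ a b : A, Φ (a ⊗ₜ[k'] b) = a ⊗ₜ[k] b)
    (x : A ⊗[k'] A) : Algebra.TensorProduct.lmul' k (S := A) (Φ x) =
      Algebra.TensorProduct.lmul' k' (S := A) x := by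
  induction x using TensorProduct.induction_on with
  | zero => rw [map_zero, map_zero, map_zero]
  | tmul a b =>
    rw [hΦ, Algebra.TensorProduct.lmul'_apply_tmul, Algebra.TensorProduct.lmul'_apply_tmul]
  | add x y hx hy => rw [map_add, map_add, map_add, hx, hy]

theorem map_ideal (Φ : A ⊗[k'] A ≃+* A ⊗[k] A) (hΦ : ∀ a b : A, Φ (a ⊗ₜ[k'] b) = a ⊗ₜ[k] b)
    (b : ℕ) (x : A ⊗[k'] A) (hx : x ∈ (KaehlerDifferential.ideal k' A) ^ b) :
    Φ x ∈ (KaehlerDifferential.ideal k A) ^ b := by
  have h1 : Ideal.map (Φ : A ⊗[k'] A →+* A ⊗[k] A) (KaehlerDifferential.ideal k' A) ≤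
      KaehlerDifferential.ideal k A := by
    rw [Ideal.map_le_iff_le_comap]
    intro y hy
    have hy' : Algebra.TensorProduct.lmul' k' (S := A) y = 0 := hy
    change Algebra.TensorProduct.lmul' k (S := A) (Φ y) = 0
    rw [mul_map Φ hΦ, hy']
  have h2 := Ideal.mem_map_of_mem (Φ : A ⊗[k'] A →+* A ⊗[k] A) hx
  rw [Ideal.map_pow] at h2
  exact Ideal.pow_right_mono h1 b h2

theorem map_range (Φ : A ⊗[k'] A ≃+* A ⊗[k] A) (hΦ : ∀ a b : A, Φ (a ⊗ₜ[k'] b) = a ⊗ₜ[k] b)
    (V : Submodule k A) (V' : Submodule k' A) (hV : ∀ a, a ∈ V' ↔ a ∈ V) (x : A ⊗[k'] A)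
    (hx : x ∈ LinearMap.range (TensorProduct.map V'.subtype V'.subtype)) :
    Φ x ∈ LinearMap.range (TensorProduct.map V.subtype V.subtype) := by
  obtain ⟨y, rfl⟩ := hx
  induction y using TensorProduct.induction_on with
  | zero =>
    rw [map_zero, map_zero]
    exact Submodule.zero_mem _
  | tmul a b =>
    rw [TensorProduct.map_tmul, hΦ]
    exact ⟨(⟨a, (hV _).1 a.2⟩ : V) ⊗ₜ[k] (⟨b, (hV _).1 b.2⟩ : V), rfl⟩
  | add a b ha hb =>
    rw [map_add, map_add]
    exact Submodule.add_mem _ ha hb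

include he

theorem finite_finrank (V : Submodule k A) (V' : Submodule k' A) (hV : ∀ a, a ∈ V' ↔ a ∈ V)
    (hf : Module.Finite k V) :
    Module.Finite k' V' ∧ Module.finrank k' V' = Module.finrank k V := by
  let j : V ≃+ V' :=
    { toFun := fun a => ⟨a, (hV _).2 a.2⟩
      invFun := fun a => ⟨a, (hV _).1 a.2⟩
      left_inv := fun a => rfl
      right_inv := fun a => rfl
      map_add' := fun a b => rfl }
  have hj : ∀ (c : k) (a : V), j (c • a) = e c • j a := by
    intro c a
    apply Subtype.ext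
    change c • (a : A) = e c • (a : A)
    rw [smul_eq e he]
  constructor
  · have : RingHomSurjective (e : k →+* k') := ⟨e.surjective⟩
    let f : V →ₛₗ[(e : k →+* k')] V' :=
      { toFun := j
        map_add' := fun a b => j.map_add a b
        map_smul' := hj }
    exact Module.Finite.of_surjective f j.surjective
  · unfold Module.finrank
    rw [rank_eq_of_equiv_equiv e j e.bijective hj]

theorem core {g : ℕ} (V : ℕ → Submodule k A) (V' : ℕ → Submodule k' A)
    (hV : ∀ n a, a ∈ V' n ↔ a ∈ V n) (h1 : IsPointedCurve k A V g) (h2 : NoSections k A V g) :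
    IsPointedCurve k' A V' g ∧ NoSections k' A V' g := by
  refine ⟨⟨h1.dedekind, ?_, ?_, ?_, ?_, ?_, ?_, ?_, ?_⟩, ?_⟩
  · have := h1.finiteType
    let _ : Algebra k k' := (e : k →+* k').toAlgebra
    have : IsScalarTower k k' A := IsScalarTower.of_algebraMap_eq fun c => (he c).symm
    exact Algebra.FiniteType.of_restrictScalars_finiteType k k' A
  · intro m n hmn a ha
    exact (hV n a).2 (h1.mono hmn ((hV m a).1 ha))
  · intro a
    obtain ⟨n, hn⟩ := h1.top a
    exact ⟨n, (hV n a).2 hn⟩
  · intro a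
    rw [hV, h1.zero]
    constructor
    · rintro ⟨c, hc⟩
      exact ⟨e c, by rw [he, hc]⟩
    · rintro ⟨c, hc⟩
      exact ⟨e.symm c, by rw [← he, e.apply_symm_apply, hc]⟩
  · intro m n a b ha hb
    exact (hV _ _).2 (h1.mul ((hV _ _).1 ha) ((hV _ _).1 hb))
  · intro m n a b ha hb hab
    exact h1.mul' (fun h => ha ((hV _ _).2 h)) (fun h => hb ((hV _ _).2 h)) ((hV _ _).1 hab)
  · intro n
    exact (finite_finrank e he (V n) (V' n) (hV n) (h1.finite n)).1
  · intro n hn
    rw [(finite_finrank e he (V n) (V' n) (hV n) (h1.finite n)).2]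
    exact h1.finrank n hn
  · obtain ⟨Φ, hΦ⟩ := exists_equiv e he
    intro n b f hb hf hr hI
    exact h2 n b (Φ f) hb (fun h => hf ((map_eq_zero_iff Φ Φ.injective).1 h))
      (map_range Φ hΦ (V n) (V' n) (hV n) f hr) (map_ideal Φ hΦ b f hI)

end Trans

theorem transport {k k' : Type} [Field k] [Field k'] (e : k ≃+* k') {g : ℕ}
    (h : ∃ (A : Type) (_ : CommRing A) (_ : Algebra k A) (V : ℕ → Submodule k A),
      IsPointedCurve k A V g ∧ NoSections k A V g) :
    ∃ (A : Type) (_ : CommRing A) (_ : Algebra k' A) (V : ℕ → Submodule k' A),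
      IsPointedCurve k' A V g ∧ NoSections k' A V g := by
  obtain ⟨A, _, _, V, h1, h2⟩ := h
  letI alg : Algebra k' A := ((algebraMap k A).comp (e.symm : k' →+* k)).toAlgebra
  have he : ∀ c : k, algebraMap k' A (e c) = algebraMap k A c := by
    intro c
    change algebraMap k A (e.symm (e c)) = algebraMap k A c
    rw [e.symm_apply_apply]
  let V' : ℕ → Submodule k' A := fun n =>
    { carrier := V n
      add_mem' := fun ha hb => (V n).add_mem ha hb
      zero_mem' := (V n).zero_mem
      smul_mem' := by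
        intro c a ha
        rw [Trans.smul_eq' e he]
        exact (V n).smul_mem _ ha }
  exact ⟨A, inferInstance, alg, V', Trans.core e he V V' (fun n a => Iff.rfl) h1 h2⟩

end Pool.Agent.TH291.C2
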