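import Pool.Agent.TH291.C2.Main1
import Pool.Agent.TH291.C2.Int
import Pool.Agent.TH291.C2.Pts
import Pool.Agent.TH291.C2.Ded
import Pool.Agent.TH291.C2.Card
import Pool.Agent.TH291.C2.Trans

/-! Assembly. -/

set_option autoImplicit false
set_option maxSynthPendingDepth 4

namespace Pool.Agent.TH291.C2

open scoped TensorProduct

variable {g : ℕ} {α β : Fin g → ℂ}

theorem W0_zero_le : W0 α β 0 ≤ Submodule.span ℂ {(1 : Polynomial ℂ)} := by
  intro p hp
  rw [mem_W0] at hp
  rw [Submodule.mem_span_singleton]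
  refine ⟨p.coeff 0, ?_⟩
  rw [Polynomial.smul_eq_C_mul, mul_one]
  exact (Polynomial.eq_C_of_natDegree_le_zero hp.1).symm

theorem V_zero (a : Alg α β) : a ∈ V α β 0 ↔ ∃ c : K, a = algebraMap K (Alg α β) c := by
  constructor
  · intro ha
    have : Module.Finite ℂ (W0 α β 0) := Submodule.finiteDimensional_of_le W0_zero_le
    obtain ⟨h1, h2⟩ := finrank_V_le (α := α) (β := β) (n := 0)
    have h3 : Module.finrank ℂ (W0 α β 0) ≤ 1 := by
      refine (Submodule.finrank_mono W0_zero_le).trans ?_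
      have h5 := finrank_span_le_card (R := ℂ) ({(1 : Polynomial ℂ)} : Set (Polynomial ℂ))
      simpa using h5
    have h4 : Module.finrank K (V α β 0) ≤ 1 := h2.trans h3
    have hone : (1 : Alg α β) ∈ V α β 0 := by
      have := pole_algebraMap (1 : K)
      rw [map_one] at this
      exact this
    rw [finrank_le_one_iff] at h4
    obtain ⟨v, hv⟩ := h4
    obtain ⟨c1, hc1⟩ := hv ⟨1, hone⟩
    obtain ⟨c2, hc2⟩ := hv ⟨a, ha⟩
    have hc1' : c1 • v.1 = 1 := congrArg Subtype.val hc1
    have hc2' : c2 • v.1 = a := congrArg Subtype.val hc2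
    have hc10 : c1 ≠ 0 := by
      rintro rfl
      rw [zero_smul] at hc1'
      exact zero_ne_one hc1'
    refine ⟨c2 * c1⁻¹, ?_⟩
    rw [Algebra.algebraMap_eq_smul_one, ← hc1', smul_smul, mul_assoc, inv_mul_cancel₀ hc10, mul_one, hc2']
  · rintro ⟨c, rfl⟩
    exact pole_algebraMap c

instance instCharZeroK : CharZero K :=
  charZero_of_injective_algebraMap (R := ℂ) (algebraMap ℂ K).injective

theorem pointed (hd : Dist α β) : IsPointedCurve K (Alg α β) (V α β) g :=
  isPointedCurve_of intClosed V_mono V_top V_zero V_mul V_mul' (finite_V hd) (fun _ h => finrank_V hd h)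

theorem main (g : ℕ) (hg : 10 ≤ g) :
    ∃ (A : Type) (_ : CommRing A) (_ : Algebra ℂ A) (V : ℕ → Submodule ℂ A),
      IsPointedCurve ℂ A V g ∧ NoSections ℂ A V g := by
  obtain ⟨α, β, hd, hgen⟩ := exists_points g
  obtain ⟨e⟩ := ringEquiv_K
  exact transport e ⟨Alg α β, inferInstance, inferInstance, V α β, pointed hd, noSections hg hd hgen⟩

end Pool.Agent.TH291.C2
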