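import Mathlib

set_option autoImplicit false
set_option maxSynthPendingDepth 4

/-!
# The leading term map on powers of the diagonal ideal is injective
-/

namespace Pool.Agent.TH291.C2

open TensorProduct

/-- residue fields of a finitely generated algebra over an algebraically closed field -/
lemma ker_res {k A : Type} [Field k] [IsAlgClosed k] [CommRing A] [Algebra k A]
    (hft : Algebra.FiniteType k A) (m : Ideal A) [hm : m.IsMaximal] (a : A) :
    ∃ c : k, a - algebraMap k A c ∈ m := by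
  let := Ideal.Quotient.field m
  have h1 : Module.Finite k (A ⧸ m) := finite_of_finite_type_of_isJacobsonRing k (A ⧸ m)
  have h2 : Algebra.IsIntegral k (A ⧸ m) := Algebra.IsIntegral.of_finite k (A ⧸ m)
  obtain ⟨c, hc⟩ := (IsAlgClosed.algebraMap_bijective_of_isIntegral (k := k) (K := A ⧸ m)).2
    (Ideal.Quotient.mk m a)
  refine ⟨c, ?_⟩
  rw [← Ideal.Quotient.eq, ← hc]
  rfl

/-- a generator of a maximal ideal modulo its square -/
lemma ker_unif {A : Type} [CommRing A] [IsDedekindDomain A] (hA : ¬ IsField A) (m : Ideal A)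
    [hm : m.IsMaximal] :
    ∃ p ∈ m, p ∉ m ^ 2 ∧ m ≤ Ideal.span {p} ⊔ m ^ 2 := by
  have hm0 : m ≠ ⊥ := Ring.ne_bot_of_isMaximal_of_not_isField hm hA
  have hlt : m ^ 2 < m := by
    have := Ideal.pow_right_strictAnti m hm0 hm.ne_top (show 1 < 2 by norm_num)
    simpa using this
  obtain ⟨p, hp, hp2⟩ := SetLike.exists_of_lt hlt
  refine ⟨p, hp, hp2, ?_⟩
  have h1 : m ^ (1 + 1) < Ideal.span {p} ⊔ m ^ 2 := by
    refine lt_of_le_of_ne le_sup_right fun h => hp2 ?_
    have h3 : p ∈ Ideal.span {p} ⊔ m ^ 2 := Ideal.mem_sup_left (Ideal.mem_span_singleton_self p)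
    rw [← h] at h3
    exact h3
  have h2 : Ideal.span {p} ⊔ m ^ 2 ≤ m ^ 1 := by
    rw [pow_one]
    exact sup_le ((Ideal.span_singleton_le_iff_mem m).2 hp) hlt.le
  have := Ideal.eq_prime_pow_of_succ_lt_of_le hm0 h1 h2
  rw [this, pow_one]

/-- `1 ⊗ h - h ⊗ 1` -/
noncomputable def ker_dl (k : Type) {A : Type} [Field k] [CommRing A] [Algebra k A] (h : A) :
    A ⊗[k] A := (1 : A) ⊗ₜ[k] h - h ⊗ₜ[k] (1 : A)

variable {k A : Type} [Field k] [CommRing A] [Algebra k A]

lemma ker_dl_mem (h : A) : ker_dl k h ∈ KaehlerDifferential.ideal k A :=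
  KaehlerDifferential.one_smul_sub_smul_one_mem_ideal k h

/-- the local statement about differentials -/
lemma ker_omega [IsAlgClosed k] (hft : Algebra.FiniteType k A) (m : Ideal A) [hm : m.IsMaximal]
    (p : A) (hp : p ∈ m) (hpm : m ≤ Ideal.span {p} ⊔ m ^ 2) :
    ∃ s : A, s ∉ m ∧ ∀ h : A, ∃ a : A,
      s • KaehlerDifferential.D k A h = a • KaehlerDifferential.D k A p := by
  have hfin : Module.Finite A (Ω[A⁄k]) := inferInstance
  have hle : (⊤ : Submodule A (Ω[A⁄k])) ≤
      Submodule.span A {KaehlerDifferential.D k A p} ⊔ m • (⊤ : Submodule A (Ω[A⁄k])) := by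
    rw [← KaehlerDifferential.span_range_derivation, Submodule.span_le]
    rintro _ ⟨h, rfl⟩
    obtain ⟨c, hc⟩ := ker_res hft m h
    have h1 : ∀ x ∈ Ideal.span {p} ⊔ m ^ 2, KaehlerDifferential.D k A x ∈
        Submodule.span A {KaehlerDifferential.D k A p} ⊔
          m • Submodule.span A (Set.range (KaehlerDifferential.D k A)) := by
      rw [KaehlerDifferential.span_range_derivation]
      intro x hx
      obtain ⟨y, hy, z, hz, rfl⟩ := Submodule.mem_sup.1 hx
      rw [map_add]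
      refine Submodule.add_mem _ ?_ ?_
      · obtain ⟨a, rfl⟩ := Ideal.mem_span_singleton'.1 hy
        rw [Derivation.leibniz]
        refine Submodule.add_mem _ ?_ ?_
        · exact Submodule.mem_sup_left (Submodule.smul_mem _ _ (Submodule.mem_span_singleton_self _))
        · exact Submodule.mem_sup_right (Submodule.smul_mem_smul hp Submodule.mem_top)
      · refine Submodule.mem_sup_right ?_
        rw [pow_two] at hz
        refine Submodule.mul_induction_on hz ?_ ?_
        · intro a ha b hb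
          rw [Derivation.leibniz]
          exact Submodule.add_mem _ (Submodule.smul_mem_smul ha Submodule.mem_top)
            (Submodule.smul_mem_smul hb Submodule.mem_top)
        · intro a b ha hb
          rw [map_add]
          exact Submodule.add_mem _ ha hb
    have h2 := h1 _ (hpm hc)
    rw [map_sub, Derivation.map_algebraMap, sub_zero] at h2
    exact h2
  obtain ⟨r, hr, hr2⟩ := Submodule.exists_sub_one_mem_and_smul_le_of_fg_of_le_sup
    (I := m) (N := Submodule.span A {KaehlerDifferential.D k A p}) (N' := ⊤) (P := ⊤)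
    (Module.finite_def.1 hfin) le_rfl hle
  refine ⟨r, fun h => ?_, fun h => ?_⟩
  · have : (1 : A) ∈ m := by
      have := m.sub_mem h hr
      simpa using this
    exact hm.ne_top ((Ideal.eq_top_iff_one m).2 this)
  · have h3 : r • KaehlerDifferential.D k A h ∈ Submodule.span A {KaehlerDifferential.D k A p} :=
      hr2 (Submodule.smul_mem_pointwise_smul _ _ _ Submodule.mem_top)
    obtain ⟨a, ha⟩ := Submodule.mem_span_singleton.1 h3
    exact ⟨a, ha.symm⟩

lemma ker_smul_dl (s h : A) : (s ⊗ₜ[k] (1 : A)) * ker_dl k h = s • ker_dl k h := by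
  rw [ker_dl, smul_sub, mul_sub, Algebra.TensorProduct.tmul_mul_tmul,
    Algebra.TensorProduct.tmul_mul_tmul, TensorProduct.smul_tmul', TensorProduct.smul_tmul',
    smul_eq_mul, smul_eq_mul, mul_one, one_mul, mul_one]

/-- the same statement in the tensor product -/
lemma ker_local [IsAlgClosed k] (hft : Algebra.FiniteType k A) (m : Ideal A) [hm : m.IsMaximal]
    (p : A) (hp : p ∈ m) (hpm : m ≤ Ideal.span {p} ⊔ m ^ 2) :
    ∃ s : A, s ∉ m ∧ ∀ y ∈ KaehlerDifferential.ideal k A, (s ⊗ₜ[k] (1 : A)) * y ∈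
      Ideal.span {ker_dl k p} ⊔ (KaehlerDifferential.ideal k A) ^ 2 := by
  obtain ⟨s, hs, h⟩ := ker_omega hft m p hp hpm
  refine ⟨s, hs, fun y hy => ?_⟩
  rw [← KaehlerDifferential.span_range_eq_ideal] at hy
  refine Submodule.span_induction ?_ ?_ ?_ ?_ hy
  · rintro _ ⟨h', rfl⟩
    obtain ⟨a, ha⟩ := h h'
    have h1 : (s ⊗ₜ[k] (1 : A)) * ker_dl k h' - (a ⊗ₜ[k] (1 : A)) * ker_dl k p ∈
        (KaehlerDifferential.ideal k A) ^ 2 := by
      rw [ker_smul_dl, ker_smul_dl]
      have h2 : (KaehlerDifferential.ideal k A).toCotangent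
          (s • (⟨ker_dl k h', ker_dl_mem h'⟩ : KaehlerDifferential.ideal k A)) =
          (KaehlerDifferential.ideal k A).toCotangent
          (a • (⟨ker_dl k p, ker_dl_mem p⟩ : KaehlerDifferential.ideal k A)) := by
        rw [LinearMap.map_smul_of_tower, LinearMap.map_smul_of_tower]
        exact ha
      rw [Ideal.toCotangent_eq] at h2
      exact h2
    have h3 : (s ⊗ₜ[k] (1 : A)) * ker_dl k h' = (a ⊗ₜ[k] (1 : A)) * ker_dl k p +
        ((s ⊗ₜ[k] (1 : A)) * ker_dl k h' - (a ⊗ₜ[k] (1 : A)) * ker_dl k p) := by ring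
    change (s ⊗ₜ[k] (1 : A)) * ker_dl k h' ∈ _
    rw [h3]
    exact Submodule.add_mem _ (Submodule.mem_sup_left (Ideal.mul_mem_left _ _
      (Ideal.mem_span_singleton_self _))) (Submodule.mem_sup_right h1)
  · rw [mul_zero]; exact Submodule.zero_mem _
  · intro x y _ _ hx hy
    rw [mul_add]
    exact Submodule.add_mem _ hx hy
  · intro a x _ hx
    rw [smul_eq_mul, mul_left_comm]
    exact Ideal.mul_mem_left _ _ hx

/-- powers -/
lemma ker_pow {B : Type} [CommRing B] (I : Ideal B) (t d : B) (hd : d ∈ I)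
    (h : ∀ y ∈ I, t * y ∈ Ideal.span {d} ⊔ I ^ 2) (j : ℕ) :
    ∀ x ∈ I ^ j, t ^ j * x ∈ Ideal.span {d ^ j} ⊔ I ^ (j + 1) := by
  induction j with
  | zero =>
    intro x _
    rw [pow_zero, pow_zero]
    exact Submodule.mem_sup_left (by rw [Ideal.span_singleton_one]; exact Submodule.mem_top)
  | succ j ih =>
    intro x hx
    rw [pow_succ] at hx
    refine Submodule.mul_induction_on hx ?_ ?_
    · intro a ha b hb
      have h1 := ih a ha
      have h2 := h b hb
      obtain ⟨u, hu, v, hv, huv⟩ := Submodule.mem_sup.1 h1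
      obtain ⟨u', hu', v', hv', huv'⟩ := Submodule.mem_sup.1 h2
      obtain ⟨z, rfl⟩ := Ideal.mem_span_singleton'.1 hu
      obtain ⟨z', rfl⟩ := Ideal.mem_span_singleton'.1 hu'
      have h3 : t ^ (j + 1) * (a * b) = (z * z') * d ^ (j + 1) +
          ((z * d ^ j) * v' + v * (z' * d + v')) := by
        have : t ^ (j + 1) * (a * b) = (t ^ j * a) * (t * b) := by ring
        rw [this, ← huv, ← huv']
        ring
      rw [h3]
      refine Submodule.add_mem _ (Submodule.mem_sup_left (Ideal.mul_mem_left _ _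
        (Ideal.mem_span_singleton_self _))) (Submodule.mem_sup_right (Submodule.add_mem _ ?_ ?_))
      · have h5 : (z * d ^ j) * v' ∈ I ^ j * I ^ 2 :=
          Ideal.mul_mem_mul (Ideal.mul_mem_left _ _ (Ideal.pow_mem_pow hd j)) hv'
        rw [← pow_add] at h5
        exact h5
      · have h6 : z' * d + v' ∈ I := Submodule.add_mem _ (Ideal.mul_mem_left _ _ hd)
          (Ideal.pow_le_self (by norm_num) hv')
        have h5 : v * (z' * d + v') ∈ I ^ (j + 1) * I := Ideal.mul_mem_mul hv h6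
        rw [← pow_succ] at h5
        exact h5
    · intro a b ha hb
      rw [mul_add]
      exact Submodule.add_mem _ ha hb

theorem ker_abs {k A L : Type} [Field k] [IsAlgClosed k] [CommRing A] [IsDedekindDomain A] [Algebra k A]
    (hft : Algebra.FiniteType k A) (hA : ¬ IsField A) [Field L] (ι : A →+* L) (hι : Function.Injective ι)
    (D : ℕ → (A ⊗[k] A) →+ L)
    (hmul : ∀ (i j : ℕ) (x y : A ⊗[k] A), x ∈ (KaehlerDifferential.ideal k A) ^ i →
      y ∈ (KaehlerDifferential.ideal k A) ^ j → D (i + j) (x * y) = D i x * D j y)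
    (h0 : ∀ a b : A, D 0 (a ⊗ₜ[k] b) = ι a * ι b)
    (hvan : ∀ (j : ℕ) (x : A ⊗[k] A), x ∈ (KaehlerDifferential.ideal k A) ^ (j + 1) → D j x = 0)
    (hd : ∀ a : A, D 1 ((1 : A) ⊗ₜ[k] a - a ⊗ₜ[k] (1 : A)) = 0 → ∃ c : k, a = algebraMap k A c)
    (j : ℕ) (x : A ⊗[k] A) (hx : x ∈ (KaehlerDifferential.ideal k A) ^ j) (hx0 : D j x = 0) :
    x ∈ (KaehlerDifferential.ideal k A) ^ (j + 1) := by
  have hD0 : ∀ z : A ⊗[k] A, D 0 z = ι (Algebra.TensorProduct.lmul' (S := A) k z) := by
    intro z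
    induction z using TensorProduct.induction_on with
    | zero => rw [map_zero, map_zero, map_zero]
    | tmul a b => rw [h0, Algebra.TensorProduct.lmul'_apply_tmul, map_mul]
    | add a b ha hb => rw [map_add, map_add, map_add, ha, hb]
  have hD0I : ∀ z : A ⊗[k] A, D 0 z = 0 → z ∈ KaehlerDifferential.ideal k A := by
    intro z hz
    rw [hD0, map_eq_zero_iff ι hι] at hz
    exact hz
  have hDpow : ∀ (d : A ⊗[k] A), d ∈ KaehlerDifferential.ideal k A → ∀ n : ℕ,
      D n (d ^ n) = (D 1 d) ^ n := by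
    intro d hd' n
    induction n with
    | zero =>
      rw [pow_zero, pow_zero, hD0, map_one, map_one]
    | succ n ih =>
      rw [pow_succ, pow_succ, hmul n 1 _ _ (Ideal.pow_mem_pow hd' n) (by rw [pow_one]; exact hd'), ih]
  -- the ideal of multipliers
  let 𝔞 : Ideal A := Submodule.comap
    (LinearMap.toSpanSingleton A (A ⊗[k] A) x) ((KaehlerDifferential.ideal k A ^ (j + 1)).restrictScalars A)
  have hmem : ∀ s : A, s ∈ 𝔞 ↔ s • x ∈ (KaehlerDifferential.ideal k A) ^ (j + 1) := fun s => Iff.rfl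
  have hsmul : ∀ s : A, s • x = (s ⊗ₜ[k] (1 : A)) * x := by
    intro s
    rw [Algebra.smul_def]
    rfl
  by_contra hne
  have hne' : 𝔞 ≠ ⊤ := by
    intro h
    have h1 : (1 : A) ∈ 𝔞 := by rw [h]; exact Submodule.mem_top
    rw [hmem, one_smul] at h1
    exact hne h1
  obtain ⟨m, hm, hle⟩ := Ideal.exists_le_maximal 𝔞 hne'
  obtain ⟨p, hp, hp2, hpm⟩ := ker_unif hA m
  obtain ⟨s, hs, h⟩ := ker_local hft m p hp hpm
  have h1 := ker_pow (KaehlerDifferential.ideal k A) (s ⊗ₜ[k] (1 : A)) (ker_dl k p) (ker_dl_mem p) h j x hx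
  obtain ⟨u, hu, w, hw, huw⟩ := Submodule.mem_sup.1 h1
  obtain ⟨z, rfl⟩ := Ideal.mem_span_singleton'.1 hu
  have h2 : D j ((s ⊗ₜ[k] (1 : A)) ^ j * x) = 0 := by
    have := hmul 0 j ((s ⊗ₜ[k] (1 : A)) ^ j) x (by rw [pow_zero, Ideal.one_eq_top]; exact Submodule.mem_top) hx
    rw [zero_add] at this
    rw [this, hx0, mul_zero]
  rw [← huw, map_add, hvan j w hw, add_zero] at h2
  have h3 : D j (z * ker_dl k p ^ j) = D 0 z * (D 1 (ker_dl k p)) ^ j := by
    have := hmul 0 j z (ker_dl k p ^ j) (by rw [pow_zero, Ideal.one_eq_top]; exact Submodule.mem_top)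
      (Ideal.pow_mem_pow (ker_dl_mem p) j)
    rw [zero_add] at this
    rw [this, hDpow _ (ker_dl_mem p)]
  have h4 : D 1 (ker_dl k p) ≠ 0 := by
    intro h5
    obtain ⟨c, hc⟩ := hd p h5
    by_cases hc0 : c = 0
    · rw [hc, hc0, map_zero] at hp2
      exact hp2 (Submodule.zero_mem _)
    · have : IsUnit p := by
        rw [hc]
        exact (isUnit_iff_ne_zero.2 hc0).map (algebraMap k A)
      exact hm.ne_top (Ideal.eq_top_of_isUnit_mem m hp this)
  rw [h3] at h2
  have h5 : D 0 z = 0 := by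
    rcases mul_eq_zero.1 h2 with h6 | h6
    · exact h6
    · exact absurd h6 (pow_ne_zero j h4)
  have h6 : z * ker_dl k p ^ j ∈ (KaehlerDifferential.ideal k A) ^ (j + 1) := by
    rw [pow_succ']
    exact Ideal.mul_mem_mul (hD0I z h5) (Ideal.pow_mem_pow (ker_dl_mem p) j)
  have h7 : s ^ j ∈ 𝔞 := by
    rw [hmem, hsmul]
    have h8 : (s ^ j) ⊗ₜ[k] (1 : A) = (s ⊗ₜ[k] (1 : A)) ^ j := by
      rw [Algebra.TensorProduct.tmul_pow, one_pow]
    rw [h8, ← huw]
    exact Submodule.add_mem _ h6 hw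
  exact hs (hm.isPrime.mem_of_pow_mem j (hle h7))

end Pool.Agent.TH291.C2
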