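import Pool.Agent.TH291.C2.Defs4

/-! Taylor homomorphisms `r (x) ↦ r (x + ε)` and for the parameter `1 / x` on `RatFunc ℂ`. -/

set_option autoImplicit false
set_option maxSynthPendingDepth 4

namespace Pool.Agent.TH291.C2

open scoped nonZeroDivisors

/-! ### derivatives of Laurent series -/

/-- the formal derivative -/
noncomputable def tauD (f : LaurentSeries ℂ) : LaurentSeries ℂ := LaurentSeries.derivative ℂ f

theorem tauD_coeff (f : LaurentSeries ℂ) (n : ℤ) :
    (tauD f).coeff n = ((n : ℂ) + 1) * f.coeff (n + 1) := by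
  unfold tauD
  rw [LaurentSeries.derivative_apply, LaurentSeries.hasseDeriv_coeff]
  simp

theorem tauD_add (f g : LaurentSeries ℂ) : tauD (f + g) = tauD f + tauD g :=
  map_add (LaurentSeries.derivative ℂ) f g

theorem tauD_single (a : ℤ) (f : LaurentSeries ℂ) :
    tauD (HahnSeries.single a 1 * f) =
      HahnSeries.C (a : ℂ) * (HahnSeries.single (a - 1) 1 * f) + HahnSeries.single a 1 * tauD f := by
  ext n
  rw [tauD_coeff, HahnSeries.coeff_add, HahnSeries.C_mul_eq_smul, HahnSeries.coeff_smul,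
    HahnSeries.coeff_single_mul, HahnSeries.coeff_single_mul, HahnSeries.coeff_single_mul,
    tauD_coeff, smul_eq_mul]
  have e1 : n - (a - 1) = n + 1 - a := by ring
  have e2 : n - a + 1 = n + 1 - a := by ring
  rw [e1, e2]
  push_cast
  ring

theorem tauD_coe (g : PowerSeries ℂ) :
    tauD (HahnSeries.ofPowerSeries ℤ ℂ g) =
      HahnSeries.ofPowerSeries ℤ ℂ (PowerSeries.derivative ℂ g) := by
  ext n
  rw [tauD_coeff, PowerSeries.coeff_coe, PowerSeries.coeff_coe]
  rcases lt_trichotomy n (-1) with h | h | h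
  · rw [if_pos (by omega), if_pos (by omega), mul_zero]
  · subst h
    simp
  · rw [if_neg (by omega), if_neg (by omega)]
    obtain ⟨k, rfl⟩ := Int.eq_ofNat_of_zero_le (by omega : 0 ≤ n)
    have e1 : ((k : ℤ) + 1).natAbs = k + 1 := by omega
    rw [e1, Int.natAbs_natCast, PowerSeries.coeff_derivative]
    push_cast
    ring

theorem tauD_mul (f g : LaurentSeries ℂ) : tauD (f * g) = tauD f * g + f * tauD g := by
  have hs : ∀ a : ℤ, (HahnSeries.single a 1 : LaurentSeries ℂ) =
      HahnSeries.single (a - 1) 1 * HahnSeries.single 1 1 := by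
    intro a
    rw [HahnSeries.single_mul_single, mul_one, sub_add_cancel]
  rw [← LaurentSeries.single_order_mul_powerSeriesPart f,
    ← LaurentSeries.single_order_mul_powerSeriesPart g]
  generalize f.order = a
  generalize g.order = b
  generalize f.powerSeriesPart = F
  generalize g.powerSeriesPart = G
  have h1 : (HahnSeries.single a 1 : LaurentSeries ℂ) * HahnSeries.ofPowerSeries ℤ ℂ F *
      (HahnSeries.single b 1 * HahnSeries.ofPowerSeries ℤ ℂ G) =
      HahnSeries.single (a + b) 1 * HahnSeries.ofPowerSeries ℤ ℂ (F * G) := by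
    rw [map_mul, show (HahnSeries.single (a + b) 1 : LaurentSeries ℂ) =
      HahnSeries.single a 1 * HahnSeries.single b 1 by
        rw [HahnSeries.single_mul_single, mul_one]]
    ring
  rw [h1, tauD_single, tauD_single, tauD_single, tauD_coe, tauD_coe, tauD_coe,
    Derivation.leibniz, smul_eq_mul, smul_eq_mul, map_add, map_mul, map_mul, map_mul]
  have h2 : (HahnSeries.single (a + b) 1 : LaurentSeries ℂ) =
      HahnSeries.single (a - 1) 1 * HahnSeries.single 1 1 *
        (HahnSeries.single (b - 1) 1 * HahnSeries.single 1 1) := by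
    rw [← hs a, ← hs b, HahnSeries.single_mul_single, mul_one]
  have h3 : (HahnSeries.single (a + b - 1) 1 : LaurentSeries ℂ) =
      HahnSeries.single (a - 1) 1 * (HahnSeries.single (b - 1) 1 * HahnSeries.single 1 1) := by
    rw [← hs b, HahnSeries.single_mul_single, mul_one, show a - 1 + b = a + b - 1 by ring]
  have h4 : (HahnSeries.C ((a + b : ℤ) : ℂ) : LaurentSeries ℂ) =
      HahnSeries.C (a : ℂ) + HahnSeries.C (b : ℂ) := by
    rw [← map_add]
    push_cast
    rfl
  rw [h2, h3, h4, hs a, hs b]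
  ring

/-! ### uniqueness of derivations -/

theorem tau_alg (a : ℂ) : algebraMap ℂ (RatFunc ℂ) a =
    algebraMap (Polynomial ℂ) (RatFunc ℂ) (Polynomial.C a) := by
  rw [RatFunc.algebraMap_C, RatFunc.algebraMap_eq_C]

theorem tau_der {L : Type} [Field L] (φ : RatFunc ℂ →+* L) (E : RatFunc ℂ → L)
    (hadd : ∀ x y, E (x + y) = E x + E y) (hmul : ∀ x y, E (x * y) = E x * φ y + φ x * E y)
    (hC : ∀ a : ℂ, E (algebraMap ℂ (RatFunc ℂ) a) = 0) (hX : E RatFunc.X = 0) :
    ∀ r, E r = 0 := by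
  have hp : ∀ p : Polynomial ℂ, E (algebraMap (Polynomial ℂ) (RatFunc ℂ) p) = 0 := by
    intro p
    induction p using Polynomial.induction_on with
    | C a => rw [← tau_alg]; exact hC a
    | add p q hp hq => rw [map_add, hadd, hp, hq, add_zero]
    | monomial n a h =>
      rw [pow_succ, ← mul_assoc, map_mul, hmul, h, zero_mul, RatFunc.algebraMap_X, hX, mul_zero,
        add_zero]
  intro r
  obtain ⟨p, q, hq, rfl⟩ := IsFractionRing.div_surjective (A := Polynomial ℂ) r
  set P := algebraMap (Polynomial ℂ) (RatFunc ℂ) p with hP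
  set Q := algebraMap (Polynomial ℂ) (RatFunc ℂ) q with hQ
  have hQ0 : Q ≠ 0 := by
    rw [hQ]
    exact IsFractionRing.to_map_ne_zero_of_mem_nonZeroDivisors hq
  have h1 : P / Q * Q = P := div_mul_cancel₀ _ hQ0
  have h2 := hmul (P / Q) Q
  rw [h1, hP, hp, hQ, hp, mul_zero, add_zero] at h2
  exact (mul_eq_zero.1 h2.symm).resolve_right ((map_ne_zero φ).2 hQ0)

/-! ### the Taylor homomorphism -/

/-- `p ↦ p (x + ε)` -/
noncomputable def tau0 : Polynomial ℂ →+* PowerSeries (RatFunc ℂ) :=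
  Polynomial.eval₂RingHom ((PowerSeries.C : RatFunc ℂ →+* PowerSeries (RatFunc ℂ)).comp
    (algebraMap ℂ (RatFunc ℂ))) (PowerSeries.C RatFunc.X + PowerSeries.X)

theorem tau0_C (a : ℂ) : tau0 (Polynomial.C a) = PowerSeries.C (algebraMap ℂ (RatFunc ℂ) a) := by
  unfold tau0
  rw [Polynomial.coe_eval₂RingHom, Polynomial.eval₂_C]
  rfl

theorem tau0_X : tau0 Polynomial.X = PowerSeries.C RatFunc.X + PowerSeries.X := by
  unfold tau0
  rw [Polynomial.coe_eval₂RingHom, Polynomial.eval₂_X]

theorem tau0_const (p : Polynomial ℂ) :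
    PowerSeries.constantCoeff (tau0 p) = algebraMap (Polynomial ℂ) (RatFunc ℂ) p := by
  have h : (PowerSeries.constantCoeff (R := RatFunc ℂ)).comp tau0 =
      algebraMap (Polynomial ℂ) (RatFunc ℂ) := by
    refine Polynomial.ringHom_ext (fun a => ?_) ?_
    · rw [RingHom.comp_apply, tau0_C, PowerSeries.constantCoeff_C, tau_alg]
    · rw [RingHom.comp_apply, tau0_X, map_add, PowerSeries.constantCoeff_C,
        PowerSeries.constantCoeff_X, add_zero, RatFunc.algebraMap_X]
  exact RingHom.congr_fun h p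

theorem tau0_unit (q : (Polynomial ℂ)⁰) : IsUnit (tau0 q) := by
  rw [PowerSeries.isUnit_iff_constantCoeff, tau0_const]
  exact (IsFractionRing.to_map_ne_zero_of_mem_nonZeroDivisors (K := RatFunc ℂ) q.2).isUnit

/-- `r ↦ r (x + ε)` -/
noncomputable def tau : RatFunc ℂ →+* PowerSeries (RatFunc ℂ) := IsLocalization.lift tau0_unit

theorem tau_map (p : Polynomial ℂ) : tau (algebraMap (Polynomial ℂ) (RatFunc ℂ) p) = tau0 p :=
  IsLocalization.lift_eq tau0_unit p

theorem tau_const (a : ℂ) : tau (algebraMap ℂ (RatFunc ℂ) a) =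
    PowerSeries.C (algebraMap ℂ (RatFunc ℂ) a) := by
  rw [tau_alg, tau_map, tau0_C, ← tau_alg]

theorem tau_X : tau RatFunc.X = PowerSeries.C RatFunc.X + PowerSeries.X := by
  rw [← RatFunc.algebraMap_X, tau_map, tau0_X, RatFunc.algebraMap_X]

theorem tau_zero (r : RatFunc ℂ) : PowerSeries.constantCoeff (tau r) = r := by
  have h : (PowerSeries.constantCoeff (R := RatFunc ℂ)).comp tau = RingHom.id _ := by
    refine IsLocalization.ringHom_ext (Polynomial ℂ)⁰ (RingHom.ext fun p => ?_)
    rw [RingHom.comp_apply, RingHom.comp_apply, RingHom.comp_apply, tau_map, tau0_const]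
    rfl
  exact RingHom.congr_fun h r

/-- the Taylor homomorphism at the parameter `x` -/
noncomputable def tauT : Tay := ⟨tau, tau_const, tau_zero⟩

/-! ### the involution `x ↦ 1 / x` -/

/-- `p ↦ p (1 / x)` -/
noncomputable def tauI0 : Polynomial ℂ →+* RatFunc ℂ :=
  Polynomial.eval₂RingHom (algebraMap ℂ (RatFunc ℂ)) (RatFunc.X⁻¹ : RatFunc ℂ)

theorem tauI0_C (a : ℂ) : tauI0 (Polynomial.C a) = algebraMap ℂ (RatFunc ℂ) a := by
  unfold tauI0
  rw [Polynomial.coe_eval₂RingHom, Polynomial.eval₂_C]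

theorem tauI0_X : tauI0 Polynomial.X = (RatFunc.X⁻¹ : RatFunc ℂ) := by
  unfold tauI0
  rw [Polynomial.coe_eval₂RingHom, Polynomial.eval₂_X]

theorem tau_ex_C (P : Option ℂ) (a : ℂ) :
    ex P (algebraMap ℂ (RatFunc ℂ) a) = HahnSeries.C a := by
  rw [tau_alg, exp_algMap, Polynomial.eval₂_C]

theorem tau_ex_X (P : Option ℂ) : ex P RatFunc.X = loc P := by
  rw [← RatFunc.algebraMap_X, exp_algMap, Polynomial.eval₂_X]

theorem tauI0_ex (p : Polynomial ℂ) : ex (some 0) (tauI0 p) =
    ex none (algebraMap (Polynomial ℂ) (RatFunc ℂ) p) := by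
  have h : (ex (some 0)).comp tauI0 = (ex none).comp (algebraMap (Polynomial ℂ) (RatFunc ℂ)) := by
    refine Polynomial.ringHom_ext (fun a => ?_) ?_
    · rw [RingHom.comp_apply, RingHom.comp_apply, tauI0_C, ← tau_alg, tau_ex_C, tau_ex_C]
    · rw [RingHom.comp_apply, RingHom.comp_apply, tauI0_X, RatFunc.algebraMap_X, map_inv₀,
        tau_ex_X, tau_ex_X]
      apply inv_eq_of_mul_eq_one_right
      show (HahnSeries.C (0 : ℂ) + HahnSeries.single 1 1) * HahnSeries.single (-1) 1 = 1
      rw [map_zero, zero_add, HahnSeries.single_mul_single]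
      simp
  exact RingHom.congr_fun h p

theorem tauI0_inj : Function.Injective tauI0 := by
  rw [injective_iff_map_eq_zero]
  intro p hp
  have h := tauI0_ex p
  rw [hp, map_zero] at h
  by_contra hp0
  exact exp_ne hp0 h.symm

/-- `r ↦ r (1 / x)` -/
noncomputable def tauI : RatFunc ℂ →+* RatFunc ℂ := IsFractionRing.lift tauI0_inj

theorem tauI_map (p : Polynomial ℂ) : tauI (algebraMap (Polynomial ℂ) (RatFunc ℂ) p) = tauI0 p :=
  IsFractionRing.lift_algebraMap tauI0_inj p

theorem tauI_const (a : ℂ) : tauI (algebraMap ℂ (RatFunc ℂ) a) = algebraMap ℂ (RatFunc ℂ) a := by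
  rw [tau_alg, tauI_map, tauI0_C, ← tau_alg]

theorem tauI_X : tauI RatFunc.X = (RatFunc.X⁻¹ : RatFunc ℂ) := by
  rw [← RatFunc.algebraMap_X, tauI_map, tauI0_X, RatFunc.algebraMap_X]

theorem tauI_ex (r : RatFunc ℂ) : ex (some 0) (tauI r) = ex none r := by
  have h : (ex (some 0)).comp tauI = ex none := by
    refine IsLocalization.ringHom_ext (Polynomial ℂ)⁰ (RingHom.ext fun p => ?_)
    rw [RingHom.comp_apply, RingHom.comp_apply, RingHom.comp_apply, tauI_map, tauI0_ex]
  exact RingHom.congr_fun h r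

theorem tauI_tauI (r : RatFunc ℂ) : tauI (tauI r) = r := by
  have h : tauI.comp tauI = RingHom.id _ := by
    refine IsLocalization.ringHom_ext (Polynomial ℂ)⁰ (Polynomial.ringHom_ext (fun a => ?_) ?_)
    · rw [RingHom.comp_apply, RingHom.comp_apply, RingHom.comp_apply, ← tau_alg, tauI_const,
        tauI_const]
      rfl
    · rw [RingHom.comp_apply, RingHom.comp_apply, RingHom.comp_apply, RatFunc.algebraMap_X,
        tauI_X, map_inv₀, tauI_X, inv_inv]
      rfl
  exact RingHom.congr_fun h r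

theorem tauI_ex' (r : RatFunc ℂ) : ex none (tauI r) = ex (some 0) r := by
  rw [← tauI_ex, tauI_tauI]

/-- `r ↦ r (1 / (1 / x + ε))` -/
noncomputable def tauJ : RatFunc ℂ →+* PowerSeries (RatFunc ℂ) :=
  (PowerSeries.map tauI).comp (tau.comp tauI)

theorem tauJ_apply (r : RatFunc ℂ) : tauJ r = PowerSeries.map tauI (tau (tauI r)) := rfl

theorem tauJ_const (a : ℂ) : tauJ (algebraMap ℂ (RatFunc ℂ) a) =
    PowerSeries.C (algebraMap ℂ (RatFunc ℂ) a) := by
  rw [tauJ_apply, tauI_const, tau_const, PowerSeries.map_C, tauI_const]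

theorem tauJ_coeff (r : RatFunc ℂ) (i : ℕ) :
    PowerSeries.coeff i (tauJ r) = tauI (PowerSeries.coeff i (tau (tauI r))) := by
  rw [tauJ_apply, PowerSeries.coeff_map]

theorem tauJ_zero (r : RatFunc ℂ) : PowerSeries.constantCoeff (tauJ r) = r := by
  rw [← PowerSeries.coeff_zero_eq_constantCoeff_apply, tauJ_coeff,
    PowerSeries.coeff_zero_eq_constantCoeff_apply, tau_zero, tauI_tauI]

theorem tauJ_X : tauJ (RatFunc.X⁻¹) =
    PowerSeries.C (RatFunc.X⁻¹ : RatFunc ℂ) + PowerSeries.X := by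
  rw [tauJ_apply, map_inv₀, tauI_X, inv_inv, tau_X, map_add, PowerSeries.map_C, PowerSeries.map_X,
    tauI_X]

/-- the Taylor homomorphism at the parameter `1 / x` -/
noncomputable def tauInf : Tay := ⟨tauJ, tauJ_const, tauJ_zero⟩

/-! ### the derivatives -/

theorem tay_mul (T : Tay) (r s : RatFunc ℂ) : PowerSeries.coeff 1 (T.σ (r * s)) =
    PowerSeries.coeff 1 (T.σ r) * s + r * PowerSeries.coeff 1 (T.σ s) := by
  rw [map_mul, PowerSeries.coeff_one_mul, T.zero, T.zero]
  ring

theorem tay_const (T : Tay) (a : ℂ) :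
    PowerSeries.coeff 1 (T.σ (algebraMap ℂ (RatFunc ℂ) a)) = 0 := by
  rw [T.const, PowerSeries.coeff_C, if_neg one_ne_zero]

theorem tauT_X : PowerSeries.coeff 1 (tauT.σ RatFunc.X) = 1 := by
  show PowerSeries.coeff 1 (tau RatFunc.X) = 1
  rw [tau_X, map_add, PowerSeries.coeff_C, if_neg one_ne_zero, PowerSeries.coeff_one_X, zero_add]

theorem tauInf_X : PowerSeries.coeff 1 (tauInf.σ RatFunc.X) = -(RatFunc.X ^ 2) := by
  have hX : (RatFunc.X : RatFunc ℂ) ≠ 0 := RatFunc.X_ne_zero
  have h1 : PowerSeries.coeff 1 (tauInf.σ (RatFunc.X⁻¹)) = 1 := by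
    show PowerSeries.coeff 1 (tauJ (RatFunc.X⁻¹)) = 1
    rw [tauJ_X, map_add, PowerSeries.coeff_C, if_neg one_ne_zero, PowerSeries.coeff_one_X,
      zero_add]
  have h2 := tay_mul tauInf RatFunc.X (RatFunc.X⁻¹)
  have h3 := tay_const tauInf 1
  rw [map_one] at h3
  rw [mul_inv_cancel₀ hX, h3, h1, mul_one] at h2
  have h4 : PowerSeries.coeff 1 (tauInf.σ RatFunc.X) * RatFunc.X⁻¹ = -RatFunc.X := by
    linear_combination -h2
  calc PowerSeries.coeff 1 (tauInf.σ RatFunc.X)
      = PowerSeries.coeff 1 (tauInf.σ RatFunc.X) * RatFunc.X⁻¹ * RatFunc.X := by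
        rw [mul_assoc, inv_mul_cancel₀ hX, mul_one]
    _ = -(RatFunc.X ^ 2) := by rw [h4]; ring

theorem tau_rel1 (c : ℂ) (r : RatFunc ℂ) :
    ex (some c) (PowerSeries.coeff 1 (tauT.σ r)) = tauD (ex (some c) r) := by
  have h := tau_der (ex (some c))
    (fun r => ex (some c) (PowerSeries.coeff 1 (tauT.σ r)) - tauD (ex (some c) r)) ?_ ?_ ?_ ?_ r
  · exact sub_eq_zero.1 h
  · intro x y
    simp only [map_add, tauD_add]
    ring
  · intro x y
    rw [tay_mul, map_mul (ex (some c)) x y, tauD_mul, map_add, map_mul, map_mul]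
    ring
  · intro a
    simp only [tay_const, map_zero, tau_ex_C]
    ext n
    rw [HahnSeries.coeff_sub, tauD_coeff, HahnSeries.coeff_zero, zero_sub, HahnSeries.C_apply,
      HahnSeries.coeff_single]
    split_ifs with hn
    · have : (n : ℂ) = -1 := by
        have h1 : n = -1 := by omega
        rw [h1]
        norm_num
      rw [this]
      simp
    · simp
  · simp only [tauT_X, map_one, tau_ex_X]
    ext n
    rw [HahnSeries.coeff_sub, tauD_coeff]
    show (1 : LaurentSeries ℂ).coeff n - ((n : ℂ) + 1) *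
      (HahnSeries.C c + HahnSeries.single 1 1 : LaurentSeries ℂ).coeff (n + 1) = 0
    rw [HahnSeries.coeff_add, HahnSeries.C_apply, HahnSeries.coeff_single,
      HahnSeries.coeff_single, HahnSeries.coeff_one]
    by_cases h0 : n = 0
    · subst h0
      simp
    · rw [if_neg h0, if_neg (show ¬ n + 1 = 1 by omega)]
      split_ifs with hn
      · have h1 : n = -1 := by omega
        rw [h1]
        simp
      · simp

theorem tau_rel3 (r : RatFunc ℂ) : PowerSeries.coeff 1 (tauInf.σ r) =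
    -(RatFunc.X ^ 2) * PowerSeries.coeff 1 (tauT.σ r) := by
  have h := tau_der (RingHom.id (RatFunc ℂ))
    (fun r => PowerSeries.coeff 1 (tauInf.σ r) -
      -(RatFunc.X ^ 2) * PowerSeries.coeff 1 (tauT.σ r)) ?_ ?_ ?_ ?_ r
  · exact sub_eq_zero.1 h
  · intro x y
    simp only [map_add]
    ring
  · intro x y
    simp only [tay_mul, RingHom.id_apply]
    ring
  · intro a
    simp only [tay_const, mul_zero, sub_zero]
  · simp only [tauT_X, tauInf_X, mul_one, sub_self]

/-! ### regularity -/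

/-- `p ↦ p (z + ε)` -/
noncomputable def tauH : Polynomial ℂ →+* PowerSeries (PowerSeries ℂ) :=
  Polynomial.eval₂RingHom ((PowerSeries.C : PowerSeries ℂ →+* PowerSeries (PowerSeries ℂ)).comp
    (PowerSeries.C : ℂ →+* PowerSeries ℂ)) (PowerSeries.C PowerSeries.X + PowerSeries.X)

theorem tauH_C (a : ℂ) : tauH (Polynomial.C a) = PowerSeries.C (PowerSeries.C a) := by
  unfold tauH
  rw [Polynomial.coe_eval₂RingHom, Polynomial.eval₂_C]
  rfl

theorem tauH_X : tauH Polynomial.X = PowerSeries.C PowerSeries.X + PowerSeries.X := by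
  unfold tauH
  rw [Polynomial.coe_eval₂RingHom, Polynomial.eval₂_X]

theorem tauH_eq (p : Polynomial ℂ) : PowerSeries.map (ex (some 0)) (tau0 p) =
    PowerSeries.map (HahnSeries.ofPowerSeries ℤ ℂ) (tauH p) := by
  have h : (PowerSeries.map (ex (some 0))).comp tau0 =
      (PowerSeries.map (HahnSeries.ofPowerSeries ℤ ℂ)).comp tauH := by
    refine Polynomial.ringHom_ext (fun a => ?_) ?_
    · rw [RingHom.comp_apply, RingHom.comp_apply, tau0_C, tauH_C, PowerSeries.map_C,
        PowerSeries.map_C, tau_ex_C, HahnSeries.ofPowerSeries_C]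
    · rw [RingHom.comp_apply, RingHom.comp_apply, tau0_X, tauH_X, map_add, map_add,
        PowerSeries.map_C, PowerSeries.map_C, PowerSeries.map_X, PowerSeries.map_X, tau_ex_X,
        HahnSeries.ofPowerSeries_X]
      show PowerSeries.C (HahnSeries.C (0 : ℂ) + HahnSeries.single 1 1) + PowerSeries.X = _
      rw [map_zero, zero_add]
  exact RingHom.congr_fun h p

theorem tauH_unit {q : Polynomial ℂ} (hq : q.eval 0 ≠ 0) : IsUnit (tauH q) := by
  have h : ((PowerSeries.constantCoeff (R := ℂ)).comp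
      (PowerSeries.constantCoeff (R := PowerSeries ℂ))).comp tauH = Polynomial.evalRingHom 0 := by
    refine Polynomial.ringHom_ext (fun a => ?_) ?_
    · rw [RingHom.comp_apply, RingHom.comp_apply, tauH_C, PowerSeries.constantCoeff_C,
        PowerSeries.constantCoeff_C, Polynomial.coe_evalRingHom, Polynomial.eval_C]
    · rw [RingHom.comp_apply, RingHom.comp_apply, tauH_X, map_add, PowerSeries.constantCoeff_C,
        PowerSeries.constantCoeff_X, add_zero, PowerSeries.constantCoeff_X,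
        Polynomial.coe_evalRingHom, Polynomial.eval_X]
  have h1 := RingHom.congr_fun h q
  rw [RingHom.comp_apply, RingHom.comp_apply, Polynomial.coe_evalRingHom] at h1
  rw [PowerSeries.isUnit_iff_constantCoeff, PowerSeries.isUnit_iff_constantCoeff, h1]
  exact hq.isUnit

theorem tau_denom (r : RatFunc ℂ) (h : ∀ m : ℤ, m < 0 → (ex (some 0) r).coeff m = 0) :
    r.denom.eval 0 ≠ 0 := by
  by_cases hr : r = 0
  · rw [hr, RatFunc.denom_zero, Polynomial.eval_one]
    exact one_ne_zero
  intro hc'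
  have hcop := RatFunc.isCoprime_num_denom r
  have hn : r.num.eval 0 ≠ 0 := by
    intro hn
    obtain ⟨a, b, hab⟩ := hcop
    have := congrArg (Polynomial.eval 0) hab
    rw [Polynomial.eval_add, Polynomial.eval_mul, Polynomial.eval_mul, hn, hc',
      Polynomial.eval_one] at this
    simp at this
  have hn0 : r.num ≠ 0 := RatFunc.num_ne_zero hr
  have hd0 : r.denom ≠ 0 := RatFunc.denom_ne_zero r
  have h1 : ex (some 0) r = ex (some 0) (algebraMap _ _ r.num) *
      (ex (some 0) (algebraMap _ _ r.denom))⁻¹ := by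
    rw [← map_inv₀, ← map_mul, ← div_eq_mul_inv, RatFunc.num_div_denom]
  have h2 : (ex (some 0) r).order < 0 := by
    rw [h1, HahnSeries.order_mul (exp_ne hn0) (inv_ne_zero (exp_ne hd0)),
      exp_order_inv (exp_ne hd0), exp_order_zero 0 hn]
    have := exp_order_pos 0 hd0 hc'
    omega
  have h3 : ex (some 0) r ≠ 0 := (map_ne_zero _).2 hr
  exact HahnSeries.coeff_order_eq_zero.not.2 h3 (h _ h2)

theorem tau_reg (r : RatFunc ℂ) (h : ∀ m : ℤ, m < 0 → (ex (some 0) r).coeff m = 0) (i : ℕ)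
    (m : ℤ) (hm : m < 0) : (ex (some 0) (PowerSeries.coeff i (tau r))).coeff m = 0 := by
  have hq := tau_denom r h
  obtain ⟨u, hu⟩ := (tauH_unit hq).exists_right_inv
  have hd0 : algebraMap (Polynomial ℂ) (RatFunc ℂ) r.denom ≠ 0 :=
    (map_ne_zero_iff _ (IsFractionRing.injective (Polynomial ℂ) (RatFunc ℂ))).2
      (RatFunc.denom_ne_zero r)
  have h1 : r * algebraMap (Polynomial ℂ) (RatFunc ℂ) r.denom =
      algebraMap (Polynomial ℂ) (RatFunc ℂ) r.num := by
    conv_lhs => rw [← RatFunc.num_div_denom r]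
    rw [RatFunc.num_div_denom r]
    rw [← div_mul_cancel₀ (algebraMap (Polynomial ℂ) (RatFunc ℂ) r.num) hd0,
      RatFunc.num_div_denom r]
  have h2 : PowerSeries.map (ex (some 0)) (tau r) *
      PowerSeries.map (HahnSeries.ofPowerSeries ℤ ℂ) (tauH r.denom) =
      PowerSeries.map (HahnSeries.ofPowerSeries ℤ ℂ) (tauH r.num) := by
    rw [← tauH_eq, ← tauH_eq, ← tau_map, ← tau_map, ← map_mul, ← map_mul, h1]
  have h3 : PowerSeries.map (ex (some 0)) (tau r) =
      PowerSeries.map (HahnSeries.ofPowerSeries ℤ ℂ) (tauH r.num * u) := by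
    calc PowerSeries.map (ex (some 0)) (tau r)
        = PowerSeries.map (ex (some 0)) (tau r) *
            PowerSeries.map (HahnSeries.ofPowerSeries ℤ ℂ) (tauH r.denom * u) := by
          rw [hu, map_one, mul_one]
      _ = PowerSeries.map (ex (some 0)) (tau r) *
            PowerSeries.map (HahnSeries.ofPowerSeries ℤ ℂ) (tauH r.denom) *
            PowerSeries.map (HahnSeries.ofPowerSeries ℤ ℂ) u := by
          rw [map_mul, mul_assoc]
      _ = _ := by rw [h2, map_mul]
  have h4 := congrArg (PowerSeries.coeff i) h3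
  rw [PowerSeries.coeff_map, PowerSeries.coeff_map] at h4
  rw [h4, PowerSeries.coeff_coe, if_pos hm]

theorem exists_tay : ∃ T I : Tay,
    (∀ (c : ℂ) (r : RatFunc ℂ) (m : ℤ),
      (ex (some c) (PowerSeries.coeff 1 (T.σ r))).coeff (m - 1) = m * (ex (some c) r).coeff m) ∧
    (∀ (r : RatFunc ℂ), (∀ m : ℤ, m < 0 → (ex none r).coeff m = 0) →
      ∀ (i : ℕ) (m : ℤ), m < 0 → (ex none (PowerSeries.coeff i (I.σ r))).coeff m = 0) ∧
    (∀ r : RatFunc ℂ, PowerSeries.coeff 1 (I.σ r) = -(RatFunc.X ^ 2) * PowerSeries.coeff 1 (T.σ r)) ∧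
    (∀ r : RatFunc ℂ, PowerSeries.coeff 1 (T.σ r) = 0 → ∃ a : ℂ, r = algebraMap ℂ (RatFunc ℂ) a) ∧
    I.σ (RatFunc.X⁻¹) = PowerSeries.C (RatFunc.X⁻¹ : RatFunc ℂ) + PowerSeries.X := by
  have hrel1 : ∀ (c : ℂ) (r : RatFunc ℂ) (m : ℤ),
      (ex (some c) (PowerSeries.coeff 1 (tauT.σ r))).coeff (m - 1) =
        m * (ex (some c) r).coeff m := by
    intro c r m
    rw [tau_rel1, tauD_coeff, sub_add_cancel]
    push_cast
    ring
  refine ⟨tauT, tauInf, hrel1, ?_, tau_rel3, ?_, tauJ_X⟩
  · intro r hr i m hm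
    show (ex none (PowerSeries.coeff i (tauJ r))).coeff m = 0
    rw [tauJ_coeff, tauI_ex']
    refine tau_reg (tauI r) (fun k hk => ?_) i m hm
    rw [tauI_ex]
    exact hr k hk
  · intro r hr
    refine ⟨(ex (some 0) r).coeff 0, ?_⟩
    apply (ex (some 0)).injective
    rw [tau_ex_C]
    ext m
    rw [HahnSeries.C_apply, HahnSeries.coeff_single]
    split_ifs with hm
    · rw [hm]
    · have h1 := hrel1 0 r m
      rw [hr, map_zero, HahnSeries.coeff_zero] at h1
      exact (mul_eq_zero.1 h1.symm).resolve_left (by exact_mod_cast hm)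

end Pool.Agent.TH291.C2
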