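import Pool.Agent.TH291.C2.Trans
import Pool.Agent.TH291.C2.Defs4

/-! Transport of a pointed curve with `ConeProp` along an isomorphism of fields. -/

set_option autoImplicit false
set_option maxSynthPendingDepth 4

namespace Pool.Agent.TH291.C2

open scoped TensorProduct

theorem transport_cone {k k' : Type} [Field k] [Field k'] (e : k ≃+* k') {g : ℕ}
    (h : ∃ (A : Type) (_ : CommRing A) (_ : Algebra k A) (V : ℕ → Submodule k A),
      IsPointedCurve k A V g ∧ ConeProp k A V g) :
    ∃ (A : Type) (_ : CommRing A) (_ : Algebra k' A) (V : ℕ → Submodule k' A),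
      IsPointedCurve k' A V g ∧ ConeProp k' A V g := by
  obtain ⟨A, _, _, V, h1, h2⟩ := h
  let alg : Algebra k' A := ((algebraMap k A).comp (e.symm : k' →+* k)).toAlgebra
  have he : ∀ c : k, algebraMap k' A (e c) = algebraMap k A c := by
    intro c
    change algebraMap k A (e.symm (e c)) = algebraMap k A c
    rw [e.symm_apply_apply]
  let V' : ℕ → Submodule k' A := fun n =>
    { carrier := V n
      add_mem' := fun ha hb => (V n).add_mem ha hb
      zero_mem' := (V n).zero_mem
      smul_mem' := by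
        intro c a ha
        rw [Trans.smul_eq' e he]
        exact (V n).smul_mem _ ha }
  have hV : ∀ n a, a ∈ V' n ↔ a ∈ V n := fun n a => Iff.rfl
  have h3 : NoSections k A V g := by
    intro n b f hb hf hr hI
    refine (h2 n b hb).1 ⟨1, one_pos, f, hf, ?_, ?_⟩
    · rw [one_mul]
      exact hr
    · rw [one_mul]
      exact hI
  refine ⟨A, inferInstance, alg, V', (Trans.core e he V V' hV h1 h3).1, ?_⟩
  obtain ⟨Φ, hΦ⟩ := Trans.exists_equiv e he
  have hΨ : ∀ a b : A, Φ.symm (a ⊗ₜ[k] b) = a ⊗ₜ[k'] b := by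
    intro a b
    rw [RingEquiv.symm_apply_eq, hΦ]
  intro n b hb
  rw [← h2 n b hb]
  constructor
  · rintro ⟨r, hr, f, hf, hfr, hfI⟩
    exact ⟨r, hr, Φ f, fun h => hf ((map_eq_zero_iff Φ Φ.injective).1 h),
      Trans.map_range Φ hΦ (V (r * n)) (V' (r * n)) (hV _) f hfr,
      Trans.map_ideal Φ hΦ (r * b) f hfI⟩
  · rintro ⟨r, hr, f, hf, hfr, hfI⟩
    exact ⟨r, hr, Φ.symm f, fun h => hf ((map_eq_zero_iff Φ.symm Φ.symm.injective).1 h),
      Trans.map_range Φ.symm hΨ (V' (r * n)) (V (r * n)) (fun a => (hV _ a).symm) f hfr,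
      Trans.map_ideal Φ.symm hΨ (r * b) f hfI⟩

end Pool.Agent.TH291.C2
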