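import Pool.Agent.TH291.C2.Ec1
import Pool.Agent.TH236.C2.DimJ
import Pool.Agent.TH291.C2.Ker
import Pool.Agent.TH291.C2.Count
import Pool.Agent.TH291.C2.TransC
import Pool.Agent.TH291.C2.Tau
import Pool.Agent.TH291.C2.FinA

/-! Existence of sections by counting, and the cone property. -/

set_option autoImplicit false
set_option maxSynthPendingDepth 4

namespace Pool.Agent.TH291.C2

open scoped TensorProduct

variable {g : ℕ} {α β : Fin g → ℂ}

/-- `DD` as a `K`-linear map -/
noncomputable def DDl (T : Tay) (j : ℕ) : (Alg α β ⊗[K] Alg α β) →ₗ[K] F where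
  toFun := DD T j
  map_add' := map_add _
  map_smul' := DD_smul T j

/-- sections vanishing to order `j` along the diagonal -/
noncomputable def U (α β : Fin g → ℂ) (n j : ℕ) : Submodule K (Alg α β ⊗[K] Alg α β) :=
  LinearMap.range (TensorProduct.map (V α β n).subtype (V α β n).subtype) ⊓
    ((KaehlerDifferential.ideal K (Alg α β)) ^ j).restrictScalars K

theorem mem_U {n j : ℕ} {x : Alg α β ⊗[K] Alg α β} :
    x ∈ U α β n j ↔ x ∈ LinearMap.range (TensorProduct.map (V α β n).subtype (V α β n).subtype) ∧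
      x ∈ (KaehlerDifferential.ideal K (Alg α β)) ^ j := Iff.rfl

theorem not_isField_of {k A : Type} [Field k] [CommRing A] [Algebra k A] {V : ℕ → Submodule k A} {g : ℕ}
    (h : IsPointedCurve k A V g) : ¬ IsField A := by
  intro hF
  have h1 : ∃ a, a ∉ V 0 := by
    by_contra hcon
    push Not at hcon
    have h2 : V (2 * g + 2) ≤ V 0 := fun a _ => hcon a
    have hf := h.finite 0
    have h3 := Submodule.finrank_mono h2
    rw [h.finrank (2 * g + 2) (by omega)] at h3
    have h4 : Module.finrank k (V 0) ≤ 1 := by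
      have h5 : V 0 ≤ Submodule.span k {(1 : A)} := by
        intro a ha
        obtain ⟨c, hc⟩ := (h.zero a).1 ha
        rw [Submodule.mem_span_singleton]
        exact ⟨c, by rw [hc, Algebra.algebraMap_eq_smul_one]⟩
      refine (Submodule.finrank_mono h5).trans ?_
      have h6 := finrank_span_le_card (R := k) ({(1 : A)} : Set A)
      simpa using h6
    omega
  obtain ⟨a, ha⟩ := h1
  have ha0 : a ≠ 0 := by
    rintro rfl
    exact ha (Submodule.zero_mem _)
  obtain ⟨b, hb⟩ := hF.mul_inv_cancel ha0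
  have hb0 : b ∉ V 0 := by
    intro hb1
    obtain ⟨c, hc⟩ := (h.zero b).1 hb1
    apply ha
    have hc0 : c ≠ 0 := by
      rintro rfl
      have hnt := hF.nontrivial
      rw [map_zero] at hc
      rw [hc, mul_zero] at hb
      obtain ⟨x, y, hxy⟩ := hF.exists_pair_ne
      apply hxy
      calc x = 1 * x := (one_mul x).symm
        _ = 0 := by rw [← hb, zero_mul]
        _ = 1 * y := by rw [← hb, zero_mul]
        _ = y := one_mul y
    rw [h.zero]
    refine ⟨c⁻¹, ?_⟩
    have h7 : a * algebraMap k A c = 1 := by rw [← hc]; exact hb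
    calc a = a * (algebraMap k A c * algebraMap k A c⁻¹) := by
            rw [← map_mul, mul_inv_cancel₀ hc0, map_one, mul_one]
      _ = (a * algebraMap k A c) * algebraMap k A c⁻¹ := by ring
      _ = algebraMap k A c⁻¹ := by rw [h7, one_mul]
  have h8 := h.mul' ha hb0
  apply h8
  rw [hb]
  have h9 : (1 : A) ∈ V 0 := (h.zero 1).2 ⟨1, (map_one _).symm⟩
  exact h.mono (by omega) h9

theorem const_of_dF {T : Tay}
    (h4 : ∀ r : RatFunc ℂ, PowerSeries.coeff 1 (T.σ r) = 0 → ∃ a : ℂ, r = algebraMap ℂ (RatFunc ℂ) a)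
    {a : Alg α β} (h : dF T a.1 = 0) : ∃ c : K, a = algebraMap K (Alg α β) c := by
  let φ : ZeroHom (RatFunc ℂ) ℂ := ⟨fun r => (ex none r).coeff 0, by simp⟩
  refine ⟨a.1.map φ, ?_⟩
  apply Subtype.ext
  change a.1 = algebraMap K F (a.1.map φ)
  ext1; funext γ
  rw [algebraMap_coeff, HahnSeries.map_coeff]
  have h5 : PowerSeries.coeff 1 (T.σ (a.1.coeff γ)) = 0 := by
    change (dF T a.1).coeff γ = 0
    rw [h]; rfl
  obtain ⟨c, hc⟩ := h4 _ h5
  rw [hc]
  change algebraMap ℂ (RatFunc ℂ) c = algebraMap ℂ (RatFunc ℂ) ((ex none (algebraMap ℂ (RatFunc ℂ) c)).coeff 0)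
  rw [ex_const, coeff_C', if_pos rfl]

instance instAlgClosedK : IsAlgClosed K := TH952.hahn_isAlgClosed ℂ

theorem step (hg : 1 ≤ g) (hd : Dist α β) {n : ℕ} (hn : 2 * g ≤ n + 1) (j : ℕ)
    [Module.Finite K (U α β n j)] :
    (Module.finrank K (U α β n j) : ℤ) ≤ Module.finrank K (U α β n (j + 1)) + (2 * n + 2 * g * j - 2 * j + 1 - g) := by
  obtain ⟨T, I, h1, h2, h3, h4, -⟩ := exists_tay
  have hP := pointed hd
  have hDd := hP.dedekind
  let f : U α β n j →ₗ[K] F := (DDl T j).comp (U α β n j).subtype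
  have hrk := LinearMap.finrank_range_add_finrank_ker f
  -- the image consists of forms
  obtain ⟨hW1, hW2⟩ := finrank_form hd j (2 * n) (by nlinarith) (LinearMap.range f) (by
    rintro _ ⟨⟨x, hx⟩, rfl⟩
    rw [mem_U] at hx
    obtain ⟨r1, r2⟩ := DD_form h1 j x hx.2
    exact ⟨r1, r2, fun m γ hm => pole_DD h2 h3 hx.1 hx.2 m γ (by push_cast at hm ⊢; omega)⟩)
  -- the kernel embeds into the next step
  have hker : ∀ x : U α β n j, f x = 0 → x.1 ∈ U α β n (j + 1) := by
    rintro ⟨x, hx⟩ h0
    rw [mem_U] at hx ⊢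
    refine ⟨hx.1, ?_⟩
    refine ker_abs (k := K) (A := Alg α β) (L := F) hP.finiteType (not_isField_of hP)
      (Alg α β).val.toRingHom Subtype.val_injective (fun j => DD T j) (fun i j x y => DD_mul T i j x y)
      (fun a b => DD_zero_tmul T a b) (fun j x => DD_vanish T j x) ?_ j x hx.2 h0
    intro a ha
    have e := DD_one_diff T a
    rw [e] at ha
    exact const_of_dF h4 (neg_eq_zero.1 ha)
  let ψ : LinearMap.ker f →ₗ[K] U α β n (j + 1) :=
    { toFun := fun x => ⟨x.1.1, hker x.1 x.2⟩
      map_add' := fun _ _ => rfl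
      map_smul' := fun _ _ => rfl }
  have hψ : Function.Injective ψ := by
    intro x y hxy
    have := congrArg Subtype.val hxy
    exact Subtype.ext (Subtype.ext this)
  have hle : U α β n (j + 1) ≤ U α β n j := by
    intro x hx
    rw [mem_U] at hx ⊢
    exact ⟨hx.1, Ideal.pow_le_pow_right (Nat.le_succ j) hx.2⟩
  have hfin : Module.Finite K (U α β n (j + 1)) := Submodule.finiteDimensional_of_le hle
  have h5 := LinearMap.finrank_le_finrank_of_injective hψ
  zify at hrk hW2 h5
  linarith

theorem finite_range (hd : Dist α β) (n : ℕ) :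
    Module.Finite K (LinearMap.range (TensorProduct.map (V α β n).subtype (V α β n).subtype)) := by
  have := finite_V hd n
  infer_instance

theorem finite_U (hd : Dist α β) (n j : ℕ) : Module.Finite K (U α β n j) := by
  have := finite_range hd n
  exact Submodule.finiteDimensional_of_le (inf_le_left (a := LinearMap.range
    (TensorProduct.map (V α β n).subtype (V α β n).subtype)))

theorem finrank_U_zero (hd : Dist α β) {n : ℕ} (hn : 2 * g ≤ n + 1) :
    (Module.finrank K (U α β n 0) : ℤ) = ((n : ℤ) + 1 - g) ^ 2 := by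
  have h1 : U α β n 0 = LinearMap.range (TensorProduct.map (V α β n).subtype (V α β n).subtype) := by
    ext x
    rw [mem_U, pow_zero, Ideal.one_eq_top]
    simp
  have hinj : Function.Injective (TensorProduct.map (V α β n).subtype (V α β n).subtype) :=
    TensorProduct.map_injective_of_flat_flat _ _ (Submodule.subtype_injective _) (Submodule.subtype_injective _)
  have hfree : Module.Free K (V α β n) := Module.Free.of_divisionRing K (V α β n)
  rw [h1, LinearMap.finrank_range_of_inj hinj, Module.finrank_tensorProduct, finrank_V hd hn]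
  have hle : g ≤ n + 1 := by omega
  rw [Nat.cast_mul, Nat.cast_sub hle]
  push_cast
  ring

theorem finrank_U_ge (hg : 1 ≤ g) (hd : Dist α β) {n : ℕ} (hn : 2 * g ≤ n + 1) (b : ℕ) :
    ((n : ℤ) + 1 - g) ^ 2 ≤ Module.finrank K (U α β n b) +
      ∑ j ∈ Finset.range b, (2 * (n : ℤ) + 2 * g * j - 2 * j + 1 - g) := by
  induction b with
  | zero => rw [Finset.sum_range_zero, add_zero, finrank_U_zero hd hn]
  | succ b ih =>
    have := finite_U hd n b
    have h1 := step hg hd hn b
    rw [Finset.sum_range_succ]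
    linarith

/-- the cone property of the glued curve -/
theorem coneProp (hg : 10 ≤ g) (hd : Dist α β) (hgen : Gen α β) : ConeProp K (Alg α β) (V α β) g := by
  intro n b hb
  constructor
  · rintro ⟨r, hr, f, hf, hV, hI⟩
    have h := noSections hg hd hgen (r * n) (r * b) f (Nat.mul_pos hr hb) hf hV hI
    have hr' : (0 : ℝ) < r := by exact_mod_cast hr
    push_cast at h
    have h5 : (r : ℝ) * ((b : ℝ) * Real.sqrt g) < (r : ℝ) * ((n : ℝ) - b) := by
      calc (r : ℝ) * ((b : ℝ) * Real.sqrt g) = r * b * Real.sqrt g := by ring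
        _ < r * n - r * b := h
        _ = _ := by ring
    exact lt_of_mul_lt_mul_left h5 hr'.le
  · intro h
    obtain ⟨r, hr, h1, h2⟩ := count_pos g n b (by omega) h
    have h3 := finrank_U_ge (α := α) (β := β) (by omega) hd h1 (r * b)
    have h4 : 0 < Module.finrank K (U α β (r * n) (r * b)) := by
      have h5 : (0 : ℤ) < Module.finrank K (U α β (r * n) (r * b)) := by
        push_cast at h2 h3 ⊢
        linarith
      exact_mod_cast h5
    have hfin := finite_U hd (r * n) (r * b)
    obtain ⟨x, hx⟩ := Module.finrank_pos_iff_exists_ne_zero.1 h4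
    refine ⟨r, hr, x.1, ?_, (mem_U.1 x.2).1, (mem_U.1 x.2).2⟩
    intro h0
    exact hx (Subtype.ext h0)

theorem main_cone (g : ℕ) (hg : 10 ≤ g) :
    ∃ (A : Type) (_ : CommRing A) (_ : Algebra ℂ A) (V : ℕ → Submodule ℂ A),
      IsPointedCurve ℂ A V g ∧ ConeProp ℂ A V g := by
  obtain ⟨α, β, hd, hgen⟩ := exists_points g
  obtain ⟨e⟩ := ringEquiv_K
  exact transport_cone e ⟨Alg α β, inferInstance, inferInstance, V α β, pointed hd, coneProp hg hd hgen⟩

end Pool.Agent.TH291.C2
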