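import Pool.Agent.TH291.C2.Exp

/-! The leading coefficient of a glued function is a section of the nodal curve. -/

set_option autoImplicit false
set_option maxSynthPendingDepth 4

namespace Pool.Agent.TH291.C2

variable {g : ℕ} {α β : Fin g → ℂ}

theorem lead_co_zero {f : F} {γ : ℚ} (h : γ < f.order) (P : Option ℂ) (m : ℤ) :
    co P f m γ = 0 := by
  unfold co
  rw [HahnSeries.coeff_eq_zero_of_lt_order h, map_zero, HahnSeries.coeff_zero]

theorem lead_poly {f : F} (hf : f ≠ 0) (h1 : Reg α β f) (h2 : Glue α β f) {n : ℕ} (h3 : Pole n f) :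
    ∃ p : Polynomial ℂ, f.coeff f.order = algebraMap (Polynomial ℂ) (RatFunc ℂ) p ∧ p ≠ 0 ∧
      p.natDegree ≤ n ∧ ∀ i, p.eval (α i) = p.eval (β i) := by
  have hr : f.coeff f.order ≠ 0 := HahnSeries.coeff_order_eq_zero.not.2 hf
  have hneg : ∀ (c : ℂ) (m : ℤ), m < 0 → (ex (some c) (f.coeff f.order)).coeff m = 0 := by
    intro c m hm
    have hm' : (m : ℚ) < 0 := by exact_mod_cast hm
    change co (some c) f m f.order = 0
    by_cases hc : ∀ i, c ≠ α i ∧ c ≠ β i
    · exact h1 c hc m f.order hm
    · push Not at hc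
      obtain ⟨i, hi⟩ := hc
      by_cases ha : c = α i
      · rw [ha, h2 i m f.order]
        exact lead_co_zero (by linarith) _ _
      · rw [hi ha]
        have h4 := h2 i (-m) (f.order + m)
        rw [lead_co_zero (by linarith) _ _, neg_neg] at h4
        have e : f.order + (m : ℚ) + ((-m : ℤ) : ℚ) = f.order := by
          push_cast
          ring
        rw [e] at h4
        exact h4.symm
  obtain ⟨p, hp⟩ := ratfunc_poly _ hneg
  refine ⟨p, hp, ?_, ?_, ?_⟩
  · rintro rfl
    exact hr (by rw [hp, map_zero])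
  · apply ratfunc_poly_deg
    intro m hm
    rw [← hp]
    exact h3 m f.order hm
  · intro i
    have h4 := h2 i 0 f.order
    have e : f.order + ((0 : ℤ) : ℚ) = f.order := by
      push_cast
      ring
    rw [e, neg_zero] at h4
    unfold co at h4
    rw [hp] at h4
    have h5 := ex_poly (α i) p 0
    have h6 := ex_poly (β i) p 0
    rw [Nat.cast_zero, Polynomial.taylor_coeff_zero] at h5 h6
    rw [← h5, ← h6]
    exact h4

end Pool.Agent.TH291.C2
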