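import Mathlib
import Pool.Agent.TH291.C2.Defs

/-! Lifting of the sections of the nodal curve: `e = ∑ t ^ j e_j`, by recursion on `j`.
(Job C2-LIFT; helper9. The expansions that are needed are proved here, with the prefix `l_`.) -/

set_option autoImplicit false
set_option maxSynthPendingDepth 4

namespace Pool.Agent.TH291.C2

theorem l_ex_poly' (P : Option ℂ) (p : Polynomial ℂ) : ex P (algebraMap (Polynomial ℂ) (RatFunc ℂ) p) =
    Polynomial.eval₂ (HahnSeries.C : ℂ →+* LaurentSeries ℂ) (loc P) p := by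
  unfold ex
  rw [IsFractionRing.lift_algebraMap, Polynomial.coe_eval₂RingHom]

theorem l_eval_taylor (c : ℂ) (p : Polynomial ℂ) :
    Polynomial.eval₂ (HahnSeries.C : ℂ →+* LaurentSeries ℂ) (loc (some c)) p =
      Polynomial.eval₂ (HahnSeries.C : ℂ →+* LaurentSeries ℂ) (HahnSeries.single 1 1) (Polynomial.taylor c p) := by
  rw [Polynomial.taylor_apply, Polynomial.eval₂_comp, Polynomial.eval₂_add, Polynomial.eval₂_C, Polynomial.eval₂_X,
    add_comm]
  rfl

theorem l_eval_ps (q : Polynomial ℂ) :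
    Polynomial.eval₂ (HahnSeries.C : ℂ →+* LaurentSeries ℂ) (HahnSeries.single 1 1) q =
      HahnSeries.ofPowerSeries ℤ ℂ (q : PowerSeries ℂ) := by
  have h : Polynomial.eval₂RingHom (HahnSeries.C : ℂ →+* LaurentSeries ℂ) (HahnSeries.single 1 1) =
      (HahnSeries.ofPowerSeries ℤ ℂ).comp (Polynomial.coeToPowerSeries.ringHom) := by
    apply Polynomial.ringHom_ext
    · intro a
      rw [RingHom.comp_apply, Polynomial.coeToPowerSeries.ringHom_apply, Polynomial.coe_eval₂RingHom, Polynomial.eval₂_C,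
        Polynomial.coe_C, HahnSeries.ofPowerSeries_C]
    · rw [RingHom.comp_apply, Polynomial.coeToPowerSeries.ringHom_apply, Polynomial.coe_eval₂RingHom, Polynomial.eval₂_X,
        Polynomial.coe_X, HahnSeries.ofPowerSeries_X]
  exact DFunLike.congr_fun h q

theorem l_ps_neg (s : PowerSeries ℂ) {m : ℤ} (hm : m < 0) : (HahnSeries.ofPowerSeries ℤ ℂ s).coeff m = 0 := by
  rw [HahnSeries.ofPowerSeries_apply]
  apply HahnSeries.embDomain_of_notMem_range
  rintro ⟨n, hn⟩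
  have : (n : ℤ) = m := hn
  omega

theorem l_ex_fin (c : ℂ) (p : Polynomial ℂ) : ex (some c) (algebraMap (Polynomial ℂ) (RatFunc ℂ) p) =
    HahnSeries.ofPowerSeries ℤ ℂ (Polynomial.taylor c p : Polynomial ℂ) := by
  rw [l_ex_poly', l_eval_taylor, l_eval_ps]

theorem l_ex_poly_neg (c : ℂ) (p : Polynomial ℂ) {m : ℤ} (hm : m < 0) :
    (ex (some c) (algebraMap (Polynomial ℂ) (RatFunc ℂ) p)).coeff m = 0 := by
  rw [l_ex_fin, l_ps_neg _ hm]

theorem l_ex_poly (c : ℂ) (p : Polynomial ℂ) (k : ℕ) :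
    (ex (some c) (algebraMap (Polynomial ℂ) (RatFunc ℂ) p)).coeff k = (Polynomial.taylor c p).coeff k := by
  rw [l_ex_fin, HahnSeries.ofPowerSeries_apply_coeff, Polynomial.coeff_coe]

theorem l_ex_poly_inf (p : Polynomial ℂ) (k : ℕ) :
    (ex none (algebraMap (Polynomial ℂ) (RatFunc ℂ) p)).coeff (-(k : ℤ)) = p.coeff k := by
  rw [l_ex_poly']
  have h := eval_single_coeff (-1) (by norm_num) p k
  rw [neg_one_mul] at h
  exact h

theorem l_ex_inv_same (c : ℂ) (k : ℕ) :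
    ex (some c) ((algebraMap (Polynomial ℂ) (RatFunc ℂ) ((Polynomial.X - Polynomial.C c) ^ k))⁻¹)
      = HahnSeries.single (-(k : ℤ)) 1 := by
  rw [map_inv₀, map_pow, map_pow, l_ex_fin]
  have h : Polynomial.taylor c (Polynomial.X - Polynomial.C c) = Polynomial.X := by
    rw [Polynomial.taylor_apply]
    simp
  rw [h, Polynomial.coe_X, HahnSeries.ofPowerSeries_X, HahnSeries.single_pow, HahnSeries.inv_single, one_pow, inv_one]
  simp

/-- the inverse of a power series with nonzero constant term is a power series -/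
theorem l_inv_neg (s : PowerSeries ℂ) (hs : PowerSeries.constantCoeff s ≠ 0) {m : ℤ} (hm : m < 0) :
    ((HahnSeries.ofPowerSeries ℤ ℂ s)⁻¹).coeff m = 0 := by
  have h : (HahnSeries.ofPowerSeries ℤ ℂ s)⁻¹ = HahnSeries.ofPowerSeries ℤ ℂ s⁻¹ := by
    apply inv_eq_of_mul_eq_one_right
    rw [← map_mul, PowerSeries.mul_inv_cancel s hs, map_one]
  rw [h, l_ps_neg _ hm]

theorem l_ex_inv_other (c d : ℂ) (h : c ≠ d) (k : ℕ) {m : ℤ} (hm : m < 0) :
    (ex (some d) ((algebraMap (Polynomial ℂ) (RatFunc ℂ) ((Polynomial.X - Polynomial.C c) ^ k))⁻¹)).coeff m = 0 := by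
  rw [map_inv₀, l_ex_fin]
  apply l_inv_neg _ _ hm
  rw [← PowerSeries.coeff_zero_eq_constantCoeff_apply, Polynomial.coeff_coe, Polynomial.taylor_coeff_zero]
  simp only [Polynomial.eval_pow, Polynomial.eval_sub, Polynomial.eval_X, Polynomial.eval_C]
  exact pow_ne_zero _ (sub_ne_zero.2 h.symm)

theorem l_ex_inv_inf (c : ℂ) (k : ℕ) {m : ℤ} (hm : m < 0) :
    (ex none ((algebraMap (Polynomial ℂ) (RatFunc ℂ) ((Polynomial.X - Polynomial.C c) ^ k))⁻¹)).coeff m = 0 := by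
  rw [map_inv₀, l_ex_poly', Polynomial.eval₂_pow, Polynomial.eval₂_sub, Polynomial.eval₂_X, Polynomial.eval₂_C]
  have h1 : loc none - HahnSeries.C c = HahnSeries.single (-1) 1 *
      HahnSeries.ofPowerSeries ℤ ℂ (1 - PowerSeries.C c * PowerSeries.X) := by
    have e1 : HahnSeries.ofPowerSeries ℤ ℂ (1 - PowerSeries.C c * PowerSeries.X) =
        1 - HahnSeries.C c * HahnSeries.single 1 1 := by
      rw [RingHom.map_sub, RingHom.map_mul, RingHom.map_one, HahnSeries.ofPowerSeries_C, HahnSeries.ofPowerSeries_X]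
    have e2 : (HahnSeries.single (-1 : ℤ) (1 : ℂ)) * (HahnSeries.C c * HahnSeries.single 1 1) = HahnSeries.C c := by
      rw [mul_left_comm, HahnSeries.single_mul_single]
      norm_num
    rw [e1, mul_sub, e2, mul_one]
    rfl
  have h2 : (HahnSeries.single (-1 : ℤ) (1 : ℂ))⁻¹ = HahnSeries.ofPowerSeries ℤ ℂ PowerSeries.X := by
    rw [HahnSeries.inv_single, HahnSeries.ofPowerSeries_X]
    norm_num
  have h3 : (HahnSeries.ofPowerSeries ℤ ℂ (1 - PowerSeries.C c * PowerSeries.X))⁻¹ =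
      HahnSeries.ofPowerSeries ℤ ℂ (1 - PowerSeries.C c * PowerSeries.X)⁻¹ := by
    apply inv_eq_of_mul_eq_one_right
    rw [← map_mul, PowerSeries.mul_inv_cancel, map_one]
    simp
  rw [h1, ← inv_pow, mul_inv, h2, h3, ← map_mul, ← map_pow, l_ps_neg _ hm]

open Polynomial

section lift

/-- the inverse of `(x - c) ^ k` -/
noncomputable def lpol (c : ℂ) (k : ℕ) : RatFunc ℂ :=
  (algebraMap (Polynomial ℂ) (RatFunc ℂ) ((Polynomial.X - Polynomial.C c) ^ k))⁻¹

/-- a constant function -/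
noncomputable def lcst (a : ℂ) : RatFunc ℂ := algebraMap (Polynomial ℂ) (RatFunc ℂ) (Polynomial.C a)

theorem l_ex_cst (P : Option ℂ) (a : ℂ) : ex P (lcst a) = HahnSeries.C a := by
  unfold ex lcst
  rw [IsFractionRing.lift_algebraMap, Polynomial.coe_eval₂RingHom, Polynomial.eval₂_C]

theorem l_coeff_cst_mul (P : Option ℂ) (a : ℂ) (r : RatFunc ℂ) (m : ℤ) :
    (ex P (lcst a * r)).coeff m = a * (ex P r).coeff m := by
  rw [map_mul, l_ex_cst, HahnSeries.C_mul_eq_smul, HahnSeries.coeff_smul, smul_eq_mul]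

variable {ι : Type} [Fintype ι]

/-- the polar part in degree `j + 1` -/
noncomputable def lpart (ν : ι → ℂ) (A : ι → ℕ → ℂ) (j : ℕ) : RatFunc ℂ :=
  ∑ i : ι, ∑ k : Fin (j + 1), lcst (A i k) * lpol (ν i) (k + 1)

theorem l_part_inf (ν : ι → ℂ) (A : ι → ℕ → ℂ) (j : ℕ) {m : ℤ} (hm : m < 0) :
    (ex none (lpart ν A j)).coeff m = 0 := by
  unfold lpart
  rw [map_sum, HahnSeries.coeff_sum]
  refine Finset.sum_eq_zero fun i _ => ?_
  rw [map_sum, HahnSeries.coeff_sum]
  refine Finset.sum_eq_zero fun k _ => ?_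
  rw [l_coeff_cst_mul]
  unfold lpol
  rw [l_ex_inv_inf _ _ hm, mul_zero]

theorem l_part_reg (ν : ι → ℂ) (A : ι → ℕ → ℂ) (j : ℕ) {c : ℂ} (hc : ∀ i, ν i ≠ c) {m : ℤ} (hm : m < 0) :
    (ex (some c) (lpart ν A j)).coeff m = 0 := by
  unfold lpart
  rw [map_sum, HahnSeries.coeff_sum]
  refine Finset.sum_eq_zero fun i _ => ?_
  rw [map_sum, HahnSeries.coeff_sum]
  refine Finset.sum_eq_zero fun k _ => ?_
  rw [l_coeff_cst_mul]
  unfold lpol
  rw [l_ex_inv_other _ _ (hc i) _ hm, mul_zero]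

theorem l_part_pol {ν : ι → ℂ} (hν : Function.Injective ν) (A : ι → ℕ → ℂ) (j : ℕ) (i : ι) (k : ℕ) :
    (ex (some (ν i)) (lpart ν A j)).coeff (-((k : ℤ) + 1)) = if k < j + 1 then A i k else 0 := by
  unfold lpart
  rw [map_sum, HahnSeries.coeff_sum, Finset.sum_eq_single i]
  · rw [map_sum, HahnSeries.coeff_sum]
    have h : ∀ k' : Fin (j + 1), (ex (some (ν i)) (lcst (A i k') * lpol (ν i) (k' + 1))).coeff
        (-((k : ℤ) + 1)) = if (k' : ℕ) = k then A i k else 0 := by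
      intro k'
      rw [l_coeff_cst_mul]
      unfold lpol
      rw [l_ex_inv_same]
      split_ifs with hk
      · rw [hk]
        push_cast
        rw [HahnSeries.coeff_single_same, mul_one]
      · rw [HahnSeries.coeff_single_of_ne, mul_zero]
        push_cast
        omega
    rw [Finset.sum_congr rfl fun k' _ => h k']
    split_ifs with hk
    · rw [Finset.sum_eq_single ⟨k, hk⟩]
      · simp
      · intro b _ hb
        rw [if_neg]
        intro h'
        exact hb (Fin.ext h')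
      · intro h'
        exact absurd (Finset.mem_univ _) h'
    · refine Finset.sum_eq_zero fun k' _ => ?_
      rw [if_neg]
      have := k'.2
      omega
  · intro i' _ hi'
    rw [map_sum, HahnSeries.coeff_sum]
    refine Finset.sum_eq_zero fun k' _ => ?_
    rw [l_coeff_cst_mul]
    unfold lpol
    rw [l_ex_inv_other _ _ (fun h => hi' (hν h)) _ (by omega), mul_zero]
  · intro h'
    exact absurd (Finset.mem_univ _) h'

variable [DecidableEq ι]

/-- the polynomial that makes the constant terms of `r` vanish at all the points `ν i` -/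
noncomputable def lcor (ν : ι → ℂ) (r : RatFunc ℂ) : Polynomial ℂ :=
  Lagrange.interpolate Finset.univ ν (fun i => -(ex (some (ν i)) r).coeff 0)

theorem l_cor_eval {ν : ι → ℂ} (hν : Function.Injective ν) (r : RatFunc ℂ) (i : ι) :
    (lcor ν r).eval (ν i) = -(ex (some (ν i)) r).coeff 0 := by
  unfold lcor
  rw [Lagrange.eval_interpolate_at_node _ (hν.injOn) (Finset.mem_univ i)]

theorem l_cor_deg {ν : ι → ℂ} (hν : Function.Injective ν) (r : RatFunc ℂ) {n : ℕ}
    (hn : Fintype.card ι ≤ n + 1) : (lcor ν r).natDegree ≤ n := by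
  unfold lcor
  have h := Lagrange.degree_interpolate_lt (fun i => -(ex (some (ν i)) r).coeff 0)
    (s := Finset.univ) (v := ν) hν.injOn
  rw [Finset.card_univ] at h
  by_cases h0 : Lagrange.interpolate Finset.univ ν (fun i => -(ex (some (ν i)) r).coeff 0) = 0
  · rw [h0]
    simp
  · rw [Polynomial.degree_eq_natDegree h0] at h
    have : (Lagrange.interpolate Finset.univ ν (fun i => -(ex (some (ν i)) r).coeff 0)).natDegree <
        Fintype.card ι := by exact_mod_cast h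
    omega

/-- one step: polar part and correction -/
noncomputable def lstep (ν : ι → ℂ) (A : ι → ℕ → ℂ) (j : ℕ) : RatFunc ℂ :=
  lpart ν A j + algebraMap (Polynomial ℂ) (RatFunc ℂ) (lcor ν (lpart ν A j))

/-- the coefficients of the lift -/
noncomputable def lseq (ν : ι → ℂ) (σ : ι → ι) (p : Polynomial ℂ) : ℕ → RatFunc ℂ
  | 0 => algebraMap (Polynomial ℂ) (RatFunc ℂ) p
  | (j + 1) => lstep ν (fun i k => (ex (some (ν (σ i))) (lseq ν σ p (j - k))).coeff ((k : ℤ) + 1)) j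
  decreasing_by exact Nat.lt_succ_of_le (Nat.sub_le _ _)

theorem l_seq_zero (ν : ι → ℂ) (σ : ι → ι) (p : Polynomial ℂ) :
    lseq ν σ p 0 = algebraMap (Polynomial ℂ) (RatFunc ℂ) p := by
  rw [lseq]

theorem l_seq_succ (ν : ι → ℂ) (σ : ι → ι) (p : Polynomial ℂ) (j : ℕ) :
    lseq ν σ p (j + 1) =
      lstep ν (fun i k => (ex (some (ν (σ i))) (lseq ν σ p (j - k))).coeff ((k : ℤ) + 1)) j := by
  rw [lseq]

theorem l_seq_pol {ν : ι → ℂ} (hν : Function.Injective ν) (σ : ι → ι) (p : Polynomial ℂ) (j : ℕ) (i : ι)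
    (k : ℕ) : (ex (some (ν i)) (lseq ν σ p j)).coeff (-((k : ℤ) + 1)) =
      if k < j then (ex (some (ν (σ i))) (lseq ν σ p (j - (k + 1)))).coeff ((k : ℤ) + 1) else 0 := by
  cases j with
  | zero =>
    rw [l_seq_zero, l_ex_poly_neg _ _ (by omega), if_neg (by omega)]
  | succ j =>
    rw [l_seq_succ]
    unfold lstep
    rw [map_add, HahnSeries.coeff_add, l_ex_poly_neg _ _ (by omega), add_zero, l_part_pol hν,
      Nat.add_sub_add_right]

theorem l_seq_cst {ν : ι → ℂ} (hν : Function.Injective ν) (σ : ι → ι) (p : Polynomial ℂ) (j : ℕ) (i : ι) :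
    (ex (some (ν i)) (lseq ν σ p (j + 1))).coeff 0 = 0 := by
  rw [l_seq_succ]
  unfold lstep
  rw [map_add, HahnSeries.coeff_add]
  have h := l_ex_poly (ν i) (lcor ν (lpart ν
    (fun i k => (ex (some (ν (σ i))) (lseq ν σ p (j - k))).coeff ((k : ℤ) + 1)) j)) 0
  rw [Polynomial.taylor_coeff_zero, l_cor_eval hν] at h
  rw [Nat.cast_zero] at h
  rw [h, add_neg_cancel]

theorem l_seq_cst' {ν : ι → ℂ} (hν : Function.Injective ν) (σ : ι → ι) (p : Polynomial ℂ)
    (hp : ∀ i, p.eval (ν i) = p.eval (ν (σ i))) (j : ℕ) (i : ι) :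
    (ex (some (ν i)) (lseq ν σ p j)).coeff 0 = (ex (some (ν (σ i))) (lseq ν σ p j)).coeff 0 := by
  cases j with
  | zero =>
    have h1 := l_ex_poly (ν i) p 0
    have h2 := l_ex_poly (ν (σ i)) p 0
    rw [Polynomial.taylor_coeff_zero, Nat.cast_zero] at h1 h2
    rw [l_seq_zero, h1, h2, hp]
  | succ j => rw [l_seq_cst hν, l_seq_cst hν]

theorem l_seq_reg {ν : ι → ℂ} (σ : ι → ι) (p : Polynomial ℂ) (j : ℕ) {c : ℂ} (hc : ∀ i, ν i ≠ c) {m : ℤ}
    (hm : m < 0) : (ex (some c) (lseq ν σ p j)).coeff m = 0 := by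
  cases j with
  | zero => rw [l_seq_zero, l_ex_poly_neg _ _ hm]
  | succ j =>
    rw [l_seq_succ]
    unfold lstep
    rw [map_add, HahnSeries.coeff_add, l_ex_poly_neg _ _ hm, l_part_reg ν _ j hc hm, add_zero]

theorem l_poly_inf (p : Polynomial ℂ) {n : ℕ} (hp : p.natDegree ≤ n) {m : ℤ} (hm : m < -(n : ℤ)) :
    (ex none (algebraMap (Polynomial ℂ) (RatFunc ℂ) p)).coeff m = 0 := by
  obtain ⟨k, rfl⟩ : ∃ k : ℕ, m = -(k : ℤ) := ⟨m.natAbs, by omega⟩
  rw [l_ex_poly_inf]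
  exact Polynomial.coeff_eq_zero_of_natDegree_lt (by omega)

theorem l_seq_inf {ν : ι → ℂ} (hν : Function.Injective ν) (σ : ι → ι) (p : Polynomial ℂ) {n : ℕ}
    (hp : p.natDegree ≤ n) (hn : Fintype.card ι ≤ n + 1) (j : ℕ) {m : ℤ} (hm : m < -(n : ℤ)) :
    (ex none (lseq ν σ p j)).coeff m = 0 := by
  cases j with
  | zero => rw [l_seq_zero, l_poly_inf p hp hm]
  | succ j =>
    rw [l_seq_succ]
    unfold lstep
    rw [map_add, HahnSeries.coeff_add, l_poly_inf _ (l_cor_deg hν _ hn) hm, l_part_inf ν _ j (by omega),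
      add_zero]

/-- the coefficients of the lift, with index in `ℤ` -/
noncomputable def lseqZ (ν : ι → ℂ) (σ : ι → ι) (p : Polynomial ℂ) (j : ℤ) : RatFunc ℂ :=
  if 0 ≤ j then lseq ν σ p j.toNat else 0

theorem l_glue_pos {ν : ι → ℂ} (hν : Function.Injective ν) {σ : ι → ι} (hσ : ∀ i, σ (σ i) = i)
    (p : Polynomial ℂ) (i : ι) (k : ℕ) (j : ℤ) :
    (ex (some (ν i)) (lseqZ ν σ p j)).coeff ((k : ℤ) + 1) =
      (ex (some (ν (σ i))) (lseqZ ν σ p (j + (k + 1)))).coeff (-((k : ℤ) + 1)) := by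
  unfold lseqZ
  by_cases h1 : 0 ≤ j + ((k : ℤ) + 1)
  · rw [if_pos h1, l_seq_pol hν, hσ]
    by_cases h2 : 0 ≤ j
    · rw [if_pos h2, if_pos (by omega)]
      congr 4
      omega
    · rw [if_neg h2, if_neg (by omega), map_zero, HahnSeries.coeff_zero]
  · rw [if_neg h1, if_neg (by omega), map_zero, map_zero, HahnSeries.coeff_zero, HahnSeries.coeff_zero]

theorem l_glue {ν : ι → ℂ} (hν : Function.Injective ν) {σ : ι → ι} (hσ : ∀ i, σ (σ i) = i)
    (p : Polynomial ℂ) (hp : ∀ i, p.eval (ν i) = p.eval (ν (σ i))) (i : ι) (m j : ℤ) :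
    (ex (some (ν i)) (lseqZ ν σ p j)).coeff m = (ex (some (ν (σ i))) (lseqZ ν σ p (j + m))).coeff (-m) := by
  rcases lt_trichotomy m 0 with h | h | h
  · obtain ⟨k, rfl⟩ : ∃ k : ℕ, m = -((k : ℤ) + 1) := ⟨m.natAbs - 1, by omega⟩
    have h1 := l_glue_pos hν hσ p (σ i) k (j + -((k : ℤ) + 1))
    rw [hσ, neg_add_cancel_right] at h1
    rw [neg_neg, h1]
  · subst h
    rw [add_zero, neg_zero]
    unfold lseqZ
    split_ifs
    · exact l_seq_cst' hν σ p hp _ i
    · rw [map_zero, map_zero]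
  · obtain ⟨k, rfl⟩ : ∃ k : ℕ, m = (k : ℤ) + 1 := ⟨m.natAbs - 1, by omega⟩
    exact l_glue_pos hν hσ p i k j

/-- the lift -/
noncomputable def lser (ν : ι → ℂ) (σ : ι → ι) (p : Polynomial ℂ) : F :=
  HahnSeries.ofPowerSeries ℚ (RatFunc ℂ) (PowerSeries.mk (lseq ν σ p))

theorem l_ser_nat (ν : ι → ℂ) (σ : ι → ι) (p : Polynomial ℂ) (n : ℕ) :
    (lser ν σ p).coeff (n : ℚ) = lseq ν σ p n := by
  unfold lser
  rw [HahnSeries.ofPowerSeries_apply_coeff, PowerSeries.coeff_mk]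

theorem l_ser_not (ν : ι → ℂ) (σ : ι → ι) (p : Polynomial ℂ) (γ : ℚ) (hγ : ∀ n : ℕ, (n : ℚ) ≠ γ) :
    (lser ν σ p).coeff γ = 0 := by
  unfold lser
  rw [HahnSeries.ofPowerSeries_apply]
  apply HahnSeries.embDomain_of_notMem_range
  rintro ⟨n, hn⟩
  exact hγ n hn

theorem l_ser_int (ν : ι → ℂ) (σ : ι → ι) (p : Polynomial ℂ) (j : ℤ) :
    (lser ν σ p).coeff (j : ℚ) = lseqZ ν σ p j := by
  unfold lseqZ
  split_ifs with h
  · obtain ⟨n, rfl⟩ := Int.eq_ofNat_of_zero_le h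
    rw [Int.cast_natCast, l_ser_nat, Int.toNat_natCast]
  · apply l_ser_not
    intro n hn
    apply h
    have : (n : ℤ) = j := by exact_mod_cast hn
    omega

theorem l_ser_cases (ν : ι → ℂ) (σ : ι → ι) (p : Polynomial ℂ) (γ : ℚ) :
    (lser ν σ p).coeff γ = 0 ∨ ∃ n : ℕ, (lser ν σ p).coeff γ = lseq ν σ p n := by
  by_cases h : ∃ n : ℕ, (n : ℚ) = γ
  · obtain ⟨n, rfl⟩ := h
    exact Or.inr ⟨n, l_ser_nat ν σ p n⟩
  · left
    apply l_ser_not
    intro n hn
    exact h ⟨n, hn⟩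

theorem l_ser_glue {ν : ι → ℂ} (hν : Function.Injective ν) {σ : ι → ι} (hσ : ∀ i, σ (σ i) = i)
    (p : Polynomial ℂ) (hp : ∀ i, p.eval (ν i) = p.eval (ν (σ i))) (i : ι) (m : ℤ) (γ : ℚ) :
    co (some (ν i)) (lser ν σ p) m γ = co (some (ν (σ i))) (lser ν σ p) (-m) (γ + m) := by
  unfold co
  by_cases h : ∃ j : ℤ, (j : ℚ) = γ
  · obtain ⟨j, rfl⟩ := h
    rw [l_ser_int, ← Int.cast_add, l_ser_int]
    exact l_glue hν hσ p hp i m j
  · rw [l_ser_not, l_ser_not, map_zero, map_zero, HahnSeries.coeff_zero, HahnSeries.coeff_zero]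
    · intro n hn
      apply h
      refine ⟨(n : ℤ) - m, ?_⟩
      push_cast
      rw [hn]
      ring
    · intro n hn
      exact h ⟨n, by exact_mod_cast hn⟩

end lift

variable {g : ℕ} {α β : Fin g → ℂ}

theorem exists_lift (hd : Dist α β) {n : ℕ} (hn : 2 * g ≤ n + 1) (p : Polynomial ℂ)
    (hp : p.natDegree ≤ n) (hg : ∀ i, p.eval (α i) = p.eval (β i)) :
    ∃ e : F, Reg α β e ∧ Glue α β e ∧ Pole n e ∧
      e.coeff 0 = algebraMap (Polynomial ℂ) (RatFunc ℂ) p ∧ ∀ γ : ℚ, γ < 0 → e.coeff γ = 0 := by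
  obtain ⟨h1, h2, h3⟩ := hd
  obtain ⟨ν, hν⟩ : ∃ ν : Fin g ⊕ Fin g → ℂ, ν = Sum.elim α β := ⟨_, rfl⟩
  have hνi : Function.Injective ν := by
    rw [hν]
    exact Function.Injective.sumElim h1 h2 h3
  have hσ : ∀ i : Fin g ⊕ Fin g, i.swap.swap = i := fun i => Sum.swap_swap i
  have hps : ∀ i : Fin g ⊕ Fin g, p.eval (ν i) = p.eval (ν i.swap) := by
    intro i
    rw [hν]
    rcases i with i | i
    · exact hg i
    · exact (hg i).symm
  have hcard : Fintype.card (Fin g ⊕ Fin g) ≤ n + 1 := by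
    rw [Fintype.card_sum, Fintype.card_fin]
    omega
  refine ⟨lser ν Sum.swap p, ?_, ?_, ?_, ?_, ?_⟩
  · intro c hc m γ hm
    have hc' : ∀ i, ν i ≠ c := by
      intro i
      rw [hν]
      rcases i with i | i
      · exact fun h => (hc i).1 h.symm
      · exact fun h => (hc i).2 h.symm
    unfold co
    rcases l_ser_cases ν Sum.swap p γ with h | ⟨k, h⟩
    · rw [h, map_zero, HahnSeries.coeff_zero]
    · rw [h]
      exact l_seq_reg Sum.swap p k hc' hm
  · intro i m γ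
    have h := l_ser_glue hνi hσ p hps (Sum.inl i) m γ
    have e1 : ν (Sum.inl i) = α i := by rw [hν]; rfl
    have e2 : ν (Sum.swap (Sum.inl i)) = β i := by rw [hν]; rfl
    rw [e1, e2] at h
    exact h
  · intro m γ hm
    unfold co
    rcases l_ser_cases ν Sum.swap p γ with h | ⟨k, h⟩
    · rw [h, map_zero, HahnSeries.coeff_zero]
    · rw [h]
      exact l_seq_inf hνi Sum.swap p hp hcard k hm
  · have h := l_ser_nat ν Sum.swap p 0
    rw [Nat.cast_zero, l_seq_zero] at h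
    exact h
  · intro γ hγ
    apply l_ser_not
    intro k hk
    have : (0 : ℚ) ≤ k := Nat.cast_nonneg k
    linarith

end Pool.Agent.TH291.C2
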