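import Pool.Agent.TH291.C2.Tens

/-! The expansion of `∑ u_k ⊗ e_k` in terms of the polynomial `∑ u_k(0)(x) e_k(0)(y)`. -/

set_option autoImplicit false
set_option maxSynthPendingDepth 4

namespace Pool.Agent.TH291.C2

open scoped TensorProduct
open MvPolynomial

variable {g : ℕ} {α β : Fin g → ℂ}

theorem coB_mul_ι (P : Option ℂ) (f h : F) (m l : ℤ) (γ : ℚ) :
    coB (ι₁ P f * ι₂ P h) m l γ
      = ∑ ij ∈ Finset.antidiagonal f.isPWO_support h.isPWO_support γ, co P f m ij.1 * co P h l ij.2 := by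
  have h1 : ∀ (a b : LaurentSeries ℂ) (m l : ℤ),
      (((HahnSeries.C a : LL) * mapH (HahnSeries.C : ℂ →+* LaurentSeries ℂ) b).coeff l).coeff m
        = a.coeff m * b.coeff l := by
    intro a b m l
    rw [HahnSeries.C_mul_eq_smul, HahnSeries.coeff_smul, mapH_coeff, smul_eq_mul, mul_comm,
      HahnSeries.C_mul_eq_smul, HahnSeries.coeff_smul, smul_eq_mul, mul_comm]
  have h2 : (ι₁ P f * ι₂ P h).coeff γ
      = ∑ ij ∈ Finset.antidiagonal f.isPWO_support h.isPWO_support γ,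
          (ι₁ P f).coeff ij.1 * (ι₂ P h).coeff ij.2 := by
    rw [HahnSeries.coeff_mul]
    refine Finset.sum_subset ?_ ?_
    · intro ij hij
      rw [Finset.mem_antidiagonal] at hij ⊢
      refine ⟨?_, ?_, hij.2.2⟩
      · intro h0
        apply hij.1
        change HahnSeries.C (ex P (f.coeff ij.1)) = 0
        rw [h0]; simp
      · intro h0
        apply hij.2.1
        change mapH (HahnSeries.C : ℂ →+* LaurentSeries ℂ) (ex P (h.coeff ij.2)) = 0
        rw [h0]; simp
    · intro ij hij hn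
      rw [Finset.mem_antidiagonal] at hij hn
      by_contra h0
      apply hn
      refine ⟨?_, ?_, hij.2.2⟩
      · intro h3; exact h0 (by rw [h3, zero_mul])
      · intro h3; exact h0 (by rw [h3, mul_zero])
  unfold coB
  rw [h2, HahnSeries.coeff_sum, HahnSeries.coeff_sum]
  refine Finset.sum_congr rfl fun ij _ => ?_
  exact h1 _ _ _ _

theorem coB_mul_single (P : Option ℂ) (f h : F) (m l : ℤ) (γ s : ℚ)
    (h1 : ∀ γ₁ < s, co P f m γ₁ = 0) (h2 : ∀ γ₂ < γ - s, co P h l γ₂ = 0) :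
    coB (ι₁ P f * ι₂ P h) m l γ = co P f m s * co P h l (γ - s) := by
  rw [coB_mul_ι]
  by_cases hmem : (s, γ - s) ∈ Finset.antidiagonal f.isPWO_support h.isPWO_support γ
  · rw [Finset.sum_eq_single_of_mem _ hmem]
    intro ij hij hne
    rw [Finset.mem_antidiagonal] at hij
    rcases lt_trichotomy ij.1 s with h3 | h3 | h3
    · rw [h1 _ h3, zero_mul]
    · exfalso; apply hne
      ext
      · exact h3
      · change ij.2 = γ - s
        linarith [hij.2.2]
    · rw [h2 ij.2 (by linarith [hij.2.2]), mul_zero]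
  · rw [Finset.sum_eq_zero]
    · rw [Finset.mem_antidiagonal] at hmem
      by_cases hf : f.coeff s = 0
      · unfold co; rw [hf]; simp
      · by_cases hh : h.coeff (γ - s) = 0
        · unfold co; rw [hh]; simp
        · exact absurd ⟨hf, hh, by simp⟩ hmem
    · intro ij hij
      rw [Finset.mem_antidiagonal] at hij
      rcases lt_trichotomy ij.1 s with h3 | h3 | h3
      · rw [h1 _ h3, zero_mul]
      · exfalso; apply hmem
        rw [Finset.mem_antidiagonal]
        have h4 : γ - s = ij.2 := by linarith [hij.2.2]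
        refine ⟨?_, ?_, by simp⟩
        · rw [← h3]; exact hij.1
        · rw [h4]; exact hij.2.1
      · rw [h2 ij.2 (by linarith [hij.2.2]), mul_zero]

theorem taylor_aeval (a : ℂ) (i : Fin 2) (p : Polynomial ℂ) :
    Polynomial.aeval (X i + MvPolynomial.C a : MvPolynomial (Fin 2) ℂ) p
      = Polynomial.aeval (X i : MvPolynomial (Fin 2) ℂ) (Polynomial.taylor a p) := by
  rw [Polynomial.taylor_apply, Polynomial.aeval_comp]
  simp [MvPolynomial.algebraMap_eq]

theorem coeff_aeval_mul (r p : Polynomial ℂ) (j l : ℕ) :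
    MvPolynomial.coeff (Finsupp.single 0 j + Finsupp.single 1 l)
      (Polynomial.aeval (X 0 : MvPolynomial (Fin 2) ℂ) r * Polynomial.aeval (X 1 : MvPolynomial (Fin 2) ℂ) p)
      = r.coeff j * p.coeff l := by
  rw [Polynomial.aeval_eq_sum_range, Polynomial.aeval_eq_sum_range, Finset.sum_mul_sum,
    MvPolynomial.coeff_sum]
  simp only [MvPolynomial.coeff_sum]
  have h : ∀ i k : ℕ, MvPolynomial.coeff (Finsupp.single 0 j + Finsupp.single 1 l)
      (r.coeff i • (X 0 : MvPolynomial (Fin 2) ℂ) ^ i * p.coeff k • (X 1 : MvPolynomial (Fin 2) ℂ) ^ k)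
      = if i = j ∧ k = l then r.coeff i * p.coeff k else 0 := by
    intro i k
    have h0 : (r.coeff i • (X 0 : MvPolynomial (Fin 2) ℂ) ^ i * p.coeff k • (X 1 : MvPolynomial (Fin 2) ℂ) ^ k)
        = MvPolynomial.monomial (Finsupp.single 0 i + Finsupp.single 1 k) (r.coeff i * p.coeff k) := by
      rw [MvPolynomial.X_pow_eq_monomial, MvPolynomial.X_pow_eq_monomial, MvPolynomial.smul_monomial,
        MvPolynomial.smul_monomial, MvPolynomial.monomial_mul]
      simp
    rw [h0, MvPolynomial.coeff_monomial]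
    refine if_congr ?_ rfl rfl
    constructor
    · intro h1
      have h2 := DFunLike.congr_fun h1 0
      have h3 := DFunLike.congr_fun h1 1
      simp at h2 h3
      exact ⟨h2, h3⟩
    · rintro ⟨rfl, rfl⟩; rfl
  simp only [h]
  by_cases hj : j ∈ Finset.range (r.natDegree + 1)
  · by_cases hl : l ∈ Finset.range (p.natDegree + 1)
    · rw [Finset.sum_eq_single_of_mem j hj, Finset.sum_eq_single_of_mem l hl]
      · simp
      · intro b _ hb; simp [hb]
      · intro b _ hb; simp [hb]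
    · have h2 : p.coeff l = 0 := Polynomial.coeff_eq_zero_of_natDegree_lt (by simpa using hl)
      rw [h2, mul_zero]
      refine Finset.sum_eq_zero fun i _ => Finset.sum_eq_zero fun k hk => ?_
      rw [if_neg]
      rintro ⟨_, rfl⟩
      exact hl hk
  · have h2 : r.coeff j = 0 := Polynomial.coeff_eq_zero_of_natDegree_lt (by simpa using hj)
    rw [h2, zero_mul]
    refine Finset.sum_eq_zero fun i hi => Finset.sum_eq_zero fun k _ => ?_
    rw [if_neg]
    rintro ⟨rfl, _⟩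
    exact hj hi

theorem tc_pure (a b : ℂ) (r p : Polynomial ℂ) (j l : ℕ) :
    tc a b (Polynomial.aeval (X 0 : MvPolynomial (Fin 2) ℂ) r * Polynomial.aeval (X 1 : MvPolynomial (Fin 2) ℂ) p) j l
      = (Polynomial.taylor a r).coeff j * (Polynomial.taylor b p).coeff l := by
  unfold tc
  rw [map_mul, ← Polynomial.aeval_algHom_apply, ← Polynomial.aeval_algHom_apply]
  simp only [MvPolynomial.aeval_X, Matrix.cons_val_zero, Matrix.cons_val_one]
  rw [taylor_aeval, taylor_aeval, coeff_aeval_mul]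

theorem tc_sum {ι : Type} (s : Finset ι) (a b : ℂ) (q : ι → MvPolynomial (Fin 2) ℂ) (j l : ℕ) :
    tc a b (∑ k ∈ s, q k) j l = ∑ k ∈ s, tc a b (q k) j l := by
  unfold tc
  rw [map_sum, MvPolynomial.coeff_sum]

section data

variable {N : ℕ} {u e : Fin N → Alg α β} {r p : Fin N → Polynomial ℂ}

/-- the special fibre -/
noncomputable def qq (r p : Fin N → Polynomial ℂ) : MvPolynomial (Fin 2) ℂ :=
  ∑ k, Polynomial.aeval (X 0 : MvPolynomial (Fin 2) ℂ) (r k) * Polynomial.aeval (X 1 : MvPolynomial (Fin 2) ℂ) (p k)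

theorem co_zero_eq {f : F} {p : Polynomial ℂ} (h : f.coeff 0 = algebraMap (Polynomial ℂ) (RatFunc ℂ) p)
    (a : ℂ) (j : ℕ) : co (some a) f j 0 = (Polynomial.taylor a p).coeff j := by
  unfold co
  rw [h, ex_poly]

theorem co_neg_of {f : F} (h : ∀ γ : ℚ, γ < 0 → f.coeff γ = 0) (P : Option ℂ) (m : ℤ) {γ : ℚ} (hγ : γ < 0) :
    co P f m γ = 0 := by
  unfold co
  rw [h γ hγ]; simp

theorem bdd_zero {a b : ℂ} (hn : Node α β a b) {f : F} (hf : Glue α β f)
    (h : ∀ γ : ℚ, γ < 0 → f.coeff γ = 0) : Bdd (some a) 0 f := by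
  intro m γ h0
  rw [neg_zero]
  constructor
  · by_contra hlt
    exact h0 (co_neg_of h _ _ (by linarith))
  · rw [hn f hf] at h0
    by_contra hlt
    exact h0 (co_neg_of h _ _ (by linarith))

theorem link_cone {a b : ℂ} (hn : Node α β a b)
    (hu : ∀ k, ∀ γ : ℚ, γ < 0 → (u k).1.coeff γ = 0) (he : ∀ k, ∀ γ : ℚ, γ < 0 → (e k).1.coeff γ = 0) :
    Cone 0 (TT (some a) (∑ k, u k ⊗ₜ[K] e k)) := by
  rw [map_sum]
  intro m l γ h0
  rw [coB_sum] at h0
  obtain ⟨k, _, hk⟩ := Finset.exists_ne_zero_of_sum_ne_zero h0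
  rw [TT_tmul] at hk
  have := cone_mul (cone_ι₁ (bdd_zero hn (u k).2.2.1 (hu k))) (cone_ι₂ (bdd_zero hn (e k).2.2.1 (he k)))
  rw [add_zero] at this
  exact this m l γ hk

theorem link_face {a b : ℂ} (hn : Node α β a b)
    (hu : ∀ k, ∀ γ : ℚ, γ < 0 → (u k).1.coeff γ = 0) (he : ∀ k, ∀ γ : ℚ, γ < 0 → (e k).1.coeff γ = 0)
    (hr : ∀ k, (u k).1.coeff 0 = algebraMap (Polynomial ℂ) (RatFunc ℂ) (r k))
    (hp : ∀ k, (e k).1.coeff 0 = algebraMap (Polynomial ℂ) (RatFunc ℂ) (p k)) (j l : ℕ) :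
    coB (TT (some a) (∑ k, u k ⊗ₜ[K] e k)) (-(j : ℤ)) l j = tc b a (qq r p) j l := by
  rw [map_sum, coB_sum, qq, tc_sum]
  refine Finset.sum_congr rfl fun k _ => ?_
  rw [TT_tmul, tc_pure, coB_mul_single (some a) (u k).1 (e k).1 (-(j : ℤ)) l j j]
  · rw [hn (u k).1 (u k).2.2.1]
    have h1 : ((j : ℚ) + ((-(j : ℤ) : ℤ) : ℚ)) = 0 := by push_cast; ring
    rw [h1, neg_neg, sub_self, co_zero_eq (hr k), co_zero_eq (hp k)]
  · intro γ₁ h1
    rw [hn (u k).1 (u k).2.2.1]
    refine co_neg_of (hu k) _ _ ?_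
    push_cast
    linarith
  · intro γ₂ h2
    exact co_neg_of (he k) _ _ (by linarith)

theorem link_diag (a : ℂ)
    (hu : ∀ k, ∀ γ : ℚ, γ < 0 → (u k).1.coeff γ = 0) (he : ∀ k, ∀ γ : ℚ, γ < 0 → (e k).1.coeff γ = 0)
    (hr : ∀ k, (u k).1.coeff 0 = algebraMap (Polynomial ℂ) (RatFunc ℂ) (r k))
    (hp : ∀ k, (e k).1.coeff 0 = algebraMap (Polynomial ℂ) (RatFunc ℂ) (p k)) (j l : ℕ) :
    tc a a (qq r p) j l = coB (TT (some a) (∑ k, u k ⊗ₜ[K] e k)) j l 0 := by
  rw [map_sum, coB_sum, qq, tc_sum]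
  refine Finset.sum_congr rfl fun k _ => ?_
  rw [TT_tmul, tc_pure, coB_mul_single (some a) (u k).1 (e k).1 j l 0 0]
  · rw [sub_zero, co_zero_eq (hr k), co_zero_eq (hp k)]
  · intro γ₁ h1
    exact co_neg_of (hu k) _ _ h1
  · intro γ₂ h2
    exact co_neg_of (he k) _ _ (by linarith)

end data

end Pool.Agent.TH291.C2
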