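import Pool.Agent.TH291.C2.Nag
import Pool.Agent.TH603.EL.Sq

/-! Nagata for a plane curve in affine coordinates, `g ≥ 10` arbitrary (squares included). -/

set_option autoImplicit false
set_option maxSynthPendingDepth 4

namespace Pool.Agent.TH291.C2

open MvPolynomial

variable {g : ℕ} {α β : Fin g → ℂ}

theorem nag_plane_all (hg : 10 ≤ g) (hgen : Gen α β) {d m : ℕ} (hd : 0 < d)
    {G : MvPolynomial (Fin 2) ℂ} (hG : G ≠ 0) (hdeg : G.totalDegree ≤ d)
    (h : ∀ i, Ord m (α i + β i) (α i * β i) G) : (g : ℝ) * m < d * Real.sqrt g := by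
  have key := Pool.Agent.TH603.EL.nagata (n := g) (by omega)
    (v := fun i => ![1, α i + β i, α i * β i]) (fun i => one_ne_zero) (by
      have h1 : (fun q : Fin g × Fin 2 =>
          (fun i : Fin g => (![1, α i + β i, α i * β i] : Fin 3 → ℂ)) q.1 q.2.succ /
          (fun i : Fin g => (![1, α i + β i, α i * β i] : Fin 3 → ℂ)) q.1 0) =
          (fun q : Fin g × Fin 2 => (![α q.1 + β q.1, α q.1 * β q.1] : Fin 2 → ℂ) q.2) := by
        funext q
        simp
      rw [h1]
      exact hgen)
    (d := d) (m := fun _ => m) (F := nagHom d G) (nagHom_ne hG) hd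
    (nagHom_isHomogeneous hdeg) (by
      intro i t ht
      rw [nagHom_eq (α i + β i) (α i * β i) hdeg]
      exact nagLin_low _ _ (h i) ht)
  rw [Finset.sum_const, Finset.card_univ, Fintype.card_fin, nsmul_eq_mul] at key
  exact key

end Pool.Agent.TH291.C2
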