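import Pool.Agent.TH291.C2.Defs2

/-! C2-NORM: the norm of a polynomial in `x`, `y` as a polynomial in `x + y`, `x y`. -/

set_option autoImplicit false
set_option maxSynthPendingDepth 4

namespace Pool.Agent.TH291.C2

open MvPolynomial

/-- substitution of the elementary symmetric polynomials -/
noncomputable def nrmEv : MvPolynomial (Fin 2) ℂ →ₐ[ℂ] MvPolynomial (Fin 2) ℂ :=
  MvPolynomial.aeval ![(X 0 + X 1 : MvPolynomial (Fin 2) ℂ), X 0 * X 1]

/-- exchange of the variables -/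
noncomputable def nrmSw : MvPolynomial (Fin 2) ℂ →ₐ[ℂ] MvPolynomial (Fin 2) ℂ :=
  MvPolynomial.aeval ![(X 1 : MvPolynomial (Fin 2) ℂ), X 0]

theorem nrmEv_X0 : nrmEv (X 0) = X 0 + X 1 := by simp [nrmEv]

theorem nrmEv_X1 : nrmEv (X 1) = X 0 * X 1 := by simp [nrmEv]

theorem nrmSw_X0 : nrmSw (X 0) = X 1 := by simp [nrmSw]

theorem nrmSw_X1 : nrmSw (X 1) = X 0 := by simp [nrmSw]

theorem nrmSw_ev (A : MvPolynomial (Fin 2) ℂ) : nrmSw (nrmEv A) = nrmEv A := by
  have h : nrmSw.comp nrmEv = nrmEv := by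
    apply MvPolynomial.algHom_ext
    intro i
    fin_cases i
    · simp only [Fin.zero_eta, AlgHom.comp_apply, nrmEv_X0, map_add, nrmSw_X0, nrmSw_X1]
      ring
    · simp only [Fin.mk_one, AlgHom.comp_apply, nrmEv_X1, map_mul, nrmSw_X0, nrmSw_X1]
      ring
  exact DFunLike.congr_fun h A

theorem nrmSw_sw (A : MvPolynomial (Fin 2) ℂ) : nrmSw (nrmSw A) = A := by
  have h : nrmSw.comp nrmSw = AlgHom.id ℂ _ := by
    apply MvPolynomial.algHom_ext
    intro i
    fin_cases i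
    · simp only [Fin.zero_eta, AlgHom.comp_apply, nrmSw_X0, nrmSw_X1, AlgHom.id_apply]
    · simp only [Fin.mk_one, AlgHom.comp_apply, nrmSw_X0, nrmSw_X1, AlgHom.id_apply]
  exact DFunLike.congr_fun h A

/-- `f = A(e₁, e₂) + x B(e₁, e₂)` with degree bounds -/
def NrmR (k : ℕ) (f : MvPolynomial (Fin 2) ℂ) : Prop :=
  ∃ A B : MvPolynomial (Fin 2) ℂ, A.totalDegree ≤ k ∧ (B = 0 ∨ B.totalDegree < k) ∧
    f = nrmEv A + X 0 * nrmEv B

theorem NrmR.mono {k l : ℕ} (h : k ≤ l) {f : MvPolynomial (Fin 2) ℂ} (hf : NrmR k f) :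
    NrmR l f := by
  obtain ⟨A, B, h1, h2, h3⟩ := hf
  exact ⟨A, B, h1.trans h, h2.imp id (fun h4 => h4.trans_le h), h3⟩

theorem NrmR.add {k : ℕ} {f g : MvPolynomial (Fin 2) ℂ} (hf : NrmR k f) (hg : NrmR k g) :
    NrmR k (f + g) := by
  obtain ⟨A, B, h1, h2, rfl⟩ := hf
  obtain ⟨A', B', h1', h2', rfl⟩ := hg
  refine ⟨A + A', B + B', (totalDegree_add _ _).trans (max_le h1 h1'), ?_, ?_⟩
  · rcases h2 with h2 | h2
    · subst h2
      rw [zero_add]
      exact h2'
    · rcases h2' with h2' | h2'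
      · subst h2'
        rw [add_zero]
        exact Or.inr h2
      · exact Or.inr ((totalDegree_add _ _).trans_lt (max_lt h2 h2'))
  · rw [map_add, map_add]; ring

theorem NrmR.zero {k : ℕ} : NrmR k 0 := ⟨0, 0, by simp, Or.inl rfl, by simp⟩

theorem NrmR.cmul {k : ℕ} (c : ℂ) {f : MvPolynomial (Fin 2) ℂ} (hf : NrmR k f) :
    NrmR k (C c * f) := by
  obtain ⟨A, B, h1, h2, rfl⟩ := hf
  have hC : ∀ P : MvPolynomial (Fin 2) ℂ, (C c * P).totalDegree ≤ P.totalDegree := fun P => by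
    refine (totalDegree_mul _ _).trans ?_
    rw [totalDegree_C, zero_add]
  refine ⟨C c * A, C c * B, (hC A).trans h1, ?_, ?_⟩
  · rcases h2 with h2 | h2
    · left; rw [h2, mul_zero]
    · right; exact (hC B).trans_lt h2
  · have hc : nrmEv (C c) = C c := by
      rw [← MvPolynomial.algebraMap_eq, AlgHom.commutes]
    rw [map_mul, map_mul, hc]; ring

theorem NrmR.sum {ι : Type*} (s : Finset ι) {k : ℕ} {f : ι → MvPolynomial (Fin 2) ℂ}
    (h : ∀ i ∈ s, NrmR k (f i)) : NrmR k (∑ i ∈ s, f i) := by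
  classical
  induction s using Finset.induction_on with
  | empty => simpa using NrmR.zero
  | insert a s ha ih =>
    rw [Finset.sum_insert ha]
    exact (h a (Finset.mem_insert_self _ _)).add (ih fun i hi => h i (Finset.mem_insert_of_mem hi))

theorem NrmR.e2 {k : ℕ} {f : MvPolynomial (Fin 2) ℂ} (hf : NrmR k f) :
    NrmR (k + 1) (X 0 * X 1 * f) := by
  obtain ⟨A, B, h1, h2, rfl⟩ := hf
  have hX : ∀ P : MvPolynomial (Fin 2) ℂ, (X 1 * P).totalDegree ≤ P.totalDegree + 1 := fun P => by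
    refine (totalDegree_mul _ _).trans ?_
    rw [totalDegree_X]; omega
  refine ⟨X 1 * A, X 1 * B, (hX A).trans (by omega), ?_, ?_⟩
  · rcases h2 with h2 | h2
    · left; rw [h2, mul_zero]
    · right; have := hX B; omega
  · rw [map_mul, map_mul, nrmEv_X1]; ring

theorem NrmR.e2pow {k : ℕ} {f : MvPolynomial (Fin 2) ℂ} (hf : NrmR k f) (j : ℕ) :
    NrmR (k + j) ((X 0 * X 1) ^ j * f) := by
  induction j with
  | zero => simpa using hf
  | succ j ih =>
    have h := ih.e2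
    rw [show X 0 * X 1 * ((X 0 * X 1) ^ j * f) = (X 0 * X 1) ^ (j + 1) * f by ring] at h
    exact h

/-- the powers of `x` -/
theorem nrm_xpow (k : ℕ) : ∃ P Q : MvPolynomial (Fin 2) ℂ, P.totalDegree ≤ k ∧
    (Q = 0 ∨ Q.totalDegree < k) ∧ (X 0 : MvPolynomial (Fin 2) ℂ) ^ k = nrmEv P + X 0 * nrmEv Q := by
  induction k with
  | zero => exact ⟨1, 0, by simp, Or.inl rfl, by simp⟩
  | succ k ih =>
    obtain ⟨P, Q, h1, h2, h3⟩ := ih
    have hX : ∀ (i : Fin 2) (P : MvPolynomial (Fin 2) ℂ), (X i * P).totalDegree ≤ P.totalDegree + 1 :=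
      fun i P => by
        refine (totalDegree_mul _ _).trans ?_
        rw [totalDegree_X]; omega
    refine ⟨-(X 1 * Q), P + X 0 * Q, ?_, ?_, ?_⟩
    · rw [totalDegree_neg]
      rcases h2 with h2 | h2
      · rw [h2, mul_zero, totalDegree_zero]; omega
      · have := hX 1 Q; omega
    · right
      refine (totalDegree_add _ _).trans_lt (max_lt (by omega) ?_)
      rcases h2 with h2 | h2
      · rw [h2, mul_zero, totalDegree_zero]; omega
      · have := hX 0 Q; omega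
    · rw [pow_succ, h3, map_neg, map_mul, map_add, map_mul, nrmEv_X0, nrmEv_X1]
      ring

theorem NrmR.x (k : ℕ) : NrmR k (X 0 ^ k) := nrm_xpow k

theorem NrmR.y (k : ℕ) : NrmR k (X 1 ^ k) := by
  obtain ⟨P, Q, h1, h2, h3⟩ := nrm_xpow k
  have h4 : (X 1 : MvPolynomial (Fin 2) ℂ) ^ k = nrmEv P + X 1 * nrmEv Q := by
    have := congrArg nrmSw h3
    rw [map_pow, map_add, map_mul, nrmSw_ev, nrmSw_ev, nrmSw_X0] at this
    exact this
  refine ⟨P + X 0 * Q, -Q, ?_, ?_, ?_⟩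
  · refine (totalDegree_add _ _).trans (max_le h1 ?_)
    rcases h2 with h2 | h2
    · rw [h2, mul_zero, totalDegree_zero]; omega
    · refine (totalDegree_mul _ _).trans ?_
      rw [totalDegree_X]; omega
  · rcases h2 with h2 | h2
    · left; rw [h2, neg_zero]
    · right; rwa [totalDegree_neg]
  · rw [h4, map_neg, map_add, map_mul, nrmEv_X0]
    ring

theorem NrmR.xy {i j D : ℕ} (hi : i ≤ D) (hj : j ≤ D) :
    NrmR D ((X 0 : MvPolynomial (Fin 2) ℂ) ^ i * X 1 ^ j) := by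
  rcases le_total i j with h | h
  · have h1 := (NrmR.y (j - i)).e2pow i
    rw [show (X 0 * X 1 : MvPolynomial (Fin 2) ℂ) ^ i * X 1 ^ (j - i) = X 0 ^ i * X 1 ^ j by
      rw [mul_pow, mul_assoc, ← pow_add, Nat.add_sub_cancel' h]] at h1
    exact h1.mono (by omega)
  · have h1 := (NrmR.x (i - j)).e2pow j
    rw [show (X 0 * X 1 : MvPolynomial (Fin 2) ℂ) ^ j * X 0 ^ (i - j) = X 0 ^ i * X 1 ^ j by
      rw [mul_pow]
      calc (X 0 : MvPolynomial (Fin 2) ℂ) ^ j * X 1 ^ j * X 0 ^ (i - j)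
          = (X 0 ^ j * X 0 ^ (i - j)) * X 1 ^ j := by ring
        _ = _ := by rw [← pow_add, Nat.add_sub_cancel' h]] at h1
    exact h1.mono (by omega)

theorem NrmR.all {D : ℕ} (q : MvPolynomial (Fin 2) ℂ) (hD : ∀ i, q.degreeOf i ≤ D) :
    NrmR D q := by
  rw [q.as_sum]
  refine NrmR.sum _ fun m hm => ?_
  have h1 : ∀ i, m i ≤ D := fun i => (monomial_le_degreeOf i hm).trans (hD i)
  have h2 : (monomial m (coeff m q) : MvPolynomial (Fin 2) ℂ) =
      C (coeff m q) * (X 0 ^ m 0 * X 1 ^ m 1) := by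
    rw [MvPolynomial.monomial_eq, Finsupp.prod_fintype _ _ (fun i => pow_zero _),
      Fin.prod_univ_two]
  rw [h2]
  exact (NrmR.xy (h1 0) (h1 1)).cmul _

theorem norm_sym {D : ℕ} (q : MvPolynomial (Fin 2) ℂ) (hq : q ≠ 0) (hD : ∀ i, q.degreeOf i ≤ D) :
    ∃ G : MvPolynomial (Fin 2) ℂ, G ≠ 0 ∧ G.totalDegree ≤ 2 * D ∧
      MvPolynomial.aeval ![(X 0 + X 1 : MvPolynomial (Fin 2) ℂ), X 0 * X 1] G
        = q * MvPolynomial.aeval ![(X 1 : MvPolynomial (Fin 2) ℂ), X 0] q := by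
  obtain ⟨A, B, h1, h2, h3⟩ := NrmR.all q hD
  have h4 : nrmEv (A ^ 2 + X 0 * A * B + X 1 * B ^ 2) = q * nrmSw q := by
    conv_rhs => rw [h3]
    rw [map_add nrmSw, map_mul nrmSw, nrmSw_ev, nrmSw_ev, nrmSw_X0]
    simp only [map_add, map_mul, map_pow, nrmEv_X0, nrmEv_X1]
    ring
  refine ⟨A ^ 2 + X 0 * A * B + X 1 * B ^ 2, ?_, ?_, h4⟩
  · intro h0
    rw [h0, map_zero] at h4
    rcases mul_eq_zero.1 h4.symm with h5 | h5
    · exact hq h5
    · apply hq
      rw [← nrmSw_sw q, h5, map_zero]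
  · have hA : (A ^ 2).totalDegree ≤ 2 * D := (totalDegree_pow _ _).trans (by omega)
    have hAB : (X 0 * A * B).totalDegree ≤ 2 * D := by
      rcases h2 with h2 | h2
      · rw [h2, mul_zero, totalDegree_zero]; omega
      · refine (totalDegree_mul _ _).trans ?_
        have := (totalDegree_mul (X 0 : MvPolynomial (Fin 2) ℂ) A)
        rw [totalDegree_X] at this
        omega
    have hB : (X 1 * B ^ 2).totalDegree ≤ 2 * D := by
      rcases h2 with h2 | h2
      · rw [h2]; simp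
      · refine (totalDegree_mul _ _).trans ?_
        have := (totalDegree_pow B 2)
        rw [totalDegree_X]
        omega
    exact (totalDegree_add _ _).trans (max_le ((totalDegree_add _ _).trans (max_le hA hAB)) hB)

end Pool.Agent.TH291.C2
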