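import Pool.Agent.TH291.C2.Defs2

/-! # Order at a point: products, swap, division by a power of `x - y` (job C2-ORDM, helper858) -/

set_option autoImplicit false
set_option maxSynthPendingDepth 4

namespace Pool.Agent.TH291.C2

open MvPolynomial

theorem ordm_fin2 (d : Fin 2 →₀ ℕ) : d = Finsupp.single 0 (d 0) + Finsupp.single 1 (d 1) := by
  ext i
  fin_cases i
  · simp
  · simp

theorem ordm_iff (m : ℕ) (a b : ℂ) (q : MvPolynomial (Fin 2) ℂ) : Ord m a b q ↔
    ∀ d : Fin 2 →₀ ℕ, d 0 + d 1 < m →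
      coeff d (aeval ![(X 0 + C a : MvPolynomial (Fin 2) ℂ), X 1 + C b] q) = 0 := by
  constructor
  · intro h d hd
    rw [ordm_fin2 d]
    exact h (d 0) (d 1) hd
  · intro h j l hjl
    exact h _ (by simpa using hjl)

theorem ord_mul {m n : ℕ} {a b : ℂ} {q r : MvPolynomial (Fin 2) ℂ} (hq : Ord m a b q) (hr : Ord n a b r) :
    Ord (m + n) a b (q * r) := by
  rw [ordm_iff] at hq hr ⊢
  intro d hd
  rw [map_mul, coeff_mul]
  refine Finset.sum_eq_zero fun x hx => ?_
  rw [Finset.HasAntidiagonal.mem_antidiagonal] at hx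
  have h0 : x.1 0 + x.2 0 = d 0 := by rw [← hx]; rfl
  have h1 : x.1 1 + x.2 1 = d 1 := by rw [← hx]; rfl
  by_cases h : x.1 0 + x.1 1 < m
  · rw [hq x.1 h, zero_mul]
  · rw [hr x.2 (by omega), mul_zero]

theorem ord_swap {m : ℕ} {a b : ℂ} {q : MvPolynomial (Fin 2) ℂ} (hq : Ord m a b q) :
    Ord m b a (MvPolynomial.aeval ![(X 1 : MvPolynomial (Fin 2) ℂ), X 0] q) := by
  have hcomp : (aeval ![(X 0 + C b : MvPolynomial (Fin 2) ℂ), X 1 + C a]).comp
      (aeval ![(X 1 : MvPolynomial (Fin 2) ℂ), X 0]) =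
      (rename (Equiv.swap (0 : Fin 2) 1)).comp
        (aeval ![(X 0 + C a : MvPolynomial (Fin 2) ℂ), X 1 + C b]) := by
    refine MvPolynomial.algHom_ext fun i => ?_
    fin_cases i
    · simp [rename_X]
    · simp [rename_X]
  intro j l hjl
  have h1 : aeval ![(X 0 + C b : MvPolynomial (Fin 2) ℂ), X 1 + C a]
      (aeval ![(X 1 : MvPolynomial (Fin 2) ℂ), X 0] q) =
      rename (Equiv.swap (0 : Fin 2) 1) (aeval ![(X 0 + C a : MvPolynomial (Fin 2) ℂ), X 1 + C b] q) :=
    congrArg (fun φ : MvPolynomial (Fin 2) ℂ →ₐ[ℂ] MvPolynomial (Fin 2) ℂ => φ q) hcomp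
  have h2 : (Finsupp.single 0 j + Finsupp.single 1 l : Fin 2 →₀ ℕ) =
      Finsupp.mapDomain (Equiv.swap (0 : Fin 2) 1) (Finsupp.single 0 l + Finsupp.single 1 j) := by
    rw [Finsupp.mapDomain_add, Finsupp.mapDomain_single, Finsupp.mapDomain_single,
      Equiv.swap_apply_left, Equiv.swap_apply_right, add_comm]
  unfold tc
  rw [h1, h2, coeff_rename_mapDomain _ (Equiv.injective _)]
  exact hq l j (by omega)

theorem ordm_div_aux (m : ℕ) (u p : MvPolynomial (Fin 2) ℂ) (hu : coeff 0 u ≠ 0)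
    (h : ∀ d : Fin 2 →₀ ℕ, d 0 + d 1 < m → coeff d (u * p) = 0) :
    ∀ (s : ℕ) (d : Fin 2 →₀ ℕ), d 0 + d 1 = s → s < m → coeff d p = 0 := by
  intro s
  induction s using Nat.strong_induction_on with
  | _ s ih =>
    intro d hd hs
    have h1 := h d (by omega)
    rw [coeff_mul] at h1
    have hmem : ((0 : Fin 2 →₀ ℕ), d) ∈ Finset.HasAntidiagonal.antidiagonal d := by
      rw [Finset.HasAntidiagonal.mem_antidiagonal, zero_add]
    rw [Finset.sum_eq_single_of_mem _ hmem] at h1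
    · exact (mul_eq_zero.1 h1).resolve_left hu
    · intro x hx hne
      rw [Finset.HasAntidiagonal.mem_antidiagonal] at hx
      have h0 : x.1 0 + x.2 0 = d 0 := by rw [← hx]; rfl
      have h1 : x.1 1 + x.2 1 = d 1 := by rw [← hx]; rfl
      have hx1 : x.1 ≠ 0 := by
        intro h2
        apply hne
        have h3 : x.2 = d := by rw [← hx, h2, zero_add]
        exact Prod.ext h2 h3
      have hpos : 0 < x.1 0 + x.1 1 := by
        by_contra h2
        apply hx1
        rw [ordm_fin2 x.1]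
        have h3 : x.1 0 = 0 := by omega
        have h4 : x.1 1 = 0 := by omega
        rw [h3, h4]
        simp
      rw [ih (x.2 0 + x.2 1) (by omega) x.2 rfl (by omega), mul_zero]

theorem ord_div {m k : ℕ} {a b : ℂ} (hab : a ≠ b) {q : MvPolynomial (Fin 2) ℂ}
    (hq : Ord m a b ((X 0 - X 1) ^ k * q)) : Ord m a b q := by
  rw [ordm_iff] at hq ⊢
  intro d hd
  rw [map_mul] at hq
  refine ordm_div_aux m (aeval ![(X 0 + C a : MvPolynomial (Fin 2) ℂ), X 1 + C b] ((X 0 - X 1) ^ k)) _ ?_ hq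
    (d 0 + d 1) d rfl hd
  have h1 : coeff 0 (aeval ![(X 0 + C a : MvPolynomial (Fin 2) ℂ), X 1 + C b]
      ((X 0 - X 1 : MvPolynomial (Fin 2) ℂ) ^ k)) = (a - b) ^ k := by
    rw [map_pow, map_sub, aeval_X, aeval_X, ← constantCoeff_eq, map_pow]
    simp
  rw [h1]
  exact pow_ne_zero _ (sub_ne_zero.2 hab)

end Pool.Agent.TH291.C2
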