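import Pool.Agent.TH291.C2.Defs2

/-! The order of `G (x + y, x y)` at `(a, b)`, `a ≠ b`, is at most the order of `G` at
`(a + b, a b)`. -/

set_option autoImplicit false
set_option maxSynthPendingDepth 4

namespace Pool.Agent.TH291.C2

open MvPolynomial

/-- the sum over the monomials -/
theorem ordS_aeval (p q : Polynomial ℂ) (G : MvPolynomial (Fin 2) ℂ) :
    aeval ![p, q] G = ∑ d ∈ G.support, Polynomial.C (coeff d G) * (p ^ d 0 * q ^ d 1) := by
  rw [aeval_def, eval₂_eq']
  refine Finset.sum_congr rfl fun d _ => ?_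
  rw [Fin.prod_univ_two]
  rfl

theorem ordS_dvd (p q : Polynomial ℂ) {m : ℕ} {G : MvPolynomial (Fin 2) ℂ}
    (hG : ∀ d : Fin 2 →₀ ℕ, d 0 + d 1 < m → coeff d G = 0) :
    (Polynomial.X : Polynomial ℂ) ^ m ∣ aeval ![Polynomial.X * p, Polynomial.X * q] G := by
  rw [ordS_aeval]
  refine Finset.dvd_sum fun d hd => ?_
  by_cases h : d 0 + d 1 < m
  · exact absurd (hG d h) (mem_support_iff.mp hd)
  · refine Dvd.dvd.mul_left ?_ _
    rw [mul_pow, mul_pow]
    have : Polynomial.X ^ d 0 * p ^ d 0 * (Polynomial.X ^ d 1 * q ^ d 1)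
        = (Polynomial.X : Polynomial ℂ) ^ (d 0 + d 1) * (p ^ d 0 * q ^ d 1) := by
      rw [pow_add]; ring
    rw [this]
    exact Dvd.dvd.mul_right (pow_dvd_pow _ (by omega)) _

theorem ordS_hom (p q : Polynomial ℂ) {k : ℕ} {H : MvPolynomial (Fin 2) ℂ}
    (hH : ∀ d : Fin 2 →₀ ℕ, d 0 + d 1 ≠ k → coeff d H = 0) :
    aeval ![Polynomial.X * p, Polynomial.X * q] H
      = (Polynomial.X : Polynomial ℂ) ^ k * aeval ![p, q] H := by
  rw [ordS_aeval, ordS_aeval, Finset.mul_sum]
  refine Finset.sum_congr rfl fun d hd => ?_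
  have h : d 0 + d 1 = k := by
    by_contra h
    exact mem_support_iff.mp hd (hH d h)
  rw [mul_pow, mul_pow, ← h, pow_add]
  ring

theorem ordS_comp {A : Type} [CommRing A] [Algebra ℂ A] (p q : A) (r s : MvPolynomial (Fin 2) ℂ)
    (G : MvPolynomial (Fin 2) ℂ) :
    aeval ![p, q] (aeval ![r, s] G) = aeval ![aeval ![p, q] r, aeval ![p, q] s] G := by
  have h := comp_aeval (R := ℂ) ![r, s] (aeval ![p, q] : MvPolynomial (Fin 2) ℂ →ₐ[ℂ] A)
  have h2 := DFunLike.congr_fun h G
  rw [AlgHom.comp_apply] at h2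
  rw [h2]
  congr 2
  funext i
  fin_cases i <;> rfl

theorem ordS_deg (d : Fin 2 →₀ ℕ) : d = Finsupp.single 0 (d 0) + Finsupp.single 1 (d 1) := by
  ext i
  fin_cases i <;> simp

theorem ordS_fin2 (d : Fin 2 →₀ ℕ) : d.degree = d 0 + d 1 := by
  rw [Finsupp.degree_eq_sum, Fin.sum_univ_two]

theorem ord_sym {m : ℕ} {a b : ℂ} (hab : a ≠ b) {G : MvPolynomial (Fin 2) ℂ}
    (hG : Ord m a b (MvPolynomial.aeval ![(X 0 + X 1 : MvPolynomial (Fin 2) ℂ), X 0 * X 1] G)) :
    Ord m (a + b) (a * b) G := by
  set S : MvPolynomial (Fin 2) ℂ := MvPolynomial.aeval ![(X 0 + C a : MvPolynomial (Fin 2) ℂ),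
    X 1 + C b] (MvPolynomial.aeval ![(X 0 + X 1 : MvPolynomial (Fin 2) ℂ), X 0 * X 1] G) with hS
  set G' : MvPolynomial (Fin 2) ℂ := MvPolynomial.aeval
    ![(X 0 + C (a + b) : MvPolynomial (Fin 2) ℂ), X 1 + C (a * b)] G with hG'
  have hS0 : ∀ d : Fin 2 →₀ ℕ, d 0 + d 1 < m → coeff d S = 0 := by
    intro d hd
    have := hG (d 0) (d 1) hd
    unfold tc at this
    rw [← ordS_deg d] at this
    exact this
  -- the key equation
  have key : ∀ u v : ℂ, aeval ![Polynomial.X * Polynomial.C u, Polynomial.X * Polynomial.C v] S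
      = aeval ![Polynomial.X * Polynomial.C (u + v), Polynomial.X *
        (Polynomial.C (b * u + a * v) + Polynomial.C (u * v) * Polynomial.X)] G' := by
    intro u v
    rw [hS, hG', ordS_comp, ordS_comp, ordS_comp]
    congr 2
    funext i
    fin_cases i
    · simp
      ring
    · simp
      ring
  have main : ∀ k : ℕ, k < m → ∀ d : Fin 2 →₀ ℕ, d 0 + d 1 = k → coeff d G' = 0 := by
    intro k
    induction k using Nat.strong_induction_on with
    | _ k ih =>
      intro hk
      set H := homogeneousComponent k G' with hH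
      have hHc : ∀ d : Fin 2 →₀ ℕ, d 0 + d 1 ≠ k → coeff d H = 0 := by
        intro d hd
        rw [hH, coeff_homogeneousComponent, ordS_fin2, if_neg hd]
      have hHc' : ∀ d : Fin 2 →₀ ℕ, d 0 + d 1 = k → coeff d H = coeff d G' := by
        intro d hd
        rw [hH, coeff_homogeneousComponent, ordS_fin2, if_pos hd]
      have hR : ∀ d : Fin 2 →₀ ℕ, d 0 + d 1 < k + 1 → coeff d (G' - H) = 0 := by
        intro d hd
        rw [coeff_sub]
        by_cases h : d 0 + d 1 = k
        · rw [hHc' d h, sub_self]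
        · rw [hHc d h, sub_zero]
          exact ih (d 0 + d 1) (by omega) (by omega) d rfl
      have hev : ∀ u v : ℂ, eval ![u + v, b * u + a * v] H = 0 := by
        intro u v
        set x : Polynomial ℂ := Polynomial.C (u + v) with hx
        set y : Polynomial ℂ := Polynomial.C (b * u + a * v) +
          Polynomial.C (u * v) * Polynomial.X with hy
        have h1 : (Polynomial.X : Polynomial ℂ) ^ (k + 1) ∣
            aeval ![Polynomial.X * x, Polynomial.X * y] G' := by
          rw [← key]
          exact (pow_dvd_pow _ (by omega)).trans (ordS_dvd _ _ hS0)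
        have h2 := ordS_dvd x y hR
        rw [map_sub] at h2
        have h3 : (Polynomial.X : Polynomial ℂ) ^ (k + 1) ∣
            aeval ![Polynomial.X * x, Polynomial.X * y] H := by
          have := dvd_sub h1 h2
          rwa [sub_sub_cancel] at this
        rw [ordS_hom x y hHc, pow_succ] at h3
        have h4 : (Polynomial.X : Polynomial ℂ) ∣ aeval ![x, y] H :=
          (mul_dvd_mul_iff_left (pow_ne_zero k Polynomial.X_ne_zero)).mp h3
        rw [Polynomial.X_dvd_iff, Polynomial.coeff_zero_eq_eval_zero] at h4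
        have h5 : Polynomial.eval 0 (aeval ![x, y] H) = eval ![u + v, b * u + a * v] H := by
          rw [ordS_aeval, Polynomial.eval_finsetSum, eval_eq']
          refine Finset.sum_congr rfl fun d _ => ?_
          rw [Fin.prod_univ_two]
          simp [hx, hy]
        rw [← h5]; exact h4
      have hH0 : H = 0 := by
        refine MvPolynomial.funext fun w => ?_
        have hab' : a - b ≠ 0 := sub_ne_zero.mpr hab
        have h6 := hev (w 0 - (w 1 - b * w 0) / (a - b)) ((w 1 - b * w 0) / (a - b))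
        have h7 : (![w 0 - (w 1 - b * w 0) / (a - b) + (w 1 - b * w 0) / (a - b),
            b * (w 0 - (w 1 - b * w 0) / (a - b)) + a * ((w 1 - b * w 0) / (a - b))]
              : Fin 2 → ℂ) = w := by
          funext i
          fin_cases i
          · simp
          · simp
            field_simp
            ring
        rw [h7] at h6
        rw [h6, map_zero]
      intro d hd
      rw [← hHc' d hd, hH0, coeff_zero]
  intro j l hjl
  unfold tc
  rw [← hG']
  refine main (j + l) hjl _ ?_
  simp

end Pool.Agent.TH291.C2
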