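import Pool.Agent.TH291.C2.Scale
import Pool.Agent.TH291.C2.Chase
import Pool.Agent.TH291.C2.Norm
import Pool.Agent.TH291.C2.OrdM
import Pool.Agent.TH291.C2.OrdS
import Pool.Agent.TH291.C2.Nag2

/-! The property: no sections of `n (F₁ + F₂) - b Δ`. -/

set_option autoImplicit false
set_option maxSynthPendingDepth 4

namespace Pool.Agent.TH291.C2

open scoped TensorProduct
open MvPolynomial

variable {g : ℕ} {α β : Fin g → ℂ}

theorem degreeOf_sub_pow (i : Fin 2) (b : ℕ) :
    ((X 0 - X 1 : MvPolynomial (Fin 2) ℂ) ^ b).degreeOf i = b := by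
  have h1 : (X 0 - X 1 : MvPolynomial (Fin 2) ℂ).degreeOf i = 1 := by
    apply le_antisymm
    · refine (MvPolynomial.degreeOf_sub_le _ _ _).trans ?_
      simp only [MvPolynomial.degreeOf_X]
      split_ifs <;> simp
    · rw [Nat.one_le_iff_ne_zero, ← Nat.pos_iff_ne_zero]
      have h2 : (Finsupp.single i 1) ∈ (X 0 - X 1 : MvPolynomial (Fin 2) ℂ).support := by
        rw [MvPolynomial.mem_support_iff, MvPolynomial.coeff_sub, MvPolynomial.coeff_X, MvPolynomial.coeff_X]
        fin_cases i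
        · simp [Finsupp.single_left_inj]
        · simp [Finsupp.single_left_inj]
      have h3 := MvPolynomial.monomial_le_degreeOf i h2
      simp at h3
      omega
  have hne : (X 0 - X 1 : MvPolynomial (Fin 2) ℂ) ≠ 0 := by
    intro h; rw [h] at h1; simp at h1
  induction b with
  | zero => simp
  | succ b ih =>
    rw [pow_succ, MvPolynomial.degreeOf_mul_eq (pow_ne_zero _ hne) hne, ih, h1]

theorem sub_ne_zero' : (X 0 - X 1 : MvPolynomial (Fin 2) ℂ) ≠ 0 := by
  intro h
  have := degreeOf_sub_pow 0 1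
  rw [pow_one, h] at this
  simp at this

/-- the plane curve part -/
theorem plane_bound (hg : 10 ≤ g) (hd : Dist α β) (hgen : Gen α β) {n b : ℕ}
    (hb : 0 < b) {q : MvPolynomial (Fin 2) ℂ} (hq : q ≠ 0) (hdeg : ∀ i, q.degreeOf i ≤ n)
    (hdiag : (X 0 - X 1) ^ b ∣ q) (h1 : ∀ i, Ord b (α i) (β i) q) (h2 : ∀ i, Ord b (β i) (α i) q) :
    (b : ℝ) * Real.sqrt g < (n : ℝ) - b := by
  obtain ⟨r, rfl⟩ := hdiag
  have hr : r ≠ 0 := right_ne_zero_of_mul hq
  have hab : ∀ i, α i ≠ β i := fun i => hd.2.2 i i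
  have hdeg' : ∀ i, b + r.degreeOf i ≤ n := by
    intro i
    have := hdeg i
    rwa [MvPolynomial.degreeOf_mul_eq (pow_ne_zero _ sub_ne_zero') hr, degreeOf_sub_pow] at this
  have hbn : b ≤ n := le_trans (Nat.le_add_right _ _) (hdeg' 0)
  have hr1 : ∀ i, Ord b (α i) (β i) r := fun i => ord_div (hab i) (h1 i)
  have hr2 : ∀ i, Ord b (β i) (α i) r := fun i => ord_div (hab i).symm (h2 i)
  obtain ⟨G, hG0, hGd, hG⟩ := norm_sym (D := n - b) r hr (fun i => by have := hdeg' i; omega)
  have hord : ∀ i, Ord (b + b) (α i + β i) (α i * β i) G := by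
    intro i
    apply ord_sym (hab i)
    rw [hG]
    exact ord_mul (hr1 i) (ord_swap (hr2 i))
  have hnag := nag_plane_all hg hgen (d := 2 * (n - b) + 1) (m := b + b) (by omega) hG0 (by omega) hord
  rcases Nat.eq_or_lt_of_le hbn with h | h
  · -- `n = b`: `G` is a nonzero constant
    exfalso
    subst h
    have h3 : G.totalDegree = 0 := by omega
    rw [MvPolynomial.totalDegree_eq_zero_iff_eq_C] at h3
    have h4 := hord ⟨0, by omega⟩ 0 0 (by omega)
    rw [h3] at h4
    unfold tc at h4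
    simp at h4
    apply hG0
    rw [h3, h4, map_zero]
  · have hnag := nag_plane_all hg hgen (d := 2 * (n - b)) (m := b + b) (by omega) hG0 hGd hord
    have hg0 : (0 : ℝ) < Real.sqrt g := Real.sqrt_pos.2 (by exact_mod_cast (by omega : 0 < g))
    have hgs : (g : ℝ) = Real.sqrt g * Real.sqrt g := (Real.mul_self_sqrt (by positivity)).symm
    have hc : ((2 * (n - b) : ℕ) : ℝ) = 2 * ((n : ℝ) - b) := by
      rw [Nat.cast_mul, Nat.cast_sub hbn]; norm_num
    rw [hc] at hnag
    push_cast at hnag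
    have h5 : Real.sqrt g * (2 * (b * Real.sqrt g)) < Real.sqrt g * (2 * ((n : ℝ) - b)) := by
      calc Real.sqrt g * (2 * (b * Real.sqrt g)) = (Real.sqrt g * Real.sqrt g) * (b + b) := by ring
        _ = g * (b + b) := by rw [← hgs]
        _ < 2 * ((n : ℝ) - b) * Real.sqrt g := hnag
        _ = _ := by ring
    have h6 := lt_of_mul_lt_mul_left h5 hg0.le
    linarith

/-- no sections, `n ≥ 2 g - 1` -/
theorem noSections_large (hg : 10 ≤ g) (hd : Dist α β) (hgen : Gen α β) {n b : ℕ}
    (hn : 2 * g ≤ n + 1) (hb : 0 < b) {f : Alg α β ⊗[K] Alg α β} (hf : f ≠ 0)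
    (hV : f ∈ LinearMap.range (TensorProduct.map (V α β n).subtype (V α β n).subtype))
    (hI : f ∈ (KaehlerDifferential.ideal K (Alg α β)) ^ b) :
    (b : ℝ) * Real.sqrt g < (n : ℝ) - b := by
  obtain ⟨c, N, u, e, r, p, hcf, hu, he, hr, hp, hrd, hpd, hq⟩ := scale hd hn hf hV
  have hcI : (∑ k, u k ⊗ₜ[K] e k) ∈ (KaehlerDifferential.ideal K (Alg α β)) ^ b := by
    rw [← hcf, Algebra.smul_def]
    exact Ideal.mul_mem_left _ _ hI
  have key : ∀ {x y : ℂ}, Node α β x y → ∃ G : B, Cone 0 G ∧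
      TT (some x) (∑ k, u k ⊗ₜ[K] e k) = zz ^ b * G := by
    intro x y hn
    obtain ⟨M, G, hG, h⟩ := exists_dvd hn b _ hcI
    refine ⟨G, cone_of_zz (b := b) hG ?_, h⟩
    rw [← h]
    exact link_cone hn hu he
  have hord : ∀ {x y : ℂ}, Node α β x y → Ord b y x (qq r p) := by
    intro x y hn j l hjl
    obtain ⟨G, hG, h⟩ := key hn
    rw [← link_face hn hu he hr hp, h]
    exact face_zero hG j l (by exact_mod_cast hjl)
  refine plane_bound hg hd hgen hb hq (degreeOf_qq_le hrd hpd) ?_ (fun i => hord (node_snd i))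
    (fun i => hord (node_fst i))
  obtain ⟨G, hG, h⟩ := key (node_fst (α := α) (β := β) ⟨0, by omega⟩)
  refine diag_dvd hG (α ⟨0, by omega⟩) (qq r p) ?_
  intro j l
  rw [← h]
  exact link_diag _ hu he hr hp j l

/-- the expansion of a nonzero element is not nilpotent -/
theorem pow_ne_zero_tensor (hg : 0 < g) (hd : Dist α β) {n : ℕ} (hn : 2 * g ≤ n + 1)
    {f : Alg α β ⊗[K] Alg α β} (hf : f ≠ 0)
    (hV : f ∈ LinearMap.range (TensorProduct.map (V α β n).subtype (V α β n).subtype)) (k : ℕ) :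
    f ^ k ≠ 0 := by
  obtain ⟨c, N, u, e, r, p, hcf, hu, he, hr, hp, hrd, hpd, hq⟩ := scale hd hn hf hV
  have h1 : TT (some (α ⟨0, hg⟩)) f ≠ 0 := by
    intro h0
    apply hq
    have h2 : TT (some (α ⟨0, hg⟩)) (∑ k, u k ⊗ₜ[K] e k) = 0 := by
      rw [← hcf, map_smul, h0, smul_zero]
    have h3 : ∀ j l : ℕ, tc (α ⟨0, hg⟩) (α ⟨0, hg⟩) (qq r p) j l = 0 := by
      intro j l
      rw [link_diag _ hu he hr hp j l, h2, coB_zero]
    have h4 : MvPolynomial.aeval ![(X 0 + MvPolynomial.C (α ⟨0, hg⟩) : MvPolynomial (Fin 2) ℂ),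
        X 1 + MvPolynomial.C (α ⟨0, hg⟩)] (qq r p) = 0 := by
      ext s
      rw [MvPolynomial.coeff_zero]
      have h5 : s = Finsupp.single 0 (s 0) + Finsupp.single 1 (s 1) := by
        ext i
        fin_cases i <;> simp
      rw [h5]
      exact h3 (s 0) (s 1)
    have h6 : qq r p = MvPolynomial.aeval ![(X 0 - MvPolynomial.C (α ⟨0, hg⟩) : MvPolynomial (Fin 2) ℂ),
        X 1 - MvPolynomial.C (α ⟨0, hg⟩)] (MvPolynomial.aeval ![(X 0 + MvPolynomial.C (α ⟨0, hg⟩) : MvPolynomial (Fin 2) ℂ),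
        X 1 + MvPolynomial.C (α ⟨0, hg⟩)] (qq r p)) := by
      have h7 : (MvPolynomial.aeval ![(X 0 - MvPolynomial.C (α ⟨0, hg⟩) : MvPolynomial (Fin 2) ℂ),
        X 1 - MvPolynomial.C (α ⟨0, hg⟩)]).comp (MvPolynomial.aeval ![(X 0 + MvPolynomial.C (α ⟨0, hg⟩) : MvPolynomial (Fin 2) ℂ),
        X 1 + MvPolynomial.C (α ⟨0, hg⟩)]) = AlgHom.id ℂ (MvPolynomial (Fin 2) ℂ) := by
        apply MvPolynomial.algHom_ext
        intro i
        fin_cases i
        · simp [MvPolynomial.algebraMap_eq]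
        · simp [MvPolynomial.algebraMap_eq]
      exact (DFunLike.congr_fun h7 (qq r p)).symm
    rw [h6, h4, map_zero]
  intro h
  have h2 := congrArg (TT (some (α ⟨0, hg⟩))) h
  rw [map_pow, map_zero] at h2
  exact pow_ne_zero k h1 h2

theorem range_mono {m n : ℕ} (h : m ≤ n) :
    LinearMap.range (TensorProduct.map (V α β m).subtype (V α β m).subtype)
      ≤ LinearMap.range (TensorProduct.map (V α β n).subtype (V α β n).subtype) := by
  rintro _ ⟨x, rfl⟩
  induction x using TensorProduct.induction_on with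
  | zero => simp
  | tmul a b => exact ⟨⟨a.1, V_mono h a.2⟩ ⊗ₜ ⟨b.1, V_mono h b.2⟩, rfl⟩
  | add x y hx hy => rw [map_add]; exact Submodule.add_mem _ hx hy

theorem range_mul {m n : ℕ} {f h : Alg α β ⊗[K] Alg α β}
    (hf : f ∈ LinearMap.range (TensorProduct.map (V α β m).subtype (V α β m).subtype))
    (hh : h ∈ LinearMap.range (TensorProduct.map (V α β n).subtype (V α β n).subtype)) :
    f * h ∈ LinearMap.range (TensorProduct.map (V α β (m + n)).subtype (V α β (m + n)).subtype) := by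
  obtain ⟨x, rfl⟩ := hf
  obtain ⟨y, rfl⟩ := hh
  induction x using TensorProduct.induction_on with
  | zero => simp
  | add x x' hx hx' => rw [map_add, add_mul]; exact Submodule.add_mem _ hx hx'
  | tmul a b =>
    induction y using TensorProduct.induction_on with
    | zero => simp
    | add y y' hy hy' => rw [map_add, mul_add]; exact Submodule.add_mem _ hy hy'
    | tmul c d =>
      refine ⟨⟨a.1 * c.1, V_mul a.2 c.2⟩ ⊗ₜ ⟨b.1 * d.1, V_mul b.2 d.2⟩, ?_⟩
      rw [TensorProduct.map_tmul, TensorProduct.map_tmul, TensorProduct.map_tmul,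
        Algebra.TensorProduct.tmul_mul_tmul]
      rfl

theorem range_pow {n : ℕ} {f : Alg α β ⊗[K] Alg α β}
    (hf : f ∈ LinearMap.range (TensorProduct.map (V α β n).subtype (V α β n).subtype)) (k : ℕ) :
    f ^ k ∈ LinearMap.range (TensorProduct.map (V α β (k * n)).subtype (V α β (k * n)).subtype) := by
  induction k with
  | zero =>
    rw [pow_zero]
    refine ⟨⟨1, ?_⟩ ⊗ₜ ⟨1, ?_⟩, rfl⟩
    · have := pole_algebraMap 1
      rw [map_one] at this
      rw [zero_mul]
      exact this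
    · have := pole_algebraMap 1
      rw [map_one] at this
      rw [zero_mul]
      exact this
  | succ k ih =>
    rw [pow_succ, Nat.succ_mul]
    exact range_mul ih hf

/-- **no sections** on the glued curve -/
theorem noSections (hg : 10 ≤ g) (hd : Dist α β) (hgen : Gen α β) :
    NoSections K (Alg α β) (V α β) g := by
  intro n b f hb hf hV hI
  -- pass to a high power
  have hV' : f ∈ LinearMap.range (TensorProduct.map (V α β (n + 2 * g)).subtype (V α β (n + 2 * g)).subtype) :=
    range_mono (Nat.le_add_right _ _) hV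
  have hpow : ∀ k : ℕ, 0 < k → ((k * b : ℕ) : ℝ) * Real.sqrt g < ((k * n + 2 * g : ℕ) : ℝ) - (k * b : ℕ) := by
    intro k hk
    refine noSections_large hg hd hgen (n := k * n + 2 * g) (b := k * b) (by omega)
      (Nat.mul_pos hk hb) (pow_ne_zero_tensor (by omega) hd (by omega) hf hV' k) ?_ ?_
    · exact range_mono (Nat.le_add_right _ _) (range_pow hV k)
    · have := Ideal.pow_mem_pow hI k
      rwa [← pow_mul, mul_comm b k] at this
  -- non strict inequality
  have hle : (b : ℝ) * Real.sqrt g ≤ (n : ℝ) - b := by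
    by_contra hcon
    push Not at hcon
    set D := (b : ℝ) * Real.sqrt g - ((n : ℝ) - b) with hD
    have hDpos : 0 < D := by linarith
    obtain ⟨k, hk⟩ := exists_nat_gt ((2 * g : ℝ) / D)
    have hk0 : 0 < k := by
      by_contra h0
      have h0' : k = 0 := by omega
      rw [h0'] at hk
      have : (0 : ℝ) ≤ (2 * g : ℝ) / D := by positivity
      simp at hk
      linarith
    have h1 := hpow k hk0
    rw [div_lt_iff₀ hDpos] at hk
    push_cast at h1
    rw [hD] at hk
    nlinarith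
  have hsg : (0 : ℝ) < (b : ℝ) * Real.sqrt g := by
    have h1 : (0 : ℝ) < Real.sqrt g := Real.sqrt_pos.2 (by exact_mod_cast (by omega : 0 < g))
    have h2 : (0 : ℝ) < b := by exact_mod_cast hb
    positivity
  have hn0 : 0 < n := by
    rcases Nat.eq_zero_or_pos n with h | h
    · subst h
      have h3 : (0 : ℝ) ≤ b := Nat.cast_nonneg b
      push_cast at hle
      linarith
    · exact h
  -- a multiple `k n ≥ 2 g - 1` gives the strict inequality
  have hk0 : 0 < 2 * g := by omega
  have hkn : 2 * g ≤ 2 * g * n + 1 := by nlinarith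
  have h4 := noSections_large hg hd hgen (n := 2 * g * n) (b := 2 * g * b) hkn
      (Nat.mul_pos hk0 hb) (pow_ne_zero_tensor (by omega) hd (by omega) hf hV' (2 * g))
      (range_pow hV (2 * g)) (by
        have := Ideal.pow_mem_pow hI (2 * g)
        rwa [← pow_mul, mul_comm b (2 * g)] at this)
  have hk0' : (0 : ℝ) < 2 * g := by exact_mod_cast hk0
  push_cast at h4
  have h5 : 2 * (g : ℝ) * ((b : ℝ) * Real.sqrt g) < 2 * (g : ℝ) * ((n : ℝ) - b) := by
    calc 2 * (g : ℝ) * ((b : ℝ) * Real.sqrt g) = 2 * g * b * Real.sqrt g := by ring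
      _ < 2 * g * n - 2 * g * b := h4
      _ = _ := by ring
  exact lt_of_mul_lt_mul_left h5 hk0'.le

end Pool.Agent.TH291.C2
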