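import Pool.Agent.TH291.C2.Defs2
import Pool.Agent.TH603.EL.Fin

/-! Nagata's inequality for a plane curve in affine coordinates. -/

set_option autoImplicit false
set_option maxSynthPendingDepth 4

namespace Pool.Agent.TH291.C2

open MvPolynomial

/-- homogenization -/
noncomputable def nagHom (d : ℕ) (G : MvPolynomial (Fin 2) ℂ) : MvPolynomial (Fin 3) ℂ :=
  ∑ s ∈ G.support, C (coeff s G) * (X 0 ^ (d - (s 0 + s 1)) * X 1 ^ (s 0) * X 2 ^ (s 1))

/-- the same with two linear forms -/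
noncomputable def nagLin (d : ℕ) (a b : ℂ) (G : MvPolynomial (Fin 2) ℂ) :
    MvPolynomial (Fin 3) ℂ :=
  ∑ s ∈ G.support, C (coeff s G) *
    (X 0 ^ (d - (s 0 + s 1)) * (X 1 - C a * X 0) ^ (s 0) * (X 2 - C b * X 0) ^ (s 1))

theorem nag_supp_le {d : ℕ} {G : MvPolynomial (Fin 2) ℂ} (hdeg : G.totalDegree ≤ d)
    {s : Fin 2 →₀ ℕ} (hs : s ∈ G.support) : s 0 + s 1 ≤ d := by
  have h1 := le_totalDegree hs
  have h2 : (s.sum fun _ e => e) = s 0 + s 1 := by
    rw [Finsupp.sum_fintype _ _ (fun _ => rfl), Fin.sum_univ_two]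
  rw [h2] at h1
  exact h1.trans hdeg

theorem nagHom_isHomogeneous {d : ℕ} {G : MvPolynomial (Fin 2) ℂ} (hdeg : G.totalDegree ≤ d) :
    (nagHom d G).IsHomogeneous d := by
  unfold nagHom
  apply IsHomogeneous.sum
  intro s hs
  have h1 := nag_supp_le hdeg hs
  have h2 := (isHomogeneous_C (Fin 3) (coeff s G)).mul
    (((isHomogeneous_X_pow (R := ℂ) (0 : Fin 3) (d - (s 0 + s 1))).mul
      (isHomogeneous_X_pow (R := ℂ) (1 : Fin 3) (s 0))).mul
      (isHomogeneous_X_pow (R := ℂ) (2 : Fin 3) (s 1)))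
  have h3 : 0 + (d - (s 0 + s 1) + s 0 + s 1) = d := by omega
  rw [h3] at h2
  exact h2

theorem nagHom_ne {d : ℕ} {G : MvPolynomial (Fin 2) ℂ} (hG : G ≠ 0) : nagHom d G ≠ 0 := by
  intro h
  apply hG
  have h1 : aeval (![1, X 0, X 1] : Fin 3 → MvPolynomial (Fin 2) ℂ) (nagHom d G) = G := by
    unfold nagHom
    rw [map_sum]
    have h2 : ∀ s ∈ G.support, aeval (![1, X 0, X 1] : Fin 3 → MvPolynomial (Fin 2) ℂ)
        (C (coeff s G) * (X 0 ^ (d - (s 0 + s 1)) * X 1 ^ (s 0) * X 2 ^ (s 1))) =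
        monomial s (coeff s G) := by
      intro s _
      rw [map_mul, map_mul, map_mul, map_pow, map_pow, map_pow, aeval_X, aeval_X, aeval_X,
        ← algebraMap_eq, AlgHom.commutes, algebraMap_eq]
      rw [monomial_eq, Finsupp.prod_fintype _ _ (fun _ => pow_zero _), Fin.prod_univ_two]
      simp
    rw [Finset.sum_congr rfl h2, support_sum_monomial_coeff]
  rw [← h1, h, map_zero]

theorem nag_eval {d : ℕ} {P : MvPolynomial (Fin 2) ℂ} (hdeg : P.totalDegree ≤ d) (x u v : ℂ) :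
    ∑ s ∈ P.support, coeff s P * (x ^ (d - (s 0 + s 1)) * (x * u) ^ (s 0) * (x * v) ^ (s 1)) =
      x ^ d * eval ![u, v] P := by
  rw [eval_eq', Finset.mul_sum]
  apply Finset.sum_congr rfl
  intro s hs
  have h1 := nag_supp_le hdeg hs
  obtain ⟨e, he⟩ : ∃ e, d = e + (s 0 + s 1) := ⟨d - (s 0 + s 1), by omega⟩
  rw [Fin.prod_univ_two, he, Nat.add_sub_cancel]
  simp only [Matrix.cons_val_zero, Matrix.cons_val_one]
  ring

/-- the translated polynomial -/
noncomputable def nagTr (a b : ℂ) (G : MvPolynomial (Fin 2) ℂ) : MvPolynomial (Fin 2) ℂ :=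
  aeval ![(X 0 + C a : MvPolynomial (Fin 2) ℂ), X 1 + C b] G

theorem nagTr_deg {d : ℕ} (a b : ℂ) {G : MvPolynomial (Fin 2) ℂ} (hdeg : G.totalDegree ≤ d) :
    (nagTr a b G).totalDegree ≤ d := by
  have h0 : nagTr a b G = ∑ s ∈ G.support, C (coeff s G) *
      ((X 0 + C a) ^ (s 0) * (X 1 + C b) ^ (s 1)) := by
    unfold nagTr
    rw [aeval_eq_eval₂Hom, coe_eval₂Hom, eval₂_eq']
    apply Finset.sum_congr rfl
    intro s _
    rw [Fin.prod_univ_two]
    rfl
  rw [h0]
  apply totalDegree_finsetSum_le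
  intro s hs
  have h1 := nag_supp_le hdeg hs
  have hx : ∀ (i : Fin 2) (c : ℂ), (X i + C c : MvPolynomial (Fin 2) ℂ).totalDegree ≤ 1 := by
    intro i c
    refine (totalDegree_add _ _).trans ?_
    rw [totalDegree_X, totalDegree_C]
    simp
  calc (C (coeff s G) * ((X 0 + C a) ^ (s 0) * (X 1 + C b) ^ (s 1)) :
        MvPolynomial (Fin 2) ℂ).totalDegree
      ≤ (C (coeff s G) : MvPolynomial (Fin 2) ℂ).totalDegree +
        (((X 0 + C a) ^ (s 0) * (X 1 + C b) ^ (s 1) : MvPolynomial (Fin 2) ℂ)).totalDegree :=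
        totalDegree_mul _ _
    _ ≤ 0 + (((X 0 + C a) ^ (s 0) : MvPolynomial (Fin 2) ℂ).totalDegree +
        ((X 1 + C b) ^ (s 1) : MvPolynomial (Fin 2) ℂ).totalDegree) := by
        rw [totalDegree_C]
        exact Nat.add_le_add_left (totalDegree_mul _ _) _
    _ ≤ 0 + (s 0 * 1 + s 1 * 1) := by
        apply Nat.add_le_add_left
        apply Nat.add_le_add
        · exact (totalDegree_pow _ _).trans (Nat.mul_le_mul_left _ (hx 0 a))
        · exact (totalDegree_pow _ _).trans (Nat.mul_le_mul_left _ (hx 1 b))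
    _ ≤ d := by omega

theorem nagTr_eval (a b u v : ℂ) (G : MvPolynomial (Fin 2) ℂ) :
    eval ![u - a, v - b] (nagTr a b G) = eval ![u, v] G := by
  unfold nagTr
  rw [aeval_eq_eval₂Hom, coe_eval₂Hom, eval₂_eq', map_sum, eval_eq']
  apply Finset.sum_congr rfl
  intro s _
  rw [Fin.prod_univ_two, Fin.prod_univ_two, map_mul, map_mul, map_pow, map_pow, algebraMap_eq,
    eval_C]
  simp

theorem nagHom_eq {d : ℕ} (a b : ℂ) {G : MvPolynomial (Fin 2) ℂ} (hdeg : G.totalDegree ≤ d) :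
    nagHom d G = nagLin d a b (nagTr a b G) := by
  have hX : (X 0 : MvPolynomial (Fin 3) ℂ) ≠ 0 := X_ne_zero 0
  apply mul_left_cancel₀ hX
  apply MvPolynomial.funext
  intro x
  rw [map_mul, map_mul, eval_X]
  by_cases h0 : x 0 = 0
  · rw [h0, zero_mul, zero_mul]
  · have h1 := nag_eval hdeg (x 0) (x 1 / x 0) (x 2 / x 0)
    have h2 := nag_eval (nagTr_deg a b hdeg) (x 0) (x 1 / x 0 - a) (x 2 / x 0 - b)
    rw [nagTr_eval, ← h1] at h2
    have e1 : x 0 * (x 1 / x 0) = x 1 := by field_simp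
    have e2 : x 0 * (x 2 / x 0) = x 2 := by field_simp
    have e3 : x 0 * (x 1 / x 0 - a) = x 1 - a * x 0 := by rw [mul_sub, e1]; ring
    have e4 : x 0 * (x 2 / x 0 - b) = x 2 - b * x 0 := by rw [mul_sub, e2]; ring
    rw [e1, e2, e3, e4] at h2
    have h3 : eval x (nagHom d G) = eval x (nagLin d a b (nagTr a b G)) := by
      unfold nagHom nagLin
      rw [map_sum, map_sum]
      simp only [map_mul, map_pow, map_sub, eval_X, eval_C]
      exact h2.symm
    rw [h3]

/-- the coefficients of a product with a form of degree `k` -/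
theorem nag_low {k : ℕ} {P : MvPolynomial (Fin 3) ℂ} (hP : P.IsHomogeneous k)
    (Q : MvPolynomial (Fin 3) ℂ) {t : Fin 3 →₀ ℕ} (ht : ∑ j, t j < k) : coeff t (Q * P) = 0 := by
  classical
  rw [coeff_mul]
  apply Finset.sum_eq_zero
  rintro ⟨p, q⟩ hpq
  rw [Finset.HasAntidiagonal.mem_antidiagonal] at hpq
  have h1 : q.degree ≠ k := by
    rw [Finsupp.degree_eq_sum]
    have h2 : ∑ j, q j ≤ ∑ j, t j := by
      apply Finset.sum_le_sum
      intro j _
      rw [← hpq]
      simp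
    omega
  rw [hP.coeff_eq_zero h1, mul_zero]

/-- the translation of the origin to `(1, a, b)` -/
noncomputable def nagSh (a b : ℂ) : MvPolynomial (Fin 3) ℂ →ₐ[ℂ] MvPolynomial (Fin 3) ℂ :=
  aeval (fun j : Fin 3 => (X j + C ((![1, a, b] : Fin 3 → ℂ) j) : MvPolynomial (Fin 3) ℂ))

theorem nagSh_C (a b c : ℂ) : nagSh a b (C c) = C c := by
  unfold nagSh
  rw [aeval_C, algebraMap_eq]

theorem nagSh_X (a b : ℂ) (j : Fin 3) : nagSh a b (X j) = X j + C ((![1, a, b] : Fin 3 → ℂ) j) := by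
  unfold nagSh
  rw [aeval_X]

theorem nagSh_0 (a b : ℂ) : nagSh a b (X 0) = X 0 + C 1 := nagSh_X a b 0

theorem nagSh_1 (a b : ℂ) : nagSh a b (X 1) = X 1 + C a := nagSh_X a b 1

theorem nagSh_2 (a b : ℂ) : nagSh a b (X 2) = X 2 + C b := nagSh_X a b 2

theorem nagLin_low {d m : ℕ} (a b : ℂ) {G : MvPolynomial (Fin 2) ℂ} (h : Ord m a b G)
    {t : Fin 3 →₀ ℕ} (ht : ∑ j, t j < m) :
    coeff t (nagSh a b (nagLin d a b (nagTr a b G))) = 0 := by
  unfold nagLin
  rw [map_sum, coeff_sum]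
  apply Finset.sum_eq_zero
  intro s _
  by_cases hs : s 0 + s 1 < m
  · have h1 : coeff s (nagTr a b G) = 0 := by
      have h2 := h (s 0) (s 1) hs
      unfold tc at h2
      have h3 : Finsupp.single 0 (s 0) + Finsupp.single 1 (s 1) = s := by
        ext i
        fin_cases i <;> simp
      rw [h3] at h2
      exact h2
    rw [h1, C_0, zero_mul, map_zero, coeff_zero]
  · push Not at hs
    have hlin : ∀ (i : Fin 3) (c : ℂ),
        (X i - C c * X 0 : MvPolynomial (Fin 3) ℂ).IsHomogeneous 1 := by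
      intro i c
      have h2 : (C c * X 0 : MvPolynomial (Fin 3) ℂ).IsHomogeneous (0 + 1) :=
        (isHomogeneous_C (Fin 3) c).mul (isHomogeneous_X ℂ 0)
      rw [zero_add] at h2
      exact (isHomogeneous_X ℂ i).sub h2
    have h4 : ((X 1 - C a * X 0) ^ (s 0) * (X 2 - C b * X 0) ^ (s 1) :
        MvPolynomial (Fin 3) ℂ).IsHomogeneous (s 0 + s 1) := by
      have h5 := ((hlin 1 a).pow (s 0)).mul ((hlin 2 b).pow (s 1))
      rw [one_mul, one_mul] at h5
      exact h5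
    have e1 : (X 1 + C a - C a * (X 0 + C 1) : MvPolynomial (Fin 3) ℂ) = X 1 - C a * X 0 := by
      rw [C_1]
      ring
    have e2 : (X 2 + C b - C b * (X 0 + C 1) : MvPolynomial (Fin 3) ℂ) = X 2 - C b * X 0 := by
      rw [C_1]
      ring
    have h6 : nagSh a b (C (coeff s (nagTr a b G)) *
        (X 0 ^ (d - (s 0 + s 1)) * (X 1 - C a * X 0) ^ (s 0) * (X 2 - C b * X 0) ^ (s 1))) =
        (C (coeff s (nagTr a b G)) * (X 0 + C 1) ^ (d - (s 0 + s 1))) *
        ((X 1 - C a * X 0) ^ (s 0) * (X 2 - C b * X 0) ^ (s 1)) := by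
      rw [map_mul, map_mul, map_mul, map_pow, map_pow, map_pow, map_sub, map_sub, map_mul, map_mul,
        nagSh_C, nagSh_C, nagSh_C, nagSh_0, nagSh_1, nagSh_2, e1, e2]
      ring
    rw [h6]
    exact nag_low h4 _ (by omega)

variable {g : ℕ} {α β : Fin g → ℂ}

theorem nag_plane (hg : 10 ≤ g) (hsq : ¬ IsSquare g) (hgen : Gen α β) {d m : ℕ} (hd : 0 < d)
    {G : MvPolynomial (Fin 2) ℂ} (hG : G ≠ 0) (hdeg : G.totalDegree ≤ d)
    (h : ∀ i, Ord m (α i + β i) (α i * β i) G) : (g : ℝ) * m < d * Real.sqrt g := by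
  have key := Pool.Agent.TH603.EL.nagata_all (n := g) (by omega) hsq
    (v := fun i => ![1, α i + β i, α i * β i]) (fun i => one_ne_zero) (by
      have h1 : (fun q : Fin g × Fin 2 =>
          (fun i : Fin g => (![1, α i + β i, α i * β i] : Fin 3 → ℂ)) q.1 q.2.succ /
          (fun i : Fin g => (![1, α i + β i, α i * β i] : Fin 3 → ℂ)) q.1 0) =
          (fun q : Fin g × Fin 2 => (![α q.1 + β q.1, α q.1 * β q.1] : Fin 2 → ℂ) q.2) := by
        funext q
        simp
      rw [h1]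
      exact hgen)
    (d := d) (m := fun _ => m) (F := nagHom d G) (nagHom_ne hG) hd
    (nagHom_isHomogeneous hdeg) (by
      intro i t ht
      rw [nagHom_eq (α i + β i) (α i * β i) hdeg]
      exact nagLin_low _ _ (h i) ht)
  rw [Finset.sum_const, Finset.card_univ, Fintype.card_fin, nsmul_eq_mul] at key
  exact key

end Pool.Agent.TH291.C2
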