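import Pool.Agent.TH291.C2.Link
import Pool.Agent.TH291.C2.Lift
import Pool.Agent.TH291.C2.Lead
import Pool.Agent.TH291.C2.Dim1
import Pool.Agent.TH291.C2.Dim2

/-! A basis of `V n` with independent reductions; scaling of elements of `V n ⊗ V n`. -/

set_option autoImplicit false
set_option maxSynthPendingDepth 4

namespace Pool.Agent.TH291.C2

open scoped TensorProduct
open MvPolynomial

variable {g : ℕ} {α β : Fin g → ℂ}

/-- inclusion of polynomials into rational functions, linear over `ℂ` -/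
noncomputable def pr : Polynomial ℂ →ₗ[ℂ] RatFunc ℂ := (Algebra.linearMap (Polynomial ℂ) (RatFunc ℂ)).restrictScalars ℂ

theorem pr_apply (p : Polynomial ℂ) : pr p = algebraMap (Polynomial ℂ) (RatFunc ℂ) p := rfl

theorem pr_inj : Function.Injective pr := IsFractionRing.injective (Polynomial ℂ) (RatFunc ℂ)

theorem mem_W0 {n : ℕ} {p : Polynomial ℂ} :
    p ∈ W0 α β n ↔ p.natDegree ≤ n ∧ ∀ i, p.eval (α i) = p.eval (β i) := by
  change (p ∈ Polynomial.degreeLE ℂ n ∧ _) ↔ _
  rw [Polynomial.mem_degreeLE, Polynomial.natDegree_le_iff_degree_le]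

/-- `V n` as a submodule of `F` -/
noncomputable def VF {g : ℕ} (α β : Fin g → ℂ) (n : ℕ) : Submodule K F :=
  (V α β n).map (Alg α β).val.toLinearMap

theorem finrank_V_le {n : ℕ} [Module.Finite ℂ (W0 α β n)] :
    Module.Finite K (V α β n) ∧ Module.finrank K (V α β n) ≤ Module.finrank ℂ (W0 α β n) := by
  have hfin : FiniteDimensional ℂ ((W0 α β n).map pr) := inferInstance
  obtain ⟨h1, h2⟩ := finrank_le (VF α β n) ((W0 α β n).map pr) (by
    rintro f ⟨f', hf', rfl⟩ h0
    obtain ⟨p, hp1, hp2, hp3, hp4⟩ := lead_poly (f := f'.1) h0 f'.2.1 f'.2.2.1 hf'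
    exact ⟨p, mem_W0.2 ⟨hp3, hp4⟩, hp1.symm⟩)
  have he : (V α β n) ≃ₗ[K] (VF α β n) :=
    Submodule.equivMapOfInjective _ (Subtype.val_injective) _
  have h3 : Module.finrank ℂ ((W0 α β n).map pr) = Module.finrank ℂ (W0 α β n) :=
    (LinearEquiv.finrank_eq (Submodule.equivMapOfInjective pr pr_inj (W0 α β n))).symm
  refine ⟨Module.Finite.equiv he.symm, ?_⟩
  rw [he.finrank_eq, ← h3]
  exact h2

theorem exists_basis (hd : Dist α β) {n : ℕ} (hn : 2 * g ≤ n + 1) :
    ∃ (p : Fin (n + 1 - g) → Polynomial ℂ) (e : Module.Basis (Fin (n + 1 - g)) K (V α β n)),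
      LinearIndependent ℂ p ∧ (∀ k, p k ∈ W0 α β n) ∧
      (∀ k, ∀ γ : ℚ, γ < 0 → (e k).1.1.coeff γ = 0) ∧
      ∀ k, (e k).1.1.coeff 0 = algebraMap (Polynomial ℂ) (RatFunc ℂ) (p k) := by
  obtain ⟨hfin, hrank⟩ := finrank_W0 hd hn
  obtain ⟨hV1, hV2⟩ := finrank_V_le (α := α) (β := β) (n := n)
  rw [hrank] at hV2
  let b : Module.Basis (Fin (n + 1 - g)) ℂ (W0 α β n) := Module.finBasisOfFinrankEq ℂ _ hrank
  have hb : LinearIndependent ℂ (fun k => (b k : Polynomial ℂ)) := by
    have := b.linearIndependent.map' (W0 α β n).subtype (Submodule.ker_subtype _)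
    exact this
  have hbm : ∀ k, (b k : Polynomial ℂ).natDegree ≤ n ∧ ∀ i, (b k : Polynomial ℂ).eval (α i) = (b k : Polynomial ℂ).eval (β i) :=
    fun k => mem_W0.1 (b k).2
  choose e' he1 he2 he3 he4 he5 using fun k => exists_lift hd hn (b k : Polynomial ℂ) (hbm k).1 (hbm k).2
  have hlin : LinearIndependent K e' := by
    refine linIndep_of_coeff e' he5 ?_
    have h1 : (fun k => (e' k).coeff 0) = pr ∘ (fun k => (b k : Polynomial ℂ)) := by
      funext k; exact he4 k
    rw [h1]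
    exact hb.map' pr (LinearMap.ker_eq_bot.2 pr_inj)
  let e : Fin (n + 1 - g) → V α β n := fun k => ⟨⟨e' k, he1 k, he2 k, n, he3 k⟩, he3 k⟩
  have hlin' : LinearIndependent K e := by
    have h1 : e' = ((Alg α β).val.toLinearMap.comp (V α β n).subtype) ∘ e := rfl
    rw [h1] at hlin
    exact LinearIndependent.of_comp _ hlin
  have hcard : Fintype.card (Fin (n + 1 - g)) = Module.finrank K (V α β n) := by
    rw [Fintype.card_fin]
    refine le_antisymm ?_ hV2
    simpa using hlin'.fintype_card_le_finrank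
  refine ⟨fun k => (b k : Polynomial ℂ), basisOfLinearIndependentOfCardEqFinrank' e hlin' hcard, hb,
    fun k => (b k).2, ?_, ?_⟩
  · intro k γ hγ
    rw [coe_basisOfLinearIndependentOfCardEqFinrank']
    exact he5 k γ hγ
  · intro k
    rw [coe_basisOfLinearIndependentOfCardEqFinrank']
    exact he4 k

theorem finrank_V (hd : Dist α β) {n : ℕ} (hn : 2 * g ≤ n + 1) : Module.finrank K (V α β n) = n + 1 - g := by
  obtain ⟨p, e, -⟩ := exists_basis hd hn
  rw [Module.finrank_eq_card_basis e, Fintype.card_fin]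

theorem finite_V (hd : Dist α β) (n : ℕ) : Module.Finite K (V α β n) := by
  have h : Module.Finite ℂ (W0 α β n) := by
    obtain ⟨hfin, -⟩ := finrank_W0 hd (n := max n (2 * g)) (by omega)
    have hle : W0 α β n ≤ W0 α β (max n (2 * g)) := by
      intro p hp
      rw [mem_W0] at hp ⊢
      exact ⟨hp.1.trans (le_max_left _ _), hp.2⟩
    exact Submodule.finiteDimensional_of_le hle
  exact finrank_V_le.1

theorem tensor_repr {n N : ℕ} (e : Module.Basis (Fin N) K (V α β n))
    (x : V α β n ⊗[K] V α β n) : ∃ v : Fin N → V α β n, x = ∑ k, v k ⊗ₜ[K] e k := by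
  induction x using TensorProduct.induction_on with
  | zero => exact ⟨0, by simp⟩
  | tmul a b =>
    refine ⟨fun k => e.repr b k • a, ?_⟩
    conv_lhs => rw [← e.sum_repr b]
    rw [TensorProduct.tmul_sum]
    refine Finset.sum_congr rfl fun k _ => ?_
    rw [TensorProduct.tmul_smul, TensorProduct.smul_tmul']
  | add x y hx hy =>
    obtain ⟨v, rfl⟩ := hx
    obtain ⟨w, rfl⟩ := hy
    exact ⟨v + w, by simp [TensorProduct.add_tmul, Finset.sum_add_distrib]⟩

theorem aeval_X_coeff_zero (c : ℂ) (i : Fin 2) (p : Polynomial ℂ) :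
    MvPolynomial.aeval (Function.update (fun j => Polynomial.C (0 : ℂ)) i Polynomial.X)
      (Polynomial.aeval (X i : MvPolynomial (Fin 2) ℂ) p) = p := by
  rw [← Polynomial.aeval_algHom_apply, MvPolynomial.aeval_X]
  simp

theorem qq_ne_zero {N : ℕ} {r p : Fin N → Polynomial ℂ} (hp : LinearIndependent ℂ p) {k : Fin N}
    (hk : r k ≠ 0) : qq r p ≠ 0 := by
  intro h0
  obtain ⟨a, ha⟩ : ∃ a : ℂ, (r k).eval a ≠ 0 := by
    by_contra hcon
    push Not at hcon
    exact hk (Polynomial.funext (by simpa using hcon))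
  have h1 : MvPolynomial.aeval ![(Polynomial.C a : Polynomial ℂ), Polynomial.X] (qq r p) = 0 := by
    rw [h0, map_zero]
  unfold qq at h1
  rw [map_sum] at h1
  have h2 : ∀ j, MvPolynomial.aeval ![(Polynomial.C a : Polynomial ℂ), Polynomial.X]
      (Polynomial.aeval (X 0 : MvPolynomial (Fin 2) ℂ) (r j) *
        Polynomial.aeval (X 1 : MvPolynomial (Fin 2) ℂ) (p j)) = (r j).eval a • p j := by
    intro j
    rw [map_mul, ← Polynomial.aeval_algHom_apply, ← Polynomial.aeval_algHom_apply]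
    simp only [MvPolynomial.aeval_X, Matrix.cons_val_zero, Matrix.cons_val_one, Polynomial.aeval_X_left_apply]
    rw [Polynomial.smul_eq_C_mul]
    congr 1
    have : Polynomial.aeval (Polynomial.C a : Polynomial ℂ) (r j) = Polynomial.C ((r j).eval a) := by
      rw [← Polynomial.algebraMap_eq, Polynomial.aeval_algebraMap_apply]
      simp
    exact this
  simp only [h2] at h1
  exact ha (Fintype.linearIndependent_iff.1 hp (fun j => (r j).eval a) h1 k)

theorem degreeOf_aeval_le (i j : Fin 2) {p : Polynomial ℂ} {n : ℕ} (hp : p.natDegree ≤ n) :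
    (Polynomial.aeval (X i : MvPolynomial (Fin 2) ℂ) p).degreeOf j ≤ if i = j then n else 0 := by
  rw [Polynomial.aeval_eq_sum_range]
  refine (MvPolynomial.degreeOf_sum_le _ _ _).trans ?_
  refine Finset.sup_le fun k hk => ?_
  rw [MvPolynomial.smul_eq_C_mul]
  refine (MvPolynomial.degreeOf_C_mul_le _ _ _).trans ?_
  refine (MvPolynomial.degreeOf_pow_le _ _ _).trans ?_
  rw [MvPolynomial.degreeOf_X]
  rw [Finset.mem_range] at hk
  split_ifs with h1 h2 h3
  · omega
  · exact absurd h1.symm h2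
  · exact absurd h3.symm h1
  · omega

theorem degreeOf_qq_le {N n : ℕ} {r p : Fin N → Polynomial ℂ} (hr : ∀ k, (r k).natDegree ≤ n)
    (hp : ∀ k, (p k).natDegree ≤ n) (i : Fin 2) : (qq r p).degreeOf i ≤ n := by
  unfold qq
  refine (MvPolynomial.degreeOf_sum_le _ _ _).trans ?_
  refine Finset.sup_le fun k _ => ?_
  refine (MvPolynomial.degreeOf_mul_le _ _ _).trans ?_
  have h1 := degreeOf_aeval_le 0 i (hr k)
  have h2 := degreeOf_aeval_le 1 i (hp k)
  fin_cases i
  · simp at h1 h2 ⊢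
    omega
  · simp at h1 h2 ⊢
    omega

theorem algebraMap_single (δ : ℚ) : algebraMap K F (HahnSeries.single δ (1 : ℂ)) = HahnSeries.single δ (1 : RatFunc ℂ) := by
  ext1; funext γ
  rw [algebraMap_coeff]
  by_cases h : γ = δ
  · subst h; rw [HahnSeries.coeff_single_same, HahnSeries.coeff_single_same, map_one]
  · rw [HahnSeries.coeff_single_of_ne h, HahnSeries.coeff_single_of_ne h, map_zero]

theorem smul_single_coeff (δ : ℚ) (f : Alg α β) (γ : ℚ) :
    ((HahnSeries.single (-δ) (1 : ℂ) : K) • f).1.coeff γ = f.1.coeff (γ + δ) := by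
  have h : ((HahnSeries.single (-δ) (1 : ℂ) : K) • f).1 = HahnSeries.single (-δ) (1 : RatFunc ℂ) * f.1 := by
    rw [← algebraMap_single, ← Algebra.smul_def]; rfl
  rw [h]
  have := HahnSeries.coeff_single_mul_add (r := (1 : RatFunc ℂ)) (x := f.1) (a := γ + δ) (b := -δ)
  rw [one_mul] at this
  rw [← this]
  congr 1
  ring

/-- scaling an element of `V n ⊗ V n` -/
theorem scale (hd : Dist α β) {n : ℕ} (hn : 2 * g ≤ n + 1) {f : Alg α β ⊗[K] Alg α β} (hf : f ≠ 0)
    (hV : f ∈ LinearMap.range (TensorProduct.map (V α β n).subtype (V α β n).subtype)) :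
    ∃ (c : K) (N : ℕ) (u e : Fin N → Alg α β) (r p : Fin N → Polynomial ℂ),
      c • f = ∑ k, u k ⊗ₜ[K] e k ∧
      (∀ k, ∀ γ : ℚ, γ < 0 → (u k).1.coeff γ = 0) ∧ (∀ k, ∀ γ : ℚ, γ < 0 → (e k).1.coeff γ = 0) ∧
      (∀ k, (u k).1.coeff 0 = algebraMap (Polynomial ℂ) (RatFunc ℂ) (r k)) ∧
      (∀ k, (e k).1.coeff 0 = algebraMap (Polynomial ℂ) (RatFunc ℂ) (p k)) ∧
      (∀ k, (r k).natDegree ≤ n) ∧ (∀ k, (p k).natDegree ≤ n) ∧ qq r p ≠ 0 := by
  obtain ⟨p, e, hp, hpm, he, hp0⟩ := exists_basis hd hn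
  obtain ⟨x, rfl⟩ := hV
  obtain ⟨v, rfl⟩ := tensor_repr e x
  have hv : ∃ k, v k ≠ 0 := by
    by_contra hcon
    push Not at hcon
    apply hf
    simp [hcon]
  -- the smallest order
  obtain ⟨k0, hk0, hmin⟩ : ∃ k0, v k0 ≠ 0 ∧ ∀ k, v k ≠ 0 → (v k0).1.1.order ≤ (v k).1.1.order := by
    classical
    obtain ⟨k1, hk1⟩ := hv
    obtain ⟨k0, h1, h2⟩ := Finset.exists_min_image (Finset.univ.filter fun k => v k ≠ 0)
      (fun k => (v k).1.1.order) ⟨k1, by simp [hk1]⟩
    refine ⟨k0, by simpa using h1, fun k hk => h2 k (by simp [hk])⟩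
  set δ := (v k0).1.1.order with hδ
  let c : K := HahnSeries.single (-δ) (1 : ℂ)
  have hu : ∀ k, ∀ γ : ℚ, γ < 0 → (c • (v k).1).1.coeff γ = 0 := by
    intro k γ hγ
    rw [smul_single_coeff]
    by_cases hk : v k = 0
    · rw [hk]; simp
    · exact HahnSeries.coeff_eq_zero_of_lt_order (by have := hmin k hk; linarith)
  have hc0 : ∀ k, ∃ r : Polynomial ℂ, (c • (v k).1).1.coeff 0 = algebraMap (Polynomial ℂ) (RatFunc ℂ) r ∧
      r.natDegree ≤ n := by
    intro k
    by_cases h0 : (c • (v k).1).1.coeff 0 = 0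
    · exact ⟨0, by rw [h0, map_zero], by simp⟩
    · have hne : (c • (v k).1).1 ≠ 0 := by
        intro h; apply h0; rw [h]; simp
      have hmem : c • (v k).1 ∈ V α β n := Submodule.smul_mem _ _ (v k).2
      obtain ⟨q, hq1, hq2, hq3, hq4⟩ := lead_poly hne (c • (v k).1).2.1 (c • (v k).1).2.2.1 hmem
      have hord : (c • (v k).1).1.order = 0 := by
        refine le_antisymm (HahnSeries.order_le_of_coeff_ne_zero h0) ?_
        by_contra hlt
        push Not at hlt
        have h3 := hu k _ hlt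
        rw [hq1] at h3
        exact hq2 ((map_eq_zero_iff _ (IsFractionRing.injective (Polynomial ℂ) (RatFunc ℂ))).1 h3)
      rw [hord] at hq1
      exact ⟨q, hq1, hq3⟩
  choose r hr1 hr2 using hc0
  refine ⟨c, n + 1 - g, fun k => c • (v k).1, fun k => (e k).1, r, p, ?_, hu, he, hr1, hp0, hr2,
    fun k => (mem_W0.1 (hpm k)).1, ?_⟩
  · rw [map_sum, Finset.smul_sum]
    refine Finset.sum_congr rfl fun k _ => ?_
    rw [TensorProduct.map_tmul, TensorProduct.smul_tmul']
    rfl
  · refine qq_ne_zero hp (k := k0) ?_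
    intro h0
    have h1 := hr1 k0
    rw [h0, map_zero, smul_single_coeff, zero_add] at h1
    have h2 : (v k0).1.1 ≠ 0 := by
      intro h
      apply hk0
      exact Subtype.ext (Subtype.ext h)
    exact h2 (HahnSeries.coeff_order_eq_zero.1 h1)

end Pool.Agent.TH291.C2
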