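import Pool.Agent.TH291.C2.Alg

/-! The two-variable expansion of elements of `Alg ⊗ Alg`, and powers of the ideal of the diagonal. -/

set_option autoImplicit false
set_option maxSynthPendingDepth 4

namespace Pool.Agent.TH291.C2

open scoped TensorProduct

variable {g : ℕ} {α β : Fin g → ℂ}

theorem coeff_C' {Γ R : Type} [PartialOrder Γ] [AddCommMonoid Γ] [IsOrderedCancelAddMonoid Γ]
    [DecidableEq Γ] [NonAssocSemiring R] (a : R) (l : Γ) :
    (HahnSeries.C a : HahnSeries Γ R).coeff l = if l = 0 then a else 0 := by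
  rw [HahnSeries.C_apply]
  split_ifs with h
  · subst h; exact HahnSeries.coeff_single_same _ _
  · exact HahnSeries.coeff_single_of_ne h

theorem ex_const (P : Option ℂ) (a : ℂ) :
    ex P (algebraMap ℂ (RatFunc ℂ) a) = HahnSeries.C a := by
  have h : algebraMap ℂ (RatFunc ℂ) a
      = algebraMap (Polynomial ℂ) (RatFunc ℂ) (Polynomial.C a) := by
    rw [IsScalarTower.algebraMap_apply ℂ (Polynomial ℂ) (RatFunc ℂ)]; rfl
  rw [h]
  unfold ex
  rw [IsFractionRing.lift_algebraMap]
  simp

theorem ι₁_algebraMap (P : Option ℂ) (c : K) : ι₁ P (algebraMap K F c) = algebraMap K B c := by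
  ext1; funext γ
  change HahnSeries.C (ex P (algebraMap ℂ (RatFunc ℂ) (c.coeff γ))) = cLL (c.coeff γ)
  rw [ex_const]; rfl

theorem ι₂_algebraMap (P : Option ℂ) (c : K) : ι₂ P (algebraMap K F c) = algebraMap K B c := by
  ext1; funext γ
  change mapH (HahnSeries.C : ℂ →+* LaurentSeries ℂ) (ex P (algebraMap ℂ (RatFunc ℂ) (c.coeff γ)))
    = cLL (c.coeff γ)
  rw [ex_const]
  ext1; funext l
  rw [mapH_coeff]
  change HahnSeries.C ((HahnSeries.C (c.coeff γ) : LaurentSeries ℂ).coeff l) =
    (HahnSeries.C (HahnSeries.C (c.coeff γ) : LaurentSeries ℂ) : LL).coeff l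
  rw [coeff_C', coeff_C']
  split_ifs <;> simp

/-- `ι₁` as a homomorphism of `K`-algebras on `Alg` -/
noncomputable def j₁ (P : Option ℂ) : Alg α β →ₐ[K] B where
  toRingHom := (ι₁ P).comp (Alg α β).val.toRingHom
  commutes' c := ι₁_algebraMap P c

/-- `ι₂` as a homomorphism of `K`-algebras on `Alg` -/
noncomputable def j₂ (P : Option ℂ) : Alg α β →ₐ[K] B where
  toRingHom := (ι₂ P).comp (Alg α β).val.toRingHom
  commutes' c := ι₂_algebraMap P c

theorem j₁_apply (P : Option ℂ) (f : Alg α β) : j₁ P f = ι₁ P f.1 := rfl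

theorem j₂_apply (P : Option ℂ) (f : Alg α β) : j₂ P f = ι₂ P f.1 := rfl

/-- the two-variable expansion at `(P, P)` -/
noncomputable def TT (P : Option ℂ) : (Alg α β ⊗[K] Alg α β) →ₐ[K] B :=
  Algebra.TensorProduct.lift (j₁ P) (j₂ P) (fun _ _ => Commute.all _ _)

theorem TT_tmul (P : Option ℂ) (f h : Alg α β) : TT P (f ⊗ₜ[K] h) = ι₁ P f.1 * ι₂ P h.1 := by
  unfold TT
  rw [Algebra.TensorProduct.lift_tmul]
  rfl

theorem coB_add (G H : B) (m l : ℤ) (γ : ℚ) : coB (G + H) m l γ = coB G m l γ + coB H m l γ := by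
  simp [coB]

theorem coB_zero (m l : ℤ) (γ : ℚ) : coB 0 m l γ = 0 := by
  simp [coB]

theorem coB_sum {ι : Type} (s : Finset ι) (G : ι → B) (m l : ℤ) (γ : ℚ) :
    coB (∑ i ∈ s, G i) m l γ = ∑ i ∈ s, coB (G i) m l γ := by
  classical
  induction s using Finset.induction_on with
  | empty => simp [coB_zero]
  | insert a s ha ih => rw [Finset.sum_insert ha, Finset.sum_insert ha, coB_add, ih]

theorem Cone.mono {M M' : ℚ} (h : M ≤ M') {G : B} (hG : Cone M G) : Cone M' G := fun m l γ h0 => by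
  obtain ⟨h1, h2, h3⟩ := hG m l γ h0
  exact ⟨by linarith, by linarith, by linarith⟩

theorem Cone.add {M M' : ℚ} {G G' : B} (hG : Cone M G) (hG' : Cone M' G') : Cone (max M M') (G + G') := by
  intro m l γ h0
  rw [coB_add] at h0
  by_cases h1 : coB G m l γ = 0
  · have h2 : coB G' m l γ ≠ 0 := by rw [h1, zero_add] at h0; exact h0
    exact hG'.mono (le_max_right _ _) m l γ h2
  · exact hG.mono (le_max_left _ _) m l γ h1

theorem cone_zero (M : ℚ) : Cone M 0 := fun m l γ h => absurd (coB_zero m l γ) h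

theorem coB_ι₁ (P : Option ℂ) (f : F) (m l : ℤ) (γ : ℚ) :
    coB (ι₁ P f) m l γ = if l = 0 then co P f m γ else 0 := by
  change ((HahnSeries.C (ex P (f.coeff γ)) : LL).coeff l).coeff m = _
  rw [coeff_C']
  split_ifs
  · rfl
  · simp

theorem coB_ι₂ (P : Option ℂ) (f : F) (m l : ℤ) (γ : ℚ) :
    coB (ι₂ P f) m l γ = if m = 0 then co P f l γ else 0 := by
  change (HahnSeries.C ((ex P (f.coeff γ)).coeff l) : LaurentSeries ℂ).coeff m = _
  rw [coeff_C']
  split_ifs
  · rfl
  · simp

/-- lower bounds for the exponents of the expansion of `f` at `P` -/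
def Bdd (P : Option ℂ) (M : ℚ) (f : F) : Prop :=
  ∀ (m : ℤ) (γ : ℚ), co P f m γ ≠ 0 → -M ≤ γ ∧ -M ≤ γ + m

theorem cone_ι₁ {P : Option ℂ} {M : ℚ} {f : F} (h : Bdd P M f) : Cone M (ι₁ P f) := by
  intro m l γ h0
  rw [coB_ι₁] at h0
  split_ifs at h0 with hl
  · obtain ⟨h1, h2⟩ := h m γ h0
    subst hl
    exact ⟨h1, h2, by simpa using h1⟩
  · exact absurd rfl h0

theorem cone_ι₂ {P : Option ℂ} {M : ℚ} {f : F} (h : Bdd P M f) : Cone M (ι₂ P f) := by
  intro m l γ h0
  rw [coB_ι₂] at h0
  split_ifs at h0 with hl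
  · obtain ⟨h1, h2⟩ := h l γ h0
    subst hl
    exact ⟨h1, by simpa using h1, h2⟩
  · exact absurd rfl h0

/-- the pair of points of a node, in one of the two orders -/
def Node (α β : Fin g → ℂ) (a b : ℂ) : Prop :=
  ∀ f : F, Glue α β f → ∀ (m : ℤ) (γ : ℚ), co (some a) f m γ = co (some b) f (-m) (γ + m)

theorem node_fst (i : Fin g) : Node α β (α i) (β i) := fun _ hf m γ => hf i m γ

theorem node_snd (i : Fin g) : Node α β (β i) (α i) := fun f hf m γ => by
  have := hf i (-m) (γ + m)
  rw [this]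
  congr 1
  · ring
  · push_cast; ring

theorem co_of_lt_order (P : Option ℂ) {f : F} {m : ℤ} {γ : ℚ} (h : γ < f.order) : co P f m γ = 0 := by
  unfold co
  rw [HahnSeries.coeff_eq_zero_of_lt_order h]
  simp

theorem bdd_of_order {a b : ℂ} (hn : Node α β a b) {f : F} (hf : Glue α β f) {M : ℚ} (hM : -M ≤ f.order) :
    Bdd (some a) M f := by
  intro m γ h0
  constructor
  · by_contra hlt
    exact h0 (co_of_lt_order _ (by linarith))
  · rw [hn f hf] at h0
    by_contra hlt
    exact h0 (co_of_lt_order _ (by linarith))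

theorem exists_cone {a b : ℂ} (hn : Node α β a b) (x : Alg α β ⊗[K] Alg α β) :
    ∃ M : ℚ, Cone M (TT (some a) x) := by
  induction x using TensorProduct.induction_on with
  | zero => exact ⟨0, by rw [map_zero]; exact cone_zero 0⟩
  | tmul f h =>
    refine ⟨-f.1.order + -h.1.order, ?_⟩
    rw [TT_tmul]
    exact cone_mul (cone_ι₁ (bdd_of_order hn f.2.2.1 (by simp)))
      (cone_ι₂ (bdd_of_order hn h.2.2.1 (by simp)))
  | add x y hx hy =>
    obtain ⟨M, hM⟩ := hx
    obtain ⟨M', hM'⟩ := hy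
    exact ⟨max M M', by rw [map_add]; exact hM.add hM'⟩

/-- elements of the `b`-th power of the ideal of the diagonal are divisible by `(z₁ - z₂) ^ b` -/
theorem exists_dvd {a b : ℂ} (hn : Node α β a b) (n : ℕ) (x : Alg α β ⊗[K] Alg α β)
    (hx : x ∈ (KaehlerDifferential.ideal K (Alg α β)) ^ n) :
    ∃ (M : ℚ) (G : B), Cone M G ∧ TT (some a) x = zz ^ n * G := by
  induction n generalizing x with
  | zero =>
    obtain ⟨M, hM⟩ := exists_cone hn x
    exact ⟨M, _, hM, by rw [pow_zero, one_mul]⟩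
  | succ n ih =>
    have h1 : ∀ y ∈ KaehlerDifferential.ideal K (Alg α β),
        ∃ (M : ℚ) (G : B), Cone M G ∧ TT (some a) y = zz * G := by
      intro y hy
      rw [← KaehlerDifferential.span_range_eq_ideal] at hy
      induction hy using Submodule.span_induction with
      | mem y hy =>
        obtain ⟨s, rfl⟩ := hy
        obtain ⟨G, hG, hG'⟩ := ι_diff (some a) s.1 (-s.1.order)
          (bdd_of_order hn s.2.2.1 (by simp))
        refine ⟨-s.1.order, -G, ?_, ?_⟩
        · intro m l γ h0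
          apply hG m l γ
          intro h
          apply h0
          have : coB (-G) m l γ = - coB G m l γ := by simp [coB]
          rw [this, h, neg_zero]
        · rw [map_sub, TT_tmul, TT_tmul, mul_neg, ← hG']
          simp
      | zero => exact ⟨0, 0, cone_zero 0, by simp⟩
      | add y z _ _ h h' =>
        obtain ⟨M, G, hG, hy⟩ := h
        obtain ⟨M', G', hG', hz⟩ := h'
        exact ⟨max M M', G + G', hG.add hG', by rw [map_add, hy, hz, mul_add]⟩
      | smul r y _ h =>
        obtain ⟨M, G, hG, hy⟩ := h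
        obtain ⟨M', hM'⟩ := exists_cone hn r
        refine ⟨M' + M, TT (some a) r * G, cone_mul hM' hG, ?_⟩
        rw [smul_eq_mul, map_mul, hy]
        ring
    rw [pow_succ] at hx
    induction hx using Submodule.mul_induction_on' with
    | mem_mul_mem x hx y hy =>
      obtain ⟨M, G, hG, h⟩ := ih x hx
      obtain ⟨M', G', hG', h'⟩ := h1 y hy
      refine ⟨M + M', G * G', cone_mul hG hG', ?_⟩
      rw [map_mul, h, h', pow_succ]
      ring
    | add x _ y _ h h' =>
      obtain ⟨M, G, hG, hy⟩ := h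
      obtain ⟨M', G', hG', hz⟩ := h'
      exact ⟨max M M', G + G', hG.add hG', by rw [map_add, hy, hz, mul_add]⟩

end Pool.Agent.TH291.C2
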